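import Pool.Agent.Lib.MP_8382de_an.ET.SMe

/-!
# ET.ARm: the measure `A`

With `x = πw`, `c = m+1+e` (`m ≥ 1`, `0 < e ≤ m+1`):
`1 - (1/4) sinh(cx)/(sinh(mx) cosh x cosh(ex))`
 `= (1/2) sinh((m-e)x)/(sinh(mx) cosh(ex)) + (1/4) sinh((m-1+e)x)/(sinh(mx) cosh x cosh(ex))`
 `= (1/2) sinh((m-1)x)/(sinh(mx) cosh x) + (1/4) sinh((m+1-e)x)/(sinh(mx) cosh x cosh(ex))`.
Proof of both: multiply by `4 sinh(mx) cosh x cosh(ex)`; by `sinh_add, sinh_sub, cosh_add` in terms of
`s = sinh(mx), C = cosh(mx), s1, c1, se, ce` (use `sinh(cx) = sinh(mx + (x + ex))` etc.) both sides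
agree (`linear_combination` with `c1² - s1² = 1`, `ce² - se² = 1`; all three numerators equal
`sinh((m-1-e)x) + sinh((m+1-e)x) + sinh((m-1+e)x)`).
If `e ≤ 1` use the first form (`0 ≤ m-e`, `0 ≤ m-1+e ≤ m`), if `e ≥ 1` the second
(`0 ≤ m-1`, `0 ≤ m+1-e ≤ m`). Each term is a product of charFuns: `sinh(px)/sinh(mx)` from `S_meas`,
`1/cosh(rx) = 2 sinh(rx)/sinh(2rx)` from `S_meas` with `p = r, q = 2r`; products: `charFun_conv`
(`Measure.conv`), sums and scalars: `charFun` is additive (`integral_add_measure`,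
`integral_smul_measure`).
-/

set_option autoImplicit false

namespace Pool.Agent.Lib.MP_8382de_an.ET

open MeasureTheory Set



/-- `f` is (off `0`) the characteristic function of a finite measure -/
private def CF (f : ℝ → ℝ) : Prop :=
  ∃ A : Measure ℝ, IsFiniteMeasure A ∧ ∀ w : ℝ, w ≠ 0 → charFun A w = ((f w : ℝ) : ℂ)

private theorem cf_add {f g : ℝ → ℝ} (hf : CF f) (hg : CF g) : CF fun w => f w + g w := by
  obtain ⟨A, hA, h1⟩ := hf
  obtain ⟨B, hB, h2⟩ := hg
  refine ⟨A + B, inferInstance, fun w hw => ?_⟩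
  have hint : ∀ (M : Measure ℝ) [IsFiniteMeasure M],
      Integrable (fun x : ℝ => Complex.exp ((w : ℂ) * (x : ℂ) * Complex.I)) M := by
    intro M _
    refine Integrable.of_bound (C := 1) (by fun_prop) ?_
    filter_upwards with x
    rw [← Complex.ofReal_mul, Complex.norm_exp_ofReal_mul_I]
  have e : charFun (A + B) w = charFun A w + charFun B w := by
    simp only [charFun_apply_real]
    exact integral_add_measure (hint A) (hint B)
  rw [e, h1 w hw, h2 w hw]
  push_cast
  ring

private theorem cf_mul {f g : ℝ → ℝ} (hf : CF f) (hg : CF g) : CF fun w => f w * g w := by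
  obtain ⟨A, hA, h1⟩ := hf
  obtain ⟨B, hB, h2⟩ := hg
  refine ⟨A.conv B, inferInstance, fun w hw => ?_⟩
  rw [charFun_conv, h1 w hw, h2 w hw]
  push_cast
  ring

private theorem cf_smul {f : ℝ → ℝ} (hf : CF f) (c : ℝ) (hc : 0 ≤ c) : CF fun w => c * f w := by
  obtain ⟨A, hA, h1⟩ := hf
  refine ⟨c.toNNReal • A, inferInstance, fun w hw => ?_⟩
  have e : charFun (c.toNNReal • A) w = (c : ℂ) * charFun A w := by
    simp only [charFun_apply_real]
    rw [integral_smul_nnreal_measure, NNReal.smul_def, Real.coe_toNNReal c hc, Complex.real_smul]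
  rw [e, h1 w hw]
  push_cast
  ring

private theorem cf_congr {f g : ℝ → ℝ} (hf : CF f) (h : ∀ w : ℝ, w ≠ 0 → f w = g w) : CF g := by
  obtain ⟨A, hA, h1⟩ := hf
  exact ⟨A, hA, fun w hw => by rw [h1 w hw, h w hw]⟩

private theorem cf_sech {r : ℝ} (hr : 0 < r) : CF fun w => 1 / Real.cosh (Real.pi * r * w) := by
  have h := cf_smul (S_meas (p := r) (q := 2 * r) hr.le (by linarith) (by linarith)) 2 (by norm_num)
  refine cf_congr h fun w hw => ?_
  have e1 : Real.pi * (2 * r) * w = 2 * (Real.pi * r * w) := by ring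
  rw [e1, Real.sinh_two_mul]
  have hs : Real.sinh (Real.pi * r * w) ≠ 0 := by
    rw [Ne, Real.sinh_eq_zero]
    positivity
  have hc : Real.cosh (Real.pi * r * w) ≠ 0 := (Real.cosh_pos _).ne'
  field_simp

theorem A_meas {m e : ℝ} (hm : 1 ≤ m) (he : 0 < e) (hem : e ≤ m + 1) :
    ∃ A : Measure ℝ, IsFiniteMeasure A ∧ ∀ w : ℝ, w ≠ 0 →
      charFun A w = ((1 - 1 / 4 * (Real.sinh (Real.pi * (m + 1 + e) * w) /
        (Real.sinh (Real.pi * m * w) * Real.cosh (Real.pi * w) *
          Real.cosh (Real.pi * e * w))) : ℝ) : ℂ) := by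
  have hm0 : 0 < m := by linarith
  show CF _
  have hc1 : CF fun w => 1 / Real.cosh (Real.pi * 1 * w) := cf_sech one_pos
  have hce : CF fun w => 1 / Real.cosh (Real.pi * e * w) := cf_sech he
  rcases le_total e 1 with h | h
  · have t1 : CF fun w => Real.sinh (Real.pi * (m - e) * w) / Real.sinh (Real.pi * m * w) :=
      S_meas (by linarith) (by linarith) hm0
    have t2 : CF fun w => Real.sinh (Real.pi * (m - 1 + e) * w) / Real.sinh (Real.pi * m * w) :=
      S_meas (by linarith) (by linarith) hm0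
    refine cf_congr (cf_add (cf_smul (cf_mul t1 hce) (1 / 2) (by norm_num))
      (cf_smul (cf_mul (cf_mul t2 hc1) hce) (1 / 4) (by norm_num))) fun w hw => ?_
    have hS : Real.sinh (Real.pi * m * w) ≠ 0 := by
      rw [Ne, Real.sinh_eq_zero]
      positivity
    have hC1 : Real.cosh (Real.pi * w) ≠ 0 := (Real.cosh_pos _).ne'
    have hCe : Real.cosh (Real.pi * e * w) ≠ 0 := (Real.cosh_pos _).ne'
    have e1 : Real.pi * (m - e) * w = Real.pi * m * w - Real.pi * e * w := by ring
    have e2 : Real.pi * (m - 1 + e) * w = Real.pi * m * w - Real.pi * w + Real.pi * e * w := by ring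
    have e3 : Real.pi * (m + 1 + e) * w = Real.pi * m * w + Real.pi * w + Real.pi * e * w := by ring
    rw [mul_one, e1, e2, e3]
    simp only [Real.sinh_add, Real.sinh_sub, Real.cosh_add, Real.cosh_sub]
    have q1 := Real.cosh_sq (Real.pi * w)
    have qe := Real.cosh_sq (Real.pi * e * w)
    generalize Real.sinh (Real.pi * m * w) = S at *
    generalize Real.cosh (Real.pi * m * w) = C at *
    generalize Real.sinh (Real.pi * w) = s1 at *
    generalize Real.cosh (Real.pi * w) = c1 at *
    generalize Real.sinh (Real.pi * e * w) = se at *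
    generalize Real.cosh (Real.pi * e * w) = ce at *
    field_simp
    ring_nf
  · have t1 : CF fun w => Real.sinh (Real.pi * (m - 1) * w) / Real.sinh (Real.pi * m * w) :=
      S_meas (by linarith) (by linarith) hm0
    have t2 : CF fun w => Real.sinh (Real.pi * (m + 1 - e) * w) / Real.sinh (Real.pi * m * w) :=
      S_meas (by linarith) (by linarith) hm0
    refine cf_congr (cf_add (cf_smul (cf_mul t1 hc1) (1 / 2) (by norm_num))
      (cf_smul (cf_mul (cf_mul t2 hc1) hce) (1 / 4) (by norm_num))) fun w hw => ?_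
    have hS : Real.sinh (Real.pi * m * w) ≠ 0 := by
      rw [Ne, Real.sinh_eq_zero]
      positivity
    have hC1 : Real.cosh (Real.pi * w) ≠ 0 := (Real.cosh_pos _).ne'
    have hCe : Real.cosh (Real.pi * e * w) ≠ 0 := (Real.cosh_pos _).ne'
    have e1 : Real.pi * (m - 1) * w = Real.pi * m * w - Real.pi * w := by ring
    have e2 : Real.pi * (m + 1 - e) * w = Real.pi * m * w + Real.pi * w - Real.pi * e * w := by ring
    have e3 : Real.pi * (m + 1 + e) * w = Real.pi * m * w + Real.pi * w + Real.pi * e * w := by ring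
    rw [mul_one, e1, e2, e3]
    simp only [Real.sinh_add, Real.sinh_sub, Real.cosh_add]
    have q1 := Real.cosh_sq (Real.pi * w)
    have qe := Real.cosh_sq (Real.pi * e * w)
    generalize Real.sinh (Real.pi * m * w) = S at *
    generalize Real.cosh (Real.pi * m * w) = C at *
    generalize Real.sinh (Real.pi * w) = s1 at *
    generalize Real.cosh (Real.pi * w) = c1 at *
    generalize Real.sinh (Real.pi * e * w) = se at *
    generalize Real.cosh (Real.pi * e * w) = ce at *
    field_simp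
    ring_nf

end Pool.Agent.Lib.MP_8382de_an.ET
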