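import Pool.Agent.Lib.MP_8382de_an.ET.EnA

/-!
# ET.EnB: the entire function `VV`

`VV = V0 n l + ∫ V0 n (x(t) l) dσ₁ - ∫ V0 n (x(t) l) dσ₂`, `x(t) = e^(-t/2) ∈ (0,1)` almost everywhere
(`h₁ h₂`), `C₀ = ∫ e^(-t/2) n`, `q = σ₁(ℝ) + σ₂(ℝ)`.

* `VV_bd`: `V0_bd` at `x l` (`‖x l‖ ≤ ‖l‖`, `max (x Re l) 0 ≤ max (Re l) 0`):
  `‖VV l‖ ≤ (1+q)(1 + C₀‖l‖) e^(max(Re l,0))`.
* `VV_hasSum`: integrate `V0_hasSum` at `x l` termwise over `σ_i` (norm of the j-th term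
  `≤ NN n (j/2) ‖l‖^j/j!`, summable by `V0_hasSum` at `‖l‖`; `x^j = e^(-(j/2) t)`): coefficient
  `NN n (j/2) (1 + ∫ e^(-(j/2)t) dσ₁ - ∫ e^(-(j/2)t) dσ₂)`.
* `VV_diff`: from `VV_hasSum` (power series with infinite radius of convergence).
* `VV_conj`: `integral_conj` and `V0_conj` (or from `VV_hasSum`, real coefficients).
* `GG_pos`: `GG σ₁ σ₂ y ≥ 1 - σ₂(ℝ) > 0` for `y ≥ 0`.
-/

set_option autoImplicit false

namespace Pool.Agent.Lib.MP_8382de_an.ET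

open MeasureTheory Set

theorem GG_pos {σ₁ σ₂ : Measure ℝ} [IsFiniteMeasure σ₁] [IsFiniteMeasure σ₂]
    (h₂ : σ₂ (Iic 0) = 0) (hq : σ₁.real univ + σ₂.real univ < 5 / 9) {y : ℝ} (hy : 0 ≤ y) :
    1 - (σ₁.real univ + σ₂.real univ) ≤ GG σ₁ σ₂ y := by
  have h1 : 0 ≤ ∫ t, Real.exp (-(y * t)) ∂σ₁ := integral_nonneg fun t => (Real.exp_pos _).le
  have hae : ∀ᵐ t ∂σ₂, 0 < t := by
    have : σ₂ {t | ¬ (0 < t)} = 0 := by
      have h : {t : ℝ | ¬ (0 < t)} = Iic 0 := by ext t; simp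
      rw [h]; exact h₂
    exact this
  have h2 : ∫ t, Real.exp (-(y * t)) ∂σ₂ ≤ σ₂.real univ := by
    have hb : ∀ᵐ t ∂σ₂, ‖Real.exp (-(y * t))‖ ≤ 1 := by
      filter_upwards [hae] with t ht
      rw [Real.norm_eq_abs, abs_of_pos (Real.exp_pos _), Real.exp_le_one_iff]
      have := mul_nonneg hy ht.le
      linarith
    have h := norm_integral_le_of_norm_le_const hb
    have h' := (le_abs_self _).trans ((Real.norm_eq_abs _).symm.le.trans h)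
    simpa using h'
  have h3 : 0 ≤ σ₁.real univ := measureReal_nonneg
  unfold GG
  linarith

private theorem x_le_one {t : ℝ} (ht : 0 < t) : Real.exp (-t / 2) ≤ 1 := by
  rw [Real.exp_le_one_iff]; linarith

private theorem norm_xl {t : ℝ} (ht : 0 < t) (l : ℂ) :
    ‖((Real.exp (-t / 2) : ℝ) : ℂ) * l‖ ≤ ‖l‖ := by
  rw [norm_mul, Complex.norm_real, Real.norm_eq_abs, abs_of_pos (Real.exp_pos _)]
  exact mul_le_of_le_one_left (norm_nonneg _) (x_le_one ht)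

private theorem V0_bd' {n : ℝ → ℝ} (hn : Cls n) (l : ℂ) {t : ℝ} (ht : 0 < t) :
    ‖V0 n (((Real.exp (-t / 2) : ℝ) : ℂ) * l)‖ ≤
      (1 + (∫ t in Ioi (0 : ℝ), Real.exp (-t / 2) * n t) * ‖l‖) * Real.exp (max l.re 0) := by
  set C := ∫ t in Ioi (0 : ℝ), Real.exp (-t / 2) * n t with hC
  have hC0 : 0 ≤ C := setIntegral_nonneg measurableSet_Ioi fun t ht =>
      mul_nonneg (Real.exp_pos _).le (hn.1 t ht)
  refine (V0_bd hn _).trans ?_
  have h1 := norm_xl ht l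
  have h2 : max (((Real.exp (-t / 2) : ℝ) : ℂ) * l).re 0 ≤ max l.re 0 := by
    have hre : (((Real.exp (-t / 2) : ℝ) : ℂ) * l).re = Real.exp (-t / 2) * l.re :=
      Complex.re_ofReal_mul _ _
    rw [hre]
    rcases le_total l.re 0 with h | h
    · exact max_le ((mul_nonpos_of_nonneg_of_nonpos (Real.exp_pos _).le h).trans (le_max_right _ _))
        (le_max_right _ _)
    · exact max_le ((mul_le_of_le_one_left h (x_le_one ht)).trans (le_max_left _ _))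
        (le_max_right _ _)
  gcongr

private theorem int_bd {n : ℝ → ℝ} (hn : Cls n) {σ : Measure ℝ} [IsFiniteMeasure σ]
    (h : σ (Iic 0) = 0) (l : ℂ) :
    ‖∫ t, V0 n (((Real.exp (-t / 2) : ℝ) : ℂ) * l) ∂σ‖ ≤ σ.real univ *
      ((1 + (∫ t in Ioi (0 : ℝ), Real.exp (-t / 2) * n t) * ‖l‖) * Real.exp (max l.re 0)) := by
  have hae : ∀ᵐ t ∂σ, 0 < t := by
    have : σ {t | ¬ (0 < t)} = 0 := by
      have h' : {t : ℝ | ¬ (0 < t)} = Iic 0 := by ext t; simp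
      rw [h']; exact h
    exact this
  have hb : ∀ᵐ t ∂σ, ‖V0 n (((Real.exp (-t / 2) : ℝ) : ℂ) * l)‖ ≤
      (1 + (∫ t in Ioi (0 : ℝ), Real.exp (-t / 2) * n t) * ‖l‖) * Real.exp (max l.re 0) := by
    filter_upwards [hae] with t ht
    exact V0_bd' hn l ht
  have := norm_integral_le_of_norm_le_const hb
  rw [mul_comm (σ.real univ)]
  exact this

theorem VV_bd {n : ℝ → ℝ} (hn : Cls n) {σ₁ σ₂ : Measure ℝ} [IsFiniteMeasure σ₁]
    [IsFiniteMeasure σ₂] (h₁ : σ₁ (Iic 0) = 0) (h₂ : σ₂ (Iic 0) = 0) (l : ℂ) :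
    ‖VV n σ₁ σ₂ l‖ ≤ (1 + (σ₁.real univ + σ₂.real univ)) *
      ((1 + (∫ t in Ioi (0 : ℝ), Real.exp (-t / 2) * n t) * ‖l‖) * Real.exp (max l.re 0)) := by
  have hA := V0_bd hn l
  have hB := int_bd hn h₁ l
  have hC := int_bd hn h₂ l
  unfold VV
  refine (norm_sub_le _ _).trans ?_
  have := norm_add_le (V0 n l) (∫ t, V0 n (((Real.exp (-t / 2) : ℝ) : ℂ) * l) ∂σ₁)
  nlinarith [this, hA, hB, hC]

private theorem one_hasSum {n : ℝ → ℝ} (hn : Cls n) {σ : Measure ℝ} [IsFiniteMeasure σ]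
    (h : σ (Iic 0) = 0) (l : ℂ) :
    HasSum (fun j : ℕ => ((NN n ((j : ℝ) / 2) * ∫ t, Real.exp (-((j : ℝ) / 2 * t)) ∂σ : ℝ) : ℂ) *
      l ^ j / (j.factorial : ℂ)) (∫ t, V0 n (((Real.exp (-t / 2) : ℝ) : ℂ) * l) ∂σ) := by
  have hae : ∀ᵐ t ∂σ, 0 < t := by
    have : σ {t | ¬ (0 < t)} = 0 := by
      have h' : {t : ℝ | ¬ (0 < t)} = Iic 0 := by ext t; simp
      rw [h']; exact h
    exact this
  set F : ℕ → ℝ → ℂ := fun j t => ((NN n ((j : ℝ) / 2) : ℝ) : ℂ) *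
    (((Real.exp (-t / 2) : ℝ) : ℂ) * l) ^ j / (j.factorial : ℂ) with hF
  have hN : ∀ j : ℕ, 0 ≤ NN n ((j : ℝ) / 2) := fun j =>
    zero_le_one.trans (NN_ge hn (by positivity))
  have hb : ∀ j, ∀ᵐ t ∂σ, ‖F j t‖ ≤ NN n ((j : ℝ) / 2) * ‖l‖ ^ j / j.factorial := by
    intro j
    filter_upwards [hae] with t ht
    simp only [hF]
    rw [norm_div, norm_mul, norm_pow, Complex.norm_real, Real.norm_eq_abs, abs_of_nonneg (hN j),
      Complex.norm_natCast]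
    have h1 := norm_xl ht l
    have h2 := hN j
    gcongr
  have hFint : ∀ j, Integrable (F j) σ := by
    intro j
    refine Integrable.of_bound ?_ _ (hb j)
    apply Continuous.aestronglyMeasurable
    fun_prop
  have hs0 : Summable fun j : ℕ => NN n ((j : ℝ) / 2) * ‖l‖ ^ j / (j.factorial : ℝ) := by
    have := (V0_hasSum hn ((‖l‖ : ℝ) : ℂ)).summable.norm
    refine this.congr fun j => ?_
    rw [norm_div, norm_mul, norm_pow, Complex.norm_real, Complex.norm_real, Real.norm_eq_abs,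
      abs_of_nonneg (hN j), Complex.norm_natCast, norm_norm]
  have hsum : Summable fun j => ∫ t, ‖F j t‖ ∂σ := by
    refine Summable.of_nonneg_of_le (fun j => integral_nonneg fun t => norm_nonneg _) ?_
      (hs0.mul_left (σ.real univ))
    intro j
    have hb' : ∀ᵐ t ∂σ, ‖‖F j t‖‖ ≤ NN n ((j : ℝ) / 2) * ‖l‖ ^ j / j.factorial := by
      filter_upwards [hb j] with t ht
      rwa [norm_norm]
    have := norm_integral_le_of_norm_le_const hb'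
    rw [mul_comm (σ.real univ)]
    exact (le_abs_self _).trans ((Real.norm_eq_abs _).symm.le.trans this)
  have hS := hasSum_integral_of_summable_integral_norm hFint hsum
  have htsum : ∀ t : ℝ, ∑' j, F j t = V0 n (((Real.exp (-t / 2) : ℝ) : ℂ) * l) := fun t =>
    (V0_hasSum hn (((Real.exp (-t / 2) : ℝ) : ℂ) * l)).tsum_eq
  simp only [htsum] at hS
  have hfun : (fun j : ℕ => ((NN n ((j : ℝ) / 2) * ∫ t, Real.exp (-((j : ℝ) / 2 * t)) ∂σ : ℝ) : ℂ) *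
      l ^ j / (j.factorial : ℂ)) = fun j => ∫ t, F j t ∂σ := by
    funext j
    have h1 : ∀ t : ℝ, F j t = (((NN n ((j : ℝ) / 2) : ℝ) : ℂ) * l ^ j / (j.factorial : ℂ)) *
        ((Real.exp (-((j : ℝ) / 2 * t)) : ℝ) : ℂ) := by
      intro t
      simp only [hF]
      have h2 : Real.exp (-((j : ℝ) / 2 * t)) = Real.exp (-t / 2) ^ j := by
        rw [← Real.exp_nat_mul]
        congr 1
        ring
      rw [h2]
      push_cast
      ring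
    simp only [h1]
    rw [integral_const_mul, integral_complex_ofReal]
    push_cast
    ring
  rw [hfun]
  exact hS

theorem VV_hasSum {n : ℝ → ℝ} (hn : Cls n) {σ₁ σ₂ : Measure ℝ} [IsFiniteMeasure σ₁]
    [IsFiniteMeasure σ₂] (h₁ : σ₁ (Iic 0) = 0) (h₂ : σ₂ (Iic 0) = 0) (l : ℂ) :
    HasSum (fun j : ℕ => ((NN n ((j : ℝ) / 2) * GG σ₁ σ₂ ((j : ℝ) / 2) : ℝ) : ℂ) * l ^ j /
      (j.factorial : ℂ)) (VV n σ₁ σ₂ l) := by
  have h := ((V0_hasSum hn l).add (one_hasSum hn h₁ l)).sub (one_hasSum hn h₂ l)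
  have hfun : (fun j : ℕ => ((NN n ((j : ℝ) / 2) * GG σ₁ σ₂ ((j : ℝ) / 2) : ℝ) : ℂ) * l ^ j /
      (j.factorial : ℂ)) = fun j : ℕ => ((NN n ((j : ℝ) / 2) : ℝ) : ℂ) * l ^ j / (j.factorial : ℂ) +
      ((NN n ((j : ℝ) / 2) * ∫ t, Real.exp (-((j : ℝ) / 2 * t)) ∂σ₁ : ℝ) : ℂ) *
      l ^ j / (j.factorial : ℂ) -
      ((NN n ((j : ℝ) / 2) * ∫ t, Real.exp (-((j : ℝ) / 2 * t)) ∂σ₂ : ℝ) : ℂ) *
      l ^ j / (j.factorial : ℂ) := by
    funext j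
    simp only [GG]
    push_cast
    ring
  rw [hfun]
  exact h

theorem VV_diff {n : ℝ → ℝ} (hn : Cls n) {σ₁ σ₂ : Measure ℝ} [IsFiniteMeasure σ₁]
    [IsFiniteMeasure σ₂] (h₁ : σ₁ (Iic 0) = 0) (h₂ : σ₂ (Iic 0) = 0) :
    Differentiable ℂ (VV n σ₁ σ₂) :=
  EnA_diff (VV_hasSum hn h₁ h₂)

theorem VV_conj {n : ℝ → ℝ} (hn : Cls n) {σ₁ σ₂ : Measure ℝ} [IsFiniteMeasure σ₁]
    [IsFiniteMeasure σ₂] (h₁ : σ₁ (Iic 0) = 0) (h₂ : σ₂ (Iic 0) = 0) (l : ℂ) :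
    VV n σ₁ σ₂ ((starRingEnd ℂ) l) = (starRingEnd ℂ) (VV n σ₁ σ₂ l) :=
  EnA_conj (a := fun j => NN n ((j : ℝ) / 2) * GG σ₁ σ₂ ((j : ℝ) / 2)) (VV_hasSum hn h₁ h₂) l

end Pool.Agent.Lib.MP_8382de_an.ET
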