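import Pool.Agent.Lib.MP_8382de_an.ET.Defs

/-!
# ET.Evn: the even part

If `V(l) = ∑ a_j l^j/j!` for all `l` and `|V(-l)| < |V(l)|` for `Re l > 0`, then all zeros of
`∑ a_{2k} x^k/(2k)!` are real and negative.
-/

set_option autoImplicit false

namespace Pool.Agent.Lib.MP_8382de_an.ET

theorem even_hasSum {V : ℂ → ℂ} {a : ℕ → ℝ}
    (hs : ∀ l : ℂ, HasSum (fun j : ℕ => ((a j : ℝ) : ℂ) * l ^ j / (j.factorial : ℂ)) (V l)) (l : ℂ) :
    HasSum (fun k : ℕ => ((a (2 * k) / ((2 * k).factorial : ℝ) : ℝ) : ℂ) * (l ^ 2) ^ k)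
      ((V l + V (-l)) / 2) := by
  have h1 := ((hs l).add (hs (-l))).div_const 2
  have hinj : Function.Injective fun k : ℕ => 2 * k := fun a b h => by
    simp only at h
    omega
  have h2 : HasSum ((fun j : ℕ => (((a j : ℝ) : ℂ) * l ^ j / (j.factorial : ℂ) +
      ((a j : ℝ) : ℂ) * (-l) ^ j / (j.factorial : ℂ)) / 2) ∘ fun k : ℕ => 2 * k)
      ((V l + V (-l)) / 2) := by
    rw [hinj.hasSum_iff]
    · exact h1
    · intro j hj
      have hodd : Odd j := by
        rcases Nat.even_or_odd j with h | h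
        · obtain ⟨k, hk⟩ := h
          exact absurd ⟨k, by simp only; omega⟩ hj
        · exact h
      rw [hodd.neg_pow]
      ring
  have h3 : (fun k : ℕ => ((a (2 * k) / ((2 * k).factorial : ℝ) : ℝ) : ℂ) * (l ^ 2) ^ k) =
      ((fun j : ℕ => (((a j : ℝ) : ℂ) * l ^ j / (j.factorial : ℂ) +
      ((a j : ℝ) : ℂ) * (-l) ^ j / (j.factorial : ℂ)) / 2) ∘ fun k : ℕ => 2 * k) := by
    funext k
    have he : Even (2 * k) := even_two_mul k
    simp only [Function.comp_apply]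
    rw [he.neg_pow, ← pow_mul]
    push_cast
    ring
  rw [h3]
  exact h2

theorem even_zeros {V : ℂ → ℂ} {a : ℕ → ℝ} (ha : 0 < a 0)
    (hs : ∀ l : ℂ, HasSum (fun j : ℕ => ((a j : ℝ) : ℂ) * l ^ j / (j.factorial : ℂ)) (V l))
    (hlt : ∀ l : ℂ, 0 < l.re → ‖V (-l)‖ < ‖V l‖) {x : ℂ}
    (hx : HasSum (fun k : ℕ => ((a (2 * k) / ((2 * k).factorial : ℝ) : ℝ) : ℂ) * x ^ k) 0) :
    x.im = 0 ∧ x.re < 0 := by
  -- a square root with nonnegative real part
  obtain ⟨l, hl, hre⟩ : ∃ l : ℂ, l ^ 2 = x ∧ 0 ≤ l.re := by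
    obtain ⟨l, hl⟩ := IsAlgClosed.exists_pow_nat_eq x (n := 2) (by norm_num)
    rcases le_total 0 l.re with h | h
    · exact ⟨l, hl, h⟩
    · exact ⟨-l, by rw [neg_sq]; exact hl, by simpa using h⟩
  have h1 := even_hasSum hs l
  rw [hl] at h1
  have h2 : (V l + V (-l)) / 2 = 0 := h1.unique hx
  have h3 : V (-l) = - V l := by
    have h4 : V l + V (-l) = 0 := by
      rcases div_eq_zero_iff.1 h2 with h | h
      · exact h
      · norm_num at h
    exact eq_neg_of_add_eq_zero_right h4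
  have hre0 : l.re = 0 := by
    rcases hre.eq_or_lt with h | h
    · exact h.symm
    · have h4 := hlt l h
      rw [h3, norm_neg] at h4
      exact absurd h4 (lt_irrefl _)
  have hxim : x.im = 0 := by
    rw [← hl, sq, Complex.mul_im, hre0]
    ring
  have hxre : x.re = - l.im ^ 2 := by
    rw [← hl, sq, Complex.mul_re, hre0]
    ring
  refine ⟨hxim, ?_⟩
  rcases eq_or_ne l.im 0 with h | h
  · -- `x = 0`
    exfalso
    have hx0 : x = 0 := by
      apply Complex.ext
      · rw [hxre, h]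
        simp
      · exact hxim
    rw [hx0] at hx
    have h5 : HasSum (fun k : ℕ => ((a (2 * k) / ((2 * k).factorial : ℝ) : ℝ) : ℂ) * (0 : ℂ) ^ k)
        (((a (2 * 0) / ((2 * 0).factorial : ℝ) : ℝ) : ℂ) * (0 : ℂ) ^ 0) := by
      refine hasSum_single 0 fun k hk => ?_
      rw [zero_pow hk, mul_zero]
    have h6 := h5.unique hx
    simp at h6
    exact ha.ne' h6
  · rw [hxre]
    have : 0 < l.im ^ 2 := by positivity
    linarith

end Pool.Agent.Lib.MP_8382de_an.ET
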