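import Pool.Agent.Lib.MP_8382de_an.ET.Defs

/-!
# ET.PLa: Phragmen-Lindelof, first step (lower bound in the right half plane)

Let `B(l) = e^(-l) V(l)` and `F(l) = exp(-l^(-1/2) (B(l) - c0))` for `l ≠ 0`, `F(0) = 0` (principal
power, `l^(-1/2) = exp(-(1/2) log l)`; on `Re l ≥ 0`, `l ≠ 0`: `|l^(-1/2)| = |l|^(-1/2)`,
`arg(l^(-1/2)) = -(arg l)/2 ∈ [-π/4, π/4]`, so `Re l^(-1/2) ≥ |l|^(-1/2) cos(π/4)`).
Apply `PhragmenLindelof.right_half_plane_of_bounded_on_real` to `F` with `C = 1`: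
* `DiffContOnCl`: differentiable in `Re l > 0`; continuous on `Re l ≥ 0` away from `0`; at `0`:
  `V(0)` is real (`hc` at `0`), `δ = V(0).re - c0 > 0`, and
  `Re(l^(-1/2)(B(l)-c0)) ≥ |l|^(-1/2) (δ cos(π/4) - ‖B(l) - B(0)‖) → +∞`, so `F(l) → 0`.
* growth: for `‖l‖ ≥ 1`, `‖l^(-1/2)(B(l)-c0)‖ ≤ ‖l‖^(-1/2) (C(1+‖l‖) + c0) ≤ C' ‖l‖^(1/2)`: exponent
  `1/2 < 2`.
* positive reals `x ≥ 1`: `B(x)` has real part `e^(-x) (V x).re ≥ 0`, so
  `‖F(x)‖ = exp(-x^(-1/2)(Re B(x) - c0)) ≤ e^(c0)`.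
* imaginary axis, `l = iτ`, `τ > 0`: `l^(-1/2) = τ^(-1/2) e^(-iπ/4)`, so
  `Re(l^(-1/2) B) = τ^(-1/2) Re(e^(-iπ/4) B(iτ)) ≥ τ^(-1/2) c0` (`hb`) and
  `Re(l^(-1/2) c0) = τ^(-1/2) c0 cos(π/4) ≤ τ^(-1/2) c0`: `‖F‖ ≤ 1`. `l = -iτ`: conjugate
  (`V(conj l) = conj V(l)`, also `l^(-1/2)` is conjugated). `l = 0`: `F = 0`.
Conclusion `‖F(l)‖ ≤ 1`, i.e. `Re(l^(-1/2)(B(l)-c0)) ≥ 0`, hence
`|l|^(-1/2) |B(l)| ≥ Re(l^(-1/2) B(l)) ≥ c0 Re(l^(-1/2)) ≥ c0 |l|^(-1/2) cos(π/4)`, so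
`|B(l)| ≥ c0 cos(π/4) ≥ c0/2`, and `|V(l)| = e^(Re l) |B(l)|`. For `l = 0` use `h0`.
-/

set_option autoImplicit false

namespace Pool.Agent.Lib.MP_8382de_an.ET

open Set Filter Topology

/-- `l^(-1/2)` -/
private noncomputable def PLa_E (l : ℂ) : ℂ := Complex.exp (-(1 / 2) * Complex.log l)

private theorem PLa_E_norm (l : ℂ) : ‖PLa_E l‖ = Real.exp (-(1 / 2) * Real.log ‖l‖) := by
  rw [PLa_E, Complex.norm_exp]
  congr 1
  have : (-(1 / 2) : ℂ) = ((-(1 / 2) : ℝ) : ℂ) := by push_cast; ring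
  rw [this, Complex.re_ofReal_mul, Complex.log_re]

private theorem PLa_E_re {l : ℂ} (hl : 0 ≤ l.re) : ‖PLa_E l‖ / 2 ≤ (PLa_E l).re := by
  have h1 : (PLa_E l).re = Real.exp (-(1 / 2) * Real.log ‖l‖) * Real.cos (-(1 / 2) * l.arg) := by
    rw [PLa_E, Complex.exp_re]
    have : (-(1 / 2) : ℂ) = ((-(1 / 2) : ℝ) : ℂ) := by push_cast; ring
    rw [this, Complex.re_ofReal_mul, Complex.im_ofReal_mul, Complex.log_re, Complex.log_im]
  rw [PLa_E_norm, h1, div_eq_mul_inv]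
  refine mul_le_mul_of_nonneg_left ?_ (Real.exp_pos _).le
  have h2 : |l.arg| ≤ Real.pi / 2 := Complex.abs_arg_le_pi_div_two_iff.2 hl
  have h3 : |(-(1 / 2) * l.arg)| ≤ Real.pi / 4 := by
    rw [abs_mul, abs_neg, abs_of_pos (by norm_num : (0 : ℝ) < 1 / 2)]
    linarith
  rw [← Real.cos_abs]
  have h4 : Real.cos (Real.pi / 4) ≤ Real.cos |(-(1 / 2) * l.arg)| :=
    Real.cos_le_cos_of_nonneg_of_le_pi (abs_nonneg _) (by linarith [Real.pi_pos]) h3
  rw [Real.cos_pi_div_four] at h4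
  have h5 : (1 : ℝ) ≤ √2 := Real.one_le_sqrt.2 (by norm_num)
  linarith

private theorem PLa_E_conj {l : ℂ} (hl : l.arg ≠ Real.pi) :
    PLa_E ((starRingEnd ℂ) l) = (starRingEnd ℂ) (PLa_E l) := by
  have h : (-(1 / 2) : ℂ) = ((-(1 / 2) : ℝ) : ℂ) := by push_cast; ring
  rw [PLa_E, PLa_E, Complex.log_conj _ hl, ← Complex.exp_conj, h, RingHom.map_mul,
    Complex.conj_ofReal]

private theorem PLa_conj_aux (E B : ℂ) (c : ℝ) :
    (starRingEnd ℂ) (-(E * (B - c))) = -((starRingEnd ℂ) E * ((starRingEnd ℂ) B - c)) := by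
  simp

private theorem PLa_slit {l : ℂ} (hl : 0 ≤ l.re) (h0 : l ≠ 0) : l ∈ Complex.slitPlane := by
  rw [Complex.mem_slitPlane_iff]
  rcases hl.lt_or_eq with h | h
  · exact Or.inl h
  · right
    intro him
    exact h0 (Complex.ext h.symm him)

theorem pl_lower {V : ℂ → ℂ} (hV : Differentiable ℂ V)
    (hc : ∀ l : ℂ, V ((starRingEnd ℂ) l) = (starRingEnd ℂ) (V l)) {C c0 : ℝ}
    (hC : ∀ l : ℂ, 0 ≤ l.re → ‖Complex.exp (-l) * V l‖ ≤ C * (1 + ‖l‖))
    (hc0 : 0 < c0) (h0 : c0 < (V 0).re) (hp : ∀ x : ℝ, 0 ≤ x → 0 ≤ (V (x : ℂ)).re)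
    (hb : ∀ τ : ℝ, 0 < τ → c0 ≤ (Complex.exp (-((Real.pi / 4 : ℝ) : ℂ) * Complex.I) *
        (Complex.exp (-((τ : ℂ) * Complex.I)) * V ((τ : ℂ) * Complex.I))).re) :
    ∀ l : ℂ, 0 ≤ l.re → c0 / 2 * Real.exp l.re ≤ ‖V l‖ := by
  classical
  set B : ℂ → ℂ := fun l => Complex.exp (-l) * V l with hB
  have hBd : Differentiable ℂ B := by
    intro l
    exact (differentiableAt_id.neg.cexp).mul (hV l)
  set F : ℂ → ℂ := fun l => if l = 0 then 0 else Complex.exp (-(PLa_E l * (B l - c0))) with hF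
  have hF0 : F 0 = 0 := by simp [hF]
  have hF1 : ∀ l, l ≠ 0 → F l = Complex.exp (-(PLa_E l * (B l - c0))) := by
    intro l hl; simp [hF, hl]
  have hFn : ∀ l, l ≠ 0 → ‖F l‖ = Real.exp (-(PLa_E l * (B l - c0)).re) := by
    intro l hl
    rw [hF1 l hl, Complex.norm_exp, Complex.neg_re]
  have hEd : ∀ l ∈ Complex.slitPlane, DifferentiableAt ℂ PLa_E l := by
    intro l hl
    have h1 : DifferentiableAt ℂ (fun l => -(1 / 2) * Complex.log l) l :=
      (differentiableAt_id.clog hl).const_mul _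
    exact h1.cexp
  have hFd : ∀ l ∈ Complex.slitPlane, DifferentiableAt ℂ F l := by
    intro l hl
    have hl0 : l ≠ 0 := Complex.slitPlane_ne_zero hl
    have h1 : DifferentiableAt ℂ (fun l => Complex.exp (-(PLa_E l * (B l - c0)))) l :=
      (((hEd l hl).mul ((hBd l).sub_const _)).neg).cexp
    refine h1.congr_of_eventuallyEq ?_
    filter_upwards [isOpen_ne.mem_nhds hl0] with w hw
    exact hF1 w hw
  have hB0 : B 0 = V 0 := by simp [hB]
  have hV0im : (V 0).im = 0 := by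
    have h := hc 0
    rw [map_zero] at h
    exact Complex.conj_eq_iff_im.1 h.symm
  set δ : ℝ := (V 0).re - c0 with hδ
  have hδ0 : 0 < δ := by rw [hδ]; linarith
  have hB0' : B 0 - c0 = ((δ : ℝ) : ℂ) := by
    rw [hB0]
    apply Complex.ext
    · simp [hδ]
    · simp [hV0im]
  have hcl : closure {z : ℂ | 0 < z.re} = {z : ℂ | 0 ≤ z.re} := Complex.closure_setOfPred_lt_re 0
  have hcont0 : ContinuousWithinAt F {z : ℂ | 0 ≤ z.re} 0 := by
    rw [← continuousWithinAt_sdiff_self]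
    show Tendsto F (𝓝[{z : ℂ | 0 ≤ z.re} \ {0}] 0) (𝓝 (F 0))
    rw [hF0]
    have hev : ∀ᶠ l in 𝓝[{z : ℂ | 0 ≤ z.re} \ {0}] (0 : ℂ),
        ‖F l‖ ≤ Real.exp (-(δ / 4 * Real.exp (-(1 / 2) * Real.log ‖l‖))) := by
      have hBc : ∀ᶠ l in 𝓝 (0 : ℂ), ‖B l - B 0‖ < δ / 4 := by
        have := (hBd 0).continuousAt.tendsto
        rw [Metric.tendsto_nhds] at this
        have h := this (δ / 4) (by positivity)
        simpa [dist_eq_norm] using h
      filter_upwards [mem_nhdsWithin_of_mem_nhds hBc, self_mem_nhdsWithin] with l hl1 hl2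
      have hl0 : l ≠ 0 := hl2.2
      have hlr : 0 ≤ l.re := hl2.1
      rw [hFn l hl0, Real.exp_le_exp, neg_le_neg_iff]
      have e1 : PLa_E l * (B l - c0) = PLa_E l * ((δ : ℝ) : ℂ) + PLa_E l * (B l - B 0) := by
        rw [← hB0']; ring
      rw [e1, Complex.add_re]
      have e2 : (PLa_E l * ((δ : ℝ) : ℂ)).re = (PLa_E l).re * δ := by simp
      have e3 : -(‖PLa_E l‖ * (δ / 4)) ≤ (PLa_E l * (B l - B 0)).re := by
        have h1 := Complex.abs_re_le_norm (PLa_E l * (B l - B 0))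
        rw [norm_mul] at h1
        have h2 : ‖PLa_E l‖ * ‖B l - B 0‖ ≤ ‖PLa_E l‖ * (δ / 4) :=
          mul_le_mul_of_nonneg_left hl1.le (norm_nonneg _)
        have h3 := (abs_le.1 h1).1
        linarith
      have e4 := PLa_E_re hlr
      rw [e2]
      have e5 : ‖PLa_E l‖ / 2 * δ ≤ (PLa_E l).re * δ := mul_le_mul_of_nonneg_right e4 hδ0.le
      rw [← PLa_E_norm]
      linarith
    refine squeeze_zero_norm' hev ?_
    have t1 : Tendsto (fun l : ℂ => ‖l‖) (𝓝[≠] 0) (𝓝[>] 0) := tendsto_norm_nhdsNE_zero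
    have t2 : Tendsto (fun l : ℂ => Real.log ‖l‖) (𝓝[≠] 0) atBot :=
      Real.tendsto_log_nhdsGT_zero.comp t1
    have t3 : Tendsto (fun l : ℂ => -(1 / 2) * Real.log ‖l‖) (𝓝[≠] 0) atTop :=
      t2.const_mul_atBot_of_neg (by norm_num)
    have t4 : Tendsto (fun l : ℂ => Real.exp (-(1 / 2) * Real.log ‖l‖)) (𝓝[≠] 0) atTop :=
      Real.tendsto_exp_atTop.comp t3
    have t5 : Tendsto (fun l : ℂ => δ / 4 * Real.exp (-(1 / 2) * Real.log ‖l‖)) (𝓝[≠] 0) atTop :=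
      t4.const_mul_atTop (by positivity)
    have t6 := Real.tendsto_exp_neg_atTop_nhds_zero.comp t5
    exact t6.mono_left (nhdsWithin_mono _ fun x hx => hx.2)
  have hd : DiffContOnCl ℂ F {z : ℂ | 0 < z.re} := by
    refine ⟨fun l hl => (hFd l (Or.inl hl)).differentiableWithinAt, ?_⟩
    rw [hcl]
    intro l hl
    by_cases hl0 : l = 0
    · rw [hl0]; exact hcont0
    · exact (hFd l (PLa_slit hl hl0)).continuousAt.continuousWithinAt
  have hC0 : 0 ≤ C := by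
    have := hC 0 (by simp)
    have h2 := norm_nonneg (Complex.exp (-0) * V 0)
    simp only [norm_zero, add_zero, mul_one] at this
    linarith
  have hexp : ∃ c < (2 : ℝ), ∃ B' : ℝ,
      F =O[Bornology.cobounded ℂ ⊓ 𝓟 {z | 0 < z.re}] fun z => Real.exp (B' * ‖z‖ ^ c) := by
    refine ⟨1, by norm_num, 2 * C + c0, ?_⟩
    refine Asymptotics.IsBigO.of_bound 1 ?_
    rw [eventually_inf_principal]
    have hco : ∀ᶠ z : ℂ in Bornology.cobounded ℂ, 1 ≤ ‖z‖ :=
      tendsto_norm_cobounded_atTop.eventually (eventually_ge_atTop 1)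
    filter_upwards [hco] with z hz hzr
    have hz0 : z ≠ 0 := by
      rintro rfl
      simp at hz
      linarith
    have hzr' : 0 ≤ z.re := le_of_lt hzr
    rw [hFn z hz0, one_mul, Real.norm_of_nonneg (Real.exp_pos _).le, Real.exp_le_exp, Real.rpow_one]
    have h1 := Complex.abs_re_le_norm (PLa_E z * (B z - c0))
    have h2 : ‖PLa_E z‖ ≤ 1 := by
      rw [PLa_E_norm, Real.exp_le_one_iff]
      have := Real.log_nonneg hz
      linarith
    have h3 : ‖B z - c0‖ ≤ C * (1 + ‖z‖) + c0 := by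
      refine (norm_sub_le _ _).trans ?_
      have := hC z hzr'
      have h4 : ‖(c0 : ℂ)‖ = c0 := by
        rw [Complex.norm_real, Real.norm_of_nonneg hc0.le]
      rw [h4]
      linarith
    rw [norm_mul] at h1
    have h5 : ‖PLa_E z‖ * ‖B z - c0‖ ≤ 1 * (C * (1 + ‖z‖) + c0) :=
      mul_le_mul h2 h3 (norm_nonneg _) zero_le_one
    have h6 := (abs_le.1 h1).1
    nlinarith
  have hre : IsBoundedUnder (· ≤ ·) atTop fun x : ℝ => ‖F x‖ := by
    refine ⟨Real.exp c0, ?_⟩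
    rw [eventually_map]
    filter_upwards [eventually_ge_atTop (1 : ℝ)] with x hx
    have hx0 : (x : ℂ) ≠ 0 := by
      have : x ≠ 0 := by linarith
      exact_mod_cast this
    rw [hFn _ hx0, Real.exp_le_exp]
    have hE : PLa_E (x : ℂ) = ((Real.exp (-(1 / 2) * Real.log x) : ℝ) : ℂ) := by
      rw [PLa_E, ← Complex.ofReal_log (by linarith)]
      push_cast
      rfl
    rw [hE, Complex.re_ofReal_mul, Complex.sub_re, Complex.ofReal_re]
    have hBx : 0 ≤ (B (x : ℂ)).re := by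
      rw [hB]
      have : Complex.exp (-(x : ℂ)) = ((Real.exp (-x) : ℝ) : ℂ) := by push_cast; rfl
      simp only
      rw [this, Complex.re_ofReal_mul]
      exact mul_nonneg (Real.exp_pos _).le (hp x (by linarith))
    have h2 : Real.exp (-(1 / 2) * Real.log x) ≤ 1 := by
      rw [Real.exp_le_one_iff]
      have := Real.log_nonneg hx
      linarith
    have h3 := Real.exp_pos (-(1 / 2) * Real.log x)
    nlinarith [mul_nonneg h3.le hBx]
  have himpos : ∀ x : ℝ, 0 < x → ‖F ((x : ℂ) * Complex.I)‖ ≤ 1 := by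
    intro x hx
    have hx0 : (x : ℂ) * Complex.I ≠ 0 :=
      mul_ne_zero (by exact_mod_cast hx.ne') Complex.I_ne_zero
    rw [hFn _ hx0, Real.exp_le_one_iff, neg_nonpos]
    have hlog : Complex.log ((x : ℂ) * Complex.I) = (Real.log x : ℂ) + (Real.pi / 2 : ℝ) * Complex.I := by
      rw [Complex.log_ofReal_mul hx Complex.I_ne_zero, Complex.log_I]
      push_cast
      ring
    have hE : PLa_E ((x : ℂ) * Complex.I) = ((Real.exp (-(1 / 2) * Real.log x) : ℝ) : ℂ) *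
        Complex.exp (-((Real.pi / 4 : ℝ) : ℂ) * Complex.I) := by
      rw [PLa_E, hlog, Complex.ofReal_exp, ← Complex.exp_add]
      congr 1
      push_cast
      ring
    rw [mul_sub, Complex.sub_re, hE, mul_assoc, Complex.re_ofReal_mul, mul_assoc,
      Complex.re_ofReal_mul, ← mul_sub]
    refine mul_nonneg (Real.exp_pos _).le ?_
    have h1 := hb x hx
    have h2 : (Complex.exp (-((Real.pi / 4 : ℝ) : ℂ) * Complex.I) * (c0 : ℂ)).re ≤ c0 := by
      have e : (Complex.exp (-((Real.pi / 4 : ℝ) : ℂ) * Complex.I) * (c0 : ℂ)).re ≤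
          ‖Complex.exp (-((Real.pi / 4 : ℝ) : ℂ) * Complex.I) * (c0 : ℂ)‖ := Complex.re_le_norm _
      refine e.trans ?_
      rw [norm_mul, Complex.norm_real, Real.norm_of_nonneg hc0.le]
      have : ‖Complex.exp (-((Real.pi / 4 : ℝ) : ℂ) * Complex.I)‖ = 1 := by
        rw [← Complex.ofReal_neg, Complex.norm_exp_ofReal_mul_I]
      rw [this, one_mul]
    have h3 : B ((x : ℂ) * Complex.I) =
        Complex.exp (-((x : ℂ) * Complex.I)) * V ((x : ℂ) * Complex.I) := rfl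
    rw [h3]
    linarith
  have him : ∀ x : ℝ, ‖F ((x : ℂ) * Complex.I)‖ ≤ 1 := by
    intro x
    rcases lt_trichotomy x 0 with hx | hx | hx
    · have hτ : 0 < -x := by linarith
      have hl0 : ((-x : ℝ) : ℂ) * Complex.I ≠ 0 :=
        mul_ne_zero (by exact_mod_cast hτ.ne') Complex.I_ne_zero
      have e1 : (x : ℂ) * Complex.I = (starRingEnd ℂ) (((-x : ℝ) : ℂ) * Complex.I) := by
        simp
      have hl0' : (x : ℂ) * Complex.I ≠ 0 :=
        mul_ne_zero (by exact_mod_cast hx.ne) Complex.I_ne_zero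
      have harg : (((-x : ℝ) : ℂ) * Complex.I).arg ≠ Real.pi := by
        intro h
        rw [Complex.arg_eq_pi_iff] at h
        have := h.1
        simp at this
      have e2 : F ((x : ℂ) * Complex.I) = (starRingEnd ℂ) (F (((-x : ℝ) : ℂ) * Complex.I)) := by
        have e3 : B ((starRingEnd ℂ) (((-x : ℝ) : ℂ) * Complex.I)) =
            (starRingEnd ℂ) (B (((-x : ℝ) : ℂ) * Complex.I)) := by
          show Complex.exp (-((starRingEnd ℂ) (((-x : ℝ) : ℂ) * Complex.I))) *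
            V ((starRingEnd ℂ) (((-x : ℝ) : ℂ) * Complex.I)) =
            (starRingEnd ℂ) (Complex.exp (-(((-x : ℝ) : ℂ) * Complex.I)) *
              V (((-x : ℝ) : ℂ) * Complex.I))
          rw [hc, RingHom.map_mul (starRingEnd ℂ) (Complex.exp _) (V _), ← Complex.exp_conj,
            RingHom.map_neg (starRingEnd ℂ) _]
        rw [hF1 _ hl0', hF1 _ hl0, ← Complex.exp_conj, PLa_conj_aux, ← e3, ← PLa_E_conj harg, ← e1]
      rw [e2, Complex.norm_conj]
      exact himpos _ hτ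
    · rw [hx]; simp [hF0]
    · exact himpos x hx
  intro l hl
  by_cases hl0 : l = 0
  · rw [hl0]
    simp only [Complex.zero_re, Real.exp_zero, mul_one]
    have := Complex.re_le_norm (V 0)
    linarith
  have hmain := PhragmenLindelof.right_half_plane_of_bounded_on_real hd hexp hre him hl
  rw [hFn l hl0, Real.exp_le_one_iff, neg_nonpos, mul_sub, Complex.sub_re] at hmain
  have h1 : (PLa_E l * (c0 : ℂ)).re = (PLa_E l).re * c0 := by simp
  rw [h1] at hmain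
  have h2 := PLa_E_re hl
  have h3 : (PLa_E l * B l).re ≤ ‖PLa_E l‖ * ‖B l‖ := by
    rw [← norm_mul]; exact Complex.re_le_norm _
  have hEp : 0 < ‖PLa_E l‖ := by rw [PLa_E_norm]; exact Real.exp_pos _
  have h4 : ‖PLa_E l‖ * (c0 / 2) ≤ ‖PLa_E l‖ * ‖B l‖ := by
    have := mul_le_mul_of_nonneg_right h2 hc0.le
    linarith
  have h5 : c0 / 2 ≤ ‖B l‖ := le_of_mul_le_mul_left h4 hEp
  have h6 : ‖B l‖ = Real.exp (-l.re) * ‖V l‖ := by
    simp only [hB]
    rw [norm_mul, Complex.norm_exp, Complex.neg_re]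
  rw [h6] at h5
  calc c0 / 2 * Real.exp l.re ≤ (Real.exp (-l.re) * ‖V l‖) * Real.exp l.re :=
        mul_le_mul_of_nonneg_right h5 (Real.exp_pos _).le
    _ = ‖V l‖ * (Real.exp (-l.re) * Real.exp l.re) := by ring
    _ = ‖V l‖ := by rw [← Real.exp_add]; simp

end Pool.Agent.Lib.MP_8382de_an.ET
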