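import Pool.Agent.Lib.MP_8382de_an.ET.Defs

/-!
# ET.PLb: Phragmen-Lindelof, second step (`|V(-l)| < |V(l)|` in the right half plane)

`F(l) = exp(l/2) V(-l)/V(l)` on `Re l ≥ 0` (`V ≠ 0` there by `hlow`). Bounds:
`‖F(l)‖ ≤ e^(Re l/2) C(1+‖l‖)/(c1 e^(Re l)) ≤ (C/c1)(1+‖l‖)`, so the growth is polynomial
(`≤ exp(B ‖l‖^1)`), and on the positive reals it is bounded (`(1+x) e^(-x/2) ≤ 3`). On the imaginary
axis: `V(-iτ) = V(conj(iτ)) = conj V(iτ)`, same modulus, and `|e^(iτ/2)| = 1`: `‖F‖ = 1`.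
`PhragmenLindelof.right_half_plane_of_bounded_on_real` with `C = 1` (`DiffContOnCl` from
`Differentiable.differentiableOn` / `DifferentiableOn.diffContOnCl` on the closure
`{0 ≤ re}`; note that `V` is differentiable everywhere and nonzero on the closed half plane):
`‖F(l)‖ ≤ 1`, i.e. `‖V(-l)‖ ≤ e^(-Re l/2) ‖V(l)‖ < ‖V(l)‖` for `Re l > 0`.
-/

set_option autoImplicit false

namespace Pool.Agent.Lib.MP_8382de_an.ET

open Set Filter Topology

theorem pl_hb {V : ℂ → ℂ} (hV : Differentiable ℂ V)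
    (hc : ∀ l : ℂ, V ((starRingEnd ℂ) l) = (starRingEnd ℂ) (V l)) {C c1 : ℝ} (hc1 : 0 < c1)
    (hlow : ∀ l : ℂ, 0 ≤ l.re → c1 * Real.exp l.re ≤ ‖V l‖)
    (hneg : ∀ l : ℂ, 0 ≤ l.re → ‖V (-l)‖ ≤ C * (1 + ‖l‖)) :
    ∀ l : ℂ, 0 < l.re → ‖V (-l)‖ < ‖V l‖ := by
  intro l hl
  have hpos : ∀ z : ℂ, 0 ≤ z.re → 0 < ‖V z‖ := fun z hz =>
    lt_of_lt_of_le (mul_pos hc1 (Real.exp_pos _)) (hlow z hz)
  have hC : 0 ≤ C := by
    have h := hneg 0 (le_refl _)
    have h2 := norm_nonneg (V (-0))
    rw [norm_zero, add_zero, mul_one] at h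
    linarith
  set F : ℂ → ℂ := fun z => Complex.exp (z / 2) * V (-z) / V z with hF
  have hFn : ∀ z : ℂ, ‖F z‖ = Real.exp (z.re / 2) * ‖V (-z)‖ / ‖V z‖ := by
    intro z
    rw [hF]
    simp only [norm_div, norm_mul, Complex.norm_exp]
    congr 3
    simp
  have hb : ∀ z : ℂ, 0 ≤ z.re → ‖F z‖ ≤ C / c1 * (1 + ‖z‖) * Real.exp (-(z.re / 2)) := by
    intro z hz
    rw [hFn, div_le_iff₀ (hpos z hz)]
    have h1 := hneg z hz
    have h2 := hlow z hz
    have he : Real.exp z.re = Real.exp (z.re / 2) * Real.exp (z.re / 2) := by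
      rw [← Real.exp_add]; congr 1; ring
    have h3 : Real.exp (-(z.re / 2)) * Real.exp (z.re / 2) = 1 := by
      rw [← Real.exp_add]; simp
    have h0 : 0 ≤ C / c1 * (1 + ‖z‖) * Real.exp (-(z.re / 2)) := by positivity
    calc Real.exp (z.re / 2) * ‖V (-z)‖
        ≤ Real.exp (z.re / 2) * (C * (1 + ‖z‖)) :=
          mul_le_mul_of_nonneg_left h1 (Real.exp_pos _).le
      _ = C / c1 * (1 + ‖z‖) * Real.exp (-(z.re / 2)) * (c1 * Real.exp z.re) := by
          rw [he]
          have : C / c1 * (1 + ‖z‖) * Real.exp (-(z.re / 2)) *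
              (c1 * (Real.exp (z.re / 2) * Real.exp (z.re / 2))) =
              C * (1 + ‖z‖) * (Real.exp (-(z.re / 2)) * Real.exp (z.re / 2)) *
                Real.exp (z.re / 2) := by
            field_simp
          rw [this, h3]
          ring
      _ ≤ _ := mul_le_mul_of_nonneg_left h2 h0
  have key : ‖F l‖ ≤ 1 := by
    refine PhragmenLindelof.right_half_plane_of_bounded_on_real (f := F) ?_ ?_ ?_ ?_ hl.le
    · apply DifferentiableOn.diffContOnCl
      rw [Complex.closure_setOfPred_lt_re]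
      intro z hz
      have hz' : 0 ≤ z.re := hz
      have hne : V z ≠ 0 := norm_pos_iff.mp (hpos z hz')
      apply DifferentiableAt.differentiableWithinAt
      have h1 : DifferentiableAt ℂ (fun z : ℂ => Complex.exp (z / 2)) z := by fun_prop
      have h2 : DifferentiableAt ℂ (fun z : ℂ => V (-z)) z :=
        (hV (-z)).comp z (differentiable_neg z)
      exact (h1.mul h2).div (hV z) hne
    · refine ⟨1, by norm_num, 1, ?_⟩
      refine Asymptotics.IsBigO.of_bound (C / c1) ?_
      rw [eventually_inf_principal]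
      refine Eventually.of_forall fun z hz => ?_
      have hz' : 0 < z.re := hz
      have h1 := hb z hz'.le
      rw [Real.norm_of_nonneg (Real.exp_pos _).le, Real.rpow_one, one_mul]
      have h2 : 1 + ‖z‖ ≤ Real.exp ‖z‖ := by
        have := Real.add_one_le_exp ‖z‖
        linarith
      have h3 : Real.exp (-(z.re / 2)) ≤ 1 := Real.exp_le_one_iff.mpr (by linarith)
      have h4 : 0 ≤ C / c1 := by positivity
      calc ‖F z‖ ≤ C / c1 * (1 + ‖z‖) * Real.exp (-(z.re / 2)) := h1
        _ ≤ C / c1 * (1 + ‖z‖) * 1 := mul_le_mul_of_nonneg_left h3 (by positivity)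
        _ = C / c1 * (1 + ‖z‖) := mul_one _
        _ ≤ C / c1 * Real.exp ‖z‖ := mul_le_mul_of_nonneg_left h2 h4
    · refine ⟨2 * (C / c1), ?_⟩
      rw [eventually_map]
      filter_upwards [eventually_ge_atTop (0 : ℝ)] with x hx
      have h1 := hb (x : ℂ) (by simpa using hx)
      rw [Complex.ofReal_re, Complex.norm_real, Real.norm_of_nonneg hx] at h1
      have h2 : 1 + x ≤ 2 * Real.exp (x / 2) := by
        have := Real.add_one_le_exp (x / 2)
        linarith
      have h3 : Real.exp (x / 2) * Real.exp (-(x / 2)) = 1 := by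
        rw [← Real.exp_add]; simp
      have h4 : 0 ≤ C / c1 := by positivity
      calc ‖F x‖ ≤ C / c1 * (1 + x) * Real.exp (-(x / 2)) := h1
        _ ≤ C / c1 * (2 * Real.exp (x / 2)) * Real.exp (-(x / 2)) := by
            refine mul_le_mul_of_nonneg_right ?_ (Real.exp_pos _).le
            exact mul_le_mul_of_nonneg_left h2 h4
        _ = 2 * (C / c1) * (Real.exp (x / 2) * Real.exp (-(x / 2))) := by ring
        _ = 2 * (C / c1) := by rw [h3, mul_one]
    · intro x
      rw [hFn]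
      have h1 : V (-((x : ℂ) * Complex.I)) = (starRingEnd ℂ) (V ((x : ℂ) * Complex.I)) := by
        rw [← hc]
        congr 1
        simp
      have hre : ((x : ℂ) * Complex.I).re = 0 := by simp
      rw [h1, RCLike.norm_conj, hre, zero_div, Real.exp_zero, one_mul]
      exact div_self_le_one _
  rw [hFn, div_le_one (hpos l hl.le)] at key
  have h1 : 1 < Real.exp (l.re / 2) := Real.one_lt_exp_iff.mpr (by linarith)
  rcases (norm_nonneg (V (-l))).eq_or_lt with h0 | h0
  · rw [← h0]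
    exact hpos l hl.le
  · nlinarith

end Pool.Agent.Lib.MP_8382de_an.ET
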