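import Pool.Agent.Lib.MP_8382de_an.ET.Defs
import Pool.Agent.Lib.MP_8382de_an.Lag

/-!
# ET.TZr: an entire function of order `< 1` with only real negative zeros is in `T`

`f(z) = ∑ φ_k z^k` for all `z`, `φ_0 > 0`, `|f(z)| ≤ K exp(K |z|^(3/4))`, all zeros real and
negative. Then `T φ`.

Proof (compare `laguerre_disc` in `Lag.lean`, the same steps). For `R ≥ 2` let `S, n, g` be from
`factor_disc` : `f(z) = P(z) g(z)`, `P(z) = ∏_{u∈S} (z-u)^(n u)`, zeros `u` of `f` with `|u| ≤ R`, `g ≠ 0`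
for `|z| ≤ R`. `f(0) = φ_0 ≠ 0`, so `u ≠ 0`. For `|w| = 2R`: `|w-u| ≥ |u|`, so `|P(0)| ≤ |P(w)|` and
`|g(w)| ≤ |f(w)|/|P(0)| = |g(0)| |f(w)|/|f(0)| ≤ |g(0)| e^L`,
`L = L_R = log(K/φ_0) + K (2R)^(3/4)` (+1 to make it positive); by the maximum principle this holds for
`|z| ≤ 2R`. On the ball of radius `R`: `g(z) = g(0) e^(q(z))`, `q(0) = 0`, `Re q ≤ L`;
`Complex.borelCaratheodory_zero`: `|q(z)| ≤ 2 L |z|/(R-|z|) ≤ 4 L/R` for `|z| ≤ 1`. So `q → 0` uniformly
on the unit disc as `R → ∞` (`L_R/R → 0`).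
Put `p_R(z) = φ_0 P(z)/P(0) = φ_0 ∏ (1 - z/u)^(n u)`, a real polynomial (`u` real negative:
`1 - z/u = 1 + z/|u|`), `Neg p_R`: `p_R(0) = φ_0 > 0`, zeros `u`. And `p_R(z) = f(z) e^(-q(z))` on the
unit disc, so `sup_{|z| ≤ 1} |p_R - f| → 0`. Coefficients: if `h(z) = ∑ c_k z^k` is entire with
`|h| ≤ ε` on `|z| = 1` then `|c_k| ≤ ε` (Cauchy: `Complex.norm_iteratedDeriv_le_of_forall_mem_sphere_norm_le`,
or `c_k = (2πi)^(-1) ∮ h z^(-k-1)`). So the coefficients of `p_R` (`R = 2, 3, 4, ...`) tend to `φ_k`.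
-/

set_option autoImplicit false

namespace Pool.Agent.Lib.MP_8382de_an.ET

open Filter Topology ALG

private lemma entire_of_hasSum {c : ℕ → ℂ} {f : ℂ → ℂ}
    (hs : ∀ z : ℂ, HasSum (fun k : ℕ => c k * z ^ k) (f z)) :
    HasFPowerSeriesOnBall f (FormalMultilinearSeries.ofScalars ℂ c) 0 ⊤ := by
  refine ⟨?_, by simp, ?_⟩
  · rw [FormalMultilinearSeries.radius_eq_top_of_summable_norm]
    intro r
    have h1 := (hs (r : ℂ)).summable.norm
    refine h1.congr fun k => ?_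
    rw [FormalMultilinearSeries.ofScalars_norm, norm_mul, norm_pow]
    simp
  · intro y _
    have h1 := hs y
    rw [zero_add]
    refine h1.congr_fun ?_
    intro k
    rw [FormalMultilinearSeries.ofScalars_apply_eq]
    simp

private lemma diff_of_hasSum {c : ℕ → ℂ} {f : ℂ → ℂ}
    (hs : ∀ z : ℂ, HasSum (fun k : ℕ => c k * z ^ k) (f z)) : Differentiable ℂ f := by
  have h := (entire_of_hasSum hs).differentiableOn
  intro z
  exact (h z (by simp)).differentiableAt (by simp)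

private lemma coeff_le_of_hasSum {c : ℕ → ℂ} {f : ℂ → ℂ}
    (hs : ∀ z : ℂ, HasSum (fun k : ℕ => c k * z ^ k) (f z)) {ε : ℝ}
    (hb : ∀ z : ℂ, ‖z‖ = 1 → ‖f z‖ ≤ ε) (n : ℕ) : ‖c n‖ ≤ ε := by
  have hd := diff_of_hasSum hs
  have h1 : HasFPowerSeriesAt f (FormalMultilinearSeries.ofScalars ℂ c) 0 :=
    (entire_of_hasSum hs).hasFPowerSeriesAt
  have h2 := (hd.analyticAt 0).hasFPowerSeriesAt
  have h3 := h1.eq_formalMultilinearSeries h2
  have h4 := congrArg (fun p => FormalMultilinearSeries.coeff p n) h3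
  simp only [FormalMultilinearSeries.coeff_ofScalars] at h4
  have h5 := Complex.norm_iteratedDeriv_le_of_forall_mem_sphere_norm_le n
    (by norm_num : (0 : ℝ) < 1) (hd.diffContOnCl (s := Metric.ball (0 : ℂ) 1)) (C := ε) (by
      intro z hz
      rw [mem_sphere_iff_norm, sub_zero] at hz
      exact hb z hz)
  rw [h4, norm_div, Complex.norm_natCast]
  have hf : (0 : ℝ) < n.factorial := by exact_mod_cast n.factorial_pos
  rw [div_le_iff₀ hf]
  rw [one_pow, div_one] at h5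
  linarith

private lemma key {f : ℂ → ℂ} (hf : Differentiable ℂ f) (h0 : f 0 ≠ 0) {K : ℝ}
    (hK : ∀ z : ℂ, ‖f z‖ ≤ K * Real.exp (K * ‖z‖ ^ (3 / 4 : ℝ))) {R : ℝ} (hR : 2 ≤ R) :
    ∃ (S : Finset ℂ) (n : ℂ → ℕ) (g q : ℂ → ℂ),
      (∀ u ∈ S, f u = 0) ∧ (∀ z, f z = (∏ u ∈ S, (z - u) ^ n u) * g z) ∧
      ∀ z : ℂ, ‖z‖ ≤ 1 → g z = g 0 * Complex.exp (q z) ∧
        ‖q z‖ ≤ 4 * (Real.log (K / ‖f 0‖) + K * (2 * R) ^ (3 / 4 : ℝ) + 1) / R := by
  obtain ⟨S, n, g, hg, hS, hg0, hfg⟩ := factor_disc hf ⟨0, h0⟩ R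
  set P : ℂ → ℂ := fun z => ∏ u ∈ S, (z - u) ^ n u with hP
  have hR0 : 0 < R := by linarith
  have hg00 : g 0 ≠ 0 := hg0 0 (by simpa using hR0.le)
  have hP0 : P 0 ≠ 0 := by
    intro h
    apply h0
    rw [hfg 0]
    show P 0 * g 0 = 0
    rw [h, zero_mul]
  have hf0n : 0 < ‖f 0‖ := norm_pos_iff.mpr h0
  have hK1 : ‖f 0‖ ≤ K := by
    have := hK 0
    rw [norm_zero, Real.zero_rpow (by norm_num), mul_zero, Real.exp_zero, mul_one] at this
    exact this
  have hKpos : 0 < K := lt_of_lt_of_le hf0n hK1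
  have hlogK : 0 ≤ Real.log (K / ‖f 0‖) := Real.log_nonneg (by rw [one_le_div hf0n]; exact hK1)
  have hRp : 0 ≤ (2 * R) ^ (3 / 4 : ℝ) := by positivity
  set L := Real.log (K / ‖f 0‖) + K * (2 * R) ^ (3 / 4 : ℝ) + 1 with hL
  have hL0 : 0 < L := by
    have : 0 ≤ K * (2 * R) ^ (3 / 4 : ℝ) := by positivity
    rw [hL]; linarith
  have hfP : ∀ z, f z = P z * g z := hfg
  have hgM : ∀ z : ℂ, ‖z‖ ≤ 2 * R → ‖g z‖ ≤ ‖g 0‖ * Real.exp L := by
    intro z hz
    have hC : ∀ w ∈ frontier (Metric.ball (0 : ℂ) (2 * R)), ‖g w‖ ≤ ‖g 0‖ * Real.exp L := by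
      intro w hw
      rw [frontier_ball (0 : ℂ) (by positivity : 2 * R ≠ 0), mem_sphere_iff_norm, sub_zero] at hw
      have h1 : ‖P 0‖ ≤ ‖P w‖ := by
        simp only [hP, norm_prod, norm_pow]
        apply Finset.prod_le_prod (fun _ _ => by positivity)
        intro u hu
        apply pow_le_pow_left₀ (norm_nonneg _)
        have h2 := (hS u hu).2
        have h3 : ‖w‖ - ‖u‖ ≤ ‖w - u‖ := norm_sub_norm_le w u
        rw [zero_sub, norm_neg]
        linarith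
      have h4 := hK w
      rw [hfP w, norm_mul, hw] at h4
      have h5 : ‖P 0‖ * ‖g w‖ ≤ K * Real.exp (K * (2 * R) ^ (3 / 4 : ℝ)) :=
        (mul_le_mul_of_nonneg_right h1 (norm_nonneg _)).trans h4
      have hP0n : 0 < ‖P 0‖ := norm_pos_iff.mpr hP0
      have h6 : ‖f 0‖ = ‖P 0‖ * ‖g 0‖ := by rw [hfP 0, norm_mul]
      have h7 : K / ‖f 0‖ * Real.exp (K * (2 * R) ^ (3 / 4 : ℝ)) ≤ Real.exp L := by
        rw [hL, Real.exp_add, Real.exp_add, Real.exp_log (by positivity)]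
        have : (1 : ℝ) ≤ Real.exp 1 := Real.one_le_exp (by norm_num)
        exact le_mul_of_one_le_right (by positivity) this
      have h8 : ‖P 0‖ * (‖g 0‖ * (K / ‖f 0‖ * Real.exp (K * (2 * R) ^ (3 / 4 : ℝ)))) =
          K * Real.exp (K * (2 * R) ^ (3 / 4 : ℝ)) := by
        rw [← mul_assoc, ← h6]
        field_simp
      rw [← h8] at h5
      have h9 := le_of_mul_le_mul_left h5 hP0n
      exact h9.trans (mul_le_mul_of_nonneg_left h7 (norm_nonneg _))
    apply Complex.norm_le_of_forall_mem_frontier_norm_le Metric.isBounded_ball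
      hg.diffContOnCl hC
    rw [closure_ball (0 : ℂ) (by positivity : 2 * R ≠ 0)]
    simpa using hz
  have hld : DifferentiableOn ℂ (fun z => deriv g z / g z) (Metric.ball 0 R) := by
    intro z hz
    have hz' : ‖z‖ < R := by simpa using hz
    exact (((hg.deriv) z).div (hg z) (hg0 z hz'.le)).differentiableWithinAt
  obtain ⟨q, hq0, hq⟩ := hld.isExactOn_ball.with_val_at 0 0
  have hgq : ∀ z ∈ Metric.ball (0 : ℂ) R, g z = g 0 * Complex.exp (q z) := by
    intro z hz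
    have hder : ∀ z ∈ Metric.ball (0 : ℂ) R,
        HasDerivAt (fun z => g z * Complex.exp (-(q z))) 0 z := by
      intro z hz
      have hz' : ‖z‖ < R := by simpa using hz
      have e1 := (hg z).hasDerivAt
      have e2 := ((hq z hz).neg).cexp
      have e3 := e1.mul e2
      refine e3.congr_deriv ?_
      have := hg0 z hz'.le
      simp only [Pi.neg_apply]
      field_simp
      ring
    have h1 : g z * Complex.exp (-(q z)) = g 0 * Complex.exp (-(q 0)) := by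
      apply (convex_ball (0 : ℂ) R).is_const_of_fderivWithin_eq_zero (𝕜 := ℂ)
        (f := fun z => g z * Complex.exp (-(q z))) _ _ hz (Metric.mem_ball_self hR0)
      · intro w hw
        exact (hder w hw).differentiableAt.differentiableWithinAt
      · intro w hw
        rw [fderivWithin_of_isOpen Metric.isOpen_ball hw]
        have := (hder w hw).hasFDerivAt.fderiv
        rw [this]
        ext
        simp
    rw [hq0, neg_zero, Complex.exp_zero, mul_one] at h1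
    rw [← h1, mul_assoc, ← Complex.exp_add]
    simp
  have hqre : Set.MapsTo q (Metric.ball 0 R) {z | z.re ≤ L} := by
    intro z hz
    have hz' : ‖z‖ < R := by simpa using hz
    have h1 := hgM z (by linarith)
    rw [hgq z hz, norm_mul, Complex.norm_exp] at h1
    have h2 : 0 < ‖g 0‖ := norm_pos_iff.mpr hg00
    have h3 := le_of_mul_le_mul_left h1 h2
    exact Real.exp_le_exp.mp h3
  have hqd : DifferentiableOn ℂ q (Metric.ball 0 R) := fun z hz =>
    (hq z hz).differentiableAt.differentiableWithinAt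
  refine ⟨S, n, g, q, fun u hu => (hS u hu).1, hfg, ?_⟩
  intro z hz
  have hzb : z ∈ Metric.ball (0 : ℂ) R := by
    rw [mem_ball_iff_norm, sub_zero]
    linarith
  refine ⟨hgq z hzb, ?_⟩
  have h1 := Complex.borelCaratheodory_zero (f := q) hL0 hqd hqre hR0 hzb hq0
  refine h1.trans ?_
  rw [div_le_div_iff₀ (by linarith) hR0]
  have h2 : 2 * L * ‖z‖ ≤ 2 * L * 1 := mul_le_mul_of_nonneg_left hz (by linarith)
  have h3 : R / 2 ≤ R - ‖z‖ := by linarith
  nlinarith [mul_le_mul_of_nonneg_left h3 (by linarith : (0 : ℝ) ≤ 4 * L),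
    mul_le_mul_of_nonneg_right h2 hR0.le]

private lemma lim_zero (A K : ℝ) :
    Tendsto (fun R : ℝ => 4 * (A + K * (2 * R) ^ (3 / 4 : ℝ) + 1) / R) atTop (𝓝 0) := by
  have e : (fun R : ℝ => 4 * (A + K * (2 * R) ^ (3 / 4 : ℝ) + 1) / R) =ᶠ[atTop]
      fun R : ℝ => 4 * (A + 1) * R⁻¹ + 4 * K * (2 : ℝ) ^ (3 / 4 : ℝ) * R ^ (-(1 / 4) : ℝ) := by
    filter_upwards [eventually_gt_atTop 0] with R hR
    rw [Real.mul_rpow (by norm_num) hR.le]
    have h1 : R ^ (3 / 4 : ℝ) = R * R ^ (-(1 / 4) : ℝ) := by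
      rw [← Real.rpow_one_add' hR.le (by norm_num)]
      norm_num
    rw [h1]
    field_simp
    ring
  rw [tendsto_congr' e]
  have t1 : Tendsto (fun R : ℝ => R⁻¹) atTop (𝓝 0) := tendsto_inv_atTop_zero
  have t2 : Tendsto (fun R : ℝ => R ^ (-(1 / 4) : ℝ)) atTop (𝓝 0) :=
    tendsto_rpow_neg_atTop (by norm_num)
  have := (t1.const_mul (4 * (A + 1))).add (t2.const_mul (4 * K * (2 : ℝ) ^ (3 / 4 : ℝ)))
  simpa using this

private lemma approx {f : ℂ → ℂ} (hf : Differentiable ℂ f) {a : ℝ} (ha : 0 < a)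
    (h0 : f 0 = (a : ℂ)) {K : ℝ}
    (hK : ∀ z : ℂ, ‖f z‖ ≤ K * Real.exp (K * ‖z‖ ^ (3 / 4 : ℝ)))
    (hz : ∀ z : ℂ, f z = 0 → z.im = 0 ∧ z.re < 0) {ε : ℝ} (hε : 0 < ε) :
    ∃ p : Polynomial ℝ, Neg p ∧ ∀ z : ℂ, ‖z‖ = 1 → ‖Polynomial.aeval z p - f z‖ ≤ ε := by
  have h00 : f 0 ≠ 0 := by rw [h0]; exact_mod_cast ha.ne'
  have hK0 : 0 < K := by
    have h1 := hK 0
    rw [norm_zero, Real.zero_rpow (by norm_num), mul_zero, Real.exp_zero, mul_one] at h1
    exact lt_of_lt_of_le (norm_pos_iff.mpr h00) h1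
  set M : ℝ := K * Real.exp K with hM
  have hM0 : 0 < M := by positivity
  obtain ⟨R, hR⟩ := (((lim_zero (Real.log (K / ‖f 0‖)) K).eventually_lt_const
    (show (0 : ℝ) < min 1 (ε / (2 * M)) by positivity)).and (eventually_ge_atTop 2)).exists
  obtain ⟨hR1, hR2⟩ := hR
  obtain ⟨S, n, g, q, hS, hfg, hgq⟩ := key hf h00 hK hR2
  have hSr : ∀ u ∈ S, u = ((u.re : ℝ) : ℂ) := fun u hu =>
    Complex.ext (by simp) (by simp [(hz u (hS u hu)).1])
  have hSn : ∀ u ∈ S, u.re < 0 := fun u hu => (hz u (hS u hu)).2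
  set p : Polynomial ℝ := Polynomial.C a *
    ∏ u ∈ S, (1 - Polynomial.C (u.re)⁻¹ * Polynomial.X) ^ n u with hp
  have hpz : ∀ z : ℂ, Polynomial.aeval z p = (a : ℂ) * ∏ u ∈ S, (1 - (u.re : ℂ)⁻¹ * z) ^ n u := by
    intro z
    rw [hp]
    simp [map_prod]
  have hprod : ∀ z : ℂ, (∏ u ∈ S, (z - u) ^ n u) =
      (∏ u ∈ S, ((0 : ℂ) - u) ^ n u) * ∏ u ∈ S, (1 - (u.re : ℂ)⁻¹ * z) ^ n u := by
    intro z
    rw [← Finset.prod_mul_distrib]
    apply Finset.prod_congr rfl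
    intro u hu
    rw [← mul_pow]
    congr 1
    have h1 : (u.re : ℂ) ≠ 0 := by exact_mod_cast (hSn u hu).ne
    have h2 := hSr u hu
    rw [← h2]
    have h3 : u ≠ 0 := by rw [h2]; exact h1
    field_simp
    ring
  have hpg : ∀ z : ℂ, Polynomial.aeval z p = g 0 * ∏ u ∈ S, (z - u) ^ n u := by
    intro z
    rw [hpz, hprod z, ← h0, hfg 0]
    ring
  have hg0 : g 0 ≠ 0 := by
    intro h
    apply h00
    rw [hfg 0, h, mul_zero]
  refine ⟨p, ⟨?_, ?_⟩, ?_⟩
  · rw [Polynomial.coeff_zero_eq_eval_zero, hp]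
    simp [Polynomial.eval_prod, ha]
  · intro z hz0
    rw [hpg z] at hz0
    have h1 := (mul_eq_zero.mp hz0).resolve_left hg0
    apply hz z
    rw [hfg z, h1, zero_mul]
  · intro z hz1
    obtain ⟨h1, h2⟩ := hgq z hz1.le
    have h3 : Polynomial.aeval z p - f z = f z * (Complex.exp (-(q z)) - 1) := by
      have h4 : Complex.exp (q z) * Complex.exp (-(q z)) = 1 := by
        rw [← Complex.exp_add]; simp
      rw [hpg z, hfg z, h1]
      linear_combination (-(∏ u ∈ S, (z - u) ^ n u) * g 0) * h4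
    have h5 : ‖-(q z)‖ ≤ 1 := by
      rw [norm_neg]
      exact h2.trans (hR1.le.trans (min_le_left _ _))
    have h6 : ‖q z‖ ≤ ε / (2 * M) := h2.trans (hR1.le.trans (min_le_right _ _))
    have h7 := Complex.norm_exp_sub_one_le h5
    rw [norm_neg] at h7
    have h8 : ‖f z‖ ≤ M := by
      have := hK z
      rw [hz1, Real.one_rpow, mul_one] at this
      exact this
    rw [h3, norm_mul]
    calc ‖f z‖ * ‖Complex.exp (-(q z)) - 1‖ ≤ M * (2 * (ε / (2 * M))) := by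
          apply mul_le_mul h8 (h7.trans (by linarith)) (norm_nonneg _) hM0.le
      _ = ε := by field_simp

theorem T_of_zeros {φ : ℕ → ℝ} {f : ℂ → ℂ}
    (hs : ∀ z : ℂ, HasSum (fun k : ℕ => ((φ k : ℝ) : ℂ) * z ^ k) (f z)) (h0 : 0 < φ 0) {K : ℝ}
    (hK : ∀ z : ℂ, ‖f z‖ ≤ K * Real.exp (K * ‖z‖ ^ (3 / 4 : ℝ)))
    (hz : ∀ z : ℂ, f z = 0 → z.im = 0 ∧ z.re < 0) : T φ := by
  have hd := diff_of_hasSum hs
  have hf0 : f 0 = ((φ 0 : ℝ) : ℂ) := by
    have h1 := hs 0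
    have h2 : HasSum (fun k : ℕ => ((φ k : ℝ) : ℂ) * (0 : ℂ) ^ k) ((φ 0 : ℝ) : ℂ) := by
      have := hasSum_single (f := fun k : ℕ => ((φ k : ℝ) : ℂ) * (0 : ℂ) ^ k) 0 (by
        intro k hk
        rw [zero_pow hk, mul_zero])
      simpa using this
    exact h1.unique h2
  have hex : ∀ m : ℕ, ∃ p : Polynomial ℝ, Neg p ∧
      ∀ z : ℂ, ‖z‖ = 1 → ‖Polynomial.aeval z p - f z‖ ≤ 1 / ((m : ℝ) + 1) := fun m =>
    approx hd h0 hf0 hK hz (by positivity)
  choose p hp1 hp2 using hex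
  refine ⟨p, hp1, fun k => ?_⟩
  have hb : ∀ m : ℕ, |(p m).coeff k - φ k| ≤ 1 / ((m : ℝ) + 1) := by
    intro m
    have h1 : ∀ z : ℂ, HasSum (fun j : ℕ => ((((p m).coeff j - φ j : ℝ)) : ℂ) * z ^ j)
        (Polynomial.aeval z (p m) - f z) := by
      intro z
      have h2 : HasSum (fun j : ℕ => (((p m).coeff j : ℝ) : ℂ) * z ^ j)
          (Polynomial.aeval z (p m)) := by
        have h3 : HasSum (fun j : ℕ => (((p m).coeff j : ℝ) : ℂ) * z ^ j)
            (∑ j ∈ Finset.range ((p m).natDegree + 1), (((p m).coeff j : ℝ) : ℂ) * z ^ j) :=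
          hasSum_sum_of_ne_finset_zero (by
            intro j hj
            rw [Polynomial.coeff_eq_zero_of_natDegree_lt (by
              simp only [Finset.mem_range] at hj; omega)]
            simp)
        rw [Polynomial.aeval_eq_sum_range]
        simpa [Algebra.smul_def] using h3
      have h3 := h2.sub (hs z)
      refine h3.congr_fun ?_
      intro j
      push_cast
      ring
    have h2 := coeff_le_of_hasSum h1 (hp2 m) k
    rwa [Complex.norm_real, Real.norm_eq_abs] at h2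
  have h3 : Tendsto (fun m : ℕ => (p m).coeff k - φ k) atTop (𝓝 0) :=
    squeeze_zero_norm hb tendsto_one_div_add_atTop_nhds_zero_nat
  have h4 := h3.add_const (φ k)
  simpa using h4

end Pool.Agent.Lib.MP_8382de_an.ET
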