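import Pool.Agent.Lib.MP_8382de_an.ET.Per
import Pool.Agent.Lib.MP_8382de_an.ET.EnB
import Pool.Agent.Lib.MP_8382de_an.ET.PLa
import Pool.Agent.Lib.MP_8382de_an.ET.PLb
import Pool.Agent.Lib.MP_8382de_an.ET.Evn
import Pool.Agent.Lib.MP_8382de_an.ET.TZr

/-!
# ET.Cor: the core theorem

Proof. `V = VV n σ₁ σ₂`, `a_j = NN n (j/2) GG σ₁ σ₂ (j/2) > 0`, `q` total mass `< 5/9`, `c0 = 5/9 - q`.
`pl_lower`: `hC` from `VV_bd` (`‖exp(-l) V l‖ = e^(-Re l) ‖V l‖`), `h0`: `V 0 = a_0 = GG 0 ≥ 1 - q > c0`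
(`VV_hasSum` at `0`, `NN n 0 = 1`, `GG_pos`), `hp`: `V x = ∑ a_j x^j/j! ≥ 0`, `hb`: `pert`.
`pl_hb` with `c1 = c0/2`, `hneg`: `VV_bd` at `-l` (`max (-Re l) 0 = 0`). `even_hasSum`, `even_zeros`.
Define `f(z) = ∑' k, (a_{2k}/(2k)!) z^k`: every `z` is `l²`, so the series has sum `(V l + V(-l))/2`.
`T_of_zeros`: `‖f(z)‖ ≤ (1+q)(1 + C₀|z|^(1/2)) e^(|z|^(1/2))` (`VV_bd`, `‖l‖ = |z|^(1/2)`) `≤ K exp(K
|z|^(3/4))` for large `K` (`|z|^(1/2) ≤ 1 + |z|^(3/4)`, `1 + C₀ r ≤ (1+C₀) e^r`). Finally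
`NN n ((2k : ℝ)/2) = NN n k` by `push_cast` and `mul_div_cancel_left₀`.
-/

set_option autoImplicit false

namespace Pool.Agent.Lib.MP_8382de_an.ET

open MeasureTheory Set ALG

private theorem NN_pos {n : ℝ → ℝ} (hn : Cls n) {y : ℝ} (hy : 0 ≤ y) : 1 ≤ NN n y := by
  unfold NN
  have h : 0 ≤ ∫ t in Ioi (0 : ℝ), Real.exp (-(y * t)) * n t := by
    refine setIntegral_nonneg measurableSet_Ioi fun t ht => ?_
    exact mul_nonneg (Real.exp_nonneg _) (hn.1 t ht)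
  nlinarith [mul_nonneg hy h]

private theorem C0_nonneg {n : ℝ → ℝ} (hn : Cls n) :
    0 ≤ ∫ t in Ioi (0 : ℝ), Real.exp (-t / 2) * n t :=
  setIntegral_nonneg measurableSet_Ioi fun t ht => mul_nonneg (Real.exp_nonneg _) (hn.1 t ht)

private theorem r_le (r : ℝ) (hr : 0 ≤ r) : r ≤ 1 + (r ^ 2) ^ (3 / 4 : ℝ) := by
  have h0 : 0 ≤ (r ^ 2) ^ (3 / 4 : ℝ) := by positivity
  rcases le_total r 1 with h | h
  · linarith
  · have h1 : (1 : ℝ) ≤ r ^ 2 := by nlinarith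
    have h2 : (r ^ 2) ^ (1 / 2 : ℝ) ≤ (r ^ 2) ^ (3 / 4 : ℝ) :=
      Real.rpow_le_rpow_of_exponent_le h1 (by norm_num)
    have h3 : (r ^ 2) ^ (1 / 2 : ℝ) = r := by
      rw [← Real.sqrt_eq_rpow, Real.sqrt_sq hr]
    linarith

theorem core {n : ℝ → ℝ} (hn : Cls n) {σ₁ σ₂ : Measure ℝ} [IsFiniteMeasure σ₁]
    [IsFiniteMeasure σ₂] (h₁ : σ₁ (Iic 0) = 0) (h₂ : σ₂ (Iic 0) = 0)
    (hq : σ₁.real univ + σ₂.real univ < 5 / 9) :
    T (fun k : ℕ => NN n (k : ℝ) * GG σ₁ σ₂ (k : ℝ) / ((2 * k).factorial : ℝ)) := by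
  set q : ℝ := σ₁.real univ + σ₂.real univ with hqdef
  have hq0 : 0 ≤ q := add_nonneg measureReal_nonneg measureReal_nonneg
  set C₀ : ℝ := ∫ t in Ioi (0 : ℝ), Real.exp (-t / 2) * n t with hC0def
  have hC0 : 0 ≤ C₀ := C0_nonneg hn
  set V : ℂ → ℂ := VV n σ₁ σ₂ with hVdef
  set a : ℕ → ℝ := fun j => NN n ((j : ℝ) / 2) * GG σ₁ σ₂ ((j : ℝ) / 2) with hadef
  have hs : ∀ l : ℂ, HasSum (fun j : ℕ => ((a j : ℝ) : ℂ) * l ^ j / (j.factorial : ℂ)) (V l) :=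
    fun l => VV_hasSum hn h₁ h₂ l
  have hapos : ∀ j, 0 < a j := by
    intro j
    have h1 := NN_pos hn (y := (j : ℝ) / 2) (by positivity)
    have h2 := GG_pos (σ₁ := σ₁) h₂ hq (y := (j : ℝ) / 2) (by positivity)
    exact mul_pos (by linarith) (by linarith)
  have hbd : ∀ l : ℂ, ‖V l‖ ≤ (1 + q) * ((1 + C₀ * ‖l‖) * Real.exp (max l.re 0)) :=
    fun l => VV_bd hn h₁ h₂ l
  have hlin : ∀ r : ℝ, 0 ≤ r → 1 + C₀ * r ≤ (1 + C₀) * (1 + r) := by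
    intro r hr
    nlinarith [mul_nonneg hC0 hr]
  -- bound in the right half plane
  have hC : ∀ l : ℂ, 0 ≤ l.re →
      ‖Complex.exp (-l) * V l‖ ≤ ((1 + q) * (1 + C₀)) * (1 + ‖l‖) := by
    intro l hl
    have h1 := hbd l
    rw [max_eq_left hl] at h1
    rw [norm_mul, Complex.norm_exp, Complex.neg_re]
    have h2 : Real.exp (-l.re) * Real.exp l.re = 1 := by rw [← Real.exp_add]; simp
    calc Real.exp (-l.re) * ‖V l‖
        ≤ Real.exp (-l.re) * ((1 + q) * ((1 + C₀ * ‖l‖) * Real.exp l.re)) := by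
          exact mul_le_mul_of_nonneg_left h1 (Real.exp_nonneg _)
      _ = (1 + q) * (1 + C₀ * ‖l‖) * (Real.exp (-l.re) * Real.exp l.re) := by ring
      _ = (1 + q) * (1 + C₀ * ‖l‖) := by rw [h2, mul_one]
      _ ≤ (1 + q) * ((1 + C₀) * (1 + ‖l‖)) :=
          mul_le_mul_of_nonneg_left (hlin _ (norm_nonneg _)) (by linarith)
      _ = ((1 + q) * (1 + C₀)) * (1 + ‖l‖) := by ring
  have hneg : ∀ l : ℂ, 0 ≤ l.re → ‖V (-l)‖ ≤ ((1 + q) * (1 + C₀)) * (1 + ‖l‖) := by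
    intro l hl
    have h1 := hbd (-l)
    rw [Complex.neg_re, norm_neg, max_eq_right (by linarith), Real.exp_zero, mul_one] at h1
    calc ‖V (-l)‖ ≤ (1 + q) * (1 + C₀ * ‖l‖) := h1
      _ ≤ (1 + q) * ((1 + C₀) * (1 + ‖l‖)) :=
          mul_le_mul_of_nonneg_left (hlin _ (norm_nonneg _)) (by linarith)
      _ = ((1 + q) * (1 + C₀)) * (1 + ‖l‖) := by ring
  have hV0 : V 0 = ((a 0 : ℝ) : ℂ) := by
    have h1 := hs 0
    have h2 : HasSum (fun j : ℕ => ((a j : ℝ) : ℂ) * (0 : ℂ) ^ j / (j.factorial : ℂ))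
        (((a 0 : ℝ) : ℂ) * (0 : ℂ) ^ 0 / ((0 : ℕ).factorial : ℂ)) :=
      hasSum_single 0 fun j hj => by rw [zero_pow hj, mul_zero, zero_div]
    have h3 := h1.unique h2
    rw [h3]
    simp
  have ha0 : 1 - q ≤ a 0 := by
    have h1 := NN_pos hn (y := ((0 : ℕ) : ℝ) / 2) (by positivity)
    have h2 := GG_pos (σ₁ := σ₁) h₂ hq (y := ((0 : ℕ) : ℝ) / 2) (by positivity)
    have h3 : 0 < GG σ₁ σ₂ (((0 : ℕ) : ℝ) / 2) := by linarith
    change 1 - q ≤ NN n (((0 : ℕ) : ℝ) / 2) * GG σ₁ σ₂ (((0 : ℕ) : ℝ) / 2)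
    nlinarith
  have h0 : 5 / 9 - q < (V 0).re := by
    rw [hV0, Complex.ofReal_re]
    linarith
  have hp : ∀ x : ℝ, 0 ≤ x → 0 ≤ (V (x : ℂ)).re := by
    intro x hx
    have h1 := Complex.hasSum_re (hs (x : ℂ))
    refine h1.nonneg fun j => ?_
    have h2 : ((a j : ℝ) : ℂ) * (x : ℂ) ^ j / (j.factorial : ℂ) =
        ((a j * x ^ j / (j.factorial : ℝ) : ℝ) : ℂ) := by
      push_cast
      rfl
    rw [h2, Complex.ofReal_re]
    have := (hapos j).le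
    positivity
  have hlow := pl_lower (V := V) (VV_diff hn h₁ h₂) (VV_conj hn h₁ h₂) hC (c0 := 5 / 9 - q)
    (by linarith) h0 hp (fun τ hτ => pert hn h₁ h₂ hq hτ)
  have hlt := pl_hb (V := V) (VV_diff hn h₁ h₂) (VV_conj hn h₁ h₂) (c1 := (5 / 9 - q) / 2)
    (by linarith) hlow hneg
  -- the even part
  have hev : ∀ z : ℂ, ∃ l : ℂ, l ^ 2 = z ∧
      HasSum (fun k : ℕ => ((a (2 * k) / ((2 * k).factorial : ℝ) : ℝ) : ℂ) * z ^ k)
        ((V l + V (-l)) / 2) := by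
    intro z
    obtain ⟨l, hl⟩ := IsAlgClosed.exists_pow_nat_eq z (n := 2) (by norm_num)
    refine ⟨l, hl, ?_⟩
    have h1 := even_hasSum hs l
    rw [hl] at h1
    exact h1
  have hfs : ∀ z : ℂ, HasSum (fun k : ℕ => ((a (2 * k) / ((2 * k).factorial : ℝ) : ℝ) : ℂ) * z ^ k)
      (∑' k : ℕ, ((a (2 * k) / ((2 * k).factorial : ℝ) : ℝ) : ℂ) * z ^ k) := by
    intro z
    obtain ⟨l, _, h1⟩ := hev z
    exact h1.summable.hasSum
  set D : ℝ := (1 + q) * (1 + C₀) with hDdef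
  have hD1 : 1 ≤ D := by
    rw [hDdef]
    nlinarith [mul_nonneg hq0 hC0]
  have hK : ∀ z : ℂ, ‖∑' k : ℕ, ((a (2 * k) / ((2 * k).factorial : ℝ) : ℝ) : ℂ) * z ^ k‖ ≤
      (D * Real.exp 2 + 2) * Real.exp ((D * Real.exp 2 + 2) * ‖z‖ ^ (3 / 4 : ℝ)) := by
    intro z
    obtain ⟨l, hl, h1⟩ := hev z
    rw [h1.tsum_eq]
    have hzl : ‖z‖ = ‖l‖ ^ 2 := by rw [← hl, norm_pow]
    have hr0 : 0 ≤ ‖l‖ := norm_nonneg l
    have hVb : ∀ w : ℂ, ‖w‖ = ‖l‖ → ‖V w‖ ≤ D * Real.exp (2 * ‖l‖) := by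
      intro w hw
      have h2 := hbd w
      have h3 : max w.re 0 ≤ ‖l‖ := by
        refine max_le ?_ hr0
        rw [← hw]
        exact (le_abs_self _).trans (Complex.abs_re_le_norm w)
      rw [hw] at h2
      have h4 : 1 + ‖l‖ ≤ Real.exp ‖l‖ := by
        have := Real.add_one_le_exp ‖l‖
        linarith
      calc ‖V w‖ ≤ (1 + q) * ((1 + C₀ * ‖l‖) * Real.exp (max w.re 0)) := h2
        _ ≤ (1 + q) * (((1 + C₀) * (1 + ‖l‖)) * Real.exp ‖l‖) := by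
            refine mul_le_mul_of_nonneg_left ?_ (by linarith)
            refine mul_le_mul (hlin _ hr0) (Real.exp_le_exp.mpr h3) (Real.exp_nonneg _) ?_
            positivity
        _ ≤ (1 + q) * (((1 + C₀) * Real.exp ‖l‖) * Real.exp ‖l‖) := by
            gcongr
        _ = D * (Real.exp ‖l‖ * Real.exp ‖l‖) := by rw [hDdef]; ring
        _ = D * Real.exp (2 * ‖l‖) := by
            rw [← Real.exp_add]
            congr 2
            ring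
    have h5 : ‖(V l + V (-l)) / 2‖ ≤ D * Real.exp (2 * ‖l‖) := by
      rw [norm_div, Complex.norm_ofNat]
      have h6 := hVb l rfl
      have h7 := hVb (-l) (norm_neg l)
      have h8 := norm_add_le (V l) (V (-l))
      linarith
    refine h5.trans ?_
    have hs0 : 0 ≤ ‖z‖ ^ (3 / 4 : ℝ) := by positivity
    have h9 : 2 * ‖l‖ ≤ 2 + 2 * ‖z‖ ^ (3 / 4 : ℝ) := by
      have := r_le ‖l‖ hr0
      rw [hzl]
      linarith
    have hDe : 0 ≤ D * Real.exp 2 := by positivity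
    calc D * Real.exp (2 * ‖l‖) ≤ D * Real.exp (2 + 2 * ‖z‖ ^ (3 / 4 : ℝ)) := by gcongr
      _ = (D * Real.exp 2) * Real.exp (2 * ‖z‖ ^ (3 / 4 : ℝ)) := by rw [Real.exp_add]; ring
      _ ≤ (D * Real.exp 2 + 2) * Real.exp ((D * Real.exp 2 + 2) * ‖z‖ ^ (3 / 4 : ℝ)) := by
          refine mul_le_mul (by linarith) (Real.exp_le_exp.mpr ?_) (Real.exp_nonneg _) (by linarith)
          exact mul_le_mul_of_nonneg_right (by linarith) hs0
  have hfin := T_of_zeros (φ := fun k => a (2 * k) / ((2 * k).factorial : ℝ)) hfs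
    (by
      have := hapos (2 * 0)
      positivity) hK
    (by
      intro z hz
      refine even_zeros (hapos 0) hs hlt (x := z) ?_
      have := hfs z
      rwa [hz] at this)
  have he : (fun k : ℕ => NN n (k : ℝ) * GG σ₁ σ₂ (k : ℝ) / ((2 * k).factorial : ℝ)) =
      fun k => a (2 * k) / ((2 * k).factorial : ℝ) := by
    funext k
    have h1 : (((2 * k : ℕ) : ℝ)) / 2 = (k : ℝ) := by
      push_cast
      ring
    rw [hadef]
    simp only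
    rw [h1]
  rw [he]
  exact hfin

end Pool.Agent.Lib.MP_8382de_an.ET
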