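import Pool.Agent.Lib.MP_8382de_an.ALG.Main

/-!
# MP_8382de_an, module ET.Defs (complete, do not change)

Exact threshold `c ≥ a+b+1` for small `d`.

* `Fr X = ∫_0^X ξ^(-12/25) e^(-iξ) dξ` (Fresnel type integral).
* `Cls n` : `n ≥ 0` on `(0,∞)`, `t^(12/25) n(t)` nonincreasing, `e^(-t/2) n(t)` integrable.
* `NN n y = 1 + y ∫_0^∞ e^(-yt) n(t) dt`.
* `GG σ₁ σ₂ y = 1 + ∫ e^(-yt) dσ₁ - ∫ e^(-yt) dσ₂`.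
* `V0 n l = e^l + (l/2) ∫_0^∞ n(t) e^(-t/2) exp(l e^(-t/2)) dt = ∑_j NN n (j/2) l^j/j!`.
* `VV n σ₁ σ₂ l = V0 n l + ∫ V0 n (e^(-t/2) l) dσ₁(t) - ∫ V0 n (e^(-t/2) l) dσ₂(t)`
  `= ∑_j NN n (j/2) GG σ₁ σ₂ (j/2) l^j/j!`.
* `XX β t = 1/(e^(t/β)-1)`, `EE m e t = XX (m+1+e) - XX m - XX 2 + XX 1 - XX (2e) + XX e`.
* `KL α u = α log(α/u) + (1-α) log((1-α)/(1-u))`.
-/

set_option autoImplicit false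

namespace Pool.Agent.Lib.MP_8382de_an.ET

open MeasureTheory Set Filter Topology

/-- `∫_0^X ξ^(-12/25) e^(-iξ) dξ` -/
noncomputable def Fr (X : ℝ) : ℂ :=
  ∫ ξ in (0 : ℝ)..X, ((ξ ^ (-(12 / 25 : ℝ)) : ℝ) : ℂ) * Complex.exp (-((ξ : ℂ) * Complex.I))

/-- the class of tails -/
def Cls (n : ℝ → ℝ) : Prop :=
  (∀ t, 0 < t → 0 ≤ n t) ∧
  (∀ s t, 0 < s → s ≤ t → t ^ (12 / 25 : ℝ) * n t ≤ s ^ (12 / 25 : ℝ) * n s) ∧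
  IntegrableOn (fun t => Real.exp (-t / 2) * n t) (Ioi 0)

/-- `1 + y ∫ e^(-yt) n(t) dt` -/
noncomputable def NN (n : ℝ → ℝ) (y : ℝ) : ℝ :=
  1 + y * ∫ t in Ioi (0 : ℝ), Real.exp (-(y * t)) * n t

/-- `1 + ∫ e^(-yt) dσ₁ - ∫ e^(-yt) dσ₂` -/
noncomputable def GG (σ₁ σ₂ : Measure ℝ) (y : ℝ) : ℝ :=
  1 + (∫ t, Real.exp (-(y * t)) ∂σ₁) - ∫ t, Real.exp (-(y * t)) ∂σ₂

/-- `∑_j NN n (j/2) l^j/j!` -/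
noncomputable def V0 (n : ℝ → ℝ) (l : ℂ) : ℂ :=
  Complex.exp l + l / 2 * ∫ t in Ioi (0 : ℝ),
    ((Real.exp (-t / 2) * n t : ℝ) : ℂ) * Complex.exp (l * ((Real.exp (-t / 2) : ℝ) : ℂ))

/-- `∑_j NN n (j/2) GG σ₁ σ₂ (j/2) l^j/j!` -/
noncomputable def VV (n : ℝ → ℝ) (σ₁ σ₂ : Measure ℝ) (l : ℂ) : ℂ :=
  V0 n l + (∫ t, V0 n (((Real.exp (-t / 2) : ℝ) : ℂ) * l) ∂σ₁)
    - ∫ t, V0 n (((Real.exp (-t / 2) : ℝ) : ℂ) * l) ∂σ₂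

/-- `1/(e^(t/β)-1)` -/
noncomputable def XX (β t : ℝ) : ℝ := 1 / (Real.exp (t / β) - 1)

/-- `∑ ± XX` -/
noncomputable def EE (m e t : ℝ) : ℝ :=
  XX (m + 1 + e) t - XX m t - XX 2 t + XX 1 t - XX (2 * e) t + XX e t

/-- Kullback-Leibler function -/
noncomputable def KL (α u : ℝ) : ℝ :=
  α * Real.log (α / u) + (1 - α) * Real.log ((1 - α) / (1 - u))

end Pool.Agent.Lib.MP_8382de_an.ET
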