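import Pool.Agent.Lib.MP_8382de_an.ET.Defs

/-!
# ET.EIn: integrability of `EE m e t / t`

For `v > 0`: `|1/(e^v-1) - 1/v + 1/2| ≤ v` (for `v ≤ 1` from `e^v - 1 = v + v²/2 + r`, `0 ≤ r ≤ v³`
(e.g. `Real.exp_bound'`); for `v ≥ 1` the left side is `≤ 1`). Since
`XX β t = 1/(e^(t/β)-1)`, `(m+1+e) - m - 2 + 1 - 2e + e = 0` and the number of `+` and `-` signs is
equal, `EE m e t = ∑ ± (XX β t - β/t + 1/2)`, so `|EE m e t| ≤ C t` for all `t > 0`: `EE/t` is bounded
on `(0,1]`. For `t ≥ 1`: `0 ≤ XX β t ≤ C_β e^(-t/β)` with `C_β = 1/(1-e^(-1/β))`, so `|EE/t| ≤` sum of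
exponentials, integrable on `[1,∞)`. Measurability: continuous on `(0,∞)`.
-/

set_option autoImplicit false

namespace Pool.Agent.Lib.MP_8382de_an.ET

open MeasureTheory Set

private theorem EIn_exp_pos {v : ℝ} (hv : 0 < v) : 0 < Real.exp v - 1 := by
  have := Real.add_one_lt_exp hv.ne'
  linarith

private theorem EIn_bd {v : ℝ} (hv : 0 < v) :
    |1 / (Real.exp v - 1) - 1 / v + 1 / 2| ≤ v := by
  have hp := EIn_exp_pos hv
  rcases le_or_gt v 1 with h1 | h1
  · have hlow : 1 + v + v ^ 2 / 2 ≤ Real.exp v := Real.quadratic_le_exp_of_nonneg hv.le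
    have hup : Real.exp v ≤ 1 + v + v ^ 2 / 2 + 2 / 9 * v ^ 3 := by
      have h := Real.exp_bound' hv.le h1 (n := 3) (by norm_num)
      simp only [Finset.sum_range_succ, Finset.sum_range_zero, Nat.factorial] at h
      norm_num at h
      linarith
    rw [abs_le]
    constructor
    · have h2 : 1 / (v + v ^ 2 / 2 + 2 / 9 * v ^ 3) ≤ 1 / (Real.exp v - 1) :=
        one_div_le_one_div_of_le hp (by linarith)
      have h3 : 1 / v - 1 / 2 - v ≤ 1 / (v + v ^ 2 / 2 + 2 / 9 * v ^ 3) := by
        rw [le_div_iff₀ (by positivity)]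
        have e : (1 / v - 1 / 2 - v) * (v + v ^ 2 / 2 + 2 / 9 * v ^ 3) =
            (1 - v / 2 - v ^ 2) * (1 + v / 2 + 2 / 9 * v ^ 2) := by
          field_simp
        rw [e]
        nlinarith [pow_pos hv 2, pow_pos hv 3, pow_pos hv 4]
      linarith
    · have h2 : 1 / (Real.exp v - 1) ≤ 1 / (v + v ^ 2 / 2) :=
        one_div_le_one_div_of_le (by positivity) (by linarith)
      have h3 : 1 / (v + v ^ 2 / 2) ≤ 1 / v - 1 / 2 + v := by
        rw [div_le_iff₀ (by positivity)]
        have e : (1 / v - 1 / 2 + v) * (v + v ^ 2 / 2) =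
            (1 - v / 2 + v ^ 2) * (1 + v / 2) := by
          field_simp
        rw [e]
        nlinarith [pow_pos hv 2, pow_pos hv 3]
      linarith
  · have h2 : v ≤ Real.exp v - 1 := by
      have := Real.add_one_le_exp v
      linarith
    have h3 : 1 / (Real.exp v - 1) ≤ 1 / v := one_div_le_one_div_of_le hv h2
    have h4 : 0 ≤ 1 / (Real.exp v - 1) := by positivity
    have h5 : 1 / v ≤ 1 := by
      rw [div_le_one hv]; exact h1.le
    rw [abs_le]
    constructor <;> linarith

private theorem EIn_XX_bd {β t : ℝ} (hβ : 0 < β) (ht : 0 < t) :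
    |XX β t - β / t + 1 / 2| ≤ t / β := by
  have h := EIn_bd (div_pos ht hβ)
  have e : 1 / (t / β) = β / t := by rw [one_div_div]
  rw [e] at h
  exact h

private theorem EIn_meas (β : ℝ) : Measurable (fun t : ℝ => XX β t) := by
  unfold XX
  fun_prop

private theorem EIn_int1 {β : ℝ} (hβ : 0 < β) :
    IntegrableOn (fun t : ℝ => XX β t / t) (Ioi 1) := by
  have hq : 0 < 1 - Real.exp (-(1 / β)) := by
    have : Real.exp (-(1 / β)) < 1 := by
      rw [Real.exp_lt_one_iff]
      have : 0 < 1 / β := by positivity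
      linarith
    linarith
  have hint : IntegrableOn (fun t : ℝ => (1 / (1 - Real.exp (-(1 / β)))) *
      Real.exp (-(1 / β) * t)) (Ioi 1) := by
    have h := integrableOn_exp_mul_Ioi (a := -(1 / β))
      (by have : 0 < 1 / β := by positivity
          linarith) 1
    exact h.const_mul _
  refine Integrable.mono' hint ?_ ?_
  · exact ((EIn_meas β).div measurable_id).aestronglyMeasurable
  · rw [ae_restrict_iff' measurableSet_Ioi]
    filter_upwards with t ht
    have ht1 : 1 < t := ht
    have ht0 : 0 < t := by linarith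
    have hp := EIn_exp_pos (div_pos ht0 hβ)
    have hx : 0 ≤ XX β t := by unfold XX; positivity
    have h1 : XX β t / t ≤ XX β t := div_le_self hx ht1.le
    rw [Real.norm_of_nonneg (by positivity)]
    refine h1.trans ?_
    unfold XX
    rw [div_le_iff₀ hp]
    have e1 : Real.exp (-(1 / β) * t) * Real.exp (t / β) = 1 := by
      rw [← Real.exp_add]
      have : -(1 / β) * t + t / β = 0 := by ring
      rw [this, Real.exp_zero]
    have e2 : 1 / (1 - Real.exp (-(1 / β))) * Real.exp (-(1 / β) * t) * (Real.exp (t / β) - 1) =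
        (1 - Real.exp (-(1 / β) * t)) / (1 - Real.exp (-(1 / β))) := by
      have : 1 / (1 - Real.exp (-(1 / β))) * Real.exp (-(1 / β) * t) * (Real.exp (t / β) - 1) =
        (Real.exp (-(1 / β) * t) * Real.exp (t / β) - Real.exp (-(1 / β) * t)) /
          (1 - Real.exp (-(1 / β))) := by ring
      rw [this, e1]
    rw [e2, le_div_iff₀ hq]
    have e3 : Real.exp (-(1 / β) * t) ≤ Real.exp (-(1 / β)) := by
      apply Real.exp_le_exp.2
      have : 0 < 1 / β := by positivity
      nlinarith
    linarith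

theorem EE_int {m e : ℝ} (hm : 0 < m) (he : 0 < e) :
    IntegrableOn (fun t : ℝ => EE m e t / t) (Ioi 0) := by
  rw [← Ioc_union_Ioi_eq_Ioi (zero_le_one' ℝ)]
  refine IntegrableOn.union ?_ ?_
  · refine Measure.integrableOn_of_bounded (M := 1 / (m + 1 + e) + 1 / m + 1 / 2 + 1 +
      1 / (2 * e) + 1 / e) (by simp) ?_ ?_
    · have hmeas : Measurable (fun t : ℝ => EE m e t / t) := by
        unfold EE
        exact ((((((EIn_meas _).sub (EIn_meas _)).sub (EIn_meas _)).add (EIn_meas _)).sub
          (EIn_meas _)).add (EIn_meas _)).div measurable_id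
      exact hmeas.aestronglyMeasurable
    · rw [ae_restrict_iff' measurableSet_Ioc]
      filter_upwards with t ht
      have ht0 : 0 < t := ht.1
      have a1 := EIn_XX_bd (β := m + 1 + e) (by linarith) ht0
      have a2 := EIn_XX_bd (β := m) hm ht0
      have a3 := EIn_XX_bd (β := 2) (by norm_num) ht0
      have a4 := EIn_XX_bd (β := 1) (by norm_num) ht0
      have a5 := EIn_XX_bd (β := 2 * e) (by linarith) ht0
      have a6 := EIn_XX_bd (β := e) he ht0
      rw [Real.norm_eq_abs, abs_div, abs_of_pos ht0, div_le_iff₀ ht0]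
      have hE : EE m e t = (XX (m + 1 + e) t - (m + 1 + e) / t + 1 / 2)
          - (XX m t - m / t + 1 / 2) - (XX 2 t - 2 / t + 1 / 2) + (XX 1 t - 1 / t + 1 / 2)
          - (XX (2 * e) t - (2 * e) / t + 1 / 2) + (XX e t - e / t + 1 / 2) := by
        unfold EE
        ring
      rw [hE]
      rw [abs_le] at a1 a2 a3 a4 a5 a6 ⊢
      have e0 : (1 / (m + 1 + e) + 1 / m + 1 / 2 + 1 + 1 / (2 * e) + 1 / e) * t =
        t / (m + 1 + e) + t / m + t / 2 + t / 1 + t / (2 * e) + t / e := by ring
      rw [e0]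
      constructor <;> linarith
  · have h1 := EIn_int1 (β := m + 1 + e) (by linarith)
    have h2 := EIn_int1 (β := m) hm
    have h3 := EIn_int1 (β := 2) (by norm_num)
    have h4 := EIn_int1 (β := 1) (by norm_num)
    have h5 := EIn_int1 (β := 2 * e) (by linarith)
    have h6 := EIn_int1 (β := e) he
    have h := ((((h1.sub h2).sub h3).add h4).sub h5).add h6
    refine h.congr_fun ?_ measurableSet_Ioi
    intro t ht
    simp only [Pi.add_apply, Pi.sub_apply]
    unfold EE
    ring

end Pool.Agent.Lib.MP_8382de_an.ET
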