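import Pool.Agent.Lib.MP_8382de_an.ET.Defs

/-!
# ET.EnA: the entire function `V0`

`V0 n l = e^l + (l/2) ∫_0^∞ h(t) exp(l x(t)) dt`, `x(t) = e^(-t/2) ∈ (0,1)`, `h(t) = e^(-t/2) n(t) ≥ 0`
integrable, `C₀ = ∫ h`.

* `V0_bd`: `|e^l| = e^(Re l) ≤ e^(max(Re l,0))`, `|exp(l x)| = e^(x Re l) ≤ e^(max(Re l,0))`.
* `V0_hasSum`: `exp(l x) = ∑ x^j l^j/j!`; integrate termwise (`hasSum_integral_of_summable_integral_norm`,
  `∫ h x^j |l|^j/j! ≤ C₀ |l|^j/j!`): `(l/2) ∫ h exp(l x) = ∑_j (1/2)(∫ h x^j) l^(j+1)/j!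
  = ∑_{j≥1} (j/2) (∫ h x^(j-1)) l^j/j!` and `h x^(j-1) = n e^(-jt/2)`, i.e. the coefficient of
  `l^j/j!` is `1 + (j/2) ∫ e^(-jt/2) n(t) dt = NN n (j/2)` (for `j = 0` both are `1`). Use
  `hasSum_nat_add_iff' 1` or `HasSum.zero_add`-like shifting.
* `V0_diff`: from `V0_hasSum` (power series with infinite radius) or differentiation under the
  integral; e.g. `hasDerivAt_integral_of_dominated_loc_of_deriv_le`.
* `V0_conj`: `integral_conj`, `Complex.exp_conj`.
* `NN_ge`: `1 ≤ NN n y` for `y ≥ 0` (integral of a nonnegative function).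
-/

set_option autoImplicit false

namespace Pool.Agent.Lib.MP_8382de_an.ET

open MeasureTheory Set

theorem NN_ge {n : ℝ → ℝ} (hn : Cls n) {y : ℝ} (hy : 0 ≤ y) : 1 ≤ NN n y := by
  have h : 0 ≤ ∫ t in Ioi (0 : ℝ), Real.exp (-(y * t)) * n t :=
    setIntegral_nonneg measurableSet_Ioi fun t ht =>
      mul_nonneg (Real.exp_pos _).le (hn.1 t ht)
  have h2 := mul_nonneg hy h
  unfold NN
  linarith

/-- termwise bound of `exp (l x)` for `0 ≤ x ≤ 1` -/
private theorem norm_exp_le (l : ℂ) {x : ℝ} (h0 : 0 ≤ x) (h1 : x ≤ 1) :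
    ‖Complex.exp (l * ((x : ℝ) : ℂ))‖ ≤ Real.exp (max l.re 0) := by
  rw [Complex.norm_exp]
  apply Real.exp_le_exp.mpr
  have : (l * (x : ℂ)).re = l.re * x := by simp
  rw [this]
  rcases le_total l.re 0 with h | h
  · exact (mul_nonpos_of_nonpos_of_nonneg h h0).trans (le_max_right _ _)
  · exact (mul_le_of_le_one_right h h1).trans (le_max_left _ _)

private theorem exp_half_le_one {t : ℝ} (ht : 0 < t) : Real.exp (-t / 2) ≤ 1 := by
  rw [Real.exp_le_one_iff]; linarith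

theorem V0_bd {n : ℝ → ℝ} (hn : Cls n) (l : ℂ) :
    ‖V0 n l‖ ≤ (1 + (∫ t in Ioi (0 : ℝ), Real.exp (-t / 2) * n t) * ‖l‖) *
      Real.exp (max l.re 0) := by
  set C := ∫ t in Ioi (0 : ℝ), Real.exp (-t / 2) * n t with hC
  have hC0 : 0 ≤ C := setIntegral_nonneg measurableSet_Ioi fun t ht =>
      mul_nonneg (Real.exp_pos _).le (hn.1 t ht)
  have h1 : ‖∫ t in Ioi (0 : ℝ),
      ((Real.exp (-t / 2) * n t : ℝ) : ℂ) * Complex.exp (l * ((Real.exp (-t / 2) : ℝ) : ℂ))‖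
      ≤ C * Real.exp (max l.re 0) := by
    rw [hC, ← integral_mul_const]
    apply norm_integral_le_of_norm_le (hn.2.2.mul_const _)
    refine (ae_restrict_iff' measurableSet_Ioi).mpr (Filter.Eventually.of_forall fun t ht => ?_)
    rw [norm_mul, Complex.norm_real, Real.norm_eq_abs,
      abs_of_nonneg (mul_nonneg (Real.exp_pos _).le (hn.1 t ht))]
    exact mul_le_mul_of_nonneg_left (norm_exp_le l (Real.exp_pos _).le (exp_half_le_one ht))
      (mul_nonneg (Real.exp_pos _).le (hn.1 t ht))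
  have h2 : ‖Complex.exp l‖ ≤ Real.exp (max l.re 0) := by
    rw [Complex.norm_exp]
    exact Real.exp_le_exp.mpr (le_max_left _ _)
  unfold V0
  refine (norm_add_le _ _).trans ?_
  rw [norm_mul]
  have h3 : ‖l / 2‖ ≤ ‖l‖ := by
    rw [norm_div]
    have : ‖(2 : ℂ)‖ = 2 := by simp
    rw [this]
    have := norm_nonneg l
    linarith
  have h4 := mul_le_mul h3 h1 (norm_nonneg _) (norm_nonneg l)
  calc _ ≤ Real.exp (max l.re 0) + ‖l‖ * (C * Real.exp (max l.re 0)) := add_le_add h2 h4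
    _ = _ := by ring

theorem V0_hasSum {n : ℝ → ℝ} (hn : Cls n) (l : ℂ) :
    HasSum (fun j : ℕ => ((NN n ((j : ℝ) / 2) : ℝ) : ℂ) * l ^ j / (j.factorial : ℂ)) (V0 n l) := by
  set μ := (volume : Measure ℝ).restrict (Ioi 0) with hμ
  have hint : Integrable (fun t => Real.exp (-t / 2) * n t) μ := hn.2.2
  have hx : ∀ t : ℝ, t ∈ Ioi (0 : ℝ) → 0 ≤ Real.exp (-t / 2) * n t := fun t ht =>
    mul_nonneg (Real.exp_pos _).le (hn.1 t ht)
  -- the terms
  set F : ℕ → ℝ → ℂ := fun j t => ((Real.exp (-t / 2) * n t : ℝ) : ℂ) *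
    ((l * ((Real.exp (-t / 2) : ℝ) : ℂ)) ^ j / (j.factorial : ℂ)) with hF
  have hmeas : ∀ j, AEStronglyMeasurable (fun t : ℝ =>
      (l * ((Real.exp (-t / 2) : ℝ) : ℂ)) ^ j / (j.factorial : ℂ)) μ := by
    intro j
    apply Continuous.aestronglyMeasurable
    fun_prop
  have hnb : ∀ j (t : ℝ), t ∈ Ioi (0 : ℝ) →
      ‖(l * ((Real.exp (-t / 2) : ℝ) : ℂ)) ^ j / (j.factorial : ℂ)‖ ≤ ‖l‖ ^ j / j.factorial := by
    intro j t ht
    rw [norm_div, norm_pow, norm_mul, Complex.norm_real, Real.norm_eq_abs,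
      abs_of_pos (Real.exp_pos _), Complex.norm_natCast]
    have h1 : ‖l‖ * Real.exp (-t / 2) ≤ ‖l‖ :=
      mul_le_of_le_one_right (norm_nonneg _) (exp_half_le_one ht)
    have h0 : 0 ≤ ‖l‖ * Real.exp (-t / 2) := mul_nonneg (norm_nonneg _) (Real.exp_pos _).le
    gcongr
  have hFint : ∀ j, Integrable (F j) μ := by
    intro j
    have h := hint.ofReal (𝕜 := ℂ)
    refine h.mul_bdd (c := ‖l‖ ^ j / j.factorial) (hmeas j) ?_
    exact (ae_restrict_iff' measurableSet_Ioi).mpr (Filter.Eventually.of_forall (hnb j))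
  have hFn : ∀ j, ∫ t, ‖F j t‖ ∂μ ≤ (∫ t, Real.exp (-t / 2) * n t ∂μ) * (‖l‖ ^ j / j.factorial) := by
    intro j
    rw [← integral_mul_const]
    apply integral_mono_ae (hFint j).norm (hint.mul_const _)
    refine (ae_restrict_iff' measurableSet_Ioi).mpr (Filter.Eventually.of_forall fun t ht => ?_)
    simp only [hF]
    rw [norm_mul, Complex.norm_real, Real.norm_eq_abs, abs_of_nonneg (hx t ht)]
    exact mul_le_mul_of_nonneg_left (hnb j t ht) (hx t ht)
  have hsum : Summable fun j => ∫ t, ‖F j t‖ ∂μ := by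
    refine Summable.of_nonneg_of_le (fun j => integral_nonneg fun t => norm_nonneg _) hFn ?_
    exact (Real.summable_pow_div_factorial ‖l‖).mul_left _
  have hS := hasSum_integral_of_summable_integral_norm hFint hsum
  have htsum : ∀ t : ℝ, ∑' j, F j t = ((Real.exp (-t / 2) * n t : ℝ) : ℂ) *
      Complex.exp (l * ((Real.exp (-t / 2) : ℝ) : ℂ)) := by
    intro t
    have h := (NormedSpace.expSeries_div_hasSum_exp (𝔸 := ℂ) (l * ((Real.exp (-t / 2) : ℝ) : ℂ)))
    rw [← Complex.exp_eq_exp_ℂ] at h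
    exact (h.mul_left _).tsum_eq
  simp only [htsum] at hS
  -- the integral of the terms
  have hI : ∀ j : ℕ, ∫ t, F j t ∂μ = l ^ j / (j.factorial : ℂ) *
      ((∫ t, Real.exp (-((((j + 1 : ℕ) : ℝ) / 2) * t)) * n t ∂μ : ℝ) : ℂ) := by
    intro j
    rw [← integral_complex_ofReal, ← integral_const_mul]
    apply integral_congr_ae
    refine Filter.Eventually.of_forall fun t => ?_
    simp only [hF]
    have h : Real.exp (-((((j + 1 : ℕ) : ℝ) / 2) * t)) = Real.exp (-t / 2) * Real.exp (-t / 2) ^ j := by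
      rw [← Real.exp_nat_mul, ← Real.exp_add]
      congr 1
      push_cast
      ring
    rw [h]
    push_cast
    ring
  have hA : HasSum (fun j : ℕ => ((((j : ℝ) / 2) * ∫ t, Real.exp (-(((j : ℝ) / 2) * t)) * n t ∂μ : ℝ) : ℂ) *
      l ^ j / (j.factorial : ℂ)) (l / 2 * ∫ t, ((Real.exp (-t / 2) * n t : ℝ) : ℂ) *
      Complex.exp (l * ((Real.exp (-t / 2) : ℝ) : ℂ)) ∂μ) := by
    rw [← hasSum_nat_add_iff' 1]
    simp only [Finset.sum_range_one]
    have h0 : ((((0 : ℕ) : ℝ) / 2 * ∫ t, Real.exp (-((((0 : ℕ) : ℝ) / 2) * t)) * n t ∂μ : ℝ) : ℂ) *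
      l ^ 0 / (Nat.factorial 0 : ℂ) = 0 := by simp
    rw [h0, sub_zero]
    have hfun : (fun j : ℕ => (((((j + 1 : ℕ) : ℝ) / 2) *
        ∫ t, Real.exp (-((((j + 1 : ℕ) : ℝ) / 2) * t)) * n t ∂μ : ℝ) : ℂ) *
        l ^ (j + 1) / ((j + 1).factorial : ℂ)) = fun j => l / 2 * ∫ t, F j t ∂μ := by
      funext j
      rw [hI j]
      have hj : ((j.factorial : ℕ) : ℂ) ≠ 0 := by exact_mod_cast j.factorial_ne_zero
      have hj1 : ((j : ℂ) + 1) ≠ 0 := by exact_mod_cast j.succ_ne_zero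
      rw [Nat.factorial_succ]
      push_cast
      field_simp
      try ring
    rw [hfun]
    exact hS.mul_left (l / 2)
  have hB := (NormedSpace.expSeries_div_hasSum_exp (𝔸 := ℂ) l)
  rw [← Complex.exp_eq_exp_ℂ] at hB
  have hAB := hB.add hA
  have hfun : (fun j : ℕ => ((NN n ((j : ℝ) / 2) : ℝ) : ℂ) * l ^ j / (j.factorial : ℂ)) =
      fun j : ℕ => l ^ j / (j.factorial : ℂ) +
        ((((j : ℝ) / 2) * ∫ t, Real.exp (-(((j : ℝ) / 2) * t)) * n t ∂μ : ℝ) : ℂ) *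
          l ^ j / (j.factorial : ℂ) := by
    funext j
    simp only [NN]
    push_cast
    ring
  rw [hfun]
  exact hAB

/-- a power series in `l^j/j!` converging everywhere is entire -/
theorem EnA_diff {a : ℕ → ℂ} {f : ℂ → ℂ}
    (h : ∀ l, HasSum (fun j : ℕ => a j * l ^ j / (j.factorial : ℂ)) (f l)) :
    Differentiable ℂ f := by
  have hf : f = fun l => ∑' j : ℕ, a j * l ^ j / (j.factorial : ℂ) := by
    funext l; exact (h l).tsum_eq.symm
  intro l₀
  set R : ℝ := ‖l₀‖ + 1 with hR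
  have hR0 : 0 ≤ R := by positivity
  have hs : Summable fun j : ℕ => ‖a j * (R : ℂ) ^ j / (j.factorial : ℂ)‖ := (h (R : ℂ)).summable.norm
  have hd : DifferentiableOn ℂ (fun l => ∑' j : ℕ, a j * l ^ j / (j.factorial : ℂ))
      (Metric.ball 0 R) := by
    refine Complex.differentiableOn_tsum_of_summable_norm hs ?_ Metric.isOpen_ball ?_
    · intro j
      apply Differentiable.differentiableOn
      fun_prop
    · intro j w hw
      rw [norm_div, norm_mul, norm_pow, norm_div, norm_mul, norm_pow, Complex.norm_real,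
        Real.norm_eq_abs, abs_of_nonneg hR0]
      have : ‖w‖ ≤ R := by
        have := mem_ball_zero_iff.mp hw
        exact this.le
      gcongr
  have hl : l₀ ∈ Metric.ball (0 : ℂ) R := by
    rw [mem_ball_zero_iff, hR]; linarith
  rw [hf]
  exact (hd l₀ hl).differentiableAt (Metric.isOpen_ball.mem_nhds hl)

/-- real coefficients -/
theorem EnA_conj {a : ℕ → ℝ} {f : ℂ → ℂ}
    (h : ∀ l, HasSum (fun j : ℕ => ((a j : ℝ) : ℂ) * l ^ j / (j.factorial : ℂ)) (f l)) (l : ℂ) :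
    f ((starRingEnd ℂ) l) = (starRingEnd ℂ) (f l) := by
  have h1 := h ((starRingEnd ℂ) l)
  have h2 : HasSum (fun j : ℕ => (starRingEnd ℂ) (((a j : ℝ) : ℂ) * l ^ j / (j.factorial : ℂ)))
      ((starRingEnd ℂ) (f l)) := Complex.hasSum_conj'.mpr (by simpa using h l)
  refine h1.unique ?_
  convert h2 using 2 with j
  simp

theorem V0_diff {n : ℝ → ℝ} (hn : Cls n) : Differentiable ℂ (V0 n) :=
  EnA_diff (V0_hasSum hn)

theorem V0_conj {n : ℝ → ℝ} (hn : Cls n) (l : ℂ) :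
    V0 n ((starRingEnd ℂ) l) = (starRingEnd ℂ) (V0 n l) :=
  EnA_conj (a := fun j => NN n ((j : ℝ) / 2)) (V0_hasSum hn) l

end Pool.Agent.Lib.MP_8382de_an.ET
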