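import Pool.Agent.Lib.MP_8382de_an.ET.Mai
import Pool.Agent.Lib.MP_8382de_an.W2.Fin2

/-!
# ET.Fin: the threshold theorem, sufficiency

`wlog b ≤ a` (`Phi_symm`). If `c ≤ 2(a+b+1)`: `T_at` and `good_of_T`. If `c > 2(a+b+1)`:
`D = c-a-b > a+b+2 ≥ 3`, and `D ≥ 4` or `min a b ≤ 6` (if `D < 4` then `a+b < 2`, `min ≤ 1`);
`d ≤ 1` (`d ≤ 1/32` as the logarithm is positive) gives `d max ≤ max ≤ c - max`, `d min ≤ min ≤ D`:
`W2.main2`.
-/

set_option autoImplicit false

namespace Pool.Agent.Lib.MP_8382de_an.ET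

open ALG

private theorem fin_aux {a b c d : ℝ} (ha : 0 < a) (hb : 0 < b) (hba : b ≤ a) (hm : 1 ≤ a + b)
    (hd : 0 < d) (hdL : d * (1 + Real.log (8 * (a + b + 1) / b)) ≤ 1 / 32)
    (hc0 : a + b + 1 ≤ c) {x : ℂ} (hx : Phi a b c d x = 0) : x.im = 0 ∧ x.re < 0 := by
  rcases le_or_gt c (2 * (a + b + 1)) with hc | hc
  · exact good_of_T ha hb hd (T_at hb hba hm hd hdL hc0 hc) hx
  · have hlog : 0 ≤ Real.log (8 * (a + b + 1) / b) := by
      apply Real.log_nonneg
      rw [le_div_iff₀ hb]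
      linarith
    have hd1 : d ≤ 1 := by nlinarith [mul_nonneg hd.le hlog]
    refine W2.main2 ha hb hd ?_ ?_ ?_ hx
    · rw [min_eq_right hba]
      rcases le_or_gt 4 (c - a - b) with h | h
      · exact Or.inl h
      · exact Or.inr ⟨by linarith, by linarith⟩
    · rw [max_eq_left hba]
      nlinarith
    · rw [min_eq_right hba]
      nlinarith

theorem good_small {a b c d : ℝ} (ha : 0 < a) (hb : 0 < b) (hm : 1 ≤ a + b)
    (hd : 0 < d) (hdL : d * (1 + Real.log (8 * (a + b + 1) / min a b)) ≤ 1 / 32)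
    (hc0 : a + b + 1 ≤ c) {x : ℂ} (hx : Phi a b c d x = 0) : x.im = 0 ∧ x.re < 0 := by
  rcases le_total b a with hba | hba
  · rw [min_eq_right hba] at hdL
    exact fin_aux ha hb hba hm hd hdL hc0 hx
  · rw [min_eq_left hba] at hdL
    rw [Phi_symm] at hx
    refine fin_aux hb ha hba (by linarith) hd ?_ (by linarith) hx
    rwa [add_comm b a]

end Pool.Agent.Lib.MP_8382de_an.ET
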