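import Pool.Agent.Lib.MP_8382de_an.ET.Defs

/-!
# ET.FrG: lower bound for `Γ(13/25)`

`Γ(13/25) ≥ 1.695` (true value 1.7058...).

Proof. `Γ(38/25) = (13/25) Γ(13/25)` (`Real.Gamma_add_one`, `38/25 = 13/25 + 1`). Log-convexity
(`Real.Gamma_mul_add_mul_le_rpow_Gamma_mul_rpow_Gamma`, or `Real.convexOn_log_Gamma`) with
`3/2 = (1/26) * 1 + (25/26) * (38/25)` gives `Γ(3/2) ≤ Γ(1)^(1/26) Γ(38/25)^(25/26) =
Γ(38/25)^(25/26)`, so `Γ(38/25)^25 ≥ Γ(3/2)^26`. Now `Γ(3/2) = √π/2 ≥ 0.8862`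
(`Real.Gamma_one_half_eq`, `√π ≥ 1.7724` as `1.7724^2 = 3.14140 < π`), and with
`g = (13/25)*1.695 = 0.8814` one has `g^25 ≤ 0.8862^26` (`norm_num`: `0.8814^25 = 0.04256`,
`0.8862^26 = 0.04323`). Hence `Γ(38/25) ≥ g` (otherwise `Γ(38/25)^25 < g^25`).
-/

set_option autoImplicit false

namespace Pool.Agent.Lib.MP_8382de_an.ET

theorem gamma_lb : (1695 / 1000 : ℝ) ≤ Real.Gamma (13 / 25) := by
  have h1 : Real.Gamma (38 / 25) = (13 / 25) * Real.Gamma (13 / 25) := by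
    have h := Real.Gamma_add_one (s := (13 / 25 : ℝ)) (by norm_num)
    rw [← h]; norm_num
  have hG : 0 < Real.Gamma (38 / 25) := Real.Gamma_pos_of_pos (by norm_num)
  have h2 : Real.Gamma (3 / 2) ≤ Real.Gamma (38 / 25) ^ ((25 : ℝ) / 26) := by
    have h := Real.Gamma_mul_add_mul_le_rpow_Gamma_mul_rpow_Gamma (s := 1) (t := 38 / 25)
      (a := 1 / 26) (b := 25 / 26) (by norm_num) (by norm_num) (by norm_num) (by norm_num)
      (by norm_num)
    have e : (1 / 26 : ℝ) * 1 + 25 / 26 * (38 / 25) = 3 / 2 := by norm_num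
    rw [e, Real.Gamma_one, Real.one_rpow, one_mul] at h
    exact h
  have h3 : Real.Gamma (3 / 2) = Real.sqrt Real.pi / 2 := by
    have h := Real.Gamma_add_one (s := (1 / 2 : ℝ)) (by norm_num)
    have e : (1 / 2 : ℝ) + 1 = 3 / 2 := by norm_num
    rw [e, Real.Gamma_one_half_eq] at h
    rw [h]; ring
  have h4 : (17724 / 10000 : ℝ) ≤ Real.sqrt Real.pi := by
    apply Real.le_sqrt_of_sq_le
    have := Real.pi_gt_d4
    norm_num at this ⊢
    linarith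
  have h5 : (8862 / 10000 : ℝ) ≤ Real.Gamma (3 / 2) := by rw [h3]; linarith
  have h6 : Real.Gamma (3 / 2) ^ 26 ≤ Real.Gamma (38 / 25) ^ 25 := by
    have h7 : Real.Gamma (3 / 2) ^ 26 ≤ (Real.Gamma (38 / 25) ^ ((25 : ℝ) / 26)) ^ 26 :=
      pow_le_pow_left₀ (by linarith) h2 26
    have h8 : (Real.Gamma (38 / 25) ^ ((25 : ℝ) / 26)) ^ 26 = Real.Gamma (38 / 25) ^ 25 := by
      rw [← Real.rpow_natCast, ← Real.rpow_mul hG.le, ← Real.rpow_natCast]
      norm_num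
    rw [h8] at h7
    exact h7
  by_contra hcon
  rw [not_le] at hcon
  have h9 : Real.Gamma (38 / 25) < 8814 / 10000 := by rw [h1]; linarith
  have h10 : Real.Gamma (38 / 25) ^ 25 ≤ (8814 / 10000 : ℝ) ^ 25 :=
    pow_le_pow_left₀ hG.le h9.le 25
  have h11 : (8862 / 10000 : ℝ) ^ 26 ≤ Real.Gamma (3 / 2) ^ 26 :=
    pow_le_pow_left₀ (by norm_num) h5 26
  have h12 : (8814 / 10000 : ℝ) ^ 25 < (8862 / 10000 : ℝ) ^ 26 := by norm_num
  linarith

end Pool.Agent.Lib.MP_8382de_an.ET
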