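import Pool.Agent.Lib.MP_8382de_an.ET.FrL

/-!
# ET.FrJ: the Fresnel integral `Fr X` by a rotated contour (real proof)

Let `p = 12/25`. For `X > 0`
`Fr X = Γ(1-p) e^(-iπ(1-p)/2) + i e^(-iX) J` with
`J = (1/Γ(p)) ∫_0^∞ s^(p-1) e^(-sX) i/(s+i) ds`.

Proof. `ξ^(-p) = (1/Γ(p)) ∫_0^∞ s^(p-1) e^(-sξ) ds` for `ξ > 0`
(`Real.integral_rpow_mul_exp_neg_mul_Ioi`). Fubini on `(0,X) × (0,∞)` (absolute integral
`Γ(p) ∫_0^X ξ^(-p) dξ < ∞`), and `∫_0^X e^(-(s+i)ξ) dξ = (1 - e^(-(s+i)X))/(s+i)`: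
`Fr X = (1/Γ(p)) ∫_0^∞ s^(p-1) (1 - e^(-(s+i)X))/(s+i) ds`.
Both `s^(p-1)/(s+i)` and `s^(p-1) e^(-sX)/(s+i)` are integrable (`|s+i| ≥ 1`, `|s+i| ≥ s`).
First part: `1/(s+i) = (s-i)/(s²+1)`; by `int_s` with `a = p+1` and `a = p`:
`(1/Γ(p)) [ (π/2)/sin(π(p+1)/2) - i (π/2)/sin(πp/2) ]`, `sin(π(p+1)/2) = cos(πp/2)`,
`1/Γ(p) = Γ(1-p) sin(πp)/π = 2 Γ(1-p) sin(πp/2) cos(πp/2)/π` (`Real.Gamma_mul_Gamma_one_sub`), so it
is `Γ(1-p) (sin(πp/2) - i cos(πp/2)) = Γ(1-p) e^(-iπ(1-p)/2)`, and `(1-p)/2 = 13/50`.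
Second part: `-(1/Γ(p)) ∫ s^(p-1) e^(-sX) e^(-iX)/(s+i) ds = i e^(-iX) J`.

Properties of `J`: `i/(s+i) = (1+is)/(1+s²)`, norm `≤ 1`, so
`‖J‖ ≤ (1/Γ(p)) ∫ s^(p-1) e^(-sX) ds = X^(-p)`; `J.im = (1/Γ(p)) ∫ s^p e^(-sX)/(1+s²) ds ≥ 0`;
`J.re - J.im = (1/Γ(p)) ∫ s^(p-1) e^(-sX) (1-s)/(1+s²) ds`, and `(1-s)/(1+s²) ≥ (1-s)/2` for all
`s ≥ 0` (as `(1-s)(1/(1+s²) - 1/2) = (1-s)²(1+s)/(2(1+s²)) ≥ 0`), so it is at least
`(1/(2Γ(p))) (Γ(p) X^(-p) - Γ(p+1) X^(-p-1)) = X^(-p) (1 - p/X)/2 ≥ 0` if `X ≥ p`.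
-/

set_option autoImplicit false

namespace Pool.Agent.Lib.MP_8382de_an.ET

open MeasureTheory Set


/-- the Laplace kernel -/
private noncomputable def FrJ_k (p X s : ℝ) : ℝ := s ^ (p - 1) * Real.exp (-(X * s))

private theorem FrJ_k_pos {p X s : ℝ} (hs : 0 < s) : 0 < FrJ_k p X s := by
  unfold FrJ_k; positivity

private theorem FrJ_k_int {p X : ℝ} (hp : 0 < p) (hX : 0 < X) :
    ∫ s in Ioi (0 : ℝ), FrJ_k p X s = (1 / X) ^ p * Real.Gamma p :=
  Real.integral_rpow_mul_exp_neg_mul_Ioi hp hX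

private theorem FrJ_k_integrable {p X : ℝ} (hp : 0 < p) (hX : 0 < X) :
    IntegrableOn (FrJ_k p X) (Ioi 0) := by
  have h := integrableOn_rpow_mul_exp_neg_mul_rpow (p := 1) (s := p - 1) (b := X)
    (by linarith) one_pos hX
  refine h.congr (Filter.Eventually.of_forall fun s => ?_)
  simp only [FrJ_k, Real.rpow_one]
  congr 2
  ring

private theorem FrJ_k_meas (p X : ℝ) : Measurable (FrJ_k p X) := by
  unfold FrJ_k; fun_prop

private theorem FrJ_sI_ne (s : ℝ) : (s : ℂ) + Complex.I ≠ 0 := by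
  intro h
  have := congrArg Complex.im h
  simp at this

private theorem FrJ_inv (s : ℝ) :
    ((s : ℂ) + Complex.I)⁻¹ = ((s / (1 + s ^ 2) : ℝ) : ℂ) - Complex.I * ((1 / (1 + s ^ 2) : ℝ) : ℂ) := by
  have h3 := FrJ_sI_ne s
  have h1 : (1 + s ^ 2 : ℝ) ≠ 0 := by positivity
  have h2 : (1 + (s : ℂ) ^ 2) ≠ 0 := by exact_mod_cast h1
  push_cast
  have h4 : (1 + (s : ℂ) ^ 2) = ((s : ℂ) + Complex.I) * ((s : ℂ) - Complex.I) := by
    ring_nf
    rw [Complex.I_sq]; ring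
  rw [inv_eq_one_div, div_eq_iff h3]
  field_simp
  rw [h4]; ring

private theorem FrJ_inv_norm (s : ℝ) : ‖((s : ℂ) + Complex.I)⁻¹‖ ≤ 1 := by
  have h : (1 : ℝ) ≤ ‖(s : ℂ) + Complex.I‖ := by
    have := Complex.abs_im_le_norm ((s : ℂ) + Complex.I)
    simpa using this
  rw [norm_inv]
  exact inv_le_one_of_one_le₀ h

/-- the integrand of the Fubini step -/
private noncomputable def FrJ_g (p : ℝ) (ξ s : ℝ) : ℂ :=
  ((FrJ_k p ξ s : ℝ) : ℂ) * Complex.exp (-((ξ : ℂ) * Complex.I))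

private theorem FrJ_g_norm {p ξ s : ℝ} (hs : 0 < s) : ‖FrJ_g p ξ s‖ = FrJ_k p ξ s := by
  unfold FrJ_g
  have h : -((ξ : ℂ) * Complex.I) = ((-ξ : ℝ) : ℂ) * Complex.I := by push_cast; ring
  rw [norm_mul, h, Complex.norm_exp_ofReal_mul_I, mul_one, Complex.norm_real,
    Real.norm_of_nonneg (FrJ_k_pos hs).le]

private theorem FrJ_g_meas (p : ℝ) : Measurable (Function.uncurry (FrJ_g p)) := by
  unfold FrJ_g FrJ_k Function.uncurry
  fun_prop

private theorem FrJ_g_integrable {p X : ℝ} (hp : 0 < p) (hp1 : p < 1) (hX : 0 < X) :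
    Integrable (Function.uncurry (FrJ_g p))
      ((volume.restrict (Ioc 0 X)).prod (volume.restrict (Ioi (0 : ℝ)))) := by
  rw [integrable_prod_iff (FrJ_g_meas p).aestronglyMeasurable]
  constructor
  · rw [ae_restrict_iff' measurableSet_Ioc]
    refine Filter.Eventually.of_forall fun ξ hξ => ?_
    have h := FrJ_k_integrable hp hξ.1
    refine Integrable.mono' h ?_ ?_
    · exact ((FrJ_g_meas p).comp measurable_prodMk_left).aestronglyMeasurable
    · rw [ae_restrict_iff' measurableSet_Ioi]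
      refine Filter.Eventually.of_forall fun s hs => ?_
      have hs' : (0 : ℝ) < s := hs
      exact (FrJ_g_norm hs').le
  · have h1 : IntegrableOn (fun ξ : ℝ => Real.Gamma p * ξ ^ (-p)) (Ioc 0 X) := by
      refine Integrable.const_mul ?_ _
      have := (intervalIntegral.intervalIntegrable_rpow' (a := 0) (b := X) (r := -p)
        (by linarith))
      rw [intervalIntegrable_iff_integrableOn_Ioc_of_le hX.le] at this
      exact this
    refine h1.congr ?_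
    rw [Filter.EventuallyEq, ae_restrict_iff' measurableSet_Ioc]
    refine Filter.Eventually.of_forall fun ξ hξ => ?_
    have h2 : ∫ s in Ioi (0 : ℝ), ‖Function.uncurry (FrJ_g p) (ξ, s)‖ =
        ∫ s in Ioi (0 : ℝ), FrJ_k p ξ s := by
      refine setIntegral_congr_fun measurableSet_Ioi fun s hs => ?_
      exact FrJ_g_norm hs
    show Real.Gamma p * ξ ^ (-p) = _
    rw [h2, FrJ_k_int hp hξ.1, one_div, Real.inv_rpow hξ.1.le, ← Real.rpow_neg hξ.1.le]
    ring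

/-- the inner integral over `ξ` -/
private theorem FrJ_inner {p X s : ℝ} (hX : 0 < X) :
    ∫ ξ in Ioc (0 : ℝ) X, FrJ_g p ξ s =
      ((s ^ (p - 1) : ℝ) : ℂ) * ((s : ℂ) + Complex.I)⁻¹ -
        Complex.exp (-((X : ℂ) * Complex.I)) *
          (((FrJ_k p X s : ℝ) : ℂ) * ((s : ℂ) + Complex.I)⁻¹) := by
  have hne := FrJ_sI_ne s
  have hne' : -((s : ℂ) + Complex.I) ≠ 0 := neg_ne_zero.mpr hne
  have h1 : ∀ ξ : ℝ, FrJ_g p ξ s =
      ((s ^ (p - 1) : ℝ) : ℂ) * Complex.exp (-((s : ℂ) + Complex.I) * (ξ : ℂ)) := by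
    intro ξ
    unfold FrJ_g FrJ_k
    rw [Complex.ofReal_mul, mul_assoc, Complex.ofReal_exp, ← Complex.exp_add]
    congr 2
    push_cast
    ring
  simp only [h1]
  rw [integral_const_mul, ← intervalIntegral.integral_of_le hX.le,
    integral_exp_mul_complex hne']
  have h2 : Complex.exp (-((s : ℂ) + Complex.I) * (X : ℂ)) =
      Complex.exp (-((X : ℂ) * Complex.I)) * ((Real.exp (-(X * s)) : ℝ) : ℂ) := by
    rw [Complex.ofReal_exp, ← Complex.exp_add]
    congr 1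
    push_cast
    ring
  rw [h2]
  unfold FrJ_k
  rw [Complex.ofReal_mul]
  simp only [Complex.ofReal_zero, mul_zero, Complex.exp_zero]
  field_simp
  ring

private theorem FrJ_main {p X : ℝ} (hp : 0 < p) (hp1 : p < 1) (hX : 0 < X) :
    ((Real.Gamma p : ℝ) : ℂ) *
        ∫ ξ in (0 : ℝ)..X, ((ξ ^ (-p) : ℝ) : ℂ) * Complex.exp (-((ξ : ℂ) * Complex.I)) =
      (((Real.pi / 2 / Real.sin (Real.pi * (p + 1) / 2) : ℝ) : ℂ) -
        Complex.I * ((Real.pi / 2 / Real.sin (Real.pi * p / 2) : ℝ) : ℂ)) -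
      Complex.exp (-((X : ℂ) * Complex.I)) *
        ∫ s in Ioi (0 : ℝ), ((FrJ_k p X s : ℝ) : ℂ) * ((s : ℂ) + Complex.I)⁻¹ := by
  have hF := integral_integral_swap (f := FrJ_g p) (FrJ_g_integrable hp hp1 hX)
  have h1 : ∫ ξ in Ioc (0 : ℝ) X, ∫ s in Ioi (0 : ℝ), FrJ_g p ξ s =
      ((Real.Gamma p : ℝ) : ℂ) *
        ∫ ξ in (0 : ℝ)..X, ((ξ ^ (-p) : ℝ) : ℂ) * Complex.exp (-((ξ : ℂ) * Complex.I)) := by
    rw [intervalIntegral.integral_of_le hX.le, ← integral_const_mul]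
    refine setIntegral_congr_fun measurableSet_Ioc fun ξ hξ => ?_
    show ∫ s in Ioi (0 : ℝ), FrJ_g p ξ s = _
    unfold FrJ_g
    rw [integral_mul_const, integral_complex_ofReal, FrJ_k_int hp hξ.1, one_div,
      Real.inv_rpow hξ.1.le, ← Real.rpow_neg hξ.1.le]
    push_cast
    ring
  have hA := int_s (a := p + 1) (by linarith) (by linarith)
  have hB := int_s (a := p) hp (by linarith)
  have hI1 : IntegrableOn (fun s : ℝ => ((s ^ (p - 1) : ℝ) : ℂ) * ((s : ℂ) + Complex.I)⁻¹)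
      (Ioi 0) := by
    have hA' : IntegrableOn (fun s : ℝ => ((s ^ (p + 1 - 1) / (1 + s ^ 2) : ℝ) : ℂ)) (Ioi 0) :=
      hA.1.ofReal
    have hB' : IntegrableOn (fun s : ℝ => ((s ^ (p - 1) / (1 + s ^ 2) : ℝ) : ℂ)) (Ioi 0) :=
      hB.1.ofReal
    have h2 := hA'.sub (hB'.const_mul Complex.I)
    refine h2.congr ?_
    rw [Filter.EventuallyEq, ae_restrict_iff' measurableSet_Ioi]
    refine Filter.Eventually.of_forall fun s hs => ?_
    have hs' : (0 : ℝ) < s := hs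
    simp only [Pi.sub_apply]
    rw [FrJ_inv]
    have h3 : s ^ (p + 1 - 1) = s ^ (p - 1) * s := by
      rw [show p + 1 - 1 = (p - 1) + 1 by ring, Real.rpow_add hs', Real.rpow_one]
    rw [h3]
    push_cast
    ring
  have hv1 : ∫ s in Ioi (0 : ℝ), ((s ^ (p - 1) : ℝ) : ℂ) * ((s : ℂ) + Complex.I)⁻¹ =
      ((Real.pi / 2 / Real.sin (Real.pi * (p + 1) / 2) : ℝ) : ℂ) -
        Complex.I * ((Real.pi / 2 / Real.sin (Real.pi * p / 2) : ℝ) : ℂ) := by
    rw [← hA.2, ← hB.2, ← integral_complex_ofReal, ← integral_complex_ofReal,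
      ← integral_const_mul, ← integral_sub]
    · refine setIntegral_congr_fun measurableSet_Ioi fun s hs => ?_
      have hs' : (0 : ℝ) < s := hs
      show ((s ^ (p - 1) : ℝ) : ℂ) * ((s : ℂ) + Complex.I)⁻¹ = _
      rw [FrJ_inv]
      have h3 : s ^ (p + 1 - 1) = s ^ (p - 1) * s := by
        rw [show p + 1 - 1 = (p - 1) + 1 by ring, Real.rpow_add hs', Real.rpow_one]
      simp only [h3]
      push_cast
      ring
    · exact hA.1.ofReal (𝕜 := ℂ)
    · exact (hB.1.ofReal (𝕜 := ℂ)).const_mul Complex.I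
  have hI2 : IntegrableOn (fun s : ℝ => ((FrJ_k p X s : ℝ) : ℂ) * ((s : ℂ) + Complex.I)⁻¹)
      (Ioi 0) := by
    refine Integrable.mono' (FrJ_k_integrable hp hX) ?_ ?_
    · refine Measurable.aestronglyMeasurable ?_
      have := FrJ_k_meas p X
      fun_prop
    · rw [ae_restrict_iff' measurableSet_Ioi]
      refine Filter.Eventually.of_forall fun s hs => ?_
      have hk := FrJ_k_pos (p := p) (X := X) (s := s) hs
      rw [norm_mul, Complex.norm_real, Real.norm_of_nonneg hk.le]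
      exact mul_le_of_le_one_right hk.le (FrJ_inv_norm s)
  rw [← h1, hF, ← hv1, ← integral_const_mul, ← integral_sub hI1 (hI2.const_mul _)]
  refine setIntegral_congr_fun measurableSet_Ioi fun s _ => ?_
  exact FrJ_inner hX

private theorem FrJ_J {p X : ℝ} (hp : 0 < p) (hX : 0 < X) :
    ‖∫ s in Ioi (0 : ℝ), ((FrJ_k p X s : ℝ) : ℂ) * (Complex.I * ((s : ℂ) + Complex.I)⁻¹)‖
        ≤ Real.Gamma p * X ^ (-p) ∧
    0 ≤ (∫ s in Ioi (0 : ℝ), ((FrJ_k p X s : ℝ) : ℂ) *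
      (Complex.I * ((s : ℂ) + Complex.I)⁻¹)).im ∧
    (p ≤ X → (∫ s in Ioi (0 : ℝ), ((FrJ_k p X s : ℝ) : ℂ) *
        (Complex.I * ((s : ℂ) + Complex.I)⁻¹)).im ≤
      (∫ s in Ioi (0 : ℝ), ((FrJ_k p X s : ℝ) : ℂ) *
        (Complex.I * ((s : ℂ) + Complex.I)⁻¹)).re) := by
  have hkX : (1 / X) ^ p = X ^ (-p) := by
    rw [one_div, Real.inv_rpow hX.le, ← Real.rpow_neg hX.le]
  have hn : ∀ s ∈ Ioi (0 : ℝ), ‖((FrJ_k p X s : ℝ) : ℂ) *
      (Complex.I * ((s : ℂ) + Complex.I)⁻¹)‖ ≤ FrJ_k p X s := by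
    intro s hs
    have hk := FrJ_k_pos (p := p) (X := X) (s := s) hs
    rw [norm_mul, Complex.norm_real, Real.norm_of_nonneg hk.le, norm_mul, Complex.norm_I, one_mul]
    exact mul_le_of_le_one_right hk.le (FrJ_inv_norm s)
  have hae : ∀ᵐ s ∂(volume.restrict (Ioi (0 : ℝ))), ‖((FrJ_k p X s : ℝ) : ℂ) *
      (Complex.I * ((s : ℂ) + Complex.I)⁻¹)‖ ≤ FrJ_k p X s := by
    rw [ae_restrict_iff' measurableSet_Ioi]
    exact Filter.Eventually.of_forall hn
  have hI : IntegrableOn (fun s : ℝ => ((FrJ_k p X s : ℝ) : ℂ) *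
      (Complex.I * ((s : ℂ) + Complex.I)⁻¹)) (Ioi 0) := by
    refine Integrable.mono' (FrJ_k_integrable hp hX) ?_ hae
    refine Measurable.aestronglyMeasurable ?_
    have := FrJ_k_meas p X
    fun_prop
  have hform : ∀ s : ℝ, ((FrJ_k p X s : ℝ) : ℂ) * (Complex.I * ((s : ℂ) + Complex.I)⁻¹) =
      ((FrJ_k p X s * (1 / (1 + s ^ 2)) : ℝ) : ℂ) +
        ((FrJ_k p X s * (s / (1 + s ^ 2)) : ℝ) : ℂ) * Complex.I := by
    intro s
    rw [FrJ_inv]
    push_cast
    linear_combination (-((FrJ_k p X s : ℝ) : ℂ) * (1 / (1 + (s : ℂ) ^ 2))) * Complex.I_sq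
  have him : (∫ s in Ioi (0 : ℝ), ((FrJ_k p X s : ℝ) : ℂ) *
      (Complex.I * ((s : ℂ) + Complex.I)⁻¹)).im =
      ∫ s in Ioi (0 : ℝ), FrJ_k p X s * (s / (1 + s ^ 2)) := by
    have h := Complex.imCLM.integral_comp_comm hI
    simp only [Complex.imCLM_apply] at h
    rw [← h]
    refine setIntegral_congr_fun measurableSet_Ioi fun s _ => ?_
    show (((FrJ_k p X s : ℝ) : ℂ) * (Complex.I * ((s : ℂ) + Complex.I)⁻¹)).im = _
    rw [hform]
    simp only [Complex.add_im, Complex.ofReal_im, Complex.mul_im, Complex.ofReal_re,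
      Complex.I_im, Complex.I_re]
    ring
  have hre : (∫ s in Ioi (0 : ℝ), ((FrJ_k p X s : ℝ) : ℂ) *
      (Complex.I * ((s : ℂ) + Complex.I)⁻¹)).re =
      ∫ s in Ioi (0 : ℝ), FrJ_k p X s * (1 / (1 + s ^ 2)) := by
    have h := Complex.reCLM.integral_comp_comm hI
    simp only [Complex.reCLM_apply] at h
    rw [← h]
    refine setIntegral_congr_fun measurableSet_Ioi fun s _ => ?_
    show (((FrJ_k p X s : ℝ) : ℂ) * (Complex.I * ((s : ℂ) + Complex.I)⁻¹)).re = _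
    rw [hform]
    simp only [Complex.add_re, Complex.ofReal_im, Complex.mul_re, Complex.ofReal_re,
      Complex.I_im, Complex.I_re]
    ring
  have hk0 := FrJ_k_integrable hp hX
  have hIre : IntegrableOn (fun s : ℝ => FrJ_k p X s * (1 / (1 + s ^ 2))) (Ioi 0) := by
    refine Integrable.mono' hk0 ?_ ?_
    · refine Measurable.aestronglyMeasurable ?_
      have := FrJ_k_meas p X
      fun_prop
    · rw [ae_restrict_iff' measurableSet_Ioi]
      refine Filter.Eventually.of_forall fun s hs => ?_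
      have hk := FrJ_k_pos (p := p) (X := X) (s := s) hs
      rw [norm_mul, Real.norm_of_nonneg hk.le, Real.norm_of_nonneg (by positivity)]
      refine mul_le_of_le_one_right hk.le ?_
      rw [div_le_one (by positivity)]
      nlinarith [sq_nonneg s]
  have hIim : IntegrableOn (fun s : ℝ => FrJ_k p X s * (s / (1 + s ^ 2))) (Ioi 0) := by
    refine Integrable.mono' hk0 ?_ ?_
    · refine Measurable.aestronglyMeasurable ?_
      have := FrJ_k_meas p X
      fun_prop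
    · rw [ae_restrict_iff' measurableSet_Ioi]
      refine Filter.Eventually.of_forall fun s hs => ?_
      have hs' : (0 : ℝ) < s := hs
      have hk := FrJ_k_pos (p := p) (X := X) (s := s) hs
      rw [norm_mul, Real.norm_of_nonneg hk.le, Real.norm_of_nonneg (by positivity)]
      refine mul_le_of_le_one_right hk.le ?_
      rw [div_le_one (by positivity)]
      nlinarith [sq_nonneg (s - 1)]
  refine ⟨?_, ?_, ?_⟩
  · refine (norm_integral_le_of_norm_le hk0 hae).trans ?_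
    rw [FrJ_k_int hp hX, hkX, mul_comm]
  · rw [him]
    refine setIntegral_nonneg measurableSet_Ioi fun s hs => ?_
    have hs' : (0 : ℝ) < s := hs
    have hk := FrJ_k_pos (p := p) (X := X) (s := s) hs
    positivity
  · intro hpX
    rw [him, hre, ← sub_nonneg, ← integral_sub hIre hIim]
    have hk1 : IntegrableOn (FrJ_k (p + 1) X) (Ioi 0) := FrJ_k_integrable (by linarith) hX
    have h1 : ∫ s in Ioi (0 : ℝ), (1 / 2 * FrJ_k p X s - 1 / 2 * FrJ_k (p + 1) X s) ≤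
        ∫ s in Ioi (0 : ℝ), (FrJ_k p X s * (1 / (1 + s ^ 2)) - FrJ_k p X s * (s / (1 + s ^ 2))) := by
      refine setIntegral_mono_on ((hk0.const_mul _).sub (hk1.const_mul _)) (hIre.sub hIim)
        measurableSet_Ioi fun s hs => ?_
      have hs' : (0 : ℝ) < s := hs
      have hk := FrJ_k_pos (p := p) (X := X) (s := s) hs
      have h2 : FrJ_k (p + 1) X s = FrJ_k p X s * s := by
        unfold FrJ_k
        rw [show p + 1 - 1 = (p - 1) + 1 by ring, Real.rpow_add hs', Real.rpow_one]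
        ring
      rw [h2]
      have h3 : FrJ_k p X s * (1 / (1 + s ^ 2)) - FrJ_k p X s * (s / (1 + s ^ 2)) -
          (1 / 2 * FrJ_k p X s - 1 / 2 * (FrJ_k p X s * s)) =
          FrJ_k p X s * ((1 - s) ^ 2 * (1 + s) / (2 * (1 + s ^ 2))) := by
        field_simp
        ring
      have h4 : 0 ≤ FrJ_k p X s * ((1 - s) ^ 2 * (1 + s) / (2 * (1 + s ^ 2))) := by positivity
      linarith
    refine le_trans ?_ h1
    rw [integral_sub (hk0.const_mul _) (hk1.const_mul _), integral_const_mul, integral_const_mul,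
      FrJ_k_int hp hX, FrJ_k_int (by linarith) hX, Real.Gamma_add_one hp.ne',
      Real.rpow_add (by positivity), Real.rpow_one]
    have hG := Real.Gamma_pos_of_pos hp
    have h5 : 1 / 2 * ((1 / X) ^ p * Real.Gamma p) -
        1 / 2 * ((1 / X) ^ p * (1 / X) * (p * Real.Gamma p)) =
        1 / 2 * ((1 / X) ^ p * Real.Gamma p) * (1 - p / X) := by
      field_simp
    rw [h5]
    have h6 : 0 ≤ 1 - p / X := by
      rw [sub_nonneg, div_le_one hX]; exact hpX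
    positivity

theorem Fr_J {X : ℝ} (hX : 0 < X) :
    ∃ J : ℂ, ‖J‖ ≤ X ^ (-(12 / 25 : ℝ)) ∧ 0 ≤ J.im ∧ (12 / 25 ≤ X → J.im ≤ J.re) ∧
      Fr X = ((Real.Gamma (13 / 25) : ℝ) : ℂ) * Complex.exp (-((13 * Real.pi / 50 : ℝ) : ℂ) * Complex.I)
        + Complex.I * Complex.exp (-((X : ℂ) * Complex.I)) * J := by
  have hp : (0 : ℝ) < 12 / 25 := by norm_num
  have hG := Real.Gamma_pos_of_pos hp
  obtain ⟨h1, h2, h3⟩ := FrJ_J hp hX
  have hm := FrJ_main hp (by norm_num) hX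
  set K : ℂ := ∫ s in Ioi (0 : ℝ), ((FrJ_k (12 / 25) X s : ℝ) : ℂ) *
    (Complex.I * ((s : ℂ) + Complex.I)⁻¹) with hK
  have hK2 : ∫ s in Ioi (0 : ℝ), ((FrJ_k (12 / 25) X s : ℝ) : ℂ) * ((s : ℂ) + Complex.I)⁻¹ =
      -Complex.I * K := by
    rw [hK, ← integral_const_mul]
    refine setIntegral_congr_fun measurableSet_Ioi fun s _ => ?_
    show _ = -Complex.I * (((FrJ_k (12 / 25) X s : ℝ) : ℂ) *
      (Complex.I * ((s : ℂ) + Complex.I)⁻¹))
    linear_combination (((FrJ_k (12 / 25) X s : ℝ) : ℂ) * ((s : ℂ) + Complex.I)⁻¹) * Complex.I_sq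
  rw [hK2] at hm
  have hGc : ((Real.Gamma (12 / 25) : ℝ) : ℂ) ≠ 0 := by
    exact_mod_cast hG.ne'
  refine ⟨((Real.Gamma (12 / 25) : ℝ) : ℂ)⁻¹ * K, ?_, ?_, ?_, ?_⟩
  · rw [norm_mul, norm_inv, Complex.norm_real, Real.norm_of_nonneg hG.le,
      inv_mul_le_iff₀ hG]
    exact h1
  · rw [← Complex.ofReal_inv, Complex.im_ofReal_mul]
    positivity
  · intro hx
    rw [← Complex.ofReal_inv, Complex.im_ofReal_mul, Complex.re_ofReal_mul]
    exact mul_le_mul_of_nonneg_left (h3 hx) (by positivity)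
  · have hFr : Fr X = ((Real.Gamma (12 / 25) : ℝ) : ℂ)⁻¹ *
        ((((Real.pi / 2 / Real.sin (Real.pi * (12 / 25 + 1) / 2) : ℝ) : ℂ) -
        Complex.I * ((Real.pi / 2 / Real.sin (Real.pi * (12 / 25) / 2) : ℝ) : ℂ)) -
      Complex.exp (-((X : ℂ) * Complex.I)) * (-Complex.I * K)) := by
      rw [← hm, inv_mul_cancel_left₀ hGc]
      rfl
    rw [hFr]
    have hs1 : Real.sin (Real.pi * (12 / 25 + 1) / 2) = Real.cos (6 * Real.pi / 25) := by
      rw [← Real.sin_add_pi_div_two]; congr 1; ring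
    have hs2 : Real.sin (Real.pi * (12 / 25) / 2) = Real.sin (6 * Real.pi / 25) := by
      congr 1; ring
    have hc1 : Real.cos (13 * Real.pi / 50) = Real.sin (6 * Real.pi / 25) := by
      rw [← Real.cos_pi_div_two_sub]; congr 1; ring
    have hc2 : Real.sin (13 * Real.pi / 50) = Real.cos (6 * Real.pi / 25) := by
      rw [← Real.sin_pi_div_two_sub]; congr 1; ring
    have hpi := Real.pi_pos
    have hsp : 0 < Real.sin (6 * Real.pi / 25) :=
      Real.sin_pos_of_pos_of_lt_pi (by positivity) (by linarith)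
    have hcp : 0 < Real.cos (6 * Real.pi / 25) :=
      Real.cos_pos_of_mem_Ioo ⟨by linarith, by linarith⟩
    have hrefl : Real.Gamma (12 / 25) * Real.Gamma (13 / 25) =
        Real.pi / (2 * Real.sin (6 * Real.pi / 25) * Real.cos (6 * Real.pi / 25)) := by
      have h := Real.Gamma_mul_Gamma_one_sub (12 / 25)
      rw [show (1 : ℝ) - 12 / 25 = 13 / 25 by norm_num] at h
      rw [h, ← Real.sin_two_mul]
      congr 2
      ring
    have hexp : Complex.exp (-((13 * Real.pi / 50 : ℝ) : ℂ) * Complex.I) =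
        ((Real.sin (6 * Real.pi / 25) : ℝ) : ℂ) -
          ((Real.cos (6 * Real.pi / 25) : ℝ) : ℂ) * Complex.I := by
      rw [← Complex.ofReal_neg, Complex.exp_mul_I, ← Complex.ofReal_cos, ← Complex.ofReal_sin,
        Real.cos_neg, Real.sin_neg, hc1, hc2]
      push_cast
      ring
    rw [hexp, hs1, hs2]
    have hG2 : ((Real.Gamma (13 / 25) : ℝ) : ℂ) = ((Real.Gamma (12 / 25) : ℝ) : ℂ)⁻¹ *
        ((Real.pi / (2 * Real.sin (6 * Real.pi / 25) * Real.cos (6 * Real.pi / 25)) : ℝ) : ℂ) := by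
      rw [← hrefl, Complex.ofReal_mul, inv_mul_cancel_left₀ hGc]
    rw [hG2]
    have e1 : ((Real.pi / 2 / Real.cos (6 * Real.pi / 25) : ℝ) : ℂ) =
        ((Real.pi / (2 * Real.sin (6 * Real.pi / 25) * Real.cos (6 * Real.pi / 25)) : ℝ) : ℂ) *
          ((Real.sin (6 * Real.pi / 25) : ℝ) : ℂ) := by
      rw [← Complex.ofReal_mul]; congr 1
      generalize Real.sin (6 * Real.pi / 25) = u at hsp ⊢
      generalize Real.cos (6 * Real.pi / 25) = v at hcp ⊢
      field_simp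
    have e2 : ((Real.pi / 2 / Real.sin (6 * Real.pi / 25) : ℝ) : ℂ) =
        ((Real.pi / (2 * Real.sin (6 * Real.pi / 25) * Real.cos (6 * Real.pi / 25)) : ℝ) : ℂ) *
          ((Real.cos (6 * Real.pi / 25) : ℝ) : ℂ) := by
      rw [← Complex.ofReal_mul]; congr 1
      generalize Real.sin (6 * Real.pi / 25) = u at hsp ⊢
      generalize Real.cos (6 * Real.pi / 25) = v at hcp ⊢
      field_simp
    rw [e1, e2]
    ring

end Pool.Agent.Lib.MP_8382de_an.ET
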