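import Pool.Agent.Lib.MP_8382de_an.ET.FrG
import Pool.Agent.Lib.MP_8382de_an.ET.FrJ

/-!
# ET.FrI: the Fresnel inequality

`(5/9) x^p |Fr(xX)| ≤ Re(e^(iπ/4) Fr X)` for `X > 0`, `0 ≤ x ≤ 1`, `p = 12/25`.

Write `Γ = Γ(13/25) ≥ 1.695` (`gamma_lb`), `Lb(X) = Re(e^(iπ/4) Fr X)`.
By `Fr_J` and `π/4 - 13π/50 = -π/100`, with `ψ = 3π/4 - X` (`e^(iπ/4) i e^(-iX) = e^(iψ)`):
`Lb(X) = Γ cos(π/100) + J.re cos ψ - J.im sin ψ`,  `cos(π/100) ≥ 0.9995`.
Upper bound of the left side. (U1) `|Fr ξ| ≤ ∫_0^ξ v^(-p) dv = ξ^(1-p)/(1-p)`, so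
`x^p |Fr(xX)| ≤ x X^(1-p)/(1-p) ≤ X^(1-p)/(1-p)`. (U2) `|Fr ξ| ≤ Γ + ξ^(-p)` for `ξ > 0`, so
`x^p |Fr(xX)| ≤ x^p Γ + X^(-p) ≤ Γ + X^(-p)` (for `x > 0`; the left side is `0` for `x = 0`).
Cases.
(1) `X ≤ π/2`: `Lb(X) = ∫_0^X ξ^(-p) cos(ξ-π/4) dξ ≥ cos(π/4) X^(1-p)/(1-p)` (as
`|ξ-π/4| ≤ π/4`), and `cos(π/4) ≥ 0.707 > 5/9`; with (U1).
(2) `π/2 ≤ X ≤ 5π/4`: `ψ ∈ [-π/2, π/4]`, so `cos ψ ≥ 0` and `cos ψ ≥ sin ψ`; `J.re ≥ J.im ≥ 0`, hence
`J.re cos ψ - J.im sin ψ ≥ J.im (cos ψ - sin ψ) ≥ 0` and `Lb ≥ 0.9995 Γ`. Need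
`0.9995 Γ ≥ (5/9)(Γ + (π/2)^(-p))`: `(π/2)^(-p) ≤ 1`, `(0.9995 - 0.5556)*1.695 = 0.7524 > 0.5556`.
(3) `5π/4 ≤ X ≤ 3π/2`: `ψ ∈ [-3π/4, -π/2]`: `cos ψ ≥ -0.7072`, `sin ψ ≤ 0`, so
`Lb ≥ 0.9995 Γ - 0.7072 X^(-p)`, `X^(-p) ≤ (5π/4)^(-p) ≤ 0.52` (`1/0.52 = 1.9230`,
`1.924^25 ≤ 3.92^12 < (5π/4)^12`). Need `0.9995 Γ - 0.3678 ≥ (5/9)(Γ+0.52)`:
`0.4439*1.695 = 0.7524 ≥ 0.3678 + 0.2889 = 0.6567`.
(4) `X ≥ 3π/2`: `|J.re cos ψ - J.im sin ψ| ≤ ‖J‖ ≤ X^(-p) ≤ (3π/2)^(-p) ≤ 0.477`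
(`(1/0.477)^25 ≤ 2.0965^25 ≤ 4.712^12`). Need
`0.9995 Γ - 0.477 ≥ (5/9)(Γ + 0.477)`: `0.4439*1.695 = 0.75245 ≥ 0.477*14/9 = 0.7420`.
-/

set_option autoImplicit false

namespace Pool.Agent.Lib.MP_8382de_an.ET

private theorem FrI_pow {X X0 c : ℝ} (h0 : 0 < X0) (hX : X0 ≤ X) (hc : 0 < c)
    (h : 1 ≤ X0 ^ 12 * c ^ 25) : X ^ (-(12 / 25 : ℝ)) ≤ c := by
  have hXp : 0 < X := by linarith
  have h1 : (X ^ (-(12 / 25 : ℝ))) ^ 25 ≤ c ^ 25 := by
    rw [← Real.rpow_natCast, ← Real.rpow_mul hXp.le]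
    have e : (-(12 / 25 : ℝ)) * ((25 : ℕ) : ℝ) = -((12 : ℕ) : ℝ) := by norm_num
    rw [e, Real.rpow_neg hXp.le, Real.rpow_natCast, inv_le_iff_one_le_mul₀ (by positivity)]
    have h2 : X0 ^ 12 ≤ X ^ 12 := pow_le_pow_left₀ h0.le hX 12
    calc (1 : ℝ) ≤ X0 ^ 12 * c ^ 25 := h
      _ ≤ X ^ 12 * c ^ 25 := mul_le_mul_of_nonneg_right h2 (by positivity)
      _ = c ^ 25 * X ^ 12 := mul_comm _ _
  exact le_of_pow_le_pow_left₀ (by norm_num) hc.le h1

private theorem FrI_integral {ξ : ℝ} :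
    ∫ v in (0 : ℝ)..ξ, v ^ (-(12 / 25 : ℝ)) = ξ ^ (13 / 25 : ℝ) / (13 / 25) := by
  rw [integral_rpow (Or.inl (by norm_num))]
  have e : (-(12 / 25 : ℝ)) + 1 = 13 / 25 := by norm_num
  rw [e, Real.zero_rpow (by norm_num), sub_zero]

private theorem FrI_U1 {ξ : ℝ} (hξ : 0 ≤ ξ) : ‖Fr ξ‖ ≤ ξ ^ (13 / 25 : ℝ) / (13 / 25) := by
  rw [← FrI_integral]
  unfold Fr
  refine intervalIntegral.norm_integral_le_of_norm_le hξ ?_ ?_
  · refine Filter.Eventually.of_forall fun v hv => ?_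
    have hv0 : 0 < v := hv.1
    have h : -((v : ℂ) * Complex.I) = ((-v : ℝ) : ℂ) * Complex.I := by push_cast; ring
    rw [norm_mul, h, Complex.norm_exp_ofReal_mul_I, mul_one, Complex.norm_real,
      Real.norm_of_nonneg (by positivity)]
  · exact intervalIntegral.intervalIntegrable_rpow' (by norm_num)

private theorem FrI_U2 {ξ : ℝ} (hξ : 0 < ξ) :
    ‖Fr ξ‖ ≤ Real.Gamma (13 / 25) + ξ ^ (-(12 / 25 : ℝ)) := by
  obtain ⟨J, h1, -, -, h4⟩ := Fr_J hξ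
  have hG : 0 < Real.Gamma (13 / 25) := Real.Gamma_pos_of_pos (by norm_num)
  rw [h4]
  refine (norm_add_le _ _).trans (add_le_add ?_ ?_)
  · have h : -((13 * Real.pi / 50 : ℝ) : ℂ) * Complex.I =
        ((-(13 * Real.pi / 50) : ℝ) : ℂ) * Complex.I := by push_cast; ring
    rw [norm_mul, h, Complex.norm_exp_ofReal_mul_I, mul_one, Complex.norm_real,
      Real.norm_of_nonneg hG.le]
  · have h : -((ξ : ℂ) * Complex.I) = ((-ξ : ℝ) : ℂ) * Complex.I := by push_cast; ring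
    rw [norm_mul, norm_mul, Complex.norm_I, h, Complex.norm_exp_ofReal_mul_I, one_mul, one_mul]
    exact h1

private theorem FrI_L1 {X x : ℝ} (hX : 0 < X) (hx0 : 0 ≤ x) (hx1 : x ≤ 1) :
    x ^ (12 / 25 : ℝ) * ‖Fr (x * X)‖ ≤ X ^ (13 / 25 : ℝ) / (13 / 25) := by
  rcases hx0.eq_or_lt with h | h
  · rw [← h, Real.zero_rpow (by norm_num), zero_mul]
    positivity
  · calc x ^ (12 / 25 : ℝ) * ‖Fr (x * X)‖
        ≤ x ^ (12 / 25 : ℝ) * ((x * X) ^ (13 / 25 : ℝ) / (13 / 25)) :=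
          mul_le_mul_of_nonneg_left (FrI_U1 (by positivity)) (by positivity)
      _ = x * (X ^ (13 / 25 : ℝ) / (13 / 25)) := by
          rw [Real.mul_rpow h.le hX.le]
          have e : x ^ (12 / 25 : ℝ) * x ^ (13 / 25 : ℝ) = x := by
            rw [← Real.rpow_add h]
            norm_num
          linear_combination (X ^ (13 / 25 : ℝ) / (13 / 25)) * e
      _ ≤ 1 * (X ^ (13 / 25 : ℝ) / (13 / 25)) :=
          mul_le_mul_of_nonneg_right hx1 (by positivity)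
      _ = _ := one_mul _

private theorem FrI_L2 {X x : ℝ} (hX : 0 < X) (hx0 : 0 ≤ x) (hx1 : x ≤ 1) :
    x ^ (12 / 25 : ℝ) * ‖Fr (x * X)‖ ≤ Real.Gamma (13 / 25) + X ^ (-(12 / 25 : ℝ)) := by
  have hG : 0 < Real.Gamma (13 / 25) := Real.Gamma_pos_of_pos (by norm_num)
  rcases hx0.eq_or_lt with h | h
  · rw [← h, Real.zero_rpow (by norm_num), zero_mul]
    positivity
  · calc x ^ (12 / 25 : ℝ) * ‖Fr (x * X)‖
        ≤ x ^ (12 / 25 : ℝ) * (Real.Gamma (13 / 25) + (x * X) ^ (-(12 / 25 : ℝ))) :=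
          mul_le_mul_of_nonneg_left (FrI_U2 (by positivity)) (by positivity)
      _ = x ^ (12 / 25 : ℝ) * Real.Gamma (13 / 25) + X ^ (-(12 / 25 : ℝ)) := by
          rw [Real.mul_rpow h.le hX.le]
          have e : x ^ (12 / 25 : ℝ) * x ^ (-(12 / 25 : ℝ)) = 1 := by
            rw [← Real.rpow_add h]
            norm_num
          linear_combination (X ^ (-(12 / 25 : ℝ))) * e
      _ ≤ 1 * Real.Gamma (13 / 25) + X ^ (-(12 / 25 : ℝ)) := by
          have : x ^ (12 / 25 : ℝ) ≤ 1 := Real.rpow_le_one h.le hx1 (by norm_num)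
          have := mul_le_mul_of_nonneg_right this hG.le
          linarith
      _ = _ := by rw [one_mul]

private theorem FrI_re {X : ℝ} {J : ℂ} (G : ℝ) :
    (Complex.exp (((Real.pi / 4 : ℝ) : ℂ) * Complex.I) *
      (((G : ℝ) : ℂ) * Complex.exp (-((13 * Real.pi / 50 : ℝ) : ℂ) * Complex.I)
        + Complex.I * Complex.exp (-((X : ℂ) * Complex.I)) * J)).re =
      G * Real.cos (Real.pi / 100) + (J.re * Real.cos (3 * Real.pi / 4 - X) -
        J.im * Real.sin (3 * Real.pi / 4 - X)) := by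
  have e1 : Complex.exp (((Real.pi / 4 : ℝ) : ℂ) * Complex.I) *
      Complex.exp (-((13 * Real.pi / 50 : ℝ) : ℂ) * Complex.I) =
      Complex.exp (((-(Real.pi / 100) : ℝ) : ℂ) * Complex.I) := by
    rw [← Complex.exp_add]
    congr 1
    push_cast
    ring
  have e2 : Complex.exp (((Real.pi / 4 : ℝ) : ℂ) * Complex.I) *
      (Complex.I * Complex.exp (-((X : ℂ) * Complex.I))) =
      Complex.exp (((3 * Real.pi / 4 - X : ℝ) : ℂ) * Complex.I) := by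
    have hI : Complex.I = Complex.exp (((Real.pi / 2 : ℝ) : ℂ) * Complex.I) := by
      push_cast
      rw [Complex.exp_pi_div_two_mul_I]
    nth_rewrite 2 [hI]
    rw [← Complex.exp_add, ← Complex.exp_add]
    congr 1
    push_cast
    ring
  have e3 : Complex.exp (((Real.pi / 4 : ℝ) : ℂ) * Complex.I) *
      (((G : ℝ) : ℂ) * Complex.exp (-((13 * Real.pi / 50 : ℝ) : ℂ) * Complex.I)
        + Complex.I * Complex.exp (-((X : ℂ) * Complex.I)) * J) =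
      ((G : ℝ) : ℂ) * Complex.exp (((-(Real.pi / 100) : ℝ) : ℂ) * Complex.I) +
        Complex.exp (((3 * Real.pi / 4 - X : ℝ) : ℂ) * Complex.I) * J := by
    rw [← e1, ← e2]
    ring
  rw [e3, Complex.add_re, Complex.re_ofReal_mul, Complex.exp_ofReal_mul_I_re, Real.cos_neg,
    Complex.mul_re, Complex.exp_ofReal_mul_I_re, Complex.exp_ofReal_mul_I_im]
  ring

private theorem FrI_case1 {X : ℝ} (hX : 0 < X) (hX2 : X ≤ Real.pi / 2) :
    Real.cos (Real.pi / 4) * (X ^ (13 / 25 : ℝ) / (13 / 25)) ≤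
      (Complex.exp (((Real.pi / 4 : ℝ) : ℂ) * Complex.I) * Fr X).re := by
  have hi := (intervalIntegral.intervalIntegrable_rpow' (a := 0) (b := X)
    (r := -(12 / 25 : ℝ)) (by norm_num))
  have hic : IntervalIntegrable (fun ξ : ℝ => ((ξ ^ (-(12 / 25 : ℝ)) : ℝ) : ℂ)) MeasureTheory.volume
      0 X := ⟨hi.1.ofReal, hi.2.ofReal⟩
  have hic2 : IntervalIntegrable (fun ξ : ℝ => ((ξ ^ (-(12 / 25 : ℝ)) : ℝ) : ℂ) *
      (Complex.exp (-((ξ : ℂ) * Complex.I)) *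
        Complex.exp (((Real.pi / 4 : ℝ) : ℂ) * Complex.I))) MeasureTheory.volume 0 X := by
    refine hic.mul_continuousOn (Continuous.continuousOn ?_)
    fun_prop
  have h1 : Complex.exp (((Real.pi / 4 : ℝ) : ℂ) * Complex.I) * Fr X =
      ∫ ξ in (0 : ℝ)..X, ((ξ ^ (-(12 / 25 : ℝ)) : ℝ) : ℂ) *
      (Complex.exp (-((ξ : ℂ) * Complex.I)) *
        Complex.exp (((Real.pi / 4 : ℝ) : ℂ) * Complex.I)) := by
    unfold Fr
    rw [← intervalIntegral.integral_const_mul]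
    refine intervalIntegral.integral_congr fun ξ _ => ?_
    show Complex.exp (((Real.pi / 4 : ℝ) : ℂ) * Complex.I) * (((ξ ^ (-(12 / 25 : ℝ)) : ℝ) : ℂ) *
      Complex.exp (-((ξ : ℂ) * Complex.I))) = _
    ring
  have h2 := Complex.reCLM.intervalIntegral_comp_comm hic2
  simp only [Complex.reCLM_apply] at h2
  rw [h1, ← h2, ← FrI_integral, ← intervalIntegral.integral_const_mul]
  have h3 : ∀ ξ : ℝ, (((ξ ^ (-(12 / 25 : ℝ)) : ℝ) : ℂ) * (Complex.exp (-((ξ : ℂ) * Complex.I)) *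
      Complex.exp (((Real.pi / 4 : ℝ) : ℂ) * Complex.I))).re =
      ξ ^ (-(12 / 25 : ℝ)) * Real.cos (ξ - Real.pi / 4) := by
    intro ξ
    have e : Complex.exp (-((ξ : ℂ) * Complex.I)) *
      Complex.exp (((Real.pi / 4 : ℝ) : ℂ) * Complex.I) =
      Complex.exp (((-(ξ - Real.pi / 4) : ℝ) : ℂ) * Complex.I) := by
      rw [← Complex.exp_add]
      congr 1
      push_cast
      ring
    rw [e, Complex.re_ofReal_mul, Complex.exp_ofReal_mul_I_re, Real.cos_neg]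
  simp only [h3]
  refine intervalIntegral.integral_mono_on hX.le (hi.const_mul _)
    (hi.mul_continuousOn (Continuous.continuousOn (by fun_prop))) fun ξ hξ => ?_
  have h4 : Real.cos (Real.pi / 4) ≤ Real.cos (ξ - Real.pi / 4) := by
    rw [← Real.cos_abs (ξ - Real.pi / 4)]
    have hpi := Real.pi_pos
    refine Real.cos_le_cos_of_nonneg_of_le_pi (abs_nonneg _) (by linarith) ?_
    rw [abs_le]
    constructor <;> [linarith [hξ.1]; linarith [hξ.2]]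
  rw [mul_comm]
  exact mul_le_mul_of_nonneg_left h4 (Real.rpow_nonneg hξ.1 _)

theorem FI {X x : ℝ} (hX : 0 < X) (hx0 : 0 ≤ x) (hx1 : x ≤ 1) :
    (5 / 9 : ℝ) * (x ^ (12 / 25 : ℝ) * ‖Fr (x * X)‖) ≤
      (Complex.exp (((Real.pi / 4 : ℝ) : ℂ) * Complex.I) * Fr X).re := by
  have hpi := Real.pi_gt_d4
  have hpi2 := Real.pi_lt_d4
  have hs2 : (0.7071 : ℝ) ≤ √2 / 2 ∧ √2 / 2 ≤ 0.7072 := by
    constructor
    · rw [le_div_iff₀ (by norm_num)]
      exact Real.le_sqrt_of_sq_le (by norm_num)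
    · rw [div_le_iff₀ (by norm_num), Real.sqrt_le_left (by norm_num)]
      norm_num
  by_cases hc1 : X ≤ Real.pi / 2
  · have h1 := FrI_case1 hX hc1
    have h2 := FrI_L1 hX hx0 hx1
    rw [Real.cos_pi_div_four] at h1
    have h3 : 0 ≤ X ^ (13 / 25 : ℝ) / (13 / 25) := by positivity
    nlinarith [hs2.1]
  push Not at hc1
  have h2 := FrI_L2 hX hx0 hx1
  have hG := gamma_lb
  obtain ⟨J, hJ1, hJ2, hJ3, hJ4⟩ := Fr_J hX
  have hJ3' := hJ3 (by linarith)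
  rw [hJ4, FrI_re]
  have hc100 : (0.9995 : ℝ) ≤ Real.cos (Real.pi / 100) := by
    have := Real.one_sub_sq_div_two_le_cos (x := Real.pi / 100)
    nlinarith
  generalize Real.Gamma (13 / 25) = G at hG h2 ⊢
  have hGc : 0.9995 * G ≤ G * Real.cos (Real.pi / 100) := by nlinarith
  have hJn : |J.re * Real.cos (3 * Real.pi / 4 - X) - J.im * Real.sin (3 * Real.pi / 4 - X)| ≤
      ‖J‖ := by
    have := Complex.abs_re_le_norm (Complex.exp (((3 * Real.pi / 4 - X : ℝ) : ℂ) * Complex.I) * J)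
    rw [norm_mul, Complex.norm_exp_ofReal_mul_I, one_mul, Complex.mul_re,
      Complex.exp_ofReal_mul_I_re, Complex.exp_ofReal_mul_I_im] at this
    refine le_trans (le_of_eq ?_) this
    congr 1
    ring
  have hJre : J.re ≤ ‖J‖ := (le_abs_self _).trans (Complex.abs_re_le_norm J)
  by_cases hc2 : X ≤ 5 * Real.pi / 4
  · have h3 : X ^ (-(12 / 25 : ℝ)) ≤ 1 :=
      FrI_pow (X0 := 1) one_pos (by linarith) one_pos (by norm_num)
    have hcos : 0 ≤ Real.cos (3 * Real.pi / 4 - X) :=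
      Real.cos_nonneg_of_neg_pi_div_two_le_of_le (by linarith) (by linarith)
    have hcs : Real.sin (3 * Real.pi / 4 - X) ≤ Real.cos (3 * Real.pi / 4 - X) := by
      by_cases hs : 3 * Real.pi / 4 - X ≤ 0
      · have := Real.sin_nonpos_of_nonpos_of_neg_pi_le hs (by linarith)
        linarith
      · push Not at hs
        have e1 : Real.sin (3 * Real.pi / 4 - X) ≤ Real.sin (Real.pi / 4) :=
          Real.sin_le_sin_of_le_of_le_pi_div_two (by linarith) (by linarith) (by linarith)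
        have e2 : Real.cos (Real.pi / 4) ≤ Real.cos (3 * Real.pi / 4 - X) :=
          Real.cos_le_cos_of_nonneg_of_le_pi hs.le (by linarith) (by linarith)
        rw [Real.sin_pi_div_four] at e1
        rw [Real.cos_pi_div_four] at e2
        linarith
    have h5 : 0 ≤ J.re * Real.cos (3 * Real.pi / 4 - X) -
        J.im * Real.sin (3 * Real.pi / 4 - X) := by
      have e1 := mul_le_mul_of_nonneg_right hJ3' hcos
      have e2 := mul_le_mul_of_nonneg_left hcs hJ2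
      linarith
    linarith
  push Not at hc2
  by_cases hc3 : X ≤ 3 * Real.pi / 2
  · have h3 : X ^ (-(12 / 25 : ℝ)) ≤ 0.52 :=
      FrI_pow (X0 := 3.925) (by norm_num) (by linarith) (by norm_num) (by norm_num)
    have hcos : -(0.7072 : ℝ) ≤ Real.cos (3 * Real.pi / 4 - X) := by
      have e1 : Real.cos (3 * Real.pi / 4) ≤ Real.cos (-(3 * Real.pi / 4 - X)) :=
        Real.cos_le_cos_of_nonneg_of_le_pi (by linarith) (by linarith) (by linarith)
      rw [Real.cos_neg] at e1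
      have e2 : Real.cos (3 * Real.pi / 4) = -(√2 / 2) := by
        rw [← Real.cos_pi_div_four, ← Real.cos_pi_sub]
        congr 1
        ring
      rw [e2] at e1
      linarith [hs2.2]
    have hsin : Real.sin (3 * Real.pi / 4 - X) ≤ 0 :=
      Real.sin_nonpos_of_nonpos_of_neg_pi_le (by linarith) (by linarith)
    have hJre0 : 0 ≤ J.re := hJ2.trans hJ3'
    have e1 : -(0.7072 : ℝ) * 0.52 ≤ J.re * Real.cos (3 * Real.pi / 4 - X) := by
      have e3 : J.re ≤ 0.52 := by linarith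
      have e4 := mul_le_mul_of_nonneg_left hcos hJre0
      nlinarith
    have e2 : 0 ≤ -(J.im * Real.sin (3 * Real.pi / 4 - X)) := by
      have := mul_nonneg hJ2 (neg_nonneg.mpr hsin)
      linarith
    linarith
  · push Not at hc3
    have h3 : X ^ (-(12 / 25 : ℝ)) ≤ 0.477 :=
      FrI_pow (X0 := 4.712) (by norm_num) (by linarith) (by norm_num) (by norm_num)
    have h4 := (abs_le.mp hJn).1
    linarith

end Pool.Agent.Lib.MP_8382de_an.ET
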