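import Pool.Agent.Lib.MP_8382de_an.ET.Defs

/-!
# ET.FrL: `∫_0^∞ s^(a-1)/(1+s²) ds = (π/2)/sin(π a/2)`

Proof (Tonelli). For `s > 0`: `1/(1+s²) = ∫_0^∞ e^(-(1+s²) r) dr`. Hence
`∫_0^∞ s^(a-1)/(1+s²) ds = ∫_0^∞ e^(-r) ∫_0^∞ s^(a-1) e^(-r s²) ds dr`, the inner integral is
`(1/2) Γ(a/2) r^(-a/2)` (`integral_rpow_mul_exp_neg_mul_rpow`), so the result is
`(1/2) Γ(a/2) ∫_0^∞ r^(-a/2) e^(-r) dr = (1/2) Γ(a/2) Γ(1-a/2)` and
`Γ(a/2) Γ(1-a/2) = π/sin(π a/2)` (`Real.Gamma_mul_Gamma_one_sub`).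
-/

set_option autoImplicit false

namespace Pool.Agent.Lib.MP_8382de_an.ET

open MeasureTheory Set

private theorem FrL_inner1 {c : ℝ} (hc : 0 < c) :
    ∫⁻ r in Ioi (0 : ℝ), ENNReal.ofReal (Real.exp (-(c * r))) = ENNReal.ofReal (1 / c) := by
  rw [← ofReal_integral_eq_lintegral_ofReal]
  · congr 1
    have h := integral_exp_mul_Ioi (a := -c) (by linarith) 0
    simp only [mul_zero, Real.exp_zero] at h
    have h2 : ∀ r : ℝ, -(c * r) = -c * r := fun r => by ring
    simp only [h2]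
    rw [h]
    field_simp
  · have h := integrableOn_exp_mul_Ioi (a := -c) (by linarith) 0
    refine h.congr ?_
    refine Filter.Eventually.of_forall fun r => ?_
    simp only []
    congr 1
    ring
  · exact Filter.Eventually.of_forall fun r => (Real.exp_pos _).le

private theorem FrL_inner2 {a r : ℝ} (ha : 0 < a) (hr : 0 < r) :
    ∫⁻ s in Ioi (0 : ℝ), ENNReal.ofReal (s ^ (a - 1) * Real.exp (-r * s ^ (2 : ℝ))) =
      ENNReal.ofReal (r ^ (-a / 2) * (1 / 2) * Real.Gamma (a / 2)) := by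
  rw [← ofReal_integral_eq_lintegral_ofReal]
  · congr 1
    rw [integral_rpow_mul_exp_neg_mul_rpow (by norm_num) (by linarith) hr]
    simp only [sub_add_cancel]
  · exact integrableOn_rpow_mul_exp_neg_mul_rpow (by linarith) (by norm_num) hr
  · rw [Filter.EventuallyLE, ae_restrict_iff' measurableSet_Ioi]
    refine Filter.Eventually.of_forall fun s hs => ?_
    have : (0 : ℝ) < s := hs
    simp only [Pi.zero_apply]
    positivity

private theorem FrL_inner3 {a : ℝ} (ha2 : a < 2) :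
    ∫⁻ r in Ioi (0 : ℝ), ENNReal.ofReal (Real.exp (-r) * r ^ (-a / 2)) =
      ENNReal.ofReal (Real.Gamma (1 - a / 2)) := by
  rw [← ofReal_integral_eq_lintegral_ofReal]
  · congr 1
    rw [Real.Gamma_eq_integral (by linarith)]
    refine integral_congr_ae (Filter.Eventually.of_forall fun r => ?_)
    simp only []
    congr 2
    ring
  · have h := Real.GammaIntegral_convergent (s := 1 - a / 2) (by linarith)
    refine h.congr ?_
    refine Filter.Eventually.of_forall fun r => ?_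
    simp only []
    congr 2
    ring
  · rw [Filter.EventuallyLE, ae_restrict_iff' measurableSet_Ioi]
    refine Filter.Eventually.of_forall fun s hs => ?_
    have : (0 : ℝ) < s := hs
    simp only [Pi.zero_apply]
    positivity

private theorem FrL_lint {a : ℝ} (ha : 0 < a) (ha2 : a < 2) :
    ∫⁻ s in Ioi (0 : ℝ), ENNReal.ofReal (s ^ (a - 1) / (1 + s ^ 2)) =
      ENNReal.ofReal (1 / 2 * (Real.Gamma (a / 2) * Real.Gamma (1 - a / 2))) := by
  have h1 : ∫⁻ s in Ioi (0 : ℝ), ENNReal.ofReal (s ^ (a - 1) / (1 + s ^ 2)) =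
      ∫⁻ s in Ioi (0 : ℝ), ∫⁻ r in Ioi (0 : ℝ),
        ENNReal.ofReal (s ^ (a - 1) * Real.exp (-((1 + s ^ 2) * r))) := by
    refine setLIntegral_congr_fun measurableSet_Ioi fun s hs => ?_
    have hs' : (0 : ℝ) < s := hs
    have h2 : ∀ r : ℝ, ENNReal.ofReal (s ^ (a - 1) * Real.exp (-((1 + s ^ 2) * r))) =
        ENNReal.ofReal (s ^ (a - 1)) * ENNReal.ofReal (Real.exp (-((1 + s ^ 2) * r))) :=
      fun r => ENNReal.ofReal_mul (by positivity)
    simp only [h2]
    rw [lintegral_const_mul' _ _ ENNReal.ofReal_ne_top, FrL_inner1 (by positivity),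
      ← ENNReal.ofReal_mul (by positivity)]
    congr 1
    ring
  rw [h1, lintegral_lintegral_swap]
  · have h3 : ∫⁻ r in Ioi (0 : ℝ), ∫⁻ s in Ioi (0 : ℝ),
        ENNReal.ofReal (s ^ (a - 1) * Real.exp (-((1 + s ^ 2) * r))) =
        ∫⁻ r in Ioi (0 : ℝ), ENNReal.ofReal (1 / 2 * Real.Gamma (a / 2)) *
          ENNReal.ofReal (Real.exp (-r) * r ^ (-a / 2)) := by
      refine setLIntegral_congr_fun measurableSet_Ioi fun r hr => ?_
      have hr' : (0 : ℝ) < r := hr
      have h4 : ∀ s : ℝ, ENNReal.ofReal (s ^ (a - 1) * Real.exp (-((1 + s ^ 2) * r))) =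
          ENNReal.ofReal (Real.exp (-r)) *
            ENNReal.ofReal (s ^ (a - 1) * Real.exp (-r * s ^ (2 : ℝ))) := by
        intro s
        rw [← ENNReal.ofReal_mul (Real.exp_pos _).le]
        congr 1
        have : -((1 + s ^ 2) * r) = -r + -r * s ^ (2 : ℝ) := by
          rw [Real.rpow_two]; ring
        rw [this, Real.exp_add]
        ring
      simp only [h4]
      rw [lintegral_const_mul' _ _ ENNReal.ofReal_ne_top, FrL_inner2 ha hr',
        ← ENNReal.ofReal_mul (Real.exp_pos _).le,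
        ← ENNReal.ofReal_mul (by have := Real.Gamma_pos_of_pos (half_pos ha); positivity)]
      congr 1
      ring
    rw [h3, lintegral_const_mul' _ _ ENNReal.ofReal_ne_top, FrL_inner3 ha2,
      ← ENNReal.ofReal_mul (by have := Real.Gamma_pos_of_pos (half_pos ha); positivity)]
    congr 1
    ring
  · refine Measurable.aemeasurable ?_
    fun_prop

theorem int_s {a : ℝ} (ha : 0 < a) (ha2 : a < 2) :
    IntegrableOn (fun s : ℝ => s ^ (a - 1) / (1 + s ^ 2)) (Ioi 0) ∧
    ∫ s in Ioi (0 : ℝ), s ^ (a - 1) / (1 + s ^ 2) = Real.pi / 2 / Real.sin (Real.pi * a / 2) := by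
  have hl := FrL_lint ha ha2
  have hG1 := Real.Gamma_pos_of_pos (half_pos ha)
  have hG2 : 0 < Real.Gamma (1 - a / 2) := Real.Gamma_pos_of_pos (by linarith)
  have hnn : 0 ≤ᵐ[volume.restrict (Ioi (0 : ℝ))] fun s : ℝ => s ^ (a - 1) / (1 + s ^ 2) := by
    rw [Filter.EventuallyLE, ae_restrict_iff' measurableSet_Ioi]
    refine Filter.Eventually.of_forall fun s hs => ?_
    have : (0 : ℝ) < s := hs
    simp only [Pi.zero_apply]
    positivity
  have hm : AEStronglyMeasurable (fun s : ℝ => s ^ (a - 1) / (1 + s ^ 2))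
      (volume.restrict (Ioi (0 : ℝ))) := by
    refine Measurable.aestronglyMeasurable ?_
    fun_prop
  constructor
  · refine ⟨hm, ?_⟩
    rw [hasFiniteIntegral_iff_ofReal hnn, hl]
    exact ENNReal.ofReal_lt_top
  · rw [integral_eq_lintegral_of_nonneg_ae hnn hm, hl, ENNReal.toReal_ofReal (by positivity),
      Real.Gamma_mul_Gamma_one_sub]
    have : Real.pi * (a / 2) = Real.pi * a / 2 := by ring
    rw [this]
    ring

end Pool.Agent.Lib.MP_8382de_an.ET
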