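import Pool.Agent.Lib.MP_8382de_an.ET.Defs

/-!
# ET.Fru: Frullani integral for exponentials

`∫_0^∞ (e^(-at) - e^(-bt))/t dt = log(b/a)` for `a, b > 0`.

Proof. By symmetry (`a ↔ b`) let `a ≤ b`. `(e^(-at) - e^(-bt))/t = ∫_a^b e^(-xt) dx`; Fubini/Tonelli
(`0 ≤ e^(-xt)`, `∫_0^∞ e^(-xt) dt = 1/x`, `∫_a^b dx/x = log(b/a)`: `integral_inv_of_pos`).
-/

set_option autoImplicit false

namespace Pool.Agent.Lib.MP_8382de_an.ET

open MeasureTheory Set

theorem frullani_le {a b : ℝ} (ha : 0 < a) (hab : a ≤ b) :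
    IntegrableOn (fun t : ℝ => (Real.exp (-(a * t)) - Real.exp (-(b * t))) / t) (Ioi 0) ∧
    ∫ t in Ioi (0 : ℝ), (Real.exp (-(a * t)) - Real.exp (-(b * t))) / t = Real.log (b / a) := by
  have hb : 0 < b := lt_of_lt_of_le ha hab
  set μ : Measure ℝ := volume.restrict (Ioi 0) with hμ
  set ν : Measure ℝ := volume.restrict (Ioc a b) with hν
  let f : ℝ → ℝ → ℝ := fun t x => Real.exp (-(x * t))
  have hcont : Continuous (Function.uncurry f) := by
    simp only [f, Function.uncurry_def]
    fun_prop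
  have hint1 : ∀ x ∈ Ioc a b, IntegrableOn (fun t => Real.exp (-(x * t))) (Ioi 0) := by
    intro x hx
    have hx0 : 0 < x := lt_trans ha hx.1
    have h := integrableOn_exp_mul_Ioi (a := -x) (by linarith) 0
    refine h.congr_fun (fun t _ => ?_) measurableSet_Ioi
    simp only [neg_mul]
  have hval : ∀ x ∈ Ioc a b, ∫ t in Ioi (0 : ℝ), Real.exp (-(x * t)) = x⁻¹ := by
    intro x hx
    have hx0 : 0 < x := lt_trans ha hx.1
    have h := integral_exp_mul_Ioi (a := -x) (by linarith) 0
    simp only [neg_mul, mul_zero, Real.exp_zero] at h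
    rw [h]
    field_simp
  have hinv : IntegrableOn (fun x : ℝ => x⁻¹) (Ioc a b) := by
    refine (ContinuousOn.integrableOn_Icc ?_).mono_set Ioc_subset_Icc_self
    intro x hx
    exact (continuousAt_inv₀ (lt_of_lt_of_le ha hx.1).ne').continuousWithinAt
  have hprod : Integrable (Function.uncurry f) (μ.prod ν) := by
    rw [integrable_prod_iff' hcont.aestronglyMeasurable]
    constructor
    · refine (ae_restrict_iff' measurableSet_Ioc).2 (Filter.Eventually.of_forall fun x hx => ?_)
      exact hint1 x hx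
    · have h1 : IntegrableOn (fun x => ∫ t, ‖Function.uncurry f (t, x)‖ ∂μ) (Ioc a b) := by
        refine hinv.congr_fun (fun x hx => ?_) measurableSet_Ioc
        have h2 : ∀ t, ‖Function.uncurry f (t, x)‖ = Real.exp (-(x * t)) := fun t => by
          simp only [f, Function.uncurry_apply_pair, Real.norm_eq_abs, Real.abs_exp]
        simp only [h2]
        exact (hval x hx).symm
      exact h1
  have hinner : ∀ t ∈ Ioi (0 : ℝ), ∫ x, f t x ∂ν =
      (Real.exp (-(a * t)) - Real.exp (-(b * t))) / t := by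
    intro t ht
    have ht0 : (0 : ℝ) < t := ht
    rw [hν, ← intervalIntegral.integral_of_le hab]
    have hd : ∀ x ∈ uIcc a b, HasDerivAt (fun x => -(Real.exp (-(x * t)) / t)) (f t x) x := by
      intro x _
      have h1 : HasDerivAt (fun x : ℝ => -(x * t)) (-(1 * t)) x := ((hasDerivAt_id x).mul_const t).neg
      have h2 := (h1.exp.div_const t).neg
      have e1 : f t x = -(Real.exp (-(x * t)) * (-(1 * t)) / t) := by
        show Real.exp (-(x * t)) = _
        field_simp
      rw [e1]
      exact h2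
    rw [intervalIntegral.integral_eq_sub_of_hasDerivAt hd]
    · ring
    · refine Continuous.intervalIntegrable ?_ _ _
      simp only [f]
      fun_prop
  have hI : IntegrableOn (fun t : ℝ => (Real.exp (-(a * t)) - Real.exp (-(b * t))) / t) (Ioi 0) := by
    have h1 : IntegrableOn (fun t => ∫ x, f t x ∂ν) (Ioi 0) := hprod.integral_prod_left
    exact h1.congr_fun (fun t ht => hinner t ht) measurableSet_Ioi
  refine ⟨hI, ?_⟩
  calc ∫ t in Ioi (0 : ℝ), (Real.exp (-(a * t)) - Real.exp (-(b * t))) / t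
      = ∫ t, ∫ x, f t x ∂ν ∂μ :=
        setIntegral_congr_fun measurableSet_Ioi fun t ht => (hinner t ht).symm
    _ = ∫ x, ∫ t, f t x ∂μ ∂ν := integral_integral_swap hprod
    _ = ∫ x in Ioc a b, x⁻¹ := setIntegral_congr_fun measurableSet_Ioc fun x hx => hval x hx
    _ = Real.log (b / a) := by
        rw [← intervalIntegral.integral_of_le hab, integral_inv_of_pos ha hb]

theorem frullani {a b : ℝ} (ha : 0 < a) (hb : 0 < b) :
    IntegrableOn (fun t : ℝ => (Real.exp (-(a * t)) - Real.exp (-(b * t))) / t) (Ioi 0) ∧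
    ∫ t in Ioi (0 : ℝ), (Real.exp (-(a * t)) - Real.exp (-(b * t))) / t = Real.log (b / a) := by
  rcases le_total a b with h | h
  · exact frullani_le ha h
  · obtain ⟨h1, h2⟩ := frullani_le hb h
    have e1 : (fun t : ℝ => (Real.exp (-(a * t)) - Real.exp (-(b * t))) / t) =
        fun t => -((Real.exp (-(b * t)) - Real.exp (-(a * t))) / t) := by
      funext t
      ring
    rw [e1]
    refine ⟨h1.neg, ?_⟩
    rw [integral_neg, h2, ← Real.log_inv, inv_div]

end Pool.Agent.Lib.MP_8382de_an.ET
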