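import Pool.Agent.Lib.MP_8382de_an.ET.Defs

/-!
# ET.GCo: product of the two perturbations

`σ₁ = ζ`, `σ₂ = ρ + ρ ∗ ζ` (`Measure.conv`; finite; no mass on `(-∞,0]` since the sum of two positive
numbers is positive). `∫ e^(-yt) d(ρ ∗ ζ) = (∫ e^(-yt) dρ)(∫ e^(-yt) dζ)` for `y ≥ 0` (bounded integrand
on the support; `integral_conv` or map of the product), so
`1 + ζ^ - ρ^ - ρ^ ζ^ = (1-ρ^)(1+ζ^)`. Masses: `ζ + ρ + ρζ = (1+ρ)(1+ζ) - 1`.
-/

set_option autoImplicit false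

namespace Pool.Agent.Lib.MP_8382de_an.ET

open MeasureTheory Set

theorem exp_integrable {ρ : Measure ℝ} [IsFiniteMeasure ρ] (hρ : ρ (Iic 0) = 0) {y : ℝ}
    (hy : 0 ≤ y) : Integrable (fun t => Real.exp (-(y * t))) ρ := by
  have hc : Continuous fun t : ℝ => Real.exp (-(y * t)) := by fun_prop
  refine Integrable.mono' (integrable_const (1 : ℝ)) hc.aestronglyMeasurable ?_
  have h1 : ∀ᵐ t ∂ρ, t ∉ Iic (0 : ℝ) := measure_eq_zero_iff_ae_notMem.1 hρ
  filter_upwards [h1] with t ht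
  rw [Real.norm_eq_abs, Real.abs_exp]
  have ht0 : 0 < t := not_le.1 ht
  exact Real.exp_le_one_iff.2 (by nlinarith)

theorem GG_comb {ρ ζ : Measure ℝ} [IsFiniteMeasure ρ] [IsFiniteMeasure ζ] (hρ : ρ (Iic 0) = 0)
    (hζ : ζ (Iic 0) = 0) :
    ∃ σ₁ σ₂ : Measure ℝ, IsFiniteMeasure σ₁ ∧ IsFiniteMeasure σ₂ ∧ σ₁ (Iic 0) = 0 ∧
      σ₂ (Iic 0) = 0 ∧
      σ₁.real univ + σ₂.real univ = (1 + ρ.real univ) * (1 + ζ.real univ) - 1 ∧
      ∀ y : ℝ, 0 ≤ y → GG σ₁ σ₂ y =
        (1 - ∫ t, Real.exp (-(y * t)) ∂ρ) * (1 + ∫ t, Real.exp (-(y * t)) ∂ζ) := by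
  set κ : Measure ℝ := (ρ.prod ζ).map (fun p => p.1 + p.2) with hκ
  have hmeas : Measurable fun p : ℝ × ℝ => p.1 + p.2 := measurable_fst.add measurable_snd
  haveI : IsFiniteMeasure κ := by
    rw [hκ]
    infer_instance
  have hκ0 : κ (Iic 0) = 0 := by
    rw [hκ, Measure.map_apply hmeas measurableSet_Iic]
    have hsub : (fun p : ℝ × ℝ => p.1 + p.2) ⁻¹' Iic 0 ⊆ (Iic 0 ×ˢ univ) ∪ (univ ×ˢ Iic 0) := by
      rintro ⟨a, b⟩ h
      simp only [mem_preimage, mem_Iic] at h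
      by_cases ha : a ≤ 0
      · exact Or.inl ⟨ha, mem_univ _⟩
      · exact Or.inr ⟨mem_univ _, by
          simp only [mem_Iic]
          linarith [not_le.1 ha]⟩
    refine measure_mono_null hsub (measure_union_null ?_ ?_)
    · rw [Measure.prod_prod, hρ, zero_mul]
    · rw [Measure.prod_prod, hζ, mul_zero]
  have hmass : κ.real univ = ρ.real univ * ζ.real univ := by
    rw [hκ, measureReal_def, Measure.map_apply hmeas MeasurableSet.univ, preimage_univ,
      ← univ_prod_univ, Measure.prod_prod, ENNReal.toReal_mul]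
    rfl
  refine ⟨ζ, ρ + κ, inferInstance, inferInstance, hζ, ?_, ?_, ?_⟩
  · rw [Measure.add_apply, hρ, hκ0, add_zero]
  · rw [measureReal_add_apply, hmass]
    ring
  · intro y hy
    have h1 := exp_integrable hρ hy
    have h2 := exp_integrable hκ0 hy
    have h3 : ∫ t, Real.exp (-(y * t)) ∂κ =
        (∫ t, Real.exp (-(y * t)) ∂ρ) * ∫ t, Real.exp (-(y * t)) ∂ζ := by
      rw [hκ, integral_map hmeas.aemeasurable
        (Continuous.aestronglyMeasurable (by fun_prop)), ← integral_prod_mul]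
      congr 1
      funext p
      rw [← Real.exp_add]
      congr 1
      ring
    unfold GG
    rw [integral_add_measure h1 h2, h3]
    ring

end Pool.Agent.Lib.MP_8382de_an.ET
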