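import Pool.Agent.Lib.MP_8382de_an.ET.FrI

/-!
# ET.Lay: lower bound on the imaginary axis

For `n ∈ Cls`, `τ > 0`, `0 ≤ x ≤ 1`: `(5/9) |V0 n (i x τ)| ≤ Re(e^(-iπ/4) e^(-iτ) V0 n (iτ))`.

Proof. Let `p = 12/25`, `κ(t) = 1 - e^(-t/2) ∈ (0,1)`. For `y` real
`e^(-iy) V0 n (iy) = 1 + (iy/2) ∫_0^∞ e^(-t/2) n(t) e^(-iyκ(t)) dt = 1 + i y ∫_0^1 m(v) e^(-iyv) dv`,
`m(v) = n(-2 log(1-v))`, and `G(v) = v^p m(v)` is `≥ 0` and nonincreasing on `(0,1)`.
`G` is the limit of the sums `(1/N) ∑_(j<N²) 1[(j+1)/N ≤ G(v)]` of indicators of intervals `(0,ρ)`, for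
which the inequality is `FI` (scaling).
-/

set_option autoImplicit false

namespace Pool.Agent.Lib.MP_8382de_an.ET

open MeasureTheory Set Filter Topology

/-- `v^(-p) e^(-iyv)` -/
private noncomputable def lw (y v : ℝ) : ℂ :=
  ((v ^ (-(12 / 25 : ℝ)) : ℝ) : ℂ) * Complex.exp (-(((y * v : ℝ) : ℂ) * Complex.I))

private lemma lw_norm (y v : ℝ) (hv : 0 ≤ v) : ‖lw y v‖ = v ^ (-(12 / 25 : ℝ)) := by
  unfold lw
  rw [norm_mul, Complex.norm_real, Real.norm_of_nonneg (Real.rpow_nonneg hv _), ← neg_mul,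
    ← Complex.ofReal_neg, Complex.norm_exp_ofReal_mul_I, mul_one]

private lemma lw_meas (y : ℝ) : Measurable (lw y) := by
  unfold lw
  fun_prop

private lemma lw_int (y : ℝ) : IntegrableOn (lw y) (Ioo 0 1) := by
  have h1 : IntegrableOn (fun v : ℝ => v ^ (-(12 / 25 : ℝ))) (Ioo 0 1) := by
    have := (intervalIntegral.intervalIntegrable_rpow' (a := 0) (b := 1) (r := -(12 / 25 : ℝ))
      (by norm_num))
    rw [intervalIntegrable_iff_integrableOn_Ioo_of_le (by norm_num)] at this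
    exact this
  refine Integrable.mono' h1 (lw_meas y).aestronglyMeasurable ?_
  refine (ae_restrict_iff' measurableSet_Ioo).2 (Eventually.of_forall fun v hv => ?_)
  rw [lw_norm y v hv.1.le]

private lemma lw_scale {y ρ : ℝ} (hy : 0 < y) (hρ : 0 ≤ ρ) :
    ((y ^ (1 - 12 / 25 : ℝ) : ℝ) : ℂ) * ∫ v in (0 : ℝ)..ρ, lw y v = Fr (ρ * y) := by
  have h := intervalIntegral.integral_comp_mul_left (a := 0) (b := ρ)
    (fun ξ : ℝ => ((ξ ^ (-(12 / 25 : ℝ)) : ℝ) : ℂ) * Complex.exp (-((ξ : ℂ) * Complex.I)))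
    hy.ne'
  rw [mul_zero] at h
  have h2 : ∫ v in (0 : ℝ)..ρ, (fun ξ : ℝ => ((ξ ^ (-(12 / 25 : ℝ)) : ℝ) : ℂ) *
      Complex.exp (-((ξ : ℂ) * Complex.I))) (y * v) =
      ∫ v in (0 : ℝ)..ρ, ((y ^ (-(12 / 25 : ℝ)) : ℝ) : ℂ) * lw y v := by
    refine intervalIntegral.integral_congr fun v hv => ?_
    rw [uIcc_of_le hρ] at hv
    simp only [lw]
    rw [Real.mul_rpow hy.le hv.1]
    push_cast
    ring
  rw [h2, intervalIntegral.integral_const_mul] at h
  unfold Fr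
  rw [mul_comm ρ y]
  have h3 : (∫ ξ in (0 : ℝ)..y * ρ, ((ξ ^ (-(12 / 25 : ℝ)) : ℝ) : ℂ) *
      Complex.exp (-((ξ : ℂ) * Complex.I))) = (y : ℂ) *
      (((y ^ (-(12 / 25 : ℝ)) : ℝ) : ℂ) * ∫ v in (0 : ℝ)..ρ, lw y v) := by
    rw [h]
    rw [Complex.real_smul, ← mul_assoc]
    rw [← Complex.ofReal_mul, mul_inv_cancel₀ hy.ne', Complex.ofReal_one, one_mul]
  rw [h3, ← mul_assoc, ← Complex.ofReal_mul]
  congr 2
  rw [sub_eq_add_neg, Real.rpow_add hy, Real.rpow_one]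

/-- down sets -/
private lemma down {S : Set ℝ} (hS : S ⊆ Ioo 0 1)
    (hd : ∀ v ∈ S, ∀ w, 0 < w → w ≤ v → w ∈ S) {τ x : ℝ} (hτ : 0 < τ) (hx0 : 0 ≤ x) (hx1 : x ≤ 1) :
    (5 / 9 : ℝ) * (x * ‖∫ v in S, lw (x * τ) v‖) ≤
      (Complex.exp (((Real.pi / 4 : ℝ) : ℂ) * Complex.I) * ∫ v in S, lw τ v).re := by
  obtain ⟨ρ, hρ0, hρ⟩ : ∃ ρ : ℝ, 0 ≤ ρ ∧ S =ᵐ[volume] Ioc 0 ρ := by
    rcases S.eq_empty_or_nonempty with he | hne
    · exact ⟨0, le_rfl, by rw [he, Ioc_self]⟩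
    · have hbd : BddAbove S := ⟨1, fun v hv => (hS hv).2.le⟩
      obtain ⟨v₀, hv₀⟩ := hne
      refine ⟨sSup S, (hS hv₀).1.le.trans (le_csSup hbd hv₀), ?_⟩
      have h1 : S ⊆ Ioc 0 (sSup S) := fun v hv => ⟨(hS hv).1, le_csSup hbd hv⟩
      have h2 : Ioo 0 (sSup S) ⊆ S := by
        intro v hv
        obtain ⟨s, hs, hvs⟩ := exists_lt_of_lt_csSup ⟨v₀, hv₀⟩ hv.2
        exact hd s hs v hv.1 hvs.le
      exact (h1.eventuallyLE).antisymm ((Ioo_ae_eq_Ioc.symm.le).trans h2.eventuallyLE)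
  rw [setIntegral_congr_set hρ, setIntegral_congr_set hρ, ← intervalIntegral.integral_of_le hρ0,
    ← intervalIntegral.integral_of_le hρ0]
  rcases hρ0.eq_or_lt with h | hρpos
  · rw [← h]
    simp
  have hX : 0 < ρ * τ := by positivity
  have hτp : 0 < τ ^ (1 - 12 / 25 : ℝ) := Real.rpow_pos_of_pos hτ _
  have hR : (Complex.exp (((Real.pi / 4 : ℝ) : ℂ) * Complex.I) * Fr (ρ * τ)).re =
      τ ^ (1 - 12 / 25 : ℝ) *
        (Complex.exp (((Real.pi / 4 : ℝ) : ℂ) * Complex.I) * ∫ v in (0 : ℝ)..ρ, lw τ v).re := by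
    rw [← lw_scale hτ hρ0, mul_left_comm, Complex.re_ofReal_mul]
  rcases hx0.eq_or_lt with h | hxpos
  · rw [← h, zero_mul, mul_zero]
    have h0 := FI hX (le_refl 0) zero_le_one
    rw [Real.zero_rpow (by norm_num), zero_mul, mul_zero, hR] at h0
    exact nonneg_of_mul_nonneg_right h0 hτp
  · have h1 := FI hX hx0 hx1
    rw [hR] at h1
    have hxτ : 0 < x * τ := by positivity
    have hL : ‖Fr (x * (ρ * τ))‖ = (x * τ) ^ (1 - 12 / 25 : ℝ) *
        ‖∫ v in (0 : ℝ)..ρ, lw (x * τ) v‖ := by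
      rw [show x * (ρ * τ) = ρ * (x * τ) by ring, ← lw_scale hxτ hρ0, norm_mul, Complex.norm_real,
        Real.norm_of_nonneg (Real.rpow_nonneg hxτ.le _)]
    rw [hL, Real.mul_rpow hx0 hτ.le] at h1
    have h2 : x ^ (12 / 25 : ℝ) * x ^ (1 - 12 / 25 : ℝ) = x := by
      rw [← Real.rpow_add hxpos]
      norm_num
    have h3 : (5 / 9 : ℝ) * (x ^ (12 / 25 : ℝ) * (x ^ (1 - 12 / 25 : ℝ) * τ ^ (1 - 12 / 25 : ℝ) *
        ‖∫ v in (0 : ℝ)..ρ, lw (x * τ) v‖)) = τ ^ (1 - 12 / 25 : ℝ) *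
        ((5 / 9 : ℝ) * (x * ‖∫ v in (0 : ℝ)..ρ, lw (x * τ) v‖)) := by
      calc _ = τ ^ (1 - 12 / 25 : ℝ) * ((5 / 9 : ℝ) * ((x ^ (12 / 25 : ℝ) * x ^ (1 - 12 / 25 : ℝ)) *
            ‖∫ v in (0 : ℝ)..ρ, lw (x * τ) v‖)) := by ring
        _ = _ := by rw [h2]
    rw [h3] at h1
    exact le_of_mul_le_mul_left h1 hτp

private lemma sum_ind (M K : ℕ) :
    ∑ j ∈ Finset.range M, (if j + 1 ≤ K then (1 : ℝ) else 0) = (min K M : ℕ) := by
  induction M with
  | zero => simp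
  | succ M ih =>
    rw [Finset.sum_range_succ, ih]
    by_cases h : M + 1 ≤ K
    · rw [if_pos h, min_eq_right (by omega : M ≤ K), min_eq_right h]
      push_cast
      ring
    · rw [if_neg h, add_zero, min_eq_left (by omega : K ≤ M), min_eq_left (by omega : K ≤ M + 1)]

/-- step function approximation of a number `g ≥ 0` -/
private noncomputable def st (N : ℕ) (g : ℝ) : ℝ :=
  (N : ℝ)⁻¹ * ∑ j ∈ Finset.range (N ^ 2), (if ((j : ℝ) + 1) / N ≤ g then (1 : ℝ) else 0)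

private lemma st_eq {N : ℕ} (hN : 0 < N) {g : ℝ} (hg : 0 ≤ g) :
    st N g = (N : ℝ)⁻¹ * ((min ⌊g * N⌋₊ (N ^ 2) : ℕ) : ℝ) := by
  unfold st
  rw [← sum_ind]
  congr 1
  refine Finset.sum_congr rfl fun j _ => ?_
  have hN' : (0 : ℝ) < N := by exact_mod_cast hN
  have : ((j : ℝ) + 1) / N ≤ g ↔ j + 1 ≤ ⌊g * N⌋₊ := by
    rw [Nat.le_floor_iff (by positivity), div_le_iff₀ hN']
    push_cast
    rfl
  simp only [this]

private lemma st_nonneg (N : ℕ) (g : ℝ) : 0 ≤ st N g := by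
  unfold st
  refine mul_nonneg (by positivity) (Finset.sum_nonneg fun j _ => ?_)
  split_ifs <;> norm_num

private lemma st_le {N : ℕ} (hN : 0 < N) {g : ℝ} (hg : 0 ≤ g) : st N g ≤ g := by
  rw [st_eq hN hg]
  have hN' : (0 : ℝ) < N := by exact_mod_cast hN
  rw [inv_mul_le_iff₀ hN']
  have h1 : ((min ⌊g * N⌋₊ (N ^ 2) : ℕ) : ℝ) ≤ (⌊g * N⌋₊ : ℝ) := by
    exact_mod_cast min_le_left _ _
  have h2 := Nat.floor_le (show 0 ≤ g * N by positivity)
  linarith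

private lemma st_tendsto {g : ℝ} (hg : 0 ≤ g) : Tendsto (fun N : ℕ => st N g) atTop (𝓝 g) := by
  have h1 : Tendsto (fun N : ℕ => (⌊g * (N : ℝ)⌋₊ : ℝ) / N) atTop (𝓝 g) :=
    (tendsto_nat_floor_mul_div_atTop hg).comp tendsto_natCast_atTop_atTop
  refine h1.congr' ?_
  filter_upwards [eventually_ge_atTop (max 1 ⌈g⌉₊)] with N hN
  have hN1 : 0 < N := lt_of_lt_of_le one_pos ((le_max_left _ _).trans hN)
  have hN2 : g ≤ N := (Nat.le_ceil g).trans (by exact_mod_cast (le_max_right _ _).trans hN)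
  rw [st_eq hN1 hg, min_eq_left]
  · rw [div_eq_inv_mul]
  · have h3 : g * (N : ℝ) ≤ ((N ^ 2 : ℕ) : ℝ) := by
      push_cast
      nlinarith [(Nat.cast_nonneg N : (0 : ℝ) ≤ N)]
    exact Nat.floor_le_of_le h3

private lemma key {G : ℝ → ℝ} (hG0 : ∀ v ∈ Ioo (0 : ℝ) 1, 0 ≤ G v)
    (hG : ∀ s t, 0 < s → s ≤ t → t < 1 → G t ≤ G s)
    (hi : IntegrableOn (fun v => v ^ (-(12 / 25 : ℝ)) * G v) (Ioo 0 1))
    {τ x : ℝ} (hτ : 0 < τ) (hx0 : 0 ≤ x) (hx1 : x ≤ 1) :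
    (5 / 9 : ℝ) * (x * ‖∫ v in Ioo (0 : ℝ) 1, ((G v : ℝ) : ℂ) * lw (x * τ) v‖) ≤
      (Complex.exp (((Real.pi / 4 : ℝ) : ℂ) * Complex.I) *
        ∫ v in Ioo (0 : ℝ) 1, ((G v : ℝ) : ℂ) * lw τ v).re := by
  -- the sets
  set S : ℕ → ℕ → Set ℝ := fun N j => {v | v ∈ Ioo (0 : ℝ) 1 ∧ ((j : ℝ) + 1) / N ≤ G v} with hSdef
  have hSsub : ∀ N j, S N j ⊆ Ioo 0 1 := fun N j v hv => hv.1
  have hSd : ∀ N j, ∀ v ∈ S N j, ∀ w, 0 < w → w ≤ v → w ∈ S N j := by
    intro N j v hv w hw hwv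
    exact ⟨⟨hw, hwv.trans_lt hv.1.2⟩, hv.2.trans (hG w v hw hwv hv.1.2)⟩
  have hSm : ∀ N j, MeasurableSet (S N j) := by
    intro N j
    refine Set.OrdConnected.measurableSet ⟨fun a ha b hb c hc => ?_⟩
    exact hSd N j b hb c (ha.1.1.trans_le hc.1) hc.2
  -- approximants
  have happ : ∀ N : ℕ, ∀ y : ℝ, ∫ v in Ioo (0 : ℝ) 1, ((st N (G v) : ℝ) : ℂ) * lw y v =
      ((N : ℝ)⁻¹ : ℝ) * ∑ j ∈ Finset.range (N ^ 2), ∫ v in S N j, lw y v := by
    intro N y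
    have h1 : ∀ v ∈ Ioo (0 : ℝ) 1, ((st N (G v) : ℝ) : ℂ) * lw y v =
        (((N : ℝ)⁻¹ : ℝ) : ℂ) * ∑ j ∈ Finset.range (N ^ 2), (S N j).indicator (lw y) v := by
      intro v hv
      unfold st
      rw [Complex.ofReal_mul, Complex.ofReal_sum, mul_assoc, Finset.sum_mul]
      congr 1
      refine Finset.sum_congr rfl fun j _ => ?_
      by_cases h : ((j : ℝ) + 1) / N ≤ G v
      · rw [if_pos h, indicator_of_mem (show v ∈ S N j from ⟨hv, h⟩)]
        simp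
      · rw [if_neg h, indicator_of_notMem (fun hh : v ∈ S N j => h hh.2)]
        simp
    rw [setIntegral_congr_fun measurableSet_Ioo h1, integral_const_mul, integral_finsetSum]
    · congr 1
      refine Finset.sum_congr rfl fun j _ => ?_
      rw [integral_indicator (hSm N j), Measure.restrict_restrict (hSm N j),
        inter_eq_left.2 (hSsub N j)]
    · intro j _
      exact (lw_int y).indicator (hSm N j)
  have hstm : ∀ N y, AEStronglyMeasurable (fun v => ((st N (G v) : ℝ) : ℂ) * lw y v)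
      (volume.restrict (Ioo 0 1)) := by
    intro N y
    have h1 : Measurable (fun v => (((N : ℝ)⁻¹ : ℝ) : ℂ) *
        ∑ j ∈ Finset.range (N ^ 2), (S N j).indicator (lw y) v) := by
      refine Measurable.const_mul ?_ _
      exact Finset.measurable_sum _ fun j _ => (lw_meas y).indicator (hSm N j)
    refine h1.aestronglyMeasurable.congr ?_
    refine (ae_restrict_iff' measurableSet_Ioo).2 (Eventually.of_forall fun v hv => ?_)
    unfold st
    simp only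
    rw [Complex.ofReal_mul, Complex.ofReal_sum, mul_assoc, Finset.sum_mul]
    congr 1
    refine Finset.sum_congr rfl fun j _ => ?_
    by_cases h : ((j : ℝ) + 1) / N ≤ G v
    · rw [if_pos h, indicator_of_mem (show v ∈ S N j from ⟨hv, h⟩)]
      simp
    · rw [if_neg h, indicator_of_notMem (fun hh : v ∈ S N j => h hh.2)]
      simp
  have hlim : ∀ y : ℝ, Tendsto (fun N : ℕ => ∫ v in Ioo (0 : ℝ) 1, ((st N (G v) : ℝ) : ℂ) * lw y v)
      atTop (𝓝 (∫ v in Ioo (0 : ℝ) 1, ((G v : ℝ) : ℂ) * lw y v)) := by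
    intro y
    refine tendsto_integral_filter_of_dominated_convergence
      (fun v => v ^ (-(12 / 25 : ℝ)) * G v) ?_ ?_ hi ?_
    · exact Eventually.of_forall fun N => hstm N y
    · filter_upwards [eventually_gt_atTop 0] with N hN
      refine (ae_restrict_iff' measurableSet_Ioo).2 (Eventually.of_forall fun v hv => ?_)
      rw [norm_mul, Complex.norm_real, Real.norm_of_nonneg (st_nonneg N _), lw_norm y v hv.1.le,
        mul_comm]
      exact mul_le_mul_of_nonneg_left (st_le hN (hG0 v hv)) (Real.rpow_nonneg hv.1.le _)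
    · refine (ae_restrict_iff' measurableSet_Ioo).2 (Eventually.of_forall fun v hv => ?_)
      refine Tendsto.mul_const _ ?_
      exact (Complex.continuous_ofReal.tendsto _).comp (st_tendsto (hG0 v hv))
  have hineq : ∀ N : ℕ, (5 / 9 : ℝ) * (x * ‖∫ v in Ioo (0 : ℝ) 1,
      ((st N (G v) : ℝ) : ℂ) * lw (x * τ) v‖) ≤
      (Complex.exp (((Real.pi / 4 : ℝ) : ℂ) * Complex.I) *
        ∫ v in Ioo (0 : ℝ) 1, ((st N (G v) : ℝ) : ℂ) * lw τ v).re := by
    intro N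
    rw [happ, happ, norm_mul, Complex.norm_real, Real.norm_of_nonneg (by positivity),
      mul_left_comm (Complex.exp _), Complex.re_ofReal_mul, Finset.mul_sum, Complex.re_sum]
    have h1 : ‖∑ j ∈ Finset.range (N ^ 2), ∫ v in S N j, lw (x * τ) v‖ ≤
        ∑ j ∈ Finset.range (N ^ 2), ‖∫ v in S N j, lw (x * τ) v‖ := norm_sum_le _ _
    calc (5 / 9 : ℝ) * (x * ((N : ℝ)⁻¹ * ‖∑ j ∈ Finset.range (N ^ 2), ∫ v in S N j, lw (x * τ) v‖))
        = (N : ℝ)⁻¹ * ((5 / 9 : ℝ) * (x * ‖∑ j ∈ Finset.range (N ^ 2), ∫ v in S N j, lw (x * τ) v‖)) := by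
          ring
      _ ≤ (N : ℝ)⁻¹ * ((5 / 9 : ℝ) * (x * ∑ j ∈ Finset.range (N ^ 2), ‖∫ v in S N j, lw (x * τ) v‖)) := by
          gcongr
      _ = (N : ℝ)⁻¹ * ∑ j ∈ Finset.range (N ^ 2), ((5 / 9 : ℝ) * (x * ‖∫ v in S N j, lw (x * τ) v‖)) := by
          rw [Finset.mul_sum, Finset.mul_sum]
      _ ≤ _ := by
          refine mul_le_mul_of_nonneg_left (Finset.sum_le_sum fun j _ => ?_) (by positivity)
          exact down (hSsub N j) (hSd N j) hτ hx0 hx1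
  have ht1 := ((hlim (x * τ)).norm.const_mul x).const_mul (5 / 9 : ℝ)
  have ht2 := (Complex.continuous_re.tendsto _).comp
    ((hlim τ).const_mul (Complex.exp (((Real.pi / 4 : ℝ) : ℂ) * Complex.I)))
  exact le_of_tendsto_of_tendsto' ht1 ht2 hineq

/-- `κ(t) = 1 - e^(-t/2)` -/
private noncomputable def kap (t : ℝ) : ℝ := 1 - Real.exp (-t / 2)

private lemma kap_deriv (t : ℝ) : HasDerivAt kap (Real.exp (-t / 2) / 2) t := by
  unfold kap
  have h1 : HasDerivAt (fun t : ℝ => -t / 2) (-1 / 2) t := by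
    simpa using ((hasDerivAt_id t).neg.div_const 2)
  have h2 := (h1.exp).const_sub 1
  have h3 : -(Real.exp (-t / 2) * (-1 / 2)) = Real.exp (-t / 2) / 2 := by ring
  rw [h3] at h2
  exact h2

private lemma kap_inj : InjOn kap (Ioi 0) := by
  intro s _ t _ h
  unfold kap at h
  have h1 : Real.exp (-s / 2) = Real.exp (-t / 2) := by linarith
  have h2 := Real.exp_injective h1
  linarith

private lemma kap_inv (t : ℝ) : -2 * Real.log (1 - kap t) = t := by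
  unfold kap
  rw [sub_sub_cancel, Real.log_exp]
  ring

private lemma kap_image : kap '' (Ioi 0) = Ioo 0 1 := by
  ext v
  constructor
  · rintro ⟨t, ht, rfl⟩
    have ht' : (0 : ℝ) < t := ht
    have h1 : Real.exp (-t / 2) < 1 := by
      rw [Real.exp_lt_one_iff]
      linarith
    have h2 := Real.exp_pos (-t / 2)
    unfold kap
    exact ⟨by linarith, by linarith⟩
  · intro hv
    have h1 : 0 < 1 - v := by linarith [hv.2]
    refine ⟨-2 * Real.log (1 - v), ?_, ?_⟩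
    · have := Real.log_neg h1 (by linarith [hv.1])
      show (0 : ℝ) < -2 * Real.log (1 - v)
      linarith
    · unfold kap
      rw [show -(-2 * Real.log (1 - v)) / 2 = Real.log (1 - v) by ring, Real.exp_log h1]
      ring

/-- `m(v) = n(-2 log(1-v))` -/
private noncomputable def mm (n : ℝ → ℝ) (v : ℝ) : ℝ := n (-2 * Real.log (1 - v))

private lemma mm_kap (n : ℝ → ℝ) (t : ℝ) : mm n (kap t) = n t := by
  unfold mm
  rw [kap_inv]

private lemma mm_int {n : ℝ → ℝ} (hn : Cls n) : IntegrableOn (mm n) (Ioo 0 1) := by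
  rw [← kap_image, integrableOn_image_iff_integrableOn_abs_deriv_smul measurableSet_Ioi
    (fun t _ => (kap_deriv t).hasDerivWithinAt) kap_inj]
  have h := hn.2.2.const_mul (1 / 2)
  refine (integrableOn_congr_fun (fun t _ => ?_) measurableSet_Ioi).1 h
  simp only [mm_kap, smul_eq_mul]
  rw [abs_of_pos (by positivity)]
  ring

private lemma mm_eq {n : ℝ → ℝ} (y : ℝ) :
    ∫ v in Ioo (0 : ℝ) 1, ((mm n v : ℝ) : ℂ) * Complex.exp (-(((y * v : ℝ) : ℂ) * Complex.I)) =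
    1 / 2 * ∫ t in Ioi (0 : ℝ), ((Real.exp (-t / 2) * n t : ℝ) : ℂ) *
      Complex.exp (-(((y * kap t : ℝ) : ℂ) * Complex.I)) := by
  rw [← kap_image, integral_image_eq_integral_abs_deriv_smul measurableSet_Ioi
    (fun t _ => (kap_deriv t).hasDerivWithinAt) kap_inj, ← integral_const_mul]
  refine setIntegral_congr_fun measurableSet_Ioi fun t _ => ?_
  simp only [mm_kap]
  rw [abs_of_pos (by positivity), Complex.real_smul]
  push_cast
  ring

private lemma V0_eq {n : ℝ → ℝ} (y : ℝ) :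
    Complex.exp (-((y : ℂ) * Complex.I)) * V0 n ((y : ℂ) * Complex.I) =
      1 + Complex.I * ((y : ℂ) * ∫ v in Ioo (0 : ℝ) 1, ((mm n v : ℝ) : ℂ) *
        Complex.exp (-(((y * v : ℝ) : ℂ) * Complex.I))) := by
  unfold V0
  rw [mul_add, ← Complex.exp_add, neg_add_cancel, Complex.exp_zero, mm_eq]
  congr 1
  have h1 : ∫ t in Ioi (0 : ℝ), ((Real.exp (-t / 2) * n t : ℝ) : ℂ) *
      Complex.exp (-(((y * kap t : ℝ) : ℂ) * Complex.I)) =
      Complex.exp (-((y : ℂ) * Complex.I)) * ∫ t in Ioi (0 : ℝ),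
        ((Real.exp (-t / 2) * n t : ℝ) : ℂ) *
          Complex.exp ((y : ℂ) * Complex.I * ((Real.exp (-t / 2) : ℝ) : ℂ)) := by
    rw [← integral_const_mul]
    refine setIntegral_congr_fun measurableSet_Ioi fun t _ => ?_
    rw [mul_left_comm, ← Complex.exp_add]
    congr 2
    unfold kap
    push_cast
    ring
  rw [h1]
  ring

private lemma mm_G {n : ℝ → ℝ} (hn : Cls n) {s t : ℝ} (hs : 0 < s) (hst : s ≤ t) (ht : t < 1) :
    t ^ (12 / 25 : ℝ) * mm n t ≤ s ^ (12 / 25 : ℝ) * mm n s := by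
  have ht0 : 0 < t := hs.trans_le hst
  have h1s : 0 < 1 - s := by linarith
  have h1t : 0 < 1 - t := by linarith
  set S : ℝ := -2 * Real.log (1 - s) with hS
  set R : ℝ := -2 * Real.log (1 - t) with hR
  have hSpos : 0 < S := by
    have := Real.log_neg h1s (by linarith)
    rw [hS]
    linarith
  have hSR : S ≤ R := by
    have := Real.log_le_log h1t (by linarith : 1 - t ≤ 1 - s)
    rw [hS, hR]
    linarith
  have hRpos : 0 < R := hSpos.trans_le hSR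
  -- `t / R ≤ s / S`
  have hcv : t * S ≤ s * R := by
    -- concavity of `κ`: `κ(S) ≥ (S/R) κ(R)`
    have hsS : s = 1 - Real.exp (-S / 2) := by
      rw [hS, show -(-2 * Real.log (1 - s)) / 2 = Real.log (1 - s) by ring, Real.exp_log h1s]
      ring
    have htR : t = 1 - Real.exp (-R / 2) := by
      rw [hR, show -(-2 * Real.log (1 - t)) / 2 = Real.log (1 - t) by ring, Real.exp_log h1t]
      ring
    have hconv := convexOn_exp.2 (mem_univ (-R / 2)) (mem_univ (0 : ℝ))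
      (div_nonneg hSpos.le hRpos.le) (sub_nonneg.2 ((div_le_one hRpos).2 hSR))
      (by ring : S / R + (1 - S / R) = 1)
    simp only [smul_eq_mul, mul_zero, add_zero, Real.exp_zero, mul_one] at hconv
    have e1 : S / R * (-R / 2) = -S / 2 := by
      field_simp
    rw [e1] at hconv
    have h2 : S / R * t ≤ s := by
      rw [hsS, htR]
      nlinarith
    rw [div_mul_eq_mul_div, div_le_iff₀ hRpos] at h2
    linarith
  have hmt : mm n t = n R := rfl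
  have hms : mm n s = n S := rfl
  rw [hmt, hms]
  have hmain := hn.2.1 S R hSpos hSR
  have hnR := hn.1 R hRpos
  have hnS := hn.1 S hSpos
  -- t^p = (t/R)^p R^p
  have h3 : t ^ (12 / 25 : ℝ) = (t / R) ^ (12 / 25 : ℝ) * R ^ (12 / 25 : ℝ) := by
    rw [← Real.mul_rpow (by positivity) hRpos.le, div_mul_cancel₀ _ hRpos.ne']
  have h4 : s ^ (12 / 25 : ℝ) = (s / S) ^ (12 / 25 : ℝ) * S ^ (12 / 25 : ℝ) := by
    rw [← Real.mul_rpow (by positivity) hSpos.le, div_mul_cancel₀ _ hSpos.ne']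
  have h5 : (t / R) ^ (12 / 25 : ℝ) ≤ (s / S) ^ (12 / 25 : ℝ) := by
    apply Real.rpow_le_rpow (by positivity) _ (by norm_num)
    rw [div_le_div_iff₀ hRpos hSpos]
    exact hcv
  rw [h3, h4, mul_assoc, mul_assoc]
  exact mul_le_mul h5 hmain (mul_nonneg (Real.rpow_nonneg hRpos.le _) hnR)
    (Real.rpow_nonneg (by positivity) _)

private lemma mm_lw {n : ℝ → ℝ} (y : ℝ) :
    ∫ v in Ioo (0 : ℝ) 1, ((mm n v : ℝ) : ℂ) * Complex.exp (-(((y * v : ℝ) : ℂ) * Complex.I)) =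
    ∫ v in Ioo (0 : ℝ) 1, (((v ^ (12 / 25 : ℝ) * mm n v : ℝ)) : ℂ) * lw y v := by
  refine setIntegral_congr_fun measurableSet_Ioo fun v hv => ?_
  unfold lw
  have h1 : v ^ (12 / 25 : ℝ) * v ^ (-(12 / 25 : ℝ)) = 1 := by
    rw [← Real.rpow_add hv.1]
    norm_num
  have h2 : ((v ^ (12 / 25 : ℝ) : ℝ) : ℂ) * ((v ^ (-(12 / 25 : ℝ)) : ℝ) : ℂ) = 1 := by
    rw [← Complex.ofReal_mul, h1, Complex.ofReal_one]
  have h3 : ((v ^ (12 / 25 : ℝ) * mm n v : ℝ) : ℂ) =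
      ((v ^ (12 / 25 : ℝ) : ℝ) : ℂ) * ((mm n v : ℝ) : ℂ) := Complex.ofReal_mul _ _
  show ((mm n v : ℝ) : ℂ) * Complex.exp (-(((y * v : ℝ) : ℂ) * Complex.I)) =
    ((v ^ (12 / 25 : ℝ) * mm n v : ℝ) : ℂ) * (((v ^ (-(12 / 25 : ℝ)) : ℝ) : ℂ) *
      Complex.exp (-(((y * v : ℝ) : ℂ) * Complex.I)))
  rw [h3]
  generalize Complex.exp (-(((y * v : ℝ) : ℂ) * Complex.I)) = E
  linear_combination (-(((mm n v : ℝ) : ℂ) * E)) * h2

theorem lay {n : ℝ → ℝ} (hn : Cls n) {τ x : ℝ} (hτ : 0 < τ) (hx0 : 0 ≤ x) (hx1 : x ≤ 1) :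
    (5 / 9 : ℝ) * ‖V0 n (((x * τ : ℝ) : ℂ) * Complex.I)‖ ≤
      (Complex.exp (-((Real.pi / 4 : ℝ) : ℂ) * Complex.I) *
        (Complex.exp (-((τ : ℂ) * Complex.I)) * V0 n ((τ : ℂ) * Complex.I))).re := by
  have hk := key (G := fun v => v ^ (12 / 25 : ℝ) * mm n v)
    (fun v hv => mul_nonneg (Real.rpow_nonneg hv.1.le _) (hn.1 _ (by
      have := Real.log_neg (by linarith [hv.2] : 0 < 1 - v) (by linarith [hv.1])
      linarith)))
    (fun s t hs hst ht => mm_G hn hs hst ht)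
    ((integrableOn_congr_fun (fun v hv => by
      rw [← mul_assoc, ← Real.rpow_add hv.1]
      norm_num) measurableSet_Ioo).1 (mm_int hn)) hτ hx0 hx1
  rw [← mm_lw, ← mm_lw] at hk
  -- left side
  have hL : ‖V0 n (((x * τ : ℝ) : ℂ) * Complex.I)‖ ≤ 1 + τ * (x * ‖∫ v in Ioo (0 : ℝ) 1,
      ((mm n v : ℝ) : ℂ) * Complex.exp (-((((x * τ) * v : ℝ) : ℂ) * Complex.I))‖) := by
    have h1 : ‖V0 n (((x * τ : ℝ) : ℂ) * Complex.I)‖ =
        ‖Complex.exp (-(((x * τ : ℝ) : ℂ) * Complex.I)) * V0 n (((x * τ : ℝ) : ℂ) * Complex.I)‖ := by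
      rw [norm_mul, ← neg_mul, ← Complex.ofReal_neg, Complex.norm_exp_ofReal_mul_I, one_mul]
    rw [h1, V0_eq]
    refine (norm_add_le _ _).trans ?_
    rw [norm_one, norm_mul, Complex.norm_I, one_mul, norm_mul, Complex.norm_real,
      Real.norm_of_nonneg (by positivity : (0 : ℝ) ≤ x * τ)]
    apply le_of_eq
    ring
  -- right side
  have hR : (Complex.exp (-((Real.pi / 4 : ℝ) : ℂ) * Complex.I) *
        (Complex.exp (-((τ : ℂ) * Complex.I)) * V0 n ((τ : ℂ) * Complex.I))).re =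
      Real.cos (Real.pi / 4) + τ * (Complex.exp (((Real.pi / 4 : ℝ) : ℂ) * Complex.I) *
        ∫ v in Ioo (0 : ℝ) 1, ((mm n v : ℝ) : ℂ) *
          Complex.exp (-(((τ * v : ℝ) : ℂ) * Complex.I))).re := by
    rw [V0_eq, mul_add, mul_one, Complex.add_re]
    congr 1
    · rw [← Complex.ofReal_neg, Complex.exp_ofReal_mul_I_re, Real.cos_neg]
    · rw [← mul_assoc, mul_left_comm, Complex.re_ofReal_mul]
      congr 3
      have h1 : Complex.I = Complex.exp (((Real.pi / 2 : ℝ) : ℂ) * Complex.I) := by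
        rw [Complex.ofReal_div, Complex.ofReal_ofNat, Complex.exp_pi_div_two_mul_I]
      conv_lhs => rw [show Complex.exp (-((Real.pi / 4 : ℝ) : ℂ) * Complex.I) * Complex.I =
        Complex.exp (-((Real.pi / 4 : ℝ) : ℂ) * Complex.I) *
          Complex.exp (((Real.pi / 2 : ℝ) : ℂ) * Complex.I) by rw [← h1]]
      rw [← Complex.exp_add]
      congr 1
      push_cast
      ring
  rw [hR]
  have hcos : (5 / 9 : ℝ) ≤ Real.cos (Real.pi / 4) := by
    rw [Real.cos_pi_div_four]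
    have h2 : (10 / 9 : ℝ) ≤ √2 := by
      apply Real.le_sqrt_of_sq_le
      norm_num
    linarith
  have h4 : (5 / 9 : ℝ) * ‖V0 n (((x * τ : ℝ) : ℂ) * Complex.I)‖ ≤ 5 / 9 + τ * ((5 / 9 : ℝ) *
      (x * ‖∫ v in Ioo (0 : ℝ) 1, ((mm n v : ℝ) : ℂ) *
        Complex.exp (-((((x * τ) * v : ℝ) : ℂ) * Complex.I))‖)) := by
    nlinarith [hL]
  refine h4.trans (add_le_add hcos (mul_le_mul_of_nonneg_left hk hτ.le))

end Pool.Agent.Lib.MP_8382de_an.ET
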