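import Pool.Agent.Lib.MP_8382de_an.ET.Defs

/-!
# ET.MEx: the exponential of a finite measure

For `κ ≥ 0` integrable on `(0,∞)` there are finite measures `P` (`= cosh_*`) and `N` (`= sinh_*`) with
`P({0}) = 1`, `P((-∞,0)) = 0`, `N((-∞,0]) = 0` and for `Re z ≥ 0`
`∫ e^(-zt) dP = cosh(K(z))`, `∫ e^(-zt) dN = sinh(K(z))`, `K(z) = ∫_0^∞ κ(t) e^(-zt) dt`.

Proof. `ν` = measure with density `ofReal (κ t)` on `(0,∞)` (finite, no mass on `(-∞,0]`).
`ν_0 = δ_0`, `ν_{j+1} = ν ∗ ν_j` (`Measure.conv`): `ν_j` is finite, has no mass on `(-∞,0]` for `j ≥ 1`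
(the sum of a positive and a nonnegative number), and `∫ e^(-zt) dν_j = K(z)^j` for `Re z ≥ 0`
(`integral_conv`, or map of the product measure under addition and Fubini; bounded integrand on the
support). `P = Measure.sum (fun j => ((2j)!)⁻¹ • ν_{2j})`, `N = Measure.sum (fun j => ((2j+1)!)⁻¹ •
ν_{2j+1})`: total masses `cosh L`, `sinh L` finite (`ν_j(ℝ) = L^j`, `L = ∫ κ`). Integrals against
`Measure.sum`: `integral_sum_measure` / `hasSum_integral_measure` (integrand bounded a.e. by `1`, so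
integrable against the finite measure), and `cosh K = ∑ K^(2j)/(2j)!` (`Complex.hasSum_cosh`-type,
or through `exp K` and `exp(-K)`). Atoms: `P({0})`: only `j = 0` contributes `1`.
-/

set_option autoImplicit false

namespace Pool.Agent.Lib.MP_8382de_an.ET

open MeasureTheory Set

/-- the density measure -/
private noncomputable def MEx_nu (κ : ℝ → ℝ) : Measure ℝ :=
  (volume.restrict (Ioi (0 : ℝ))).withDensity (fun t => ENNReal.ofReal (κ t))

/-- its convolution powers -/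
private noncomputable def MEx_pw (κ : ℝ → ℝ) : ℕ → Measure ℝ
  | 0 => Measure.dirac 0
  | (j + 1) => Measure.conv (MEx_nu κ) (MEx_pw κ j)

private theorem MEx_nu_finite {κ : ℝ → ℝ} (hi : IntegrableOn κ (Ioi 0)) :
    IsFiniteMeasure (MEx_nu κ) := by
  refine isFiniteMeasure_withDensity ?_
  exact hi.lintegral_lt_top.ne

private theorem MEx_nu_Iic (κ : ℝ → ℝ) : MEx_nu κ (Iic 0) = 0 := by
  have h1 : MEx_nu κ ≪ volume.restrict (Ioi (0 : ℝ)) := withDensity_absolutelyContinuous _ _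
  apply h1
  rw [Measure.restrict_apply measurableSet_Iic]
  have : Iic (0 : ℝ) ∩ Ioi 0 = ∅ := by
    ext x; simp
  rw [this]; simp

private theorem MEx_pw_finite {κ : ℝ → ℝ} (hi : IntegrableOn κ (Ioi 0)) (j : ℕ) :
    IsFiniteMeasure (MEx_pw κ j) := by
  induction j with
  | zero => rw [MEx_pw]; infer_instance
  | succ j ih =>
      have := ih
      have := MEx_nu_finite hi
      rw [MEx_pw]; infer_instance

private theorem MEx_conv_apply (μ ν : Measure ℝ) {s : Set ℝ} (hs : MeasurableSet s) :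
    Measure.conv μ ν s = (μ.prod ν) ((fun x : ℝ × ℝ => x.1 + x.2) ⁻¹' s) := by
  unfold Measure.conv
  rw [Measure.map_apply (by fun_prop) hs]

private theorem MEx_pw_univ {κ : ℝ → ℝ} (hi : IntegrableOn κ (Ioi 0)) (j : ℕ) :
    MEx_pw κ j univ = (MEx_nu κ univ) ^ j := by
  induction j with
  | zero => rw [MEx_pw]; simp
  | succ j ih =>
      have := MEx_nu_finite hi
      have := MEx_pw_finite hi j
      rw [MEx_pw, MEx_conv_apply _ _ MeasurableSet.univ, preimage_univ, ← univ_prod_univ,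
        Measure.prod_prod, ih, pow_succ, mul_comm]

private theorem MEx_pw_Iio {κ : ℝ → ℝ} (hi : IntegrableOn κ (Ioi 0)) (j : ℕ) :
    MEx_pw κ j (Iio 0) = 0 ∧ (0 < j → MEx_pw κ j (Iic 0) = 0) := by
  induction j with
  | zero =>
      refine ⟨?_, fun h => absurd h (lt_irrefl _)⟩
      rw [MEx_pw, Measure.dirac_apply' _ measurableSet_Iio]
      simp
  | succ j ih =>
      have := MEx_nu_finite hi
      have := MEx_pw_finite hi j
      have key : MEx_pw κ (j + 1) (Iic 0) = 0 := by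
        rw [MEx_pw, MEx_conv_apply _ _ measurableSet_Iic]
        refine measure_mono_null (t := (Iic (0 : ℝ)) ×ˢ univ ∪ univ ×ˢ (Iio (0 : ℝ))) ?_ ?_
        · rintro ⟨x, y⟩ hxy
          simp only [mem_preimage, mem_Iic] at hxy
          simp only [mem_union, mem_prod, mem_Iic, mem_univ, and_true, true_and, mem_Iio]
          by_contra hcon
          push Not at hcon
          linarith [hcon.1, hcon.2]
        · refine measure_union_null ?_ ?_
          · rw [Measure.prod_prod, MEx_nu_Iic, zero_mul]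
          · rw [Measure.prod_prod, ih.1, mul_zero]
      exact ⟨measure_mono_null Iio_subset_Iic_self key, fun _ => key⟩

private theorem MEx_bdd {μ : Measure ℝ} (hμ : μ (Iio 0) = 0) {z : ℂ} (hz : 0 ≤ z.re) :
    ∀ᵐ t : ℝ ∂μ, ‖Complex.exp (-(z * (t : ℂ)))‖ ≤ 1 := by
  have h : ∀ᵐ t ∂μ, t ∉ Iio (0 : ℝ) := measure_eq_zero_iff_ae_notMem.1 hμ
  filter_upwards [h] with t ht
  rw [Complex.norm_exp]
  have ht' : 0 ≤ t := not_lt.1 ht
  rw [Real.exp_le_one_iff]
  simp
  positivity

private theorem MEx_int {μ : Measure ℝ} [IsFiniteMeasure μ] (hμ : μ (Iio 0) = 0) {z : ℂ}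
    (hz : 0 ≤ z.re) : Integrable (fun t : ℝ => Complex.exp (-(z * (t : ℂ)))) μ :=
  Integrable.of_bound (by fun_prop) 1 (MEx_bdd hμ hz)

private theorem MEx_pw_int {κ : ℝ → ℝ} (hκ : ∀ t, 0 < t → 0 ≤ κ t) (hi : IntegrableOn κ (Ioi 0))
    (j : ℕ) {z : ℂ} (hz : 0 ≤ z.re) :
    ∫ t, Complex.exp (-(z * (t : ℂ))) ∂(MEx_pw κ j) =
      (∫ t in Ioi (0 : ℝ), ((κ t : ℝ) : ℂ) * Complex.exp (-(z * (t : ℂ)))) ^ j := by
  induction j with
  | zero => rw [MEx_pw]; simp
  | succ j ih =>
      have := MEx_nu_finite hi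
      have := MEx_pw_finite hi j
      have := MEx_pw_finite hi (j + 1)
      have h1 := MEx_int (MEx_pw_Iio hi (j + 1)).1 hz
      rw [MEx_pw] at h1 ⊢
      rw [integral_conv h1]
      have h2 : ∀ x : ℝ, (∫ y, Complex.exp (-(z * ((x + y : ℝ) : ℂ))) ∂(MEx_pw κ j)) =
          Complex.exp (-(z * (x : ℂ))) * ∫ y, Complex.exp (-(z * (y : ℂ))) ∂(MEx_pw κ j) := by
        intro x
        rw [← integral_const_mul]
        refine integral_congr_ae (Filter.Eventually.of_forall fun y => ?_)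
        dsimp only
        rw [← Complex.exp_add]
        congr 1
        push_cast
        ring
      simp_rw [h2]
      rw [integral_mul_const, ih, pow_succ, mul_comm]
      congr 1
      rw [MEx_nu, integral_withDensity_eq_integral_toReal_smul₀
        (hi.aestronglyMeasurable.aemeasurable.ennreal_ofReal)
        (Filter.Eventually.of_forall fun _ => ENNReal.ofReal_lt_top)]
      refine setIntegral_congr_fun measurableSet_Ioi fun t ht => ?_
      rw [ENNReal.toReal_ofReal (hκ t ht)]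
      simp

private theorem MEx_sum_finite {κ : ℝ → ℝ} (hi : IntegrableOn κ (Ioi 0)) (f : ℕ → ℕ)
    (hS : ∀ x : ℝ, Summable fun j : ℕ => ((f j).factorial : ℝ)⁻¹ * x ^ (f j)) :
    IsFiniteMeasure (Measure.sum fun j : ℕ =>
      (ENNReal.ofReal ((f j).factorial : ℝ)⁻¹) • MEx_pw κ (f j)) := by
  constructor
  rw [Measure.sum_apply _ MeasurableSet.univ]
  have := MEx_nu_finite hi
  have h1 : ∀ j, ((ENNReal.ofReal ((f j).factorial : ℝ)⁻¹) • MEx_pw κ (f j)) univ =
      ENNReal.ofReal (((f j).factorial : ℝ)⁻¹ * ((MEx_nu κ univ).toReal) ^ (f j)) := by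
    intro j
    rw [Measure.smul_apply, MEx_pw_univ hi, smul_eq_mul, ENNReal.ofReal_mul (by positivity),
      ENNReal.ofReal_pow ENNReal.toReal_nonneg, ENNReal.ofReal_toReal (measure_ne_top _ _)]
  simp_rw [h1]
  rw [← ENNReal.ofReal_tsum_of_nonneg (fun j => by positivity) (hS _)]
  exact ENNReal.ofReal_lt_top

private theorem MEx_summ (f : ℕ → ℕ) (hf : Function.Injective f) (x : ℝ) :
    Summable fun j : ℕ => ((f j).factorial : ℝ)⁻¹ * x ^ (f j) := by
  have h := (Real.summable_pow_div_factorial x).comp_injective hf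
  refine h.congr fun j => ?_
  simp [div_eq_inv_mul]

private theorem MEx_sum_int {κ : ℝ → ℝ} (hκ : ∀ t, 0 < t → 0 ≤ κ t)
    (hi : IntegrableOn κ (Ioi 0)) (f : ℕ → ℕ) (hf : Function.Injective f) {z : ℂ}
    (hz : 0 ≤ z.re) :
    HasSum (fun j : ℕ => (((f j).factorial : ℂ))⁻¹ *
        (∫ t in Ioi (0 : ℝ), ((κ t : ℝ) : ℂ) * Complex.exp (-(z * (t : ℂ)))) ^ (f j))
      (∫ t, Complex.exp (-(z * (t : ℂ))) ∂(Measure.sum fun j : ℕ =>
      (ENNReal.ofReal ((f j).factorial : ℝ)⁻¹) • MEx_pw κ (f j))) := by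
  have := MEx_sum_finite hi f (MEx_summ f hf)
  have h0 : (Measure.sum fun j : ℕ =>
      (ENNReal.ofReal ((f j).factorial : ℝ)⁻¹) • MEx_pw κ (f j)) (Iio 0) = 0 := by
    rw [Measure.sum_apply _ measurableSet_Iio]
    simp [(MEx_pw_Iio hi _).1]
  have h1 := hasSum_integral_measure (MEx_int h0 hz)
  have e : (fun j : ℕ => ∫ t, Complex.exp (-(z * (t : ℂ)))
      ∂((ENNReal.ofReal ((f j).factorial : ℝ)⁻¹) • MEx_pw κ (f j))) =
      fun j : ℕ => (((f j).factorial : ℂ))⁻¹ *
        (∫ t in Ioi (0 : ℝ), ((κ t : ℝ) : ℂ) * Complex.exp (-(z * (t : ℂ)))) ^ (f j) := by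
    funext j
    rw [integral_smul_measure, MEx_pw_int hκ hi _ hz, ENNReal.toReal_ofReal (by positivity),
      Complex.real_smul]
    push_cast
    rfl
  rw [e] at h1
  exact h1

theorem mexp {κ : ℝ → ℝ} (hκ : ∀ t, 0 < t → 0 ≤ κ t) (hi : IntegrableOn κ (Ioi 0)) :
    ∃ P N : Measure ℝ, IsFiniteMeasure P ∧ IsFiniteMeasure N ∧ P {0} = 1 ∧ P (Iio 0) = 0 ∧
      N (Iic 0) = 0 ∧
      (∀ z : ℂ, 0 ≤ z.re → ∫ t, Complex.exp (-(z * (t : ℂ))) ∂P =
        Complex.cosh (∫ t in Ioi (0 : ℝ), ((κ t : ℝ) : ℂ) * Complex.exp (-(z * (t : ℂ))))) ∧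
      (∀ z : ℂ, 0 ≤ z.re → ∫ t, Complex.exp (-(z * (t : ℂ))) ∂N =
        Complex.sinh (∫ t in Ioi (0 : ℝ), ((κ t : ℝ) : ℂ) * Complex.exp (-(z * (t : ℂ))))) := by
  have hf1 : Function.Injective (fun j : ℕ => 2 * j) := fun a b h => by
    simp only at h; omega
  have hf2 : Function.Injective (fun j : ℕ => 2 * j + 1) := fun a b h => by
    simp only at h; omega
  refine ⟨Measure.sum fun j : ℕ =>
      (ENNReal.ofReal ((2 * j).factorial : ℝ)⁻¹) • MEx_pw κ (2 * j), Measure.sum fun j : ℕ =>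
      (ENNReal.ofReal ((2 * j + 1).factorial : ℝ)⁻¹) • MEx_pw κ (2 * j + 1),
      MEx_sum_finite hi _ (MEx_summ _ hf1), MEx_sum_finite hi _ (MEx_summ _ hf2),
      ?_, ?_, ?_, ?_, ?_⟩
  · rw [Measure.sum_apply _ (measurableSet_singleton 0), tsum_eq_single 0]
    · simp [MEx_pw]
    · intro j hj
      rw [Measure.smul_apply]
      have : MEx_pw κ (2 * j) {0} = 0 :=
        measure_mono_null (by simp) ((MEx_pw_Iio hi (2 * j)).2 (by omega))
      rw [this]; simp
  · rw [Measure.sum_apply _ measurableSet_Iio]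
    simp [(MEx_pw_Iio hi _).1]
  · rw [Measure.sum_apply _ measurableSet_Iic]
    simp [(MEx_pw_Iio hi _).2 (Nat.succ_pos _)]
  · intro z hz
    refine (MEx_sum_int hκ hi _ hf1 hz).unique ?_
    convert Complex.hasSum_cosh _ using 1
    funext j
    rw [div_eq_inv_mul]
  · intro z hz
    refine (MEx_sum_int hκ hi _ hf2 hz).unique ?_
    convert Complex.hasSum_sinh _ using 1
    funext j
    rw [div_eq_inv_mul]

/-- consequence: `exp(K(y)) = 1 + ∫ e^(-yt) dζ`, `ζ = (P + N)` on `(0,∞)` -/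
theorem mexp_pos {κ : ℝ → ℝ} (hκ : ∀ t, 0 < t → 0 ≤ κ t) (hi : IntegrableOn κ (Ioi 0)) :
    ∃ ζ : Measure ℝ, IsFiniteMeasure ζ ∧ ζ (Iic 0) = 0 ∧
      ∀ y : ℝ, 0 ≤ y → Real.exp (∫ t in Ioi (0 : ℝ), κ t * Real.exp (-(y * t))) =
        1 + ∫ t, Real.exp (-(y * t)) ∂ζ := by
  obtain ⟨P, N, hP, hN, hP0, hPi, hNi, hPc, hNs⟩ := mexp hκ hi
  refine ⟨P.restrict (Ioi 0) + N, inferInstance, ?_, ?_⟩
  · rw [Measure.add_apply, hNi, Measure.restrict_apply measurableSet_Iic]
    have : Iic (0 : ℝ) ∩ Ioi 0 = ∅ := by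
      ext x; simp
    rw [this]; simp
  · intro y hy
    have hz : 0 ≤ ((y : ℝ) : ℂ).re := by simpa using hy
    have hN' : N (Iio 0) = 0 := measure_mono_null Iio_subset_Iic_self hNi
    have hPi' := MEx_int hPi hz
    have hNi' := MEx_int hN' hz
    have hR : ∀ μ : Measure ℝ, ∫ t, Complex.exp (-((y : ℂ) * (t : ℂ))) ∂μ =
        ((∫ t, Real.exp (-(y * t)) ∂μ : ℝ) : ℂ) := by
      intro μ
      rw [← integral_complex_ofReal]
      refine integral_congr_ae (Filter.Eventually.of_forall fun t => ?_)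
      dsimp only
      push_cast
      rfl
    have hK : ∫ t in Ioi (0 : ℝ), ((κ t : ℝ) : ℂ) * Complex.exp (-((y : ℂ) * (t : ℂ))) =
        ((∫ t in Ioi (0 : ℝ), κ t * Real.exp (-(y * t)) : ℝ) : ℂ) := by
      rw [← integral_complex_ofReal]
      refine integral_congr_ae (Filter.Eventually.of_forall fun t => ?_)
      dsimp only
      push_cast
      rfl
    have h1 := hPc _ hz
    have h2 := hNs _ hz
    rw [hR, hK] at h1 h2
    have e1 : (∫ t, Real.exp (-(y * t)) ∂P) =
        Real.cosh (∫ t in Ioi (0 : ℝ), κ t * Real.exp (-(y * t))) := by exact_mod_cast h1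
    have e2 : (∫ t, Real.exp (-(y * t)) ∂N) =
        Real.sinh (∫ t in Ioi (0 : ℝ), κ t * Real.exp (-(y * t))) := by exact_mod_cast h2
    have iP : Integrable (fun t : ℝ => Real.exp (-(y * t))) P := by
      refine hPi'.re.congr (Filter.Eventually.of_forall fun t => ?_)
      dsimp only
      rw [← Complex.ofReal_mul, ← Complex.ofReal_neg, ← Complex.ofReal_exp]
      rfl
    have iN : Integrable (fun t : ℝ => Real.exp (-(y * t))) N := by
      refine hNi'.re.congr (Filter.Eventually.of_forall fun t => ?_)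
      dsimp only
      rw [← Complex.ofReal_mul, ← Complex.ofReal_neg, ← Complex.ofReal_exp]
      rfl
    have h3 : (∫ t, Real.exp (-(y * t)) ∂P) = 1 + ∫ t in Ioi (0 : ℝ), Real.exp (-(y * t)) ∂P := by
      rw [← integral_add_compl (measurableSet_Ioi (a := (0 : ℝ))) iP, compl_Ioi, add_comm]
      congr 1
      have h4 : P.restrict (Iic 0) = Measure.dirac 0 := by
        have h5 : (Iic (0 : ℝ) : Set ℝ) =ᵐ[P] ({0} : Set ℝ) := by
          have h6 : ∀ᵐ t ∂P, t ∉ Iio (0 : ℝ) := measure_eq_zero_iff_ae_notMem.1 hPi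
          filter_upwards [h6] with t ht
          have ht' : 0 ≤ t := not_lt.1 ht
          apply propext
          show t ≤ 0 ↔ t = 0
          exact ⟨fun h => le_antisymm h ht', fun h => h.le⟩
        rw [Measure.restrict_congr_set h5, Measure.restrict_singleton, hP0, one_smul]
      rw [h4]
      simp
    rw [integral_add_measure iP.integrableOn iN, ← add_assoc, ← h3, e1, e2, Real.cosh_add_sinh]

end Pool.Agent.Lib.MP_8382de_an.ET
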