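import Pool.Agent.Lib.MP_8382de_an.ET.Mal

/-!
# ET.MaC: Malmsten's formula for complex argument

`Γ(1+z) = exp ∫_0^∞ (z e^(-t) - (1-e^(-zt))/(e^t-1)) dt/t` for `Re z > -1`.
-/

set_option autoImplicit false

namespace Pool.Agent.Lib.MP_8382de_an.ET

open MeasureTheory Set

/-- the integrand, complex -/
noncomputable def MaCF (z : ℂ) (t : ℝ) : ℂ :=
  (z * (Real.exp (-t) : ℂ) -
      (1 - Complex.exp (-(z * (t : ℂ)))) / ((Real.exp t - 1 : ℝ) : ℂ)) / (t : ℂ)

/-- its derivative in `z` -/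
noncomputable def MaCD (z : ℂ) (t : ℝ) : ℂ :=
  ((Real.exp (-t) : ℂ) -
      ((t : ℂ) * Complex.exp (-(z * (t : ℂ)))) / ((Real.exp t - 1 : ℝ) : ℂ)) / (t : ℂ)

theorem MaC_deriv (z : ℂ) (t : ℝ) : HasDerivAt (fun w => MaCF w t) (MaCD z t) z := by
  unfold MaCF MaCD
  have h1 : HasDerivAt (fun w : ℂ => Complex.exp (-(w * (t : ℂ))))
      (-(t : ℂ) * Complex.exp (-(z * (t : ℂ)))) z := by
    have h0 : HasDerivAt (fun w : ℂ => -(w * (t : ℂ))) (-(t : ℂ)) z := by
      have : HasDerivAt (fun w : ℂ => -(w * (t : ℂ))) (-(1 * (t : ℂ))) z :=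
        ((hasDerivAt_id z).mul_const (t : ℂ)).neg
      rwa [one_mul] at this
    have := h0.cexp
    rw [mul_comm] at this
    exact this
  have h2 : HasDerivAt (fun w : ℂ => w * (Real.exp (-t) : ℂ)) ((Real.exp (-t) : ℂ)) z := by
    have := (hasDerivAt_id z).mul_const ((Real.exp (-t) : ℝ) : ℂ)
    simpa using this
  have h3 := (h2.sub (((hasDerivAt_const z (1 : ℂ)).sub h1).div_const
    ((Real.exp t - 1 : ℝ) : ℂ))).div_const (t : ℂ)
  refine HasDerivAt.congr_deriv h3 ?_
  congr 1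
  rw [zero_sub, neg_mul, neg_neg]

theorem MaC_dbound (R ε : ℝ) (hR : 0 ≤ R) (hε : 0 < ε) (hε1 : ε ≤ 1) :
    ∃ C : ℝ, 0 ≤ C ∧ ∀ z : ℂ, ‖z‖ ≤ R → -1 + ε ≤ z.re → ∀ t : ℝ, 0 < t →
      ‖MaCD z t‖ ≤ C * Real.exp (-(ε * t)) := by
  refine ⟨(2 + R * Real.exp R) * Real.exp 1 + 3, by positivity, ?_⟩
  intro z hz hre t ht
  unfold MaCD
  have hE := Mal_exp1 ht
  have hE0 : 0 < Real.exp t - 1 := by linarith
  have hnE : ‖((Real.exp t - 1 : ℝ) : ℂ)‖ = Real.exp t - 1 := Mal_norm_ofReal hE0.le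
  have hnt : ‖(t : ℂ)‖ = t := Mal_norm_ofReal ht.le
  have hz0 : 0 ≤ ‖z‖ := norm_nonneg z
  rcases le_total t 1 with h1 | h1
  · have key : ‖(Real.exp (-t) : ℂ) -
      ((t : ℂ) * Complex.exp (-(z * (t : ℂ)))) / ((Real.exp t - 1 : ℝ) : ℂ)‖
          ≤ (2 + R * Real.exp R) * t := by
      have hne : ((Real.exp t - 1 : ℝ) : ℂ) ≠ 0 := by
        exact_mod_cast hE0.ne'
      have e1 : (Real.exp (-t) : ℂ) -
          ((t : ℂ) * Complex.exp (-(z * (t : ℂ)))) / ((Real.exp t - 1 : ℝ) : ℂ)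
          = ((Real.exp (-t) - 1 : ℝ) : ℂ) +
            (((Real.exp t - 1 - t : ℝ) : ℂ) +
              (t : ℂ) * (1 - Complex.exp (-(z * (t : ℂ))))) / ((Real.exp t - 1 : ℝ) : ℂ) := by
        rw [eq_comm]
        have e2 : ((Real.exp t - 1 - t : ℝ) : ℂ) +
              (t : ℂ) * (1 - Complex.exp (-(z * (t : ℂ))))
            = ((Real.exp t - 1 : ℝ) : ℂ) - (t : ℂ) * Complex.exp (-(z * (t : ℂ))) := by
          push_cast
          ring
        rw [e2, sub_div, div_self hne]
        push_cast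
        ring
      rw [e1]
      refine (norm_add_le _ _).trans ?_
      have b1 : ‖((Real.exp (-t) - 1 : ℝ) : ℂ)‖ ≤ t := by
        rw [Complex.norm_real, Real.norm_eq_abs, abs_le]
        constructor
        · have := Real.add_one_le_exp (-t)
          linarith
        · have : Real.exp (-t) ≤ 1 := Real.exp_le_one_iff.mpr (by linarith)
          linarith
      have b2 : ‖((Real.exp t - 1 - t : ℝ) : ℂ)‖ ≤ t ^ 2 := by
        rw [Complex.norm_real, Real.norm_eq_abs]
        exact Real.abs_exp_sub_one_sub_id_le (by rw [abs_of_pos ht]; exact h1)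
      have b3 : ‖(t : ℂ) * (1 - Complex.exp (-(z * (t : ℂ))))‖ ≤ R * Real.exp R * t ^ 2 := by
        have h := Complex.norm_exp_sub_sum_le_norm_mul_exp (-(z * (t : ℂ))) 1
        have h2 : Complex.exp (-(z * (t : ℂ))) -
            ∑ m ∈ Finset.range 1, (-(z * (t : ℂ))) ^ m / (m.factorial : ℂ)
            = Complex.exp (-(z * (t : ℂ))) - 1 := by
          simp
        rw [h2] at h
        have h3 : ‖-(z * (t : ℂ))‖ = ‖z‖ * t := by
          rw [norm_neg, norm_mul, hnt]
        rw [h3, pow_one] at h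
        have h4 : ‖z‖ * t ≤ R := by nlinarith
        have h5 : ‖z‖ * t ≤ R * t := by nlinarith
        rw [norm_mul, hnt, norm_sub_rev]
        have h6 : ‖Complex.exp (-(z * (t : ℂ))) - 1‖ ≤ (R * t) * Real.exp R := by
          refine h.trans ?_
          exact mul_le_mul h5 (Real.exp_le_exp.mpr h4) (Real.exp_pos _).le (by positivity)
        calc t * ‖Complex.exp (-(z * (t : ℂ))) - 1‖ ≤ t * ((R * t) * Real.exp R) :=
              mul_le_mul_of_nonneg_left h6 ht.le
          _ = R * Real.exp R * t ^ 2 := by ring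
      have b4 : ‖(((Real.exp t - 1 - t : ℝ) : ℂ) +
              (t : ℂ) * (1 - Complex.exp (-(z * (t : ℂ))))) / ((Real.exp t - 1 : ℝ) : ℂ)‖
            ≤ (1 + R * Real.exp R) * t := by
        rw [norm_div, hnE, div_le_iff₀ hE0]
        refine (norm_add_le _ _).trans ((add_le_add b2 b3).trans ?_)
        have : (1 + R * Real.exp R) * t * t ≤ (1 + R * Real.exp R) * t * (Real.exp t - 1) := by
          apply mul_le_mul_of_nonneg_left hE
          positivity
        nlinarith
      nlinarith [b1, b4]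
    rw [norm_div, hnt, div_le_iff₀ ht]
    refine key.trans ?_
    have h6 : 1 ≤ Real.exp 1 * Real.exp (-(ε * t)) := by
      rw [← Real.exp_add]
      apply Real.one_le_exp
      nlinarith
    have h8 : 0 ≤ 2 + R * Real.exp R := by positivity
    have h9 : (2 + R * Real.exp R) ≤
        ((2 + R * Real.exp R) * Real.exp 1 + 3) * Real.exp (-(ε * t)) := by
      have : (2 + R * Real.exp R) * 1 ≤
          (2 + R * Real.exp R) * (Real.exp 1 * Real.exp (-(ε * t))) :=
        mul_le_mul_of_nonneg_left h6 h8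
      have h10 : 0 ≤ 3 * Real.exp (-(ε * t)) := by positivity
      nlinarith
    exact mul_le_mul_of_nonneg_right h9 ht.le
  · have hne : Real.exp (-t) ≤ Real.exp (-(ε * t)) := by
      apply Real.exp_le_exp.mpr
      nlinarith
    rw [norm_div, hnt, div_le_iff₀ ht]
    have b1 : ‖(Real.exp (-t) : ℂ)‖ ≤ Real.exp (-(ε * t)) * t := by
      rw [Mal_norm_ofReal (Real.exp_pos _).le]
      nlinarith [Real.exp_pos (-(ε * t))]
    have b2 : ‖((t : ℂ) * Complex.exp (-(z * (t : ℂ)))) / ((Real.exp t - 1 : ℝ) : ℂ)‖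
        ≤ 2 * Real.exp (-(ε * t)) * t := by
      rw [norm_div, hnE, norm_mul, hnt, Mal_norm_exp]
      have h2 := Mal_exp2 h1
      have h4 : Real.exp (-(z.re * t)) * Real.exp (-t) ≤ Real.exp (-(ε * t)) := by
        rw [← Real.exp_add]
        apply Real.exp_le_exp.mpr
        nlinarith
      calc t * Real.exp (-(z.re * t)) / (Real.exp t - 1)
          = (t * Real.exp (-(z.re * t))) * (1 / (Real.exp t - 1)) := by ring
        _ ≤ (t * Real.exp (-(z.re * t))) * (2 * Real.exp (-t)) := by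
            apply mul_le_mul_of_nonneg_left h2
            positivity
        _ = 2 * t * (Real.exp (-(z.re * t)) * Real.exp (-t)) := by ring
        _ ≤ 2 * t * Real.exp (-(ε * t)) := by
            apply mul_le_mul_of_nonneg_left h4
            positivity
        _ = 2 * Real.exp (-(ε * t)) * t := by ring
    refine (norm_sub_le _ _).trans ((add_le_add b1 b2).trans ?_)
    have h7 : 0 ≤ Real.exp (-(ε * t)) * t := by positivity
    have h8 : 0 ≤ (2 + R * Real.exp R) * Real.exp 1 := by positivity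
    nlinarith [mul_nonneg h8 h7]

theorem MaC_cont (z : ℂ) : ContinuousOn (MaCD z) (Ioi 0) := by
  have h1 : ∀ t ∈ Ioi (0 : ℝ), ((Real.exp t - 1 : ℝ) : ℂ) ≠ 0 := by
    intro t ht
    have := Mal_exp1 ht
    have h0 : (0 : ℝ) < t := ht
    have : 0 < Real.exp t - 1 := by linarith
    exact_mod_cast this.ne'
  have h2 : ∀ t ∈ Ioi (0 : ℝ), (t : ℂ) ≠ 0 := by
    intro t ht
    have h0 : (0 : ℝ) < t := ht
    exact_mod_cast h0.ne'
  unfold MaCD
  apply ContinuousOn.div _ _ h2
  · apply ContinuousOn.sub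
    · fun_prop
    · apply ContinuousOn.div _ _ h1
      · fun_prop
      · fun_prop
  · fun_prop

theorem MaC_diff {z : ℂ} (hz : -1 < z.re) :
    DifferentiableAt ℂ (fun w => ∫ t in Ioi (0 : ℝ), MaCF w t) z := by
  obtain ⟨ε, hε, hε1, hεz⟩ : ∃ ε : ℝ, 0 < ε ∧ ε ≤ 1 ∧ 2 * ε ≤ z.re + 1 := by
    refine ⟨min 1 ((z.re + 1) / 2), lt_min one_pos (by linarith), min_le_left _ _, ?_⟩
    have := min_le_right (1 : ℝ) ((z.re + 1) / 2)
    linarith
  obtain ⟨C, hC, hb⟩ := MaC_dbound (‖z‖ + ε) ε (by positivity) hε hε1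
  have h := hasDerivAt_integral_of_dominated_loc_of_deriv_le (μ := volume.restrict (Ioi (0 : ℝ)))
    (F := fun w t => MaCF w t) (F' := fun w t => MaCD w t) (x₀ := z) (s := Metric.ball z ε)
    (bound := fun t => C * Real.exp (-(ε * t)))
    (Metric.ball_mem_nhds z hε)
    (Filter.Eventually.of_forall fun w => (Mal_cont w).aestronglyMeasurable measurableSet_Ioi)
    (Mal_intC hz)
    ((MaC_cont z).aestronglyMeasurable measurableSet_Ioi)
    ((ae_restrict_iff' measurableSet_Ioi).mpr (Filter.Eventually.of_forall fun t ht w hw => by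
      refine hb w ?_ ?_ t ht
      · have : ‖w - z‖ < ε := by simpa [dist_eq_norm] using hw
        have h2 := norm_sub_norm_le w z
        linarith
      · have : ‖w - z‖ < ε := by simpa [dist_eq_norm] using hw
        have h2 := Complex.abs_re_le_norm (w - z)
        have h3 := (abs_le.mp h2).1
        simp only [Complex.sub_re] at h3
        linarith))
    (Mal_intExp hε C)
    (Filter.Eventually.of_forall fun t w _ => MaC_deriv w t)
  exact h.2.differentiableAt

theorem malmstenC {z : ℂ} (hz : -1 < z.re) :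
    IntegrableOn (fun t : ℝ => (z * (Real.exp (-t) : ℂ) -
      (1 - Complex.exp (-(z * (t : ℂ)))) / ((Real.exp t - 1 : ℝ) : ℂ)) / (t : ℂ)) (Ioi 0) ∧
    Complex.Gamma (1 + z) =
      Complex.exp (∫ t in Ioi (0 : ℝ), (z * (Real.exp (-t) : ℂ) -
      (1 - Complex.exp (-(z * (t : ℂ)))) / ((Real.exp t - 1 : ℝ) : ℂ)) / (t : ℂ)) := by
  refine ⟨Mal_intC hz, ?_⟩
  have hopen : IsOpen {w : ℂ | -1 < w.re} := isOpen_lt continuous_const Complex.continuous_re
  have hconv : Convex ℝ {w : ℂ | -1 < w.re} := convex_halfSpace_re_gt (-1)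
  have hA : AnalyticOnNhd ℂ (fun w : ℂ => Complex.Gamma (1 + w)) {w : ℂ | -1 < w.re} := by
    apply DifferentiableOn.analyticOnNhd _ hopen
    intro w hw
    apply DifferentiableAt.differentiableWithinAt
    have hw' : -1 < w.re := hw
    have h1 : DifferentiableAt ℂ Complex.Gamma (1 + w) := by
      apply Complex.differentiableAt_Gamma
      intro m h
      have := congrArg Complex.re h
      simp at this
      have hm : (0 : ℝ) ≤ m := Nat.cast_nonneg m
      linarith
    have h2 : DifferentiableAt ℂ (fun w : ℂ => 1 + w) w := by fun_prop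
    exact DifferentiableAt.comp w h1 h2
  have hB : AnalyticOnNhd ℂ (fun w : ℂ => Complex.exp (∫ t in Ioi (0 : ℝ), MaCF w t))
      {w : ℂ | -1 < w.re} := by
    apply DifferentiableOn.analyticOnNhd _ hopen
    intro w hw
    apply DifferentiableAt.differentiableWithinAt
    exact (MaC_diff hw).cexp
  have hreal : ∀ x : ℝ, -1 < x → Complex.Gamma (1 + (x : ℂ)) =
      Complex.exp (∫ t in Ioi (0 : ℝ), MaCF (x : ℂ) t) := by
    intro x hx
    have e1 : ∫ t in Ioi (0 : ℝ), MaCF (x : ℂ) t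
        = ((∫ t in Ioi (0 : ℝ), MalF x t : ℝ) : ℂ) := by
      have e0 : ∫ t in Ioi (0 : ℝ), ((MalF x t : ℝ) : ℂ)
          = ((∫ t in Ioi (0 : ℝ), MalF x t : ℝ) : ℂ) := integral_complex_ofReal
      rw [← e0]
      apply setIntegral_congr_fun measurableSet_Ioi
      intro t _
      exact (MalF_ofReal x t).symm
    have e2 : Real.log (Real.Gamma (1 + x)) = ∫ t in Ioi (0 : ℝ), MalF x t := (malmsten hx).2
    rw [e1, ← e2, ← Complex.ofReal_exp, Real.exp_log (Real.Gamma_pos_of_pos (by linarith)),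
      ← Complex.Gamma_ofReal]
    push_cast
    rfl
  have hfreq : ∃ᶠ w in nhdsWithin (0 : ℂ) {0}ᶜ, Complex.Gamma (1 + w) =
      Complex.exp (∫ t in Ioi (0 : ℝ), MaCF w t) := by
    have ht : Filter.Tendsto (fun n : ℕ => ((1 / ((n : ℝ) + 1) : ℝ) : ℂ)) Filter.atTop
        (nhdsWithin (0 : ℂ) {0}ᶜ) := by
      rw [tendsto_nhdsWithin_iff]
      constructor
      · exact (Complex.continuous_ofReal.tendsto' 0 0 Complex.ofReal_zero).comp
          (tendsto_one_div_add_atTop_nhds_zero_nat (𝕜 := ℝ))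
      · refine Filter.Eventually.of_forall fun n => ?_
        simp only [mem_compl_iff, mem_singleton_iff, Complex.ofReal_eq_zero]
        positivity
    refine ht.frequently (Filter.Eventually.frequently (Filter.Eventually.of_forall fun n => ?_))
    apply hreal
    have : (0 : ℝ) < 1 / ((n : ℝ) + 1) := by positivity
    linarith
  have h0 : (0 : ℂ) ∈ {w : ℂ | -1 < w.re} := by
    show (-1 : ℝ) < (0 : ℂ).re
    simp
  have := hA.eqOn_of_preconnected_of_frequently_eq hB hconv.isPreconnected h0 hfreq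
  exact this hz

end Pool.Agent.Lib.MP_8382de_an.ET
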