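import Pool.Agent.Lib.MP_8382de_an.ET.MaC

/-!
# ET.MaS: scaled form of Malmsten's formula

`Γ(1+βz) = exp ∫_0^∞ (βz e^(-t/β) - (1-e^(-zt)) XX β t) dt/t` for `β > 0`, `Re z ≥ 0`:
`malmstenC` at `βz` and the substitution `t → t/β` (`dt/t` is invariant): with
`G(t)` the integrand of `malmstenC` at `βz`, `∫_0^∞ G(s) ds = ∫_0^∞ (1/β) G(t/β) dt`
(`MeasureTheory.integral_comp_mul_left_Ioi` / `integral_comp_mul_right_Ioi`,
`integrableOn_Ioi_comp_mul_left_iff`), and `(1/β) G(t/β) = (βz e^(-t/β) - (1-e^(-zt))/(e^(t/β)-1))/t`.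
-/

set_option autoImplicit false

namespace Pool.Agent.Lib.MP_8382de_an.ET

open MeasureTheory Set

theorem malmstenS {β : ℝ} (hβ : 0 < β) {z : ℂ} (hz : 0 ≤ z.re) :
    IntegrableOn (fun t : ℝ => ((β : ℂ) * z * ((Real.exp (-(t / β)) : ℝ) : ℂ) -
      (1 - Complex.exp (-(z * (t : ℂ)))) * ((XX β t : ℝ) : ℂ)) / (t : ℂ)) (Ioi 0) ∧
    Complex.Gamma (1 + (β : ℂ) * z) =
      Complex.exp (∫ t in Ioi (0 : ℝ), ((β : ℂ) * z * ((Real.exp (-(t / β)) : ℝ) : ℂ) -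
      (1 - Complex.exp (-(z * (t : ℂ)))) * ((XX β t : ℝ) : ℂ)) / (t : ℂ)) := by
  have hβ' : (β : ℂ) ≠ 0 := by exact_mod_cast hβ.ne'
  have hre : -1 < ((β : ℂ) * z).re := by
    rw [Complex.re_ofReal_mul]
    nlinarith [mul_nonneg hβ.le hz]
  obtain ⟨h1, h2⟩ := malmstenC hre
  obtain ⟨G, hG⟩ : ∃ G : ℝ → ℂ, G = fun t : ℝ => ((β : ℂ) * z * (Real.exp (-t) : ℂ) -
      (1 - Complex.exp (-((β : ℂ) * z * (t : ℂ)))) / ((Real.exp t - 1 : ℝ) : ℂ)) / (t : ℂ) :=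
    ⟨_, rfl⟩
  rw [← hG] at h1
  have h2' : Complex.Gamma (1 + (β : ℂ) * z) = Complex.exp (∫ t in Ioi (0 : ℝ), G t) := by
    rw [h2, hG]
  have key : (fun t : ℝ => ((β : ℂ) * z * ((Real.exp (-(t / β)) : ℝ) : ℂ) -
      (1 - Complex.exp (-(z * (t : ℂ)))) * ((XX β t : ℝ) : ℂ)) / (t : ℂ)) =
      fun t : ℝ => (β : ℂ)⁻¹ * G (β⁻¹ * t) := by
    funext t
    rw [hG]
    have e1 : t / β = β⁻¹ * t := by rw [div_eq_inv_mul]
    have e2 : (β : ℂ) * z * ((β⁻¹ * t : ℝ) : ℂ) = z * (t : ℂ) := by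
      push_cast
      field_simp
    have e3 : ((XX β t : ℝ) : ℂ) = 1 / ((Real.exp (β⁻¹ * t) - 1 : ℝ) : ℂ) := by
      unfold XX
      rw [e1]
      push_cast
      rfl
    simp only []
    rw [e2, e3, e1]
    have e4 : ((β⁻¹ * t : ℝ) : ℂ) = (β : ℂ)⁻¹ * (t : ℂ) := by push_cast; rfl
    rw [e4]
    rcases eq_or_ne (t : ℂ) 0 with h0 | h0
    · rw [h0]
      simp
    · field_simp
  rw [key]
  constructor
  · have h3 : IntegrableOn (fun t => G (β⁻¹ * t)) (Ioi 0) :=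
      (integrableOn_Ioi_comp_mul_left_iff G 0 (inv_pos.mpr hβ)).mpr (by rwa [mul_zero])
    exact h3.const_mul ((β : ℂ)⁻¹)
  · rw [h2', integral_const_mul, integral_comp_mul_left_Ioi G 0 (inv_pos.mpr hβ), mul_zero, inv_inv,
      Complex.real_smul, ← mul_assoc, inv_mul_cancel₀ hβ', one_mul]

end Pool.Agent.Lib.MP_8382de_an.ET
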