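import Pool.Agent.Lib.MP_8382de_an.ET.Defs

/-!
# ET.NSm: smoothing by a Gamma law

Let `k(s) = s^(d-1) e^(-s/κ)/(Γ(d) κ^d)` on `(0,∞)` (probability density, Laplace transform
`(1+κy)^(-d)`), `Kb(t) = ∫_t^∞ k`, `w(t) = ∫_0^t k(s) ν(t-s) ds` and `n = w - Kb` on `(0,∞)`.

(1) Laplace: `∫ e^(-yt) w(t) dt = (1+κy)^(-d) ∫ e^(-yt) ν` (Tonelli) and
`y ∫ e^(-yt) Kb(t) dt = 1 - (1+κy)^(-d)` (Tonelli); so
`1 + y ∫ e^(-yt) n = 1 + (1+κy)^(-d) y ∫ e^(-yt) ν - 1 + (1+κy)^(-d)`, the claim.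
(2) `w(λt) ≤ λ^(d-1/2) w(t)` for `λ ≥ 1`: substitute `s = λs'`:
`w(λt) = λ ∫_0^t k(λs') ν(λ(t-s')) ds'`, `k(λs') = λ^(d-1) s'^(d-1) e^(-λs'/κ)/.. ≤ λ^(d-1) k(s')`,
`ν(λr) ≤ λ^(-1/2) ν(r)`.
(3) `w(t) ≥ (c/d) t k(t)` with `c = 8/e²`: `ν(r) ≥ c e^(-r/κ)`, so
`w(t) ≥ c ∫_0^t s^(d-1) e^(-s/κ) e^(-(t-s)/κ) ds/(Γ(d)κ^d) = c e^(-t/κ) t^d/(d Γ(d) κ^d) = (c/d) t k(t)`.
(4) `k` is nonincreasing (`d < 1`), so `∫_t^(λt) k ≤ (λ-1) t k(t) ≤ (λ-1)(d/c) w(t)`.
(5) For `1 ≤ λ ≤ 101/100`, `p = 12/25`, `s = 1/2 - d - p = 1/50 - d > 0`: `n(λt) ≤ λ^(-p) n(t)`: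
`n(λt) = w(λt) - Kb(λt) ≤ λ^(d-1/2) w(t) - Kb(t) + (λ-1)(d/c) w(t)`, and
`λ^(-p) n(t) = λ^(-p) w(t) - λ^(-p) Kb(t) ≥ λ^(-p) w(t) - Kb(t)`. Enough:
`(λ-1) d/c ≤ λ^(-p) - λ^(d-1/2) = λ^(-p)(1 - λ^(-s))`. Bernoulli: `λ^s ≥ 1 + s log λ`,
`1 - λ^(-s) ≥ s log λ/(1+ s log λ) ≥ 0.999 s log λ`, `log λ ≥ (λ-1)/λ ≥ (λ-1)/1.01`,
`λ^(-p) ≥ λ^(-1/2) ≥ 1.01^(-1/2) ≥ 0.995`: right side `≥ 0.995*0.999/1.01 s (λ-1) ≥ 0.984 s (λ-1)`;
`d/c = d e²/8 ≤ 0.92364 d` (`e² ≤ 7.38906`), `d ≤ 0.01015`: `0.92364*0.01015 = 0.0093750`,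
`0.984*(0.02-0.01015) = 0.0096924`. OK (the worst case is `d = 0.01015`, linear in `d`).
(6) So `λ^p n(λt) ≤ n(t)` for `λ ∈ [1, 1.01]`; iterate (`λ = λ₁^N`, `λ₁ ≤ 1.01`) to get it for all
`λ ≥ 1`: `t^p n(t)` is nonincreasing.
(7) `n ≥ 0`: `n(t) ≥ λ^p n(λt) ≥ -λ^p Kb(λt) → 0` as `λ → ∞` (`Kb(x) ≤ C_x e^(-x/κ)`-type bound: for
`x ≥ 1`, `Kb(x) ≤ κ e^(-x/κ)/(Γ(d)κ^d)`).
(8) `e^(-t/2) n` is integrable: `0 ≤ n ≤ w` and (1) with `y = 1/2`. Measurability: `n` is a difference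
of measurable functions (or `t^p n(t)` antitone).
-/

set_option autoImplicit false

namespace Pool.Agent.Lib.MP_8382de_an.ET

open MeasureTheory Set

/-- the Gamma density -/
private noncomputable def nsmK (κ d s : ℝ) : ℝ :=
  s ^ (d - 1) * Real.exp (-(s / κ)) / (Real.Gamma d * κ ^ d)

private theorem nsmK_nonneg {κ d : ℝ} (hκ : 0 < κ) (hd : 0 < d) {s : ℝ} (hs : 0 ≤ s) : 0 ≤ nsmK κ d s := by
  unfold nsmK
  have := Real.Gamma_pos_of_pos hd
  positivity

private theorem nsmK_lap {κ d : ℝ} (hκ : 0 < κ) (hd : 0 < d) {y : ℝ} (hy : 0 ≤ y) :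
    IntegrableOn (fun s => Real.exp (-(y * s)) * nsmK κ d s) (Ioi 0) ∧
    ∫ s in Ioi (0 : ℝ), Real.exp (-(y * s)) * nsmK κ d s = (1 + κ * y) ^ (-d) := by
  have hr : 0 < 1 / κ + y := by positivity
  have h1 := Real.integral_rpow_mul_exp_neg_mul_Ioi hd hr
  have hG := Real.Gamma_pos_of_pos hd
  have e1 : (fun s : ℝ => Real.exp (-(y * s)) * nsmK κ d s) =
      fun s : ℝ => (1 / (Real.Gamma d * κ ^ d)) * (s ^ (d - 1) * Real.exp (-((1 / κ + y) * s))) := by
    funext s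
    unfold nsmK
    have : Real.exp (-((1 / κ + y) * s)) = Real.exp (-(y * s)) * Real.exp (-(s / κ)) := by
      rw [← Real.exp_add]
      congr 1
      field_simp
      ring
    rw [this]
    ring
  have hint : IntegrableOn (fun s : ℝ => s ^ (d - 1) * Real.exp (-((1 / κ + y) * s))) (Ioi 0) := by
    by_contra hcon
    rw [integral_undef hcon] at h1
    have : 0 < (1 / (1 / κ + y)) ^ d * Real.Gamma d := by positivity
    exact this.ne h1
  rw [e1]
  refine ⟨hint.const_mul _, ?_⟩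
  rw [integral_const_mul, h1]
  have h2 : (1 / (1 / κ + y) : ℝ) = κ * (1 + κ * y)⁻¹ := by
    field_simp
  rw [h2, Real.mul_rpow hκ.le (by positivity), Real.inv_rpow (by positivity), ← Real.rpow_neg (by positivity)]
  have h3 : (κ ^ d : ℝ) ≠ 0 := (Real.rpow_pos_of_pos hκ d).ne'
  field_simp

private theorem nsmK_int {κ d : ℝ} (hκ : 0 < κ) (hd : 0 < d) : IntegrableOn (nsmK κ d) (Ioi 0) ∧
    ∫ s in Ioi (0 : ℝ), nsmK κ d s = 1 := by
  have h := nsmK_lap hκ hd (le_refl 0)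
  simpa using h

private theorem nsmK_ii {κ d : ℝ} (hκ : 0 < κ) (hd : 0 < d) {a b : ℝ} (ha : 0 ≤ a) (hb : 0 ≤ b) :
    IntervalIntegrable (nsmK κ d) volume a b := by
  rw [intervalIntegrable_iff]
  refine (nsmK_int hκ hd).1.mono_set ?_
  intro x hx
  rw [mem_uIoc] at hx
  rw [mem_Ioi]
  rcases hx with hx | hx <;> linarith [hx.1]

private theorem nsmK_cont {κ d : ℝ} : ContinuousOn (nsmK κ d) (Ioi 0) := by
  unfold nsmK
  refine ContinuousOn.div_const (ContinuousOn.mul ?_ (by fun_prop)) _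
  exact fun x hx => (Real.continuousAt_rpow_const x (d - 1) (Or.inl (ne_of_gt hx))).continuousWithinAt

private theorem nsmK_anti {κ d : ℝ} (hκ : 0 < κ) (hd : 0 < d) (hd1 : d ≤ 1) {s t : ℝ} (hs : 0 < s)
    (hst : s ≤ t) : nsmK κ d t ≤ nsmK κ d s := by
  unfold nsmK
  have hG := Real.Gamma_pos_of_pos hd
  refine div_le_div_of_nonneg_right ?_ (by positivity)
  refine mul_le_mul ?_ ?_ (Real.exp_pos _).le (Real.rpow_nonneg hs.le _)
  · exact Real.rpow_le_rpow_of_nonpos hs hst (by linarith)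
  · rw [Real.exp_le_exp]
    have : s / κ ≤ t / κ := div_le_div_of_nonneg_right hst hκ.le
    linarith

private theorem nsmK_scale {κ d : ℝ} (hκ : 0 < κ) (hd : 0 < d) {s l : ℝ} (hs : 0 < s)
    (hl : 1 ≤ l) : nsmK κ d (l * s) ≤ l ^ (d - 1) * nsmK κ d s := by
  unfold nsmK
  have hG := Real.Gamma_pos_of_pos hd
  have hl0 : 0 < l := by linarith
  rw [Real.mul_rpow hl0.le hs.le]
  have h1 : Real.exp (-(l * s / κ)) ≤ Real.exp (-(s / κ)) := by
    rw [Real.exp_le_exp]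
    have : s / κ ≤ l * s / κ := div_le_div_of_nonneg_right (by nlinarith) hκ.le
    linarith
  calc l ^ (d - 1) * s ^ (d - 1) * Real.exp (-(l * s / κ)) / (Real.Gamma d * κ ^ d)
      ≤ l ^ (d - 1) * s ^ (d - 1) * Real.exp (-(s / κ)) / (Real.Gamma d * κ ^ d) := by
        refine div_le_div_of_nonneg_right ?_ (by positivity)
        exact mul_le_mul_of_nonneg_left h1 (by positivity)
    _ = _ := by ring

/-- `ν` is integrable near zero -/
private theorem nsm_nu_ii {ν : ℝ → ℝ}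
    (hν4 : ∀ y, 0 < y → IntegrableOn (fun t => Real.exp (-(y * t)) * ν t) (Ioi 0)) {b : ℝ}
    (hb : 0 ≤ b) : IntervalIntegrable ν volume 0 b := by
  have h1 : IntervalIntegrable (fun t => Real.exp (-(1 * t)) * ν t) volume 0 b := by
    rw [intervalIntegrable_iff_integrableOn_Ioc_of_le hb]
    exact (hν4 1 one_pos).mono_set Ioc_subset_Ioi_self
  have h2 := h1.continuousOn_mul (g := fun t => Real.exp (1 * t)) (by fun_prop)
  refine h2.congr fun t _ => ?_
  change Real.exp (1 * t) * (Real.exp (-(1 * t)) * ν t) = ν t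
  rw [← mul_assoc, ← Real.exp_add]
  simp

/-- the integrand of the convolution -/
private theorem nsm_conv_ii {ν : ℝ → ℝ} {κ d : ℝ} (hκ : 0 < κ) (hd : 0 < d)
    (hν0 : ∀ t, 0 < t → 0 ≤ ν t) (hν1 : AntitoneOn ν (Ioi 0))
    (hν4 : ∀ y, 0 < y → IntegrableOn (fun t => Real.exp (-(y * t)) * ν t) (Ioi 0)) {t : ℝ} (ht : 0 < t) :
    IntervalIntegrable (fun s => nsmK κ d s * ν (t - s)) volume 0 t := by
  have ha : IntervalIntegrable (fun s => nsmK κ d s * ν (t - s)) volume 0 (t / 2) := by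
    have hb := (nsmK_ii hκ hd le_rfl (show 0 ≤ t / 2 by linarith)).mul_const (ν (t / 2))
    refine hb.mono_fun' ?_ ?_
    · rw [uIoc_of_le (by linarith)]
      have hm : AEMeasurable (fun s => ν (t - s)) (volume.restrict (Ioc 0 (t / 2))) := by
        refine aemeasurable_restrict_of_monotoneOn measurableSet_Ioc ?_
        intro x hx y hy hxy
        exact hν1 (by rw [mem_Ioi]; linarith [hy.2]) (by rw [mem_Ioi]; linarith [hx.2]) (by linarith)
      have hk : AEStronglyMeasurable (nsmK κ d) (volume.restrict (Ioc 0 (t / 2))) :=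
        ((nsmK_int hκ hd).1.mono_set Ioc_subset_Ioi_self).aestronglyMeasurable
      exact hk.mul hm.aestronglyMeasurable
    · rw [uIoc_of_le (by linarith)]
      refine (ae_restrict_iff' measurableSet_Ioc).mpr (Filter.Eventually.of_forall fun s hs => ?_)
      have h1 := nsmK_nonneg hκ hd hs.1.le
      have h2 := hν0 (t - s) (by linarith [hs.2])
      simp only
      rw [Real.norm_of_nonneg (mul_nonneg h1 h2)]
      refine mul_le_mul_of_nonneg_left ?_ h1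
      exact hν1 (by rw [mem_Ioi]; linarith) (by rw [mem_Ioi]; linarith [hs.2]) (by linarith [hs.2])
  have hb : IntervalIntegrable (fun s => nsmK κ d s * ν (t - s)) volume (t / 2) t := by
    have h1 := (nsm_nu_ii hν4 (show 0 ≤ t / 2 by linarith)).comp_sub_left t
    rw [sub_zero, show t - t / 2 = t / 2 by ring] at h1
    refine h1.symm.continuousOn_mul ?_
    refine nsmK_cont.mono ?_
    rw [uIcc_of_le (by linarith)]
    intro x hx
    rw [mem_Ioi]
    linarith [hx.1]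
  exact ha.trans hb

private noncomputable def nsmW (ν : ℝ → ℝ) (κ d t : ℝ) : ℝ := ∫ s in (0 : ℝ)..t, nsmK κ d s * ν (t - s)

private noncomputable def nsmN (ν : ℝ → ℝ) (κ d t : ℝ) : ℝ :=
  nsmW ν κ d t + (∫ s in (0 : ℝ)..t, nsmK κ d s) - 1

private theorem nsmW_scale {ν : ℝ → ℝ} {κ d : ℝ} (hκ : 0 < κ) (hd : 0 < d)
    (hν0 : ∀ t, 0 < t → 0 ≤ ν t) (hν1 : AntitoneOn ν (Ioi 0))
    (hν2 : ∀ t l, 0 < t → 1 ≤ l → ν (l * t) ≤ l ^ (-(1 / 2 : ℝ)) * ν t)
    (hν4 : ∀ y, 0 < y → IntegrableOn (fun t => Real.exp (-(y * t)) * ν t) (Ioi 0)) {t l : ℝ}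
    (ht : 0 < t) (hl : 1 ≤ l) : nsmW ν κ d (l * t) ≤ l ^ (d - 1 / 2) * nsmW ν κ d t := by
  have hl0 : 0 < l := by linarith
  have h1 := intervalIntegral.mul_integral_comp_mul_left (a := 0) (b := t)
    (f := fun s => nsmK κ d s * ν (l * t - s)) (c := l)
  rw [mul_zero] at h1
  unfold nsmW
  rw [← h1]
  have h2 : IntervalIntegrable (fun s => nsmK κ d (l * s) * ν (l * t - l * s)) volume 0 t := by
    have h3 := (nsm_conv_ii hκ hd hν0 hν1 hν4 (show 0 < l * t by positivity)).comp_mul_left (c := l)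
    simpa [hl0.ne'] using h3
  have h4 := (nsm_conv_ii hκ hd hν0 hν1 hν4 ht).const_mul (l ^ (d - 1) * l ^ (-(1 / 2 : ℝ)))
  have h5 : ∫ s in (0 : ℝ)..t, nsmK κ d (l * s) * ν (l * t - l * s) ≤
      ∫ s in (0 : ℝ)..t, (l ^ (d - 1) * l ^ (-(1 / 2 : ℝ))) * (nsmK κ d s * ν (t - s)) := by
    refine intervalIntegral.integral_mono_on_of_le_Ioo ht.le h2 h4 fun s hs => ?_
    have h6 := nsmK_scale hκ hd hs.1 hl
    have h7 := hν2 (t - s) l (by linarith [hs.2]) hl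
    rw [mul_sub] at h7
    have h8 : 0 ≤ ν (l * t - l * s) := hν0 _ (by nlinarith [hs.2])
    have h9 : 0 ≤ nsmK κ d s := nsmK_nonneg hκ hd hs.1.le
    calc nsmK κ d (l * s) * ν (l * t - l * s) ≤ (l ^ (d - 1) * nsmK κ d s) * (l ^ (-(1 / 2 : ℝ)) * ν (t - s)) :=
          mul_le_mul h6 h7 h8 (by positivity)
      _ = _ := by ring
  rw [intervalIntegral.integral_const_mul] at h5
  have h10 : l * (l ^ (d - 1) * l ^ (-(1 / 2 : ℝ))) = l ^ (d - 1 / 2) := by
    rw [← Real.rpow_add hl0]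
    nth_rewrite 1 [← Real.rpow_one l]
    rw [← Real.rpow_add hl0]
    congr 1
    ring
  calc l * ∫ s in (0 : ℝ)..t, nsmK κ d (l * s) * ν (l * t - l * s)
      ≤ l * ((l ^ (d - 1) * l ^ (-(1 / 2 : ℝ))) * ∫ s in (0 : ℝ)..t, nsmK κ d s * ν (t - s)) :=
        mul_le_mul_of_nonneg_left h5 hl0.le
    _ = _ := by rw [← mul_assoc, h10]

private theorem nsmW_low {ν : ℝ → ℝ} {κ d : ℝ} (hκ : 0 < κ) (hd : 0 < d)
    (hν0 : ∀ t, 0 < t → 0 ≤ ν t) (hν1 : AntitoneOn ν (Ioi 0))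
    (hν3 : ∀ t, 0 < t → 8 / Real.exp 2 * Real.exp (-(t / κ)) ≤ ν t)
    (hν4 : ∀ y, 0 < y → IntegrableOn (fun t => Real.exp (-(y * t)) * ν t) (Ioi 0)) {t : ℝ}
    (ht : 0 < t) : t * nsmK κ d t ≤ (d * Real.exp 2 / 8) * nsmW ν κ d t := by
  have hG := Real.Gamma_pos_of_pos hd
  have h1 : ∫ s in (0 : ℝ)..t, (8 / Real.exp 2 * Real.exp (-(t / κ)) / (Real.Gamma d * κ ^ d)) * s ^ (d - 1) ≤
      nsmW ν κ d t := by
    unfold nsmW
    refine intervalIntegral.integral_mono_on_of_le_Ioo ht.le ?_ (nsm_conv_ii hκ hd hν0 hν1 hν4 ht)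
      fun s hs => ?_
    · exact (intervalIntegral.intervalIntegrable_rpow' (by linarith)).const_mul _
    · have h2 := hν3 (t - s) (by linarith [hs.2])
      have h3 := nsmK_nonneg hκ hd hs.1.le
      refine le_trans (le_of_eq ?_) (mul_le_mul_of_nonneg_left h2 h3)
      unfold nsmK
      have h4 : Real.exp (-(t / κ)) = Real.exp (-(s / κ)) * Real.exp (-((t - s) / κ)) := by
        rw [← Real.exp_add]
        congr 1
        ring
      rw [h4]
      ring
  rw [intervalIntegral.integral_const_mul, integral_rpow (Or.inl (by linarith)), sub_add_cancel,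
    Real.zero_rpow hd.ne', sub_zero] at h1
  have h5 : t * nsmK κ d t = (d * Real.exp 2 / 8) *
      (8 / Real.exp 2 * Real.exp (-(t / κ)) / (Real.Gamma d * κ ^ d) * (t ^ d / d)) := by
    unfold nsmK
    have h6 : t ^ d = t * t ^ (d - 1) := by
      rw [Real.rpow_sub_one ht.ne']
      field_simp
    rw [h6]
    have h7 : (κ ^ d : ℝ) ≠ 0 := (Real.rpow_pos_of_pos hκ d).ne'
    field_simp
  rw [h5]
  exact mul_le_mul_of_nonneg_left h1 (by positivity)

private theorem nsmK_block {κ d : ℝ} (hκ : 0 < κ) (hd : 0 < d) (hd1 : d ≤ 1) {t l : ℝ} (ht : 0 < t)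
    (hl : 1 ≤ l) : ∫ s in (0 : ℝ)..(l * t), nsmK κ d s ≤
      (∫ s in (0 : ℝ)..t, nsmK κ d s) + (l - 1) * (t * nsmK κ d t) := by
  have hlt : t ≤ l * t := by nlinarith
  rw [← intervalIntegral.integral_add_adjacent_intervals (nsmK_ii hκ hd le_rfl ht.le)
    (nsmK_ii hκ hd ht.le (by linarith))]
  have h1 : ∫ s in t..(l * t), nsmK κ d s ≤ ∫ s in t..(l * t), nsmK κ d t := by
    refine intervalIntegral.integral_mono_on hlt (nsmK_ii hκ hd ht.le (by linarith)) (by simp)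
      fun s hs => ?_
    exact nsmK_anti hκ hd hd1 ht hs.1
  rw [intervalIntegral.integral_const, smul_eq_mul] at h1
  have : (l * t - t) * nsmK κ d t = (l - 1) * (t * nsmK κ d t) := by ring
  linarith

private theorem nsm_num {d l : ℝ} (hd : 0 < d) (hd2 : d ≤ 203 / 20000) (hl : 1 ≤ l) (hl2 : l ≤ 101 / 100) :
    l ^ (12 / 25 : ℝ) * (l ^ (d - 1 / 2) + (l - 1) * (d * Real.exp 2 / 8)) ≤ 1 := by
  have hl0 : 0 < l := by linarith
  set s : ℝ := 1 / 50 - d with hs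
  have hs0 : 0 < s := by rw [hs]; linarith
  have h1 : l ^ (12 / 25 : ℝ) * l ^ (d - 1 / 2) = (l ^ s)⁻¹ := by
    rw [← Real.rpow_add hl0, ← Real.rpow_neg hl0.le]
    congr 1
    rw [hs]
    ring
  have hlog : (l - 1) / (101 / 100) ≤ Real.log l := by
    have h2 := Real.one_sub_inv_le_log_of_pos hl0
    refine le_trans ?_ h2
    have h3 : 1 - l⁻¹ = (l - 1) / l := by field_simp
    rw [h3]
    exact div_le_div_of_nonneg_left (by linarith) hl0 hl2
  have h4 : 1 + s * ((l - 1) / (101 / 100)) ≤ l ^ s := by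
    rw [Real.rpow_def_of_pos hl0]
    have h5 := Real.add_one_le_exp (Real.log l * s)
    nlinarith
  have h6 : l ^ (12 / 25 : ℝ) ≤ 1 + 12 / 25 * (l - 1) := by
    have := rpow_one_add_le_one_add_mul_self (s := l - 1) (by linarith) (p := 12 / 25)
      (by norm_num) (by norm_num)
    rwa [add_sub_cancel] at this
  have h7 : Real.exp 2 ≤ 7.38906 := by
    have h8 := Real.exp_one_lt_d9
    have h9 : Real.exp 2 = Real.exp 1 ^ 2 := by
      rw [← Real.exp_nat_mul]; norm_num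
    rw [h9]
    have h10 : Real.exp 1 ^ 2 ≤ 2.7182818286 ^ 2 := pow_le_pow_left₀ (Real.exp_pos 1).le h8.le 2
    refine h10.trans (by norm_num)
  have hx0 : 0 ≤ l - 1 := by linarith
  have h11 : (l ^ s)⁻¹ ≤ 1 - (98990 / 100000) * (s * (l - 1)) := by
    have h12 : 0 < 1 + s * ((l - 1) / (101 / 100)) := by positivity
    have h13 : (l ^ s)⁻¹ ≤ (1 + s * ((l - 1) / (101 / 100)))⁻¹ := inv_anti₀ h12 h4
    refine h13.trans ?_
    rw [inv_le_iff_one_le_mul₀ h12]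
    have h14 : s * (l - 1) ≤ 2 / 10000 := by
      have : s ≤ 1 / 50 := by rw [hs]; linarith
      nlinarith
    have h15 : 0 ≤ s * (l - 1) := by positivity
    have h16 : s * ((l - 1) / (101 / 100)) = (100 / 101) * (s * (l - 1)) := by ring
    rw [h16]
    nlinarith
  have h17 : l ^ (12 / 25 : ℝ) * ((l - 1) * (d * Real.exp 2 / 8)) ≤
      (10048 / 10000) * ((l - 1) * (d * 7.38906 / 8)) := by
    refine mul_le_mul (by nlinarith) ?_ (by positivity) (by norm_num)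
    refine mul_le_mul_of_nonneg_left ?_ hx0
    refine div_le_div_of_nonneg_right ?_ (by norm_num)
    exact mul_le_mul_of_nonneg_left h7 hd.le
  rw [mul_add, h1]
  have h18 : (10048 / 10000 : ℝ) * (d * 7.38906 / 8) ≤ (98990 / 100000) * s := by
    rw [hs]
    nlinarith
  have h19 : (l - 1) * ((10048 / 10000 : ℝ) * (d * 7.38906 / 8)) ≤ (l - 1) * ((98990 / 100000) * s) :=
    mul_le_mul_of_nonneg_left h18 hx0
  nlinarith

private theorem nsmW_nonneg {ν : ℝ → ℝ} {κ d : ℝ} (hκ : 0 < κ) (hd : 0 < d)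
    (hν0 : ∀ t, 0 < t → 0 ≤ ν t) {t : ℝ} (ht : 0 < t) : 0 ≤ nsmW ν κ d t := by
  unfold nsmW
  rw [intervalIntegral.integral_of_le ht.le, integral_Ioc_eq_integral_Ioo]
  refine setIntegral_nonneg measurableSet_Ioo fun s hs => ?_
  exact mul_nonneg (nsmK_nonneg hκ hd hs.1.le) (hν0 _ (by linarith [hs.2]))

private theorem nsmKb_nonneg {κ d : ℝ} (hκ : 0 < κ) (hd : 0 < d) {t : ℝ} (ht : 0 ≤ t) :
    1 - (∫ s in (0 : ℝ)..t, nsmK κ d s) = ∫ s in Ioi t, nsmK κ d s ∧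
      0 ≤ 1 - ∫ s in (0 : ℝ)..t, nsmK κ d s := by
  have h1 := intervalIntegral.integral_interval_add_Ioi (nsmK_int hκ hd).1
    ((nsmK_int hκ hd).1.mono_set (Ioi_subset_Ioi ht))
  rw [(nsmK_int hκ hd).2] at h1
  have h2 : 1 - (∫ s in (0 : ℝ)..t, nsmK κ d s) = ∫ s in Ioi t, nsmK κ d s := by linarith
  refine ⟨h2, ?_⟩
  rw [h2]
  exact setIntegral_nonneg measurableSet_Ioi fun s hs => nsmK_nonneg hκ hd (ht.trans (le_of_lt hs))

private theorem nsmKb_lim {κ d : ℝ} (hκ : 0 < κ) (hd : 0 < d) (hd1 : d ≤ 1) :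
    Filter.Tendsto (fun t : ℝ => t ^ (12 / 25 : ℝ) * (1 - ∫ s in (0 : ℝ)..t, nsmK κ d s)) Filter.atTop
      (nhds 0) := by
  have hG := Real.Gamma_pos_of_pos hd
  have h0 := (tendsto_rpow_mul_exp_neg_mul_atTop_nhds_zero (12 / 25) (1 / κ) (by positivity)).const_mul
    (κ / (Real.Gamma d * κ ^ d))
  rw [mul_zero] at h0
  refine squeeze_zero' ?_ ?_ h0
  · filter_upwards [Filter.eventually_ge_atTop 0] with t ht
    exact mul_nonneg (Real.rpow_nonneg ht _) (nsmKb_nonneg hκ hd ht).2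
  · filter_upwards [Filter.eventually_ge_atTop 1] with t ht
    have ht0 : 0 ≤ t := by linarith
    rw [(nsmKb_nonneg hκ hd ht0).1]
    have h1 : ∫ s in Ioi t, nsmK κ d s ≤
        ∫ s in Ioi t, (1 / (Real.Gamma d * κ ^ d)) * Real.exp ((-(1 / κ)) * s) := by
      refine setIntegral_mono_on ((nsmK_int hκ hd).1.mono_set (Ioi_subset_Ioi ht0)) ?_
        measurableSet_Ioi fun s hs => ?_
      · exact (integrableOn_exp_mul_Ioi (by simpa using hκ) t).const_mul _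
      · have hs1 : 1 ≤ s := ht.trans (le_of_lt hs)
        unfold nsmK
        have h2 : s ^ (d - 1) ≤ 1 := Real.rpow_le_one_of_one_le_of_nonpos hs1 (by linarith)
        have h3 : Real.exp (-(s / κ)) = Real.exp ((-(1 / κ)) * s) := by
          congr 1
          ring
        rw [h3]
        have h4 : 0 < Real.exp ((-(1 / κ)) * s) := Real.exp_pos _
        rw [div_eq_mul_one_div, mul_comm _ (1 / _)]
        refine mul_le_mul_of_nonneg_left ?_ (by positivity)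
        nlinarith
    rw [integral_const_mul, integral_exp_mul_Ioi (by simpa using hκ)] at h1
    calc t ^ (12 / 25 : ℝ) * ∫ s in Ioi t, nsmK κ d s
        ≤ t ^ (12 / 25 : ℝ) * (1 / (Real.Gamma d * κ ^ d) *
          (-Real.exp (-(1 / κ) * t) / -(1 / κ))) :=
          mul_le_mul_of_nonneg_left h1 (Real.rpow_nonneg ht0 _)
      _ = _ := by
          field_simp

private theorem nsm_step {ν : ℝ → ℝ} {κ d : ℝ} (hκ : 0 < κ) (hd : 0 < d) (hd2 : d ≤ 203 / 20000)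
    (hν0 : ∀ t, 0 < t → 0 ≤ ν t) (hν1 : AntitoneOn ν (Ioi 0))
    (hν2 : ∀ t l, 0 < t → 1 ≤ l → ν (l * t) ≤ l ^ (-(1 / 2 : ℝ)) * ν t)
    (hν3 : ∀ t, 0 < t → 8 / Real.exp 2 * Real.exp (-(t / κ)) ≤ ν t)
    (hν4 : ∀ y, 0 < y → IntegrableOn (fun t => Real.exp (-(y * t)) * ν t) (Ioi 0)) {t l : ℝ}
    (ht : 0 < t) (hl : 1 ≤ l) (hl2 : l ≤ 101 / 100) :
    l ^ (12 / 25 : ℝ) * nsmN ν κ d (l * t) ≤ nsmN ν κ d t := by
  have hW0 := nsmW_nonneg hκ hd hν0 ht
  have hW1 := nsmW_scale hκ hd hν0 hν1 hν2 hν4 ht hl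
  have hW2 := nsmW_low hκ hd hν0 hν1 hν3 hν4 ht
  have hK := nsmK_block hκ hd (by linarith) ht hl
  have hKb := (nsmKb_nonneg hκ hd ht.le).2
  have hnum := nsm_num hd hd2 hl hl2
  have hp1 : 1 ≤ l ^ (12 / 25 : ℝ) := Real.one_le_rpow hl (by norm_num)
  have h1 : nsmN ν κ d (l * t) ≤ (l ^ (d - 1 / 2) + (l - 1) * (d * Real.exp 2 / 8)) * nsmW ν κ d t -
      (1 - ∫ s in (0 : ℝ)..t, nsmK κ d s) := by
    unfold nsmN
    have h2 : (l - 1) * (t * nsmK κ d t) ≤ (l - 1) * ((d * Real.exp 2 / 8) * nsmW ν κ d t) :=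
      mul_le_mul_of_nonneg_left hW2 (by linarith)
    nlinarith
  have h3 : l ^ (12 / 25 : ℝ) * nsmN ν κ d (l * t) ≤
      l ^ (12 / 25 : ℝ) * ((l ^ (d - 1 / 2) + (l - 1) * (d * Real.exp 2 / 8)) * nsmW ν κ d t -
      (1 - ∫ s in (0 : ℝ)..t, nsmK κ d s)) := mul_le_mul_of_nonneg_left h1 (by positivity)
  refine h3.trans ?_
  have h4 : nsmN ν κ d t = nsmW ν κ d t - (1 - ∫ s in (0 : ℝ)..t, nsmK κ d s) := by
    unfold nsmN; ring
  rw [h4]
  have h5 : (l ^ (12 / 25 : ℝ) * (l ^ (d - 1 / 2) + (l - 1) * (d * Real.exp 2 / 8))) * nsmW ν κ d t ≤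
      1 * nsmW ν κ d t := mul_le_mul_of_nonneg_right hnum hW0
  have h6 : 1 * (1 - ∫ s in (0 : ℝ)..t, nsmK κ d s) ≤
      l ^ (12 / 25 : ℝ) * (1 - ∫ s in (0 : ℝ)..t, nsmK κ d s) := mul_le_mul_of_nonneg_right hp1 hKb
  have h7 : l ^ (12 / 25 : ℝ) * ((l ^ (d - 1 / 2) + (l - 1) * (d * Real.exp 2 / 8)) * nsmW ν κ d t -
      (1 - ∫ s in (0 : ℝ)..t, nsmK κ d s)) =
      (l ^ (12 / 25 : ℝ) * (l ^ (d - 1 / 2) + (l - 1) * (d * Real.exp 2 / 8))) * nsmW ν κ d t -
      l ^ (12 / 25 : ℝ) * (1 - ∫ s in (0 : ℝ)..t, nsmK κ d s) := by ring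
  rw [h7]
  linarith

private theorem nsm_all {N : ℝ → ℝ}
    (hstep : ∀ t l : ℝ, 0 < t → 1 ≤ l → l ≤ 101 / 100 → l ^ (12 / 25 : ℝ) * N (l * t) ≤ N t) :
    ∀ (k : ℕ) (l : ℝ), 1 ≤ l → l ≤ (101 / 100) ^ k → ∀ t, 0 < t → l ^ (12 / 25 : ℝ) * N (l * t) ≤ N t := by
  intro k
  induction k with
  | zero =>
    intro l hl hl2 t ht
    exact hstep t l ht hl (by rw [pow_zero] at hl2; linarith)
  | succ k ih =>
    intro l hl hl2 t ht
    rcases le_or_gt l (101 / 100) with h | h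
    · exact hstep t l ht hl h
    · have h1 : 1 ≤ l / (101 / 100) := by
        rw [le_div_iff₀ (by norm_num)]; linarith
      have h2 : l / (101 / 100) ≤ (101 / 100) ^ k := by
        rw [div_le_iff₀ (by norm_num)]
        rwa [pow_succ] at hl2
      have h3 := ih _ h1 h2 t ht
      have h4 := hstep (l / (101 / 100) * t) (101 / 100) (by positivity) (by norm_num) le_rfl
      have h5 : (101 / 100 : ℝ) * (l / (101 / 100) * t) = l * t := by ring
      rw [h5] at h4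
      have h6 : l ^ (12 / 25 : ℝ) = (l / (101 / 100)) ^ (12 / 25 : ℝ) * (101 / 100 : ℝ) ^ (12 / 25 : ℝ) := by
        rw [← Real.mul_rpow (by positivity) (by norm_num)]
        congr 1
        ring
      rw [h6, mul_assoc]
      exact (mul_le_mul_of_nonneg_left h4 (by positivity)).trans h3

theorem smooth {ν : ℝ → ℝ} {κ d : ℝ} (hκ : 0 < κ) (hd : 0 < d) (hd2 : d ≤ 203 / 20000)
    (hν0 : ∀ t, 0 < t → 0 ≤ ν t) (hν1 : AntitoneOn ν (Ioi 0))
    (hν2 : ∀ t l, 0 < t → 1 ≤ l → ν (l * t) ≤ l ^ (-(1 / 2 : ℝ)) * ν t)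
    (hν3 : ∀ t, 0 < t → 8 / Real.exp 2 * Real.exp (-(t / κ)) ≤ ν t)
    (hν4 : ∀ y, 0 < y → IntegrableOn (fun t => Real.exp (-(y * t)) * ν t) (Ioi 0)) :
    ∃ n : ℝ → ℝ, Cls n ∧ ∀ y, 0 < y →
      (1 + κ * y) ^ (-d) * (1 + y * ∫ t in Ioi (0 : ℝ), Real.exp (-(y * t)) * ν t) = NN n y := by
  have hmono : ∀ s t : ℝ, 0 < s → s ≤ t → t ^ (12 / 25 : ℝ) * nsmN ν κ d t ≤
      s ^ (12 / 25 : ℝ) * nsmN ν κ d s := by
    intro s t hs hst
    have hl : 1 ≤ t / s := by rw [le_div_iff₀ hs]; linarith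
    obtain ⟨k, hk⟩ := pow_unbounded_of_one_lt (t / s) (show (1 : ℝ) < 101 / 100 by norm_num)
    have h1 := nsm_all (N := nsmN ν κ d) (fun t l ht hl hl2 => nsm_step hκ hd hd2 hν0 hν1 hν2 hν3 hν4 ht hl hl2)
      k (t / s) hl hk.le s hs
    have h2 : t / s * s = t := by field_simp
    rw [h2] at h1
    have h3 : t ^ (12 / 25 : ℝ) = s ^ (12 / 25 : ℝ) * (t / s) ^ (12 / 25 : ℝ) := by
      rw [← Real.mul_rpow hs.le (by positivity)]
      congr 1
      field_simp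
    rw [h3, mul_assoc]
    exact mul_le_mul_of_nonneg_left h1 (by positivity)
  have hlap : ∀ y : ℝ, 0 < y →
      IntegrableOn (fun t => Real.exp (-(y * t)) * (nsmN ν κ d t + 1)) (Ioi 0) ∧
      ∫ t in Ioi (0 : ℝ), Real.exp (-(y * t)) * (nsmN ν κ d t + 1) =
        (1 + κ * y) ^ (-d) * ((∫ t in Ioi (0 : ℝ), Real.exp (-(y * t)) * ν t) + 1 / y) := by
    intro y hy
    have he : IntegrableOn (fun t : ℝ => Real.exp (-(y * t))) (Ioi 0) := by
      have := integrableOn_exp_mul_Ioi (show -y < 0 by linarith) 0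
      refine this.congr_fun (fun t _ => ?_) measurableSet_Ioi
      simp only
      congr 1
      ring
    have he2 : ∫ t in Ioi (0 : ℝ), Real.exp (-(y * t)) = 1 / y := by
      have h1 := integral_exp_mul_Ioi (show -y < 0 by linarith) 0
      rw [mul_zero, Real.exp_zero, neg_div_neg_eq] at h1
      rw [← h1]
      refine setIntegral_congr_fun measurableSet_Ioi fun t _ => ?_
      congr 1
      ring
    have hg : IntegrableOn (fun t : ℝ => Real.exp (-(y * t)) * (ν t + 1)) (Ioi 0) := by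
      have h1 := (hν4 y hy).add he
      refine h1.congr_fun (fun t _ => ?_) measurableSet_Ioi
      simp only [Pi.add_apply]
      ring
    have hf := (nsmK_lap hκ hd hy.le).1
    have h2 := integral_posConvolution hf hg (ContinuousLinearMap.mul ℝ ℝ)
    have h3 := integrable_posConvolution hf hg (ContinuousLinearMap.mul ℝ ℝ)
    have key : ∀ x : ℝ, 0 < x → (∫ t in (0 : ℝ)..x, (ContinuousLinearMap.mul ℝ ℝ)
        (Real.exp (-(y * t)) * nsmK κ d t) (Real.exp (-(y * (x - t))) * (ν (x - t) + 1))) =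
        Real.exp (-(y * x)) * (nsmN ν κ d x + 1) := by
      intro x hx
      have h4 : ∀ t : ℝ, (ContinuousLinearMap.mul ℝ ℝ)
          (Real.exp (-(y * t)) * nsmK κ d t) (Real.exp (-(y * (x - t))) * (ν (x - t) + 1)) =
          Real.exp (-(y * x)) * (nsmK κ d t * ν (x - t) + nsmK κ d t) := by
        intro t
        rw [ContinuousLinearMap.mul_apply']
        have : Real.exp (-(y * x)) = Real.exp (-(y * t)) * Real.exp (-(y * (x - t))) := by
          rw [← Real.exp_add]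
          congr 1
          ring
        rw [this]
        ring
      simp only [h4]
      rw [intervalIntegral.integral_const_mul, intervalIntegral.integral_add
        (nsm_conv_ii hκ hd hν0 hν1 hν4 hx) (nsmK_ii hκ hd le_rfl hx.le)]
      unfold nsmN nsmW
      ring
    constructor
    · unfold posConvolution at h3
      rw [integrable_indicator_iff measurableSet_Ioi] at h3
      exact h3.congr_fun (fun x hx => key x hx) measurableSet_Ioi
    · rw [setIntegral_congr_fun measurableSet_Ioi (fun x hx => key x hx)] at h2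
      rw [h2, ContinuousLinearMap.mul_apply', (nsmK_lap hκ hd hy.le).2]
      congr 1
      rw [← he2, ← integral_add (hν4 y hy) he]
      refine setIntegral_congr_fun measurableSet_Ioi fun t _ => ?_
      ring
  have hint : ∀ y : ℝ, 0 < y → IntegrableOn (fun t => Real.exp (-(y * t)) * nsmN ν κ d t) (Ioi 0) ∧
      IntegrableOn (fun t : ℝ => Real.exp (-(y * t))) (Ioi 0) := by
    intro y hy
    have he : IntegrableOn (fun t : ℝ => Real.exp (-(y * t))) (Ioi 0) := by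
      have := integrableOn_exp_mul_Ioi (show -y < 0 by linarith) 0
      refine this.congr_fun (fun t _ => ?_) measurableSet_Ioi
      simp only
      congr 1
      ring
    refine ⟨?_, he⟩
    have h1 := (hlap y hy).1.sub he
    refine h1.congr_fun (fun t _ => ?_) measurableSet_Ioi
    simp only [Pi.sub_apply]
    ring
  refine ⟨nsmN ν κ d, ⟨?_, hmono, ?_⟩, ?_⟩
  · intro t ht
    by_contra hneg
    push Not at hneg
    have hlim := nsmKb_lim hκ hd (show d ≤ 1 by linarith)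
    have hge : ∀ᶠ x : ℝ in Filter.atTop, -(t ^ (12 / 25 : ℝ) * nsmN ν κ d t) ≤
        x ^ (12 / 25 : ℝ) * (1 - ∫ s in (0 : ℝ)..x, nsmK κ d s) := by
      filter_upwards [Filter.eventually_ge_atTop t] with x hx
      have hx0 : 0 < x := ht.trans_le hx
      have h1 := hmono t x ht hx
      have h2 := nsmW_nonneg (ν := ν) hκ hd hν0 hx0
      have h3 : -(nsmN ν κ d x) ≤ 1 - ∫ s in (0 : ℝ)..x, nsmK κ d s := by
        unfold nsmN
        linarith
      have h4 : x ^ (12 / 25 : ℝ) * (-(nsmN ν κ d x)) ≤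
          x ^ (12 / 25 : ℝ) * (1 - ∫ s in (0 : ℝ)..x, nsmK κ d s) :=
        mul_le_mul_of_nonneg_left h3 (by positivity)
      linarith
    have h5 := ge_of_tendsto hlim hge
    have h6 : t ^ (12 / 25 : ℝ) * nsmN ν κ d t < 0 := mul_neg_of_pos_of_neg (by positivity) hneg
    linarith
  · refine (hint (1 / 2) (by norm_num)).1.congr_fun (fun t _ => ?_) measurableSet_Ioi
    simp only
    congr 2
    ring
  · intro y hy
    have h1 := (hlap y hy).2
    have he2 : ∫ t in Ioi (0 : ℝ), Real.exp (-(y * t)) = 1 / y := by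
      have h1 := integral_exp_mul_Ioi (show -y < 0 by linarith) 0
      rw [mul_zero, Real.exp_zero, neg_div_neg_eq] at h1
      rw [← h1]
      refine setIntegral_congr_fun measurableSet_Ioi fun t _ => ?_
      congr 1
      ring
    have h2 : ∫ t in Ioi (0 : ℝ), Real.exp (-(y * t)) * (nsmN ν κ d t + 1) =
        (∫ t in Ioi (0 : ℝ), Real.exp (-(y * t)) * nsmN ν κ d t) + 1 / y := by
      rw [← he2, ← integral_add (hint y hy).1 (hint y hy).2]
      refine setIntegral_congr_fun measurableSet_Ioi fun t _ => ?_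
      ring
    rw [h2] at h1
    unfold NN
    have h3 : (∫ t in Ioi (0 : ℝ), Real.exp (-(y * t)) * nsmN ν κ d t) =
        (1 + κ * y) ^ (-d) * ((∫ t in Ioi (0 : ℝ), Real.exp (-(y * t)) * ν t) + 1 / y) - 1 / y := by
      linarith
    rw [h3]
    field_simp
    ring

end Pool.Agent.Lib.MP_8382de_an.ET
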