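import Pool.Agent.Lib.MP_8382de_an.ET.NUr

/-!
# ET.NUb: properties of the tail `nu`

* `nu_pos`: both terms are positive.
* `nu_scale`: for `λ ≥ 1`: `nu (λ r) ≤ λ^(-1/2) nu r`. Each term separately: `u' = uL (λr) ≤ u = uL r`
  (from the order property: `K(u') = λr ≥ r`; if `λ = 1` equal), `HL_mono` gives
  `λ r (u'/(α-u'))² ≤ r (u/(α-u))²`, so `u'/(α-u') ≤ λ^(-1/2) u/(α-u)` (square roots of nonnegative
  numbers). Same on the right with `uR (λr) ≥ uR r` and `HR_mono`.
* `nu_low` (`β = 1-α ≤ 1/2`): `nu r ≥ (8/e²) e^(-4r/β)`. Let `u = uR r`, `1-u = βv`, `v ∈ (0,1)`,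
  `u - α = β(1-v)`; the second term of `nu` is `αv/(1-v)`. `r = KL α u = -α log(u/α) - β log v` and
  `u/α = 1 + (β/α)(1-v)`, so `-α log(u/α) ≥ -β(1-v)` and `r ≥ β(-log v - (1-v))`, i.e.
  `e^(-r/β) ≤ v e^(1-v)`, `e^(-4r/β) ≤ v⁴ e^(4(1-v))`. With `x = 1-v`: `(1-x)³ x e^(4x) ≤ e²/16`, because
  `log(1-x) ≤ log(1/2) - 2(x-1/2)` and `log x ≤ log(1/2) + 2(x-1/2)` (`log y ≤ y-1` at `y = 2(1-x)`, `2x`)
  give `3 log(1-x) + log x + 4x ≤ 4 log(1/2) + 2`. So
  `(8/e²) e^(-4r/β) ≤ (8/e²) v⁴ e^(4x) = (8/e²) [v³ x e^(4x)] v/x ≤ (1/2) v/(1-v) ≤ αv/(1-v)`.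
* `nu_anti`: antitone on `(0,∞)` (from `nu_scale`, `λ^(-1/2) ≤ 1`).
* `nu_int`: for `y > 0`: `α(1-α) ∫_0^1 (1-e^(-y KL α u))/(u-α)² du = y ∫_0^∞ e^(-yr) nu α r dr`, and
  `e^(-yr) nu α r` is integrable, if the left integrand is integrable. Proof (Tonelli):
  `1-e^(-yK(u)) = ∫_0^∞ 1[r < K(u)] y e^(-yr) dr`; for fixed `r > 0`
  `∫_0^1 1[r < K(u)] du/(u-α)² = ∫_0^(uL) du/(α-u)² + ∫_(uR)^1 du/(u-α)²
  = 1/(α-uL) - 1/α + 1/(uR-α) - 1/β`, times `αβ` this is `nu α r`
  (`αβ(1/(α-x) - 1/α) = β x/(α-x)`). The point `u = α` has measure `0`.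
-/

set_option autoImplicit false

namespace Pool.Agent.Lib.MP_8382de_an.ET

open MeasureTheory Set

theorem nu_pos {α r : ℝ} (h0 : 0 < α) (h1 : α < 1) (hr : 0 < r) : 0 < nu α r := by
  obtain ⟨a1, -, -⟩ := uL_spec h0 h1 hr
  obtain ⟨a2, -, -⟩ := uR_spec h0 h1 hr
  have b1 : 0 < α - uL α r := by linarith [a1.2]
  have b2 : 0 < uR α r - α := by linarith [a2.1]
  have b3 : 0 < 1 - uR α r := by linarith [a2.2]
  have b4 : 0 < 1 - α := by linarith
  have b5 := a1.1
  unfold nu
  positivity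

private theorem scale_aux {A B l r : ℝ} (hA : 0 ≤ A) (hB : 0 ≤ B) (hr : 0 < r) (hl : 0 < l)
    (h : l * r * A ^ 2 ≤ r * B ^ 2) : A ≤ l ^ (-(1 / 2 : ℝ)) * B := by
  have h1 : l * A ^ 2 ≤ B ^ 2 := by
    have : r * (l * A ^ 2) ≤ r * B ^ 2 := by linarith
    exact le_of_mul_le_mul_left this hr
  have hs : 0 < Real.sqrt l := Real.sqrt_pos.2 hl
  have h2 : Real.sqrt l * A ≤ B := by
    refine abs_le_of_sq_le_sq' ?_ hB |>.2
    rw [mul_pow, Real.sq_sqrt hl.le]
    exact h1
  rw [Real.rpow_neg hl.le, ← Real.sqrt_eq_rpow]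
  calc A = (Real.sqrt l)⁻¹ * (Real.sqrt l * A) := by field_simp
    _ ≤ (Real.sqrt l)⁻¹ * B := mul_le_mul_of_nonneg_left h2 (inv_nonneg.2 hs.le)

theorem nu_scale {α r l : ℝ} (h0 : 0 < α) (h1 : α < 1) (hr : 0 < r) (hl : 1 ≤ l) :
    nu α (l * r) ≤ l ^ (-(1 / 2 : ℝ)) * nu α r := by
  rcases hl.eq_or_lt with rfl | hl
  · rw [one_mul, Real.one_rpow, one_mul]
  have hl0 : 0 < l := by linarith
  have hlr : 0 < l * r := mul_pos hl0 hr
  have hrl : r < l * r := by nlinarith
  obtain ⟨a1, a2, a3⟩ := uL_spec h0 h1 hr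
  obtain ⟨b1, b2, b3⟩ := uR_spec h0 h1 hr
  obtain ⟨c1, c2, -⟩ := uL_spec h0 h1 hlr
  obtain ⟨d1, d2, -⟩ := uR_spec h0 h1 hlr
  have e1 : uL α (l * r) < uL α r := (a3 _ c1).1 (by rw [c2]; exact hrl)
  have e2 : uR α r < uR α (l * r) := (b3 _ d1).1 (by rw [d2]; exact hrl)
  have f1 := HL_mono h0 h1 c1.1 e1.le a1.2
  have f2 := HR_mono h0 h1 b1.1 e2.le d1.2
  rw [c2, a2] at f1
  rw [d2, b2] at f2
  have x1 : 0 < α - uL α r := by linarith [a1.2]
  have x2 : 0 < uR α r - α := by linarith [b1.1]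
  have x3 : 0 < 1 - uR α r := by linarith [b1.2]
  have x4 : 0 < α - uL α (l * r) := by linarith [c1.2]
  have x5 : 0 < uR α (l * r) - α := by linarith [d1.1]
  have x6 : 0 < 1 - uR α (l * r) := by linarith [d1.2]
  have x7 := a1.1
  have x8 := c1.1
  have g1 := scale_aux (A := uL α (l * r) / (α - uL α (l * r))) (B := uL α r / (α - uL α r))
    (by positivity) (by positivity) hr hl0 f1
  have g2 := scale_aux (A := (1 - uR α (l * r)) / (uR α (l * r) - α))
    (B := (1 - uR α r) / (uR α r - α)) (by positivity) (by positivity) hr hl0 f2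
  have y1 : 0 < 1 - α := by linarith
  unfold nu
  calc _ ≤ (1 - α) * (l ^ (-(1 / 2 : ℝ)) * (uL α r / (α - uL α r))) +
        α * (l ^ (-(1 / 2 : ℝ)) * ((1 - uR α r) / (uR α r - α))) :=
        add_le_add (mul_le_mul_of_nonneg_left g1 y1.le) (mul_le_mul_of_nonneg_left g2 h0.le)
    _ = _ := by ring

theorem nu_low {α r : ℝ} (h0 : 1 / 2 ≤ α) (h1 : α < 1) (hr : 0 < r) :
    8 / Real.exp 2 * Real.exp (-(4 * r / (1 - α))) ≤ nu α r := by
  have h00 : 0 < α := by linarith
  obtain ⟨a1, -, -⟩ := uL_spec h00 h1 hr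
  obtain ⟨b1, b2, -⟩ := uR_spec h00 h1 hr
  have x1 : 0 < α - uL α r := by linarith [a1.2]
  have x2 : 0 < uR α r - α := by linarith [b1.1]
  have x3 : 0 < 1 - uR α r := by linarith [b1.2]
  have x7 := a1.1
  have hb : 0 < 1 - α := by linarith
  set u := uR α r with hu
  set v := (1 - u) / (1 - α) with hv
  have hv0 : 0 < v := div_pos x3 hb
  have hv1 : v < 1 := by
    rw [hv, div_lt_one hb]
    linarith
  have hu1 : 1 - u = (1 - α) * v := by
    rw [hv]
    field_simp
  have hu2 : u - α = (1 - α) * (1 - v) := by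
    linarith
  have hu3 : 0 < u := by linarith
  -- lower bound for `r`
  have hr1 : (1 - α) * (-Real.log v - (1 - v)) ≤ r := by
    rw [← b2]
    unfold KL
    have e1 : Real.log (α / u) = - Real.log (u / α) := by
      rw [← Real.log_inv, inv_div]
    have e2 : Real.log ((1 - α) / (1 - u)) = - Real.log v := by
      rw [← Real.log_inv, hv, inv_div]
    have e3 := Real.log_le_sub_one_of_pos (div_pos hu3 h00)
    have e4 : α * Real.log (u / α) ≤ u - α := by
      calc α * Real.log (u / α) ≤ α * (u / α - 1) := mul_le_mul_of_nonneg_left e3 h00.le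
        _ = u - α := by field_simp
    rw [e1, e2]
    nlinarith
  have hr2 : -(4 * r / (1 - α)) ≤ 4 * Real.log v + 4 * (1 - v) := by
    have : (4 * ((1 - α) * (-Real.log v - (1 - v)))) / (1 - α) ≤ 4 * r / (1 - α) :=
      div_le_div_of_nonneg_right (by linarith) hb.le
    have e : (4 * ((1 - α) * (-Real.log v - (1 - v)))) / (1 - α) =
        4 * (-Real.log v - (1 - v)) := by
      field_simp
    rw [e] at this
    linarith
  have hr3 : Real.exp (-(4 * r / (1 - α))) ≤ v ^ 4 * Real.exp (4 * (1 - v)) := by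
    calc Real.exp (-(4 * r / (1 - α))) ≤ Real.exp (4 * Real.log v + 4 * (1 - v)) :=
          Real.exp_le_exp.2 hr2
      _ = v ^ 4 * Real.exp (4 * (1 - v)) := by
          rw [Real.exp_add]
          congr 1
          have : (4 : ℝ) * Real.log v = ((4 : ℕ) : ℝ) * Real.log v := by norm_num
          rw [this, Real.exp_nat_mul, Real.exp_log hv0]
  have hx : 0 < 1 - v := by linarith
  have k1 : 2 * v ≤ Real.exp (2 * v - 1) := by
    have := Real.add_one_le_exp (2 * v - 1)
    linarith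
  have k2 : 2 * (1 - v) ≤ Real.exp (2 * (1 - v) - 1) := by
    have := Real.add_one_le_exp (2 * (1 - v) - 1)
    linarith
  have k3 : 16 * (v ^ 3 * (1 - v)) * Real.exp (4 * (1 - v)) ≤ Real.exp 2 := by
    calc 16 * (v ^ 3 * (1 - v)) * Real.exp (4 * (1 - v))
        = (2 * v) ^ 3 * (2 * (1 - v)) * Real.exp (4 * (1 - v)) := by ring
      _ ≤ (Real.exp (2 * v - 1)) ^ 3 * Real.exp (2 * (1 - v) - 1) * Real.exp (4 * (1 - v)) := by
          gcongr
      _ = Real.exp 2 := by
          rw [← Real.exp_nat_mul, ← Real.exp_add, ← Real.exp_add]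
          congr 1
          push_cast
          ring
  have k4 : 8 / Real.exp 2 * (v ^ 4 * Real.exp (4 * (1 - v))) ≤ 1 / 2 * (v / (1 - v)) := by
    have e : 8 / Real.exp 2 * (v ^ 4 * Real.exp (4 * (1 - v))) =
        (16 * (v ^ 3 * (1 - v)) * Real.exp (4 * (1 - v))) / Real.exp 2 * (1 / 2 * (v / (1 - v))) := by
      field_simp
      ring
    rw [e]
    have e2 : (16 * (v ^ 3 * (1 - v)) * Real.exp (4 * (1 - v))) / Real.exp 2 ≤ 1 := by
      rw [div_le_one (Real.exp_pos _)]
      exact k3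
    have e3 : 0 ≤ 1 / 2 * (v / (1 - v)) := by positivity
    calc _ ≤ 1 * (1 / 2 * (v / (1 - v))) := mul_le_mul_of_nonneg_right e2 e3
      _ = _ := one_mul _
  have k5 : (1 - u) / (u - α) = v / (1 - v) := by
    rw [hu1, hu2]
    field_simp
  have k6 : 0 ≤ v / (1 - v) := by positivity
  unfold nu
  rw [← hu, k5]
  calc 8 / Real.exp 2 * Real.exp (-(4 * r / (1 - α)))
      ≤ 8 / Real.exp 2 * (v ^ 4 * Real.exp (4 * (1 - v))) :=
        mul_le_mul_of_nonneg_left hr3 (by positivity)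
    _ ≤ 1 / 2 * (v / (1 - v)) := k4
    _ ≤ α * (v / (1 - v)) := mul_le_mul_of_nonneg_right h0 k6
    _ ≤ (1 - α) * (uL α r / (α - uL α r)) + α * (v / (1 - v)) := by
        have : 0 ≤ (1 - α) * (uL α r / (α - uL α r)) := by positivity
        linarith

theorem nu_anti {α : ℝ} (h0 : 0 < α) (h1 : α < 1) : AntitoneOn (nu α) (Ioi 0) := by
  intro r hr s hs hrs
  have hr' : 0 < r := hr
  have hl : 1 ≤ s / r := by
    rw [one_le_div hr']
    exact hrs
  have h := nu_scale (l := s / r) h0 h1 hr' hl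
  have e : s / r * r = s := by field_simp
  rw [e] at h
  refine h.trans ?_
  have e2 : (s / r) ^ (-(1 / 2 : ℝ)) ≤ 1 :=
    Real.rpow_le_one_of_one_le_of_nonpos hl (by norm_num)
  have := nu_pos h0 h1 hr'
  nlinarith

/-- the kernel of the double integral -/
private noncomputable def ker2 (α y u r : ℝ) : ℝ :=
  if r < KL α u then y * Real.exp (-(y * r)) / (u - α) ^ 2 else 0

private theorem KL_meas (α : ℝ) : Measurable (KL α) := by
  unfold KL
  fun_prop

private theorem ker2_meas (α y : ℝ) : Measurable (Function.uncurry (ker2 α y)) := by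
  unfold ker2 Function.uncurry
  refine Measurable.ite ?_ ?_ measurable_const
  · exact measurableSet_lt measurable_snd ((KL_meas α).comp measurable_fst)
  · fun_prop

private theorem int_exp {y K : ℝ} (hK : 0 ≤ K) :
    ∫ r in Ioo 0 K, y * Real.exp (-(y * r)) = 1 - Real.exp (-(y * K)) := by
  rw [← integral_Ioc_eq_integral_Ioo, ← intervalIntegral.integral_of_le hK]
  have h : ∀ x ∈ uIcc 0 K, HasDerivAt (fun r : ℝ => -Real.exp (-(y * r)))
      (y * Real.exp (-(y * x))) x := by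
    intro x _
    have h1 : HasDerivAt (fun r : ℝ => -(y * r)) (-(y * 1)) x :=
      ((hasDerivAt_id' x).const_mul y).neg
    have h2 := h1.exp.neg
    have e : -(Real.exp (-(y * x)) * -(y * 1)) = y * Real.exp (-(y * x)) := by ring
    rw [e] at h2
    exact h2
  rw [intervalIntegral.integral_eq_sub_of_hasDerivAt h
    (Continuous.intervalIntegrable (by fun_prop) _ _)]
  simp
  ring

private theorem ker2_int_r {α y u : ℝ} (h0 : 0 < α) (h1 : α < 1) (hu : u ∈ Ioo (0 : ℝ) 1) :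
    ∫ r in Ioi (0 : ℝ), ker2 α y u r = (1 - Real.exp (-(y * KL α u))) / (u - α) ^ 2 := by
  have hK := KL_nonneg h0 h1 hu
  have e1 : ∀ r, ker2 α y u r = (Iio (KL α u)).indicator
      (fun r => y * Real.exp (-(y * r)) / (u - α) ^ 2) r := by
    intro r
    unfold ker2 indicator
    simp only [mem_Iio]
  simp only [e1]
  rw [setIntegral_indicator measurableSet_Iio, Ioi_inter_Iio, ← int_exp hK]
  rw [← integral_div]

private theorem ker2_integrable_r {α y u : ℝ} :
    IntegrableOn (fun r => ker2 α y u r) (Ioi (0 : ℝ)) := by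
  have e1 : (fun r => ker2 α y u r) = (Iio (KL α u)).indicator
      (fun r => y * Real.exp (-(y * r)) / (u - α) ^ 2) := by
    funext r
    unfold ker2 indicator
    simp only [mem_Iio]
  rw [e1]
  have h2 : IntegrableOn (fun r => y * Real.exp (-(y * r)) / (u - α) ^ 2) (Ioo 0 (KL α u)) := by
    refine IntegrableOn.mono_set ?_ Ioo_subset_Icc_self
    exact (Continuous.continuousOn (by fun_prop)).integrableOn_Icc
  rw [IntegrableOn, integrable_indicator_iff measurableSet_Iio, IntegrableOn,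
    Measure.restrict_restrict measurableSet_Iio, inter_comm, Ioi_inter_Iio]
  exact h2

private theorem int_left {α x : ℝ} (hx : 0 < x) (hxα : x < α) :
    IntegrableOn (fun u : ℝ => 1 / (u - α) ^ 2) (Ioo 0 x) ∧
    ∫ u in Ioo 0 x, 1 / (u - α) ^ 2 = 1 / (α - x) - 1 / α := by
  have hc : ContinuousOn (fun u : ℝ => 1 / (u - α) ^ 2) (Icc 0 x) := by
    refine ContinuousOn.div continuousOn_const (by fun_prop) ?_
    intro u hu
    have : u - α ≠ 0 := by
      have := hu.2
      intro h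
      linarith
    positivity
  refine ⟨hc.integrableOn_Icc.mono_set Ioo_subset_Icc_self, ?_⟩
  rw [← integral_Ioc_eq_integral_Ioo, ← intervalIntegral.integral_of_le hx.le]
  have h : ∀ u ∈ uIcc 0 x, HasDerivAt (fun u : ℝ => 1 / (α - u)) (1 / (u - α) ^ 2) u := by
    intro u hu
    rw [uIcc_of_le hx.le] at hu
    have h3 : α - u ≠ 0 := by
      have := hu.2
      intro h
      linarith
    have h4 : u - α ≠ 0 := by
      intro h
      apply h3
      linarith
    have h2 := (hasDerivAt_const u (1 : ℝ)).div ((hasDerivAt_id' u).const_sub α) h3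
    have e : (0 * (α - u) - 1 * (-1)) / (α - u) ^ 2 = 1 / (u - α) ^ 2 := by
      have : (α - u) ^ 2 = (u - α) ^ 2 := by ring
      rw [this]
      ring
    rw [e] at h2
    exact h2
  rw [intervalIntegral.integral_eq_sub_of_hasDerivAt h]
  · simp
  · rw [intervalIntegrable_iff_integrableOn_Icc_of_le hx.le]
    exact hc.integrableOn_Icc

private theorem int_right {α x : ℝ} (hx : α < x) (hx1 : x < 1) :
    IntegrableOn (fun u : ℝ => 1 / (u - α) ^ 2) (Ioo x 1) ∧
    ∫ u in Ioo x 1, 1 / (u - α) ^ 2 = 1 / (x - α) - 1 / (1 - α) := by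
  have hc : ContinuousOn (fun u : ℝ => 1 / (u - α) ^ 2) (Icc x 1) := by
    refine ContinuousOn.div continuousOn_const (by fun_prop) ?_
    intro u hu
    have : u - α ≠ 0 := by
      have := hu.1
      intro h
      linarith
    positivity
  refine ⟨hc.integrableOn_Icc.mono_set Ioo_subset_Icc_self, ?_⟩
  rw [← integral_Ioc_eq_integral_Ioo, ← intervalIntegral.integral_of_le hx1.le]
  have h : ∀ u ∈ uIcc x 1, HasDerivAt (fun u : ℝ => -(1 / (u - α))) (1 / (u - α) ^ 2) u := by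
    intro u hu
    rw [uIcc_of_le hx1.le] at hu
    have h4 : u - α ≠ 0 := by
      have := hu.1
      intro h
      linarith
    have h2 := ((hasDerivAt_const u (1 : ℝ)).div ((hasDerivAt_id' u).sub_const α) h4).neg
    have e : -((0 * (u - α) - 1 * 1) / (u - α) ^ 2) = 1 / (u - α) ^ 2 := by
      ring
    rw [e] at h2
    exact h2
  rw [intervalIntegral.integral_eq_sub_of_hasDerivAt h]
  · ring
  · rw [intervalIntegrable_iff_integrableOn_Icc_of_le hx1.le]
    exact hc.integrableOn_Icc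

private theorem KL_self2 {α : ℝ} (h0 : 0 < α) (h1 : α < 1) : KL α α = 0 := by
  unfold KL
  have : 1 - α ≠ 0 := by linarith
  rw [div_self h0.ne', div_self this, Real.log_one]
  ring

private theorem ker2_int_u {α y r : ℝ} (h0 : 0 < α) (h1 : α < 1) (hr : 0 < r) :
    α * (1 - α) * ∫ u in Ioo (0 : ℝ) 1, ker2 α y u r = y * (Real.exp (-(y * r)) * nu α r) := by
  obtain ⟨a1, a2, a3⟩ := uL_spec h0 h1 hr
  obtain ⟨b1, b2, b3⟩ := uR_spec h0 h1 hr
  have hset : Ioo (0 : ℝ) 1 ∩ {u | r < KL α u} = Ioo 0 (uL α r) ∪ Ioo (uR α r) 1 := by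
    ext u
    simp only [mem_inter_iff, mem_Ioo, mem_setOf_eq, mem_union]
    constructor
    · rintro ⟨⟨p1, p2⟩, p3⟩
      rcases lt_trichotomy u α with h | h | h
      · exact Or.inl ⟨p1, (a3 u ⟨p1, h⟩).1 p3⟩
      · rw [h, KL_self2 h0 h1] at p3
        exact absurd p3 (not_lt.2 hr.le)
      · exact Or.inr ⟨(b3 u ⟨h, p2⟩).1 p3, p2⟩
    · rintro (⟨p1, p2⟩ | ⟨p1, p2⟩)
      · have h : u < α := p2.trans a1.2
        exact ⟨⟨p1, h.trans h1⟩, (a3 u ⟨p1, h⟩).2 p2⟩
      · have h : α < u := b1.1.trans p1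
        exact ⟨⟨h0.trans h, p2⟩, (b3 u ⟨h, p2⟩).2 p1⟩
  have hms : MeasurableSet {u : ℝ | r < KL α u} := measurableSet_lt measurable_const (KL_meas α)
  have e1 : ∀ u, ker2 α y u r = ({u : ℝ | r < KL α u}).indicator
      (fun u => y * Real.exp (-(y * r)) * (1 / (u - α) ^ 2)) u := by
    intro u
    unfold ker2 indicator
    simp only [mem_setOf_eq]
    split_ifs
    · ring
    · rfl
  have hdisj : Disjoint (Ioo 0 (uL α r)) (Ioo (uR α r) 1) := by
    rw [Set.disjoint_left]
    intro u h3 h4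
    have := h3.2
    have := h4.1
    have := a1.2
    have := b1.1
    linarith
  obtain ⟨i1, j1⟩ := int_left a1.1 a1.2
  obtain ⟨i2, j2⟩ := int_right b1.1 b1.2
  have e2 : ∫ u in Ioo (0 : ℝ) 1, ker2 α y u r =
      y * Real.exp (-(y * r)) * ((1 / (α - uL α r) - 1 / α) + (1 / (uR α r - α) - 1 / (1 - α))) := by
    simp only [e1]
    rw [setIntegral_indicator hms, hset, integral_const_mul,
      setIntegral_union hdisj measurableSet_Ioo i1 i2, j1, j2]
  rw [e2]
  unfold nu
  have x1 : α - uL α r ≠ 0 := by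
    have := a1.2
    intro h
    linarith
  have x2 : uR α r - α ≠ 0 := by
    have := b1.1
    intro h
    linarith
  have x3 : 1 - α ≠ 0 := by
    intro h
    linarith
  field_simp
  ring

theorem nu_int {α y : ℝ} (h0 : 0 < α) (h1 : α < 1) (hy : 0 < y)
    (hi : IntegrableOn (fun u : ℝ => (1 - Real.exp (-(y * KL α u))) / (u - α) ^ 2) (Ioo 0 1)) :
    IntegrableOn (fun r : ℝ => Real.exp (-(y * r)) * nu α r) (Ioi 0) ∧
    α * (1 - α) * ∫ u in Ioo (0 : ℝ) 1, (1 - Real.exp (-(y * KL α u))) / (u - α) ^ 2 =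
      y * ∫ r in Ioi (0 : ℝ), Real.exp (-(y * r)) * nu α r := by
  have hb : 0 < 1 - α := by linarith
  have hnn : ∀ u r, 0 ≤ ker2 α y u r := by
    intro u r
    unfold ker2
    split_ifs
    · positivity
    · exact le_rfl
  have hprod : Integrable (Function.uncurry (ker2 α y))
      ((volume.restrict (Ioo (0 : ℝ) 1)).prod (volume.restrict (Ioi (0 : ℝ)))) := by
    rw [integrable_prod_iff (ker2_meas α y).aestronglyMeasurable]
    refine ⟨Filter.Eventually.of_forall fun u => ker2_integrable_r, ?_⟩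
    have e : (fun u => ∫ r in Ioi (0 : ℝ), ‖Function.uncurry (ker2 α y) (u, r)‖) =
        fun u => ∫ r in Ioi (0 : ℝ), ker2 α y u r := by
      funext u
      congr 1
      funext r
      exact Real.norm_of_nonneg (hnn u r)
    rw [e]
    refine (integrable_congr ?_).1 hi
    filter_upwards [ae_restrict_mem measurableSet_Ioo] with u hu
    exact (ker2_int_r h0 h1 hu).symm
  have hswap := integral_integral_swap hprod
  have e1 : ∫ u in Ioo (0 : ℝ) 1, ∫ r in Ioi (0 : ℝ), ker2 α y u r =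
      ∫ u in Ioo (0 : ℝ) 1, (1 - Real.exp (-(y * KL α u))) / (u - α) ^ 2 :=
    setIntegral_congr_fun measurableSet_Ioo fun u hu => ker2_int_r h0 h1 hu
  have e2 : ∀ r ∈ Ioi (0 : ℝ), α * (1 - α) / y * ∫ u in Ioo (0 : ℝ) 1, ker2 α y u r =
      Real.exp (-(y * r)) * nu α r := by
    intro r hr
    have := ker2_int_u (y := y) h0 h1 hr
    rw [div_mul_eq_mul_div, this]
    field_simp
  have hR : Integrable (fun r => ∫ u in Ioo (0 : ℝ) 1, ker2 α y u r)
      (volume.restrict (Ioi (0 : ℝ))) := hprod.integral_prod_right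
  constructor
  · refine (integrable_congr ?_).1 (hR.const_mul (α * (1 - α) / y))
    filter_upwards [ae_restrict_mem measurableSet_Ioi] with r hr
    exact e2 r hr
  · rw [← e1, hswap, ← setIntegral_congr_fun measurableSet_Ioi e2, integral_const_mul]
    field_simp

end Pool.Agent.Lib.MP_8382de_an.ET
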