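import Pool.Agent.Lib.MP_8382de_an.ET.NAf
import Pool.Agent.Lib.MP_8382de_an.ET.NUb
import Pool.Agent.Lib.MP_8382de_an.ET.NSm

/-!
# ET.NFi: the factor `N`

Proof. `m = a+b`, `α = a/m ≥ 1/2` (as `b ≤ a`), `1-α = b/m`. Put `ν(t) = nu α (t/m)`, `κ = b/4`.
`smooth`: `hν1` from `nu_anti`, `hν2` from `nu_scale`, `hν3` from `nu_low` at `r = t/m`
(`4r/(1-α) = 4t/b = t/κ`), `hν4`: substitution `t = m r` in `nu_int` with `y → m y`; `nu_int` needs the
integrability of `(1-e^(-y KL))/(u-α)²` for real `y > 0`, which follows from the case `y = m k`, `k`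
large (`N_formula`), since `1-e^(-yK)` is increasing in `y` (choose `k ≥ y/m`; measurability clear).
Then for `k ≥ 1`: `N_formula` and `nu_int` (`y = mk`):
`Γ(ak+1)Γ(bk+1)/Γ(mk+1) = h^k (1 + mk ∫ e^(-mkr) nu α r dr) = h^k (1 + k ∫ e^(-kt) ν(t) dt)`,
`h = α^a (1-α)^b`. For `k = 0` both sides are `1` (`NN n 0 = 1`).
-/

set_option autoImplicit false

namespace Pool.Agent.Lib.MP_8382de_an.ET

open MeasureTheory Set

private theorem nfi_one_sub {a b : ℝ} (hab : 0 < a + b) : 1 - a / (a + b) = b / (a + b) := by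
  rw [eq_div_iff hab.ne', sub_mul, one_mul, div_mul_cancel₀ _ hab.ne']
  ring

private theorem nfi_int {a b y : ℝ} (ha : 0 < a) (hb : 0 < b) :
    IntegrableOn (fun u : ℝ => (1 - Real.exp (-(y * KL (a / (a + b)) u))) /
      (u - a / (a + b)) ^ 2) (Ioo 0 1) ∨ y ≤ 0 := by
  have hab : 0 < a + b := by linarith
  rcases le_or_gt y 0 with hy | hy
  · exact Or.inr hy
  left
  obtain ⟨k, hk⟩ := exists_nat_ge (y / (a + b))
  have hk1 : y ≤ (a + b) * ((k + 1 : ℕ) : ℝ) := by
    rw [div_le_iff₀ hab] at hk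
    push_cast
    nlinarith
  have hf := (N_formula ha hb (k := k + 1) (by omega)).1
  have hα0 : 0 < a / (a + b) := by positivity
  have hα1 : a / (a + b) < 1 := by rw [div_lt_one hab]; linarith
  refine Integrable.mono' hf ?_ ?_
  · refine Measurable.aestronglyMeasurable ?_
    unfold KL
    fun_prop
  · refine (ae_restrict_iff' measurableSet_Ioo).mpr (Filter.Eventually.of_forall fun u hu => ?_)
    have hK : 0 ≤ KL (a / (a + b)) u := KL_nonneg hα0 hα1 hu
    have h1 : Real.exp (-(y * KL (a / (a + b)) u)) ≤ 1 :=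
      Real.exp_le_one_iff.mpr (by have := mul_nonneg hy.le hK; linarith)
    have h2 : Real.exp (-((a + b) * ((k + 1 : ℕ) : ℝ) * KL (a / (a + b)) u)) ≤
        Real.exp (-(y * KL (a / (a + b)) u)) := by
      refine Real.exp_le_exp.mpr ?_
      have := mul_le_mul_of_nonneg_right hk1 hK
      linarith
    rw [Real.norm_of_nonneg (div_nonneg (by linarith) (sq_nonneg _))]
    exact div_le_div_of_nonneg_right (by linarith) (sq_nonneg _)

theorem N_rep {a b d : ℝ} (hb : 0 < b) (hba : b ≤ a) (hd : 0 < d) (hd2 : d ≤ 203 / 20000) :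
    ∃ n : ℝ → ℝ, Cls n ∧ ∃ h : ℝ, 0 < h ∧ ∀ k : ℕ,
      Real.Gamma (a * k + 1) * Real.Gamma (b * k + 1) / Real.Gamma ((a + b) * k + 1) *
        (1 + b * k / 4) ^ (-d) = h ^ k * NN n k := by
  have ha : 0 < a := lt_of_lt_of_le hb hba
  have hab : 0 < a + b := by linarith
  have hα0 : 0 < a / (a + b) := by positivity
  have hα1 : a / (a + b) < 1 := by rw [div_lt_one hab]; linarith
  have hα2 : 1 / 2 ≤ a / (a + b) := by rw [div_le_div_iff₀ (by norm_num) hab]; linarith
  have h1α : 1 - a / (a + b) = b / (a + b) := nfi_one_sub hab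
  have hkey : ∀ y : ℝ, 0 < y →
      IntegrableOn (fun r : ℝ => Real.exp (-(((a + b) * y) * r)) * nu (a / (a + b)) r) (Ioi 0) ∧
      a / (a + b) * (1 - a / (a + b)) * ∫ u in Ioo (0 : ℝ) 1,
        (1 - Real.exp (-(((a + b) * y) * KL (a / (a + b)) u))) / (u - a / (a + b)) ^ 2 =
      ((a + b) * y) * ∫ r in Ioi (0 : ℝ), Real.exp (-(((a + b) * y) * r)) * nu (a / (a + b)) r := by
    intro y hy
    have hy' : 0 < (a + b) * y := mul_pos hab hy
    refine nu_int hα0 hα1 hy' ?_
    rcases nfi_int (y := (a + b) * y) ha hb with h | h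
    · exact h
    · exact absurd hy' (not_lt.mpr h)
  have hinv : 0 < (a + b)⁻¹ := inv_pos.mpr hab
  have hsub : ∀ y t : ℝ, Real.exp (-(y * t)) * nu (a / (a + b)) (t / (a + b)) =
      (fun r : ℝ => Real.exp (-(((a + b) * y) * r)) * nu (a / (a + b)) r) ((a + b)⁻¹ * t) := by
    intro y t
    have h1 : (a + b) * y * ((a + b)⁻¹ * t) = y * t := by field_simp
    have h2 : t / (a + b) = (a + b)⁻¹ * t := by rw [div_eq_inv_mul]
    simp only [h1, h2]
  obtain ⟨n, hn, hn2⟩ := smooth (ν := fun t => nu (a / (a + b)) (t / (a + b))) (κ := b / 4) (d := d)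
    (by positivity) hd hd2
    (fun t ht => (nu_pos hα0 hα1 (div_pos ht hab)).le)
    (fun s hs t ht hst => nu_anti hα0 hα1 (div_pos hs hab) (div_pos ht hab)
      (div_le_div_of_nonneg_right hst hab.le))
    (fun t l ht hl => by
      have h := nu_scale hα0 hα1 (div_pos ht hab) hl
      rw [← mul_div_assoc] at h
      exact h)
    (fun t ht => by
      have h := nu_low hα2 hα1 (div_pos ht hab)
      rw [h1α] at h
      have h2 : 4 * (t / (a + b)) / (b / (a + b)) = t / (b / 4) := by field_simp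
      rw [h2] at h
      exact h)
    (fun y hy => by
      have h := (integrableOn_Ioi_comp_mul_left_iff
        (fun r : ℝ => Real.exp (-(((a + b) * y) * r)) * nu (a / (a + b)) r) 0 hinv).mpr
        (by rw [mul_zero]; exact (hkey y hy).1)
      refine h.congr_fun (fun t _ => ?_) measurableSet_Ioi
      exact (hsub y t).symm)
  refine ⟨n, hn, (a / (a + b)) ^ a * (b / (a + b)) ^ b, by positivity, fun k => ?_⟩
  rcases Nat.eq_zero_or_pos k with rfl | hk
  · simp [NN]
  · have hk0 : (0 : ℝ) < k := by exact_mod_cast hk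
    have hN := (N_formula ha hb hk).2
    have hI := (hkey k hk0).2
    rw [h1α] at hI
    have hS : (∫ t in Ioi (0 : ℝ), Real.exp (-((k : ℝ) * t)) * nu (a / (a + b)) (t / (a + b))) =
        (a + b) * ∫ r in Ioi (0 : ℝ), Real.exp (-(((a + b) * (k : ℝ)) * r)) *
          nu (a / (a + b)) r := by
      have h := integral_comp_mul_left_Ioi
        (fun r : ℝ => Real.exp (-(((a + b) * (k : ℝ)) * r)) * nu (a / (a + b)) r) 0 hinv
      rw [mul_zero, inv_inv, smul_eq_mul] at h
      rw [← h]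
      refine setIntegral_congr_fun measurableSet_Ioi fun t _ => ?_
      exact hsub k t
    have hn3 := hn2 k hk0
    rw [hS] at hn3
    rw [hN, hI, ← hn3]
    have h3 : b / 4 * (k : ℝ) = b * k / 4 := by ring
    rw [h3]
    ring

end Pool.Agent.Lib.MP_8382de_an.ET
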