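import Pool.Agent.Lib.MP_8382de_an.ET.Mo2

/-!
# ET.RLe: total mass by the Riemann-Lebesgue lemma

Let `κ = EE/t`, `L = ∫ κ`, `c = m+1+e`. `mod2`: `e^(2L) e^(-2 ∫ κ cos(wt) dt) = (m/c) Q(w)`,
`Q(w) = sinh(πcw)/(sinh(πmw) cosh(πw) cosh(πew))`. As `w → +∞`: `∫ κ(t) cos(wt) dt → 0`
(Riemann-Lebesgue, real part) and `Q(w) → 4` (write `sinh y = e^y (1-e^(-2y))/2`,
`cosh y = e^y (1+e^(-2y))/2`, exponents cancel as `c = m+1+e`). So
`e^(2L) = 4m/c`, that is `exp(-2L) = c/(4m)`; the second statement is `mod2` multiplied by `e^(-2L)`.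
-/

set_option autoImplicit false

namespace Pool.Agent.Lib.MP_8382de_an.ET

open MeasureTheory Set Filter Topology

/-- Riemann-Lebesgue for the cosine transform on the half line -/
theorem cos_tendsto {κ : ℝ → ℝ} (hκ : IntegrableOn κ (Ioi 0)) :
    Tendsto (fun w : ℝ => ∫ t in Ioi (0 : ℝ), κ t * Real.cos (w * t)) atTop (𝓝 0) := by
  set f : ℝ → ℂ := fun t => (((Ioi (0 : ℝ)).indicator κ t : ℝ) : ℂ) with hf
  have hfi : Integrable f := ((integrable_indicator_iff measurableSet_Ioi).2 hκ).ofReal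
  have h1 := (Real.tendsto_integral_exp_smul_cocompact f).mono_left atTop_le_cocompact
  have h2 : Tendsto (fun w : ℝ => w / (2 * Real.pi)) atTop atTop :=
    tendsto_id.atTop_div_const (by positivity)
  have h3 := (h1.comp h2)
  have h4 : Tendsto (fun w : ℝ => (∫ v : ℝ, Real.fourierChar (-(v * (w / (2 * Real.pi)))) • f v).re)
      atTop (𝓝 (0 : ℂ).re) := (Complex.continuous_re.tendsto _).comp h3
  rw [Complex.zero_re] at h4
  refine h4.congr fun w => ?_
  have h5 : ∀ v : ℝ, (Real.fourierChar (-(v * (w / (2 * Real.pi)))) • f v).re =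
      (Ioi (0 : ℝ)).indicator (fun t => κ t * Real.cos (w * t)) v := by
    intro v
    have hexp : ((Real.fourierChar (-(v * (w / (2 * Real.pi)))) : Circle) : ℂ) =
        Complex.exp (((-(w * v) : ℝ) : ℂ) * Complex.I) := by
      rw [Real.fourierChar_apply]
      congr 1
      push_cast
      have : (Real.pi : ℂ) ≠ 0 := by exact_mod_cast Real.pi_ne_zero
      field_simp
    rw [Circle.smul_def, hexp, smul_eq_mul, Complex.exp_mul_I, hf]
    simp only
    rw [← Complex.ofReal_cos, ← Complex.ofReal_sin]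
    by_cases hv : v ∈ Ioi (0 : ℝ)
    · rw [indicator_of_mem hv, indicator_of_mem hv]
      simp only [Complex.mul_re, Complex.add_re, Complex.add_im, Complex.mul_im,
        Complex.ofReal_re, Complex.ofReal_im, Complex.I_re, Complex.I_im, Real.cos_neg]
      ring
    · rw [indicator_of_notMem hv, indicator_of_notMem hv]
      simp
  have h6 : (∫ v : ℝ, Real.fourierChar (-(v * (w / (2 * Real.pi)))) • f v).re =
      ∫ v : ℝ, (Real.fourierChar (-(v * (w / (2 * Real.pi)))) • f v).re := by
    have h7 : Integrable (fun v : ℝ => Real.fourierChar (-(v * (w / (2 * Real.pi)))) • f v) := by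
      refine hfi.mono ?_ ?_
      · refine AEStronglyMeasurable.smul ?_ hfi.aestronglyMeasurable
        exact (Continuous.aestronglyMeasurable (by fun_prop))
      · refine Eventually.of_forall fun v => ?_
        rw [Circle.smul_def, norm_smul, Circle.norm_coe, one_mul]
    exact (Complex.reCLM.integral_comp_comm h7).symm
  rw [h6]
  simp only [h5]
  rw [integral_indicator measurableSet_Ioi]

theorem sinh_eq_exp (y : ℝ) : Real.sinh y = Real.exp y * (1 - Real.exp (-2 * y)) / 2 := by
  rw [Real.sinh_eq, mul_sub, mul_one, ← Real.exp_add]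
  congr 3
  ring

theorem cosh_eq_exp (y : ℝ) : Real.cosh y = Real.exp y * (1 + Real.exp (-2 * y)) / 2 := by
  rw [Real.cosh_eq, mul_add, mul_one, ← Real.exp_add]
  congr 3
  ring

theorem exp_lin_tendsto {a : ℝ} (ha : 0 < a) :
    Tendsto (fun w : ℝ => Real.exp (-2 * (a * w))) atTop (𝓝 0) := by
  have h1 : Tendsto (fun w : ℝ => 2 * a * w) atTop atTop :=
    tendsto_id.const_mul_atTop (by positivity)
  refine (Real.tendsto_exp_neg_atTop_nhds_zero.comp h1).congr fun w => ?_
  simp only [Function.comp_apply]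
  congr 1
  ring

theorem Q_tendsto {m e : ℝ} (hm : 0 < m) (he : 0 < e) :
    Tendsto (fun w : ℝ => Real.sinh (Real.pi * (m + 1 + e) * w) /
        (Real.sinh (Real.pi * m * w) * Real.cosh (Real.pi * w) * Real.cosh (Real.pi * e * w)))
      atTop (𝓝 4) := by
  have hpi := Real.pi_pos
  have hA := exp_lin_tendsto (a := Real.pi * (m + 1 + e)) (by positivity)
  have hB := exp_lin_tendsto (a := Real.pi * m) (by positivity)
  have hC := exp_lin_tendsto (a := Real.pi) hpi
  have hD := exp_lin_tendsto (a := Real.pi * e) (by positivity)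
  have h1 : Tendsto (fun w : ℝ => 4 * (1 - Real.exp (-2 * (Real.pi * (m + 1 + e) * w))) /
      ((1 - Real.exp (-2 * (Real.pi * m * w))) * (1 + Real.exp (-2 * (Real.pi * w))) *
        (1 + Real.exp (-2 * (Real.pi * e * w))))) atTop
      (𝓝 (4 * (1 - 0) / ((1 - 0) * (1 + 0) * (1 + 0)))) := by
    refine Tendsto.div ((tendsto_const_nhds.sub hA).const_mul 4)
      (((tendsto_const_nhds.sub hB).mul (tendsto_const_nhds.add hC)).mul
        (tendsto_const_nhds.add hD)) (by norm_num)
  norm_num at h1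
  refine (h1.congr' ?_)
  filter_upwards [eventually_gt_atTop (0 : ℝ)] with w hw
  rw [sinh_eq_exp, sinh_eq_exp, cosh_eq_exp, cosh_eq_exp]
  have e1 : Real.exp (Real.pi * (m + 1 + e) * w) =
      Real.exp (Real.pi * m * w) * Real.exp (Real.pi * w) * Real.exp (Real.pi * e * w) := by
    rw [← Real.exp_add, ← Real.exp_add]
    congr 1
    ring
  have hb : Real.exp (-2 * (Real.pi * m * w)) < 1 := by
    rw [Real.exp_lt_one_iff]
    have : 0 < Real.pi * m * w := by positivity
    linarith
  have hb' : 1 - Real.exp (-2 * (Real.pi * m * w)) ≠ 0 := by linarith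
  have p1 := Real.exp_pos (Real.pi * m * w)
  have p2 := Real.exp_pos (Real.pi * w)
  have p3 := Real.exp_pos (Real.pi * e * w)
  have p4 := Real.exp_pos (-2 * (Real.pi * w))
  have p5 := Real.exp_pos (-2 * (Real.pi * e * w))
  rw [e1]
  have q1 : (1 + Real.exp (-2 * (Real.pi * w))) ≠ 0 := by positivity
  have q2 : (1 + Real.exp (-2 * (Real.pi * e * w))) ≠ 0 := by positivity
  field_simp
  try ring

theorem one_sub_cos_integral {κ : ℝ → ℝ} (hκ : IntegrableOn κ (Ioi 0)) (w : ℝ) :
    ∫ t in Ioi (0 : ℝ), (1 - Real.cos (w * t)) * κ t =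
      (∫ t in Ioi (0 : ℝ), κ t) - ∫ t in Ioi (0 : ℝ), κ t * Real.cos (w * t) := by
  have h1 : IntegrableOn (fun t => κ t * Real.cos (w * t)) (Ioi 0) := by
    refine Integrable.mono hκ ?_ ?_
    · exact hκ.aestronglyMeasurable.mul (Continuous.aestronglyMeasurable (by fun_prop))
    · refine Eventually.of_forall fun t => ?_
      rw [norm_mul]
      refine mul_le_of_le_one_right (norm_nonneg _) ?_
      rw [Real.norm_eq_abs]
      exact Real.abs_cos_le_one _
  rw [← integral_sub hκ h1]
  congr 1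
  funext t
  ring

theorem mass_eq {m e : ℝ} (hm : 0 < m) (he : 0 < e) :
    Real.exp (-2 * ∫ t in Ioi (0 : ℝ), EE m e t / t) = (m + 1 + e) / (4 * m) := by
  have hint := EE_int hm he
  set L := ∫ t in Ioi (0 : ℝ), EE m e t / t with hL
  have h1 : Tendsto (fun w : ℝ => Real.exp (2 * (L -
      ∫ t in Ioi (0 : ℝ), EE m e t / t * Real.cos (w * t)))) atTop
      (𝓝 (Real.exp (2 * (L - 0)))) :=
    (Real.continuous_exp.tendsto _).comp ((tendsto_const_nhds.sub (cos_tendsto hint)).const_mul 2)
  have h2 := (Q_tendsto hm he).const_mul (m / (m + 1 + e))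
  have h3 : Real.exp (2 * (L - 0)) = m / (m + 1 + e) * 4 := by
    refine tendsto_nhds_unique h1 (h2.congr' ?_)
    filter_upwards [eventually_gt_atTop (0 : ℝ)] with w hw
    rw [← mod2 hm he hw.ne', one_sub_cos_integral hint]
  rw [sub_zero] at h3
  have h4 : Real.exp (-2 * L) = (Real.exp (2 * L))⁻¹ := by
    rw [← Real.exp_neg]
    congr 1
    ring
  rw [h4, h3]
  field_simp

theorem mod_cos {m e : ℝ} (hm : 0 < m) (he : 0 < e) {w : ℝ} (hw : w ≠ 0) :
    Real.exp (-2 * ∫ t in Ioi (0 : ℝ), EE m e t / t * Real.cos (w * t)) =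
      1 / 4 * (Real.sinh (Real.pi * (m + 1 + e) * w) /
        (Real.sinh (Real.pi * m * w) * Real.cosh (Real.pi * w) * Real.cosh (Real.pi * e * w))) := by
  have hint := EE_int hm he
  have h1 := mod2 hm he hw
  rw [one_sub_cos_integral hint] at h1
  have h2 := mass_eq hm he
  have h3 : Real.exp (-2 * ∫ t in Ioi (0 : ℝ), EE m e t / t * Real.cos (w * t)) =
      Real.exp (2 * ((∫ t in Ioi (0 : ℝ), EE m e t / t) -
        ∫ t in Ioi (0 : ℝ), EE m e t / t * Real.cos (w * t))) *
      Real.exp (-2 * ∫ t in Ioi (0 : ℝ), EE m e t / t) := by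
    rw [← Real.exp_add]
    congr 1
    ring
  rw [h3, h1, h2]
  have : m + 1 + e ≠ 0 := by positivity
  field_simp

end Pool.Agent.Lib.MP_8382de_an.ET
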