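import Pool.Agent.Lib.MP_8382de_an.ET.MEx

/-!
# ET.WHl: Wiener-Hopf lemma

If `κ ≥ 0` is integrable on `(0,∞)` and `1 - exp(-2 ∫ κ(t) cos(wt) dt)` is (for `w ≠ 0`) the
characteristic function of a finite (positive) measure `A`, then
`exp(-∫ κ(t) e^(-yt) dt) = 1 - ∫ e^(-yt) dρ` (`y ≥ 0`) with a finite positive measure `ρ` on `(0,∞)`.

Proof. Let `P, N` be from `mexp`, `U = P + N`, `Ǔ = U.map (-·)`, `K(z) = ∫ κ e^(-zt)`.
`charFun P w = cosh K(-iw)`, `charFun N w = sinh K(-iw)` (`z = -iw`, `Re z = 0`),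
`charFun Ǔ w = charFun U (-w) = exp(K(iw))`. Since `K(iw) + K(-iw) = 2 ∫ κ cos(wt)`, for `w ≠ 0`:
`charFun Ǔ w · (1 - charFun A w) = exp(K(iw) - K(iw) - K(-iw)) = exp(-K(-iw)) = charFun P w - charFun N w`.
So the finite measures `Ǔ + N` and `A ∗ Ǔ + P` have the same characteristic function at all `w ≠ 0`,
hence also at `0` by continuity (`continuous_charFun`), hence are equal (`Measure.ext_of_charFun`).
Restrict to `(0,∞)`, where `Ǔ` vanishes (`U` has no mass on `(-∞,0)`): with
`ρ := (A ∗ Ǔ).restrict (Ioi 0)`: `N.restrict (Ioi 0) = ρ + P.restrict (Ioi 0)`. For `y ≥ 0`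
(`mexp` at real `z = y`): `exp(-K(y)) = cosh K - sinh K = ∫ e^(-yt) dP - ∫ e^(-yt) dN
= P({0}) + ∫_{(0,∞)} e^(-yt) dP - ∫_{(0,∞)} e^(-yt) dN = 1 - ∫ e^(-yt) dρ`.
-/

set_option autoImplicit false

namespace Pool.Agent.Lib.MP_8382de_an.ET

open MeasureTheory Set

private theorem wh_cont (μ : Measure ℝ) [IsFiniteMeasure μ] : Continuous (charFun μ) := by
  have h : charFun μ = fun t : ℝ => ∫ x, Complex.exp (t * x * Complex.I) ∂μ := by
    funext t; exact charFun_apply_real t
  rw [h]
  refine continuous_of_dominated (bound := fun _ => (1 : ℝ)) ?_ ?_ (integrable_const _) ?_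
  · intro t
    exact Continuous.aestronglyMeasurable (by fun_prop)
  · intro t
    refine Filter.Eventually.of_forall fun x => ?_
    rw [show (t : ℂ) * x * Complex.I = ((t * x : ℝ) : ℂ) * Complex.I by push_cast; ring]
    rw [Complex.norm_exp_ofReal_mul_I]
  · exact Filter.Eventually.of_forall fun x => by fun_prop

private theorem wh_neg (μ : Measure ℝ) [IsFiniteMeasure μ] (w : ℝ) :
    charFun (μ.map (fun x => -x)) w = charFun μ (-w) := by
  rw [charFun_apply_real, charFun_apply_real, integral_map (by fun_prop)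
    (Continuous.aestronglyMeasurable (by fun_prop))]
  refine integral_congr_ae (Filter.Eventually.of_forall fun x => ?_)
  simp only
  congr 1
  push_cast
  ring

private theorem wh_add (μ ν : Measure ℝ) [IsFiniteMeasure μ] [IsFiniteMeasure ν] (w : ℝ) :
    charFun (μ + ν) w = charFun μ w + charFun ν w := by
  have hb : ∀ (ρ : Measure ℝ) [IsFiniteMeasure ρ],
      Integrable (fun x : ℝ => Complex.exp (w * x * Complex.I)) ρ := by
    intro ρ _
    refine Integrable.of_bound (C := 1) (Continuous.aestronglyMeasurable (by fun_prop)) ?_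
    refine Filter.Eventually.of_forall fun x => ?_
    rw [show (w : ℂ) * x * Complex.I = ((w * x : ℝ) : ℂ) * Complex.I by push_cast; ring]
    rw [Complex.norm_exp_ofReal_mul_I]
  rw [charFun_apply_real, charFun_apply_real, charFun_apply_real,
    integral_add_measure (hb μ) (hb ν)]

private theorem wh_int {f : ℝ → ℝ} (hf : Continuous f) (hf1 : ∀ t, 0 < t → |f t| ≤ 1)
    (μ : Measure ℝ) [IsFiniteMeasure μ] : IntegrableOn f (Ioi 0) μ := by
  refine Integrable.of_bound (C := 1) hf.aestronglyMeasurable ?_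
  refine (ae_restrict_mem measurableSet_Ioi).mono fun x hx => ?_
  rw [Real.norm_eq_abs]
  exact hf1 x hx

private theorem wh_K {κ : ℝ → ℝ} (y : ℝ) :
    (∫ t in Ioi (0 : ℝ), ((κ t : ℝ) : ℂ) * Complex.exp (-((y : ℂ) * (t : ℂ)))) =
      ((∫ t in Ioi (0 : ℝ), κ t * Real.exp (-(y * t)) : ℝ) : ℂ) := by
  rw [← integral_complex_ofReal]
  refine integral_congr_ae (Filter.Eventually.of_forall fun x => ?_)
  simp only
  push_cast
  rfl

private theorem wh_real (μ : Measure ℝ) (y : ℝ) :
    (∫ t, Complex.exp (-((y : ℂ) * (t : ℂ))) ∂μ) = ((∫ t, Real.exp (-(y * t)) ∂μ : ℝ) : ℂ) := by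
  rw [← integral_complex_ofReal]
  refine integral_congr_ae (Filter.Eventually.of_forall fun x => ?_)
  simp only
  push_cast
  rfl

theorem wh {κ : ℝ → ℝ} (hκ : ∀ t, 0 < t → 0 ≤ κ t) (hi : IntegrableOn κ (Ioi 0))
    {A : Measure ℝ} [IsFiniteMeasure A]
    (hA : ∀ w : ℝ, w ≠ 0 → charFun A w =
      ((1 - Real.exp (-2 * ∫ t in Ioi (0 : ℝ), κ t * Real.cos (w * t)) : ℝ) : ℂ)) :
    ∃ ρ : Measure ℝ, IsFiniteMeasure ρ ∧ ρ (Iic 0) = 0 ∧
      ∀ y : ℝ, 0 ≤ y → Real.exp (-∫ t in Ioi (0 : ℝ), κ t * Real.exp (-(y * t))) =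
        1 - ∫ t, Real.exp (-(y * t)) ∂ρ := by
  obtain ⟨P, N, hP, hN, hP0, hPn, hN0, hPi, hNi⟩ := mexp hκ hi
  have := hP
  have := hN
  set E : ℝ → ℂ := fun w => ∫ t in Ioi (0 : ℝ), ((κ t : ℝ) : ℂ) *
    Complex.exp (-((-((w : ℂ) * Complex.I)) * (t : ℂ))) with hE
  have hre : ∀ w : ℝ, 0 ≤ (-((w : ℂ) * Complex.I)).re := by
    intro w; simp
  have hcP : ∀ w : ℝ, charFun P w = Complex.cosh (E w) := by
    intro w
    rw [hE, ← hPi _ (hre w), charFun_apply_real]
    refine integral_congr_ae (Filter.Eventually.of_forall fun x => ?_)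
    simp only
    congr 1
    ring
  have hcN : ∀ w : ℝ, charFun N w = Complex.sinh (E w) := by
    intro w
    rw [hE, ← hNi _ (hre w), charFun_apply_real]
    refine integral_congr_ae (Filter.Eventually.of_forall fun x => ?_)
    simp only
    congr 1
    ring
  have hsum : ∀ w : ℝ, E w + E (-w) =
      ((2 * ∫ t in Ioi (0 : ℝ), κ t * Real.cos (w * t) : ℝ) : ℂ) := by
    intro w
    have hint : ∀ v : ℝ, Integrable (fun t : ℝ => ((κ t : ℝ) : ℂ) *
        Complex.exp (-((-((v : ℂ) * Complex.I)) * (t : ℂ)))) (volume.restrict (Ioi 0)) := by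
      intro v
      have h1 : Integrable (fun t : ℝ => ((κ t : ℝ) : ℂ)) (volume.restrict (Ioi 0)) := hi.ofReal
      refine h1.mul_bdd (c := 1) (Continuous.aestronglyMeasurable (by fun_prop)) ?_
      refine Filter.Eventually.of_forall fun x => ?_
      rw [show -((-((v : ℂ) * Complex.I)) * (x : ℂ)) = ((v * x : ℝ) : ℂ) * Complex.I by
        push_cast; ring]
      rw [Complex.norm_exp_ofReal_mul_I]
    rw [hE]
    simp only
    rw [← integral_add (hint w) (hint (-w)), ← integral_const_mul, ← integral_complex_ofReal]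
    refine integral_congr_ae (Filter.Eventually.of_forall fun x => ?_)
    simp only
    have h1 : -((-((w : ℂ) * Complex.I)) * (x : ℂ)) = ((w * x : ℝ) : ℂ) * Complex.I := by
      push_cast; ring
    have h2 : -((-(((-w : ℝ) : ℂ) * Complex.I)) * (x : ℂ)) = -(((w * x : ℝ) : ℂ)) * Complex.I := by
      push_cast; ring
    rw [h1, h2]
    push_cast
    rw [Complex.cos]
    ring
  set Un : Measure ℝ := (P + N).map (fun x => -x) with hUn
  have : IsFiniteMeasure Un := by rw [hUn]; infer_instance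
  have hcU : ∀ w : ℝ, charFun Un w = Complex.exp (E (-w)) := by
    intro w
    rw [hUn, wh_neg, wh_add, hcP, hcN, Complex.cosh_add_sinh]
  have hmeas : Un + N = A ∗ Un + P := by
    refine Measure.ext_of_charFun ?_
    have hne : ∀ w : ℝ, w ≠ 0 → charFun (Un + N) w = charFun (A ∗ Un + P) w := by
      intro w hw
      rw [wh_add, wh_add, charFun_conv, hcU, hcN, hcP, hA w hw]
      have h3 : ((1 - Real.exp (-2 * ∫ t in Ioi (0 : ℝ), κ t * Real.cos (w * t)) : ℝ) : ℂ) =
          1 - Complex.exp (-(E w + E (-w))) := by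
        rw [hsum w]
        push_cast
        congr 2
        ring
      rw [h3, sub_mul, ← Complex.exp_add]
      have h4 : -(E w + E (-w)) + E (-w) = -(E w) := by ring
      rw [h4, ← Complex.cosh_sub_sinh]
      ring
    have hc1 := wh_cont (Un + N)
    have hc2 := wh_cont (A ∗ Un + P)
    refine hc1.ext_on (s := {0}ᶜ) (dense_compl_singleton 0) hc2 ?_
    intro w hw
    exact hne w hw
  have hUn0 : Un (Ioi 0) = 0 := by
    rw [hUn, Measure.map_apply (by fun_prop) measurableSet_Ioi]
    have h5 : (fun x : ℝ => -x) ⁻¹' Ioi 0 = Iio 0 := by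
      ext x; simp
    rw [h5, Measure.add_apply, hPn, zero_add]
    exact measure_mono_null Iio_subset_Iic_self hN0
  have hres : N.restrict (Ioi 0) = (A ∗ Un).restrict (Ioi 0) + P.restrict (Ioi 0) := by
    have h6 := congrArg (fun μ : Measure ℝ => μ.restrict (Ioi 0)) hmeas
    simp only [Measure.restrict_add] at h6
    rw [Measure.restrict_eq_zero.2 hUn0, zero_add] at h6
    exact h6
  refine ⟨(A ∗ Un).restrict (Ioi 0), inferInstance, ?_, ?_⟩
  · rw [Measure.restrict_apply measurableSet_Iic]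
    have : Iic (0 : ℝ) ∩ Ioi 0 = ∅ := by
      ext x; simp
    rw [this, measure_empty]
  · intro y hy
    set f : ℝ → ℝ := fun t => Real.exp (-(y * t)) with hf
    have hfc : Continuous f := by rw [hf]; fun_prop
    have hf1 : ∀ t, 0 < t → |f t| ≤ 1 := by
      intro t ht
      rw [hf]
      simp only
      rw [abs_of_pos (Real.exp_pos _), Real.exp_le_one_iff]
      have := mul_nonneg hy ht.le
      linarith
    set K : ℝ := ∫ t in Ioi (0 : ℝ), κ t * Real.exp (-(y * t)) with hK
    have hPr : ∫ t, f t ∂P = Real.cosh K := by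
      have h7 := hPi (y : ℂ) (by simpa using hy)
      rw [wh_K, wh_real] at h7
      exact_mod_cast h7
    have hNr : ∫ t, f t ∂N = Real.sinh K := by
      have h7 := hNi (y : ℂ) (by simpa using hy)
      rw [wh_K, wh_real] at h7
      exact_mod_cast h7
    have hrP : P.restrict (Iic 0) = P.restrict {0} := by
      refine Measure.restrict_congr_set ?_
      have h8 : Iic (0 : ℝ) = Iio 0 ∪ {0} := by
        rw [Iio_union_right]
      rw [h8]
      refine union_ae_eq_right_of_ae_eq_empty ?_
      exact ae_eq_empty.2 hPn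
    have hP2 : ∫ t, f t ∂P = 1 + ∫ t in Ioi 0, f t ∂P := by
      have hI1 : IntegrableOn f (Iic 0) P := by
        rw [IntegrableOn, hrP]
        refine Integrable.of_bound (C := f 0) hfc.aestronglyMeasurable ?_
        refine (ae_restrict_mem (measurableSet_singleton 0)).mono fun x hx => ?_
        rw [mem_singleton_iff] at hx
        rw [hx, Real.norm_eq_abs, abs_of_pos (Real.exp_pos _)]
      have hI2 : IntegrableOn f (Ioi 0) P := wh_int hfc hf1 P
      have hIn : Integrable f P := by
        rw [← integrableOn_univ, ← Iic_union_Ioi (a := (0 : ℝ))]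
        exact hI1.union hI2
      rw [← setIntegral_univ, ← Iic_union_Ioi (a := (0 : ℝ)),
        setIntegral_union (by
          rw [Set.disjoint_left]; intro x hx hx2
          exact absurd (mem_Ioi.1 hx2) (not_lt.2 (mem_Iic.1 hx))) measurableSet_Ioi
          hI1 hI2, hrP]
      congr 1
      rw [integral_singleton]
      simp [Measure.real, hP0, hf]
    have hN2 : ∫ t, f t ∂N = ∫ t in Ioi 0, f t ∂N := by
      have h9 : N.restrict (Ioi 0) = N := by
        refine Measure.restrict_eq_self_of_ae_mem ?_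
        rw [ae_iff]
        refine measure_mono_null (fun x hx => ?_) hN0
        rw [mem_setOf_eq, mem_Ioi] at hx
        exact mem_Iic.2 (not_lt.1 hx)
      rw [h9]
    have hN3 : ∫ t in Ioi 0, f t ∂N = (∫ t, f t ∂((A ∗ Un).restrict (Ioi 0))) +
        ∫ t in Ioi 0, f t ∂P := by
      rw [hres]
      exact integral_add_measure (wh_int hfc hf1 _) (wh_int hfc hf1 _)
    have hexp : Real.exp (-K) = Real.cosh K - Real.sinh K := (Real.cosh_sub_sinh K).symm
    rw [hexp, ← hPr, ← hNr, hP2, hN2, hN3]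
    ring

end Pool.Agent.Lib.MP_8382de_an.ET
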