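import Pool.Agent.Lib.MP_8382de_an.ET.XCv
import Pool.Agent.Lib.MP_8382de_an.ET.RLe
import Pool.Agent.Lib.MP_8382de_an.ET.ARm
import Pool.Agent.Lib.MP_8382de_an.ET.WHl

/-!
# ET.RFi: the factor `R`

Proof. `κ = EE m e t/t ≥ 0` (`EE_nonneg`), integrable (`EE_int`), `A` from `A_meas`, and `hA` of `wh`
holds by `mod_cos`. So `exp(-∫ κ e^(-yt)) = 1 - ∫ e^(-yt) dρ`. At `y = 0`:
`ρ(ℝ) = 1 - e^(-L)`, `e^(-2L) = c/(4m)` (`mass_eq`), `c = m+1+e > m`, so `e^(-L) > 1/2`.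
For `k : ℕ`, `repC` at `z = k` (real; `Complex.Gamma_ofReal`, cast to `ℝ`):
`e^L exp(-∫ κ e^(-kt)) = exp ∫ (1-e^(-kt)) κ = e^(hk) Γ(1+mk) Γ(1+2k) Γ(1+2ek)/(Γ(1+k) Γ(1+ek) Γ(1+ck))`.
Duplication (`Real.Gamma_mul_Gamma_add_half`): `Γ(1+2s) = 2s Γ(2s)`,
`Γ(s+1/2) = 2^(1-2s) √π Γ(2s)/Γ(s)`, so `Γ(1+2s)/Γ(1+s) = 4^s Γ(s+1/2)/√π` for `s ≥ 0` (for `s = 0`:
`1 = Γ(1/2)/√π`), applied to `s = k` and `s = ek`. So
`Γ(mk+1) Γ(k+1/2) Γ(ek+1/2)/Γ(ck+1) = π e^L (e^(-h) 4^(-1-e))^k (1 - ∫ e^(-kt) dρ)`.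
-/

set_option autoImplicit false

namespace Pool.Agent.Lib.MP_8382de_an.ET

open MeasureTheory Set

/-- duplication formula in the form `Γ(1+2s) √π = 4^s Γ(s+1/2) Γ(1+s)` -/
theorem rFi_dup {s : ℝ} (hs : 0 ≤ s) :
    Real.Gamma (1 + 2 * s) * √Real.pi = 4 ^ s * Real.Gamma (s + 1 / 2) * Real.Gamma (1 + s) := by
  rcases hs.eq_or_lt with h | h
  · rw [← h, mul_zero, add_zero, zero_add, Real.rpow_zero, Real.Gamma_one, Real.Gamma_one_half_eq]
    ring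
  · have h1 := Real.Gamma_mul_Gamma_add_half s
    have e1 : Real.Gamma (1 + 2 * s) = 2 * s * Real.Gamma (2 * s) := by
      rw [add_comm, Real.Gamma_add_one (by positivity)]
    have e2 : Real.Gamma (1 + s) = s * Real.Gamma s := by
      rw [add_comm, Real.Gamma_add_one h.ne']
    have e3 : (2 : ℝ) ^ (1 - 2 * s) * 4 ^ s = 2 := by
      have e4 : (4 : ℝ) = 2 ^ (2 : ℝ) := by norm_num
      rw [e4, ← Real.rpow_mul (by norm_num), ← Real.rpow_add (by norm_num)]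
      have e5 : 1 - 2 * s + 2 * s = 1 := by ring
      rw [e5, Real.rpow_one]
    rw [e1, e2]
    calc 2 * s * Real.Gamma (2 * s) * √Real.pi
        = ((2 : ℝ) ^ (1 - 2 * s) * 4 ^ s) * s * Real.Gamma (2 * s) * √Real.pi := by rw [e3]
      _ = 4 ^ s * s * (Real.Gamma (2 * s) * (2 : ℝ) ^ (1 - 2 * s) * √Real.pi) := by ring
      _ = 4 ^ s * s * (Real.Gamma s * Real.Gamma (s + 1 / 2)) := by rw [h1]
      _ = _ := by ring

theorem rFi_rep {m e : ℝ} (hm : 0 < m) (he : 0 < e) : ∃ h : ℝ, ∀ k : ℕ,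
    Real.exp (∫ t in Ioi (0 : ℝ), (1 - Real.exp (-((k : ℝ) * t))) * (EE m e t / t)) =
      Real.exp (h * k) * (Real.Gamma (1 + m * k) * Real.Gamma (1 + 2 * k) *
        Real.Gamma (1 + 2 * e * k)) /
        (Real.Gamma (1 + k) * Real.Gamma (1 + e * k) * Real.Gamma (1 + (m + 1 + e) * k)) := by
  obtain ⟨h, hh⟩ := repC hm he
  refine ⟨h, fun k => ?_⟩
  have h1 := hh (k : ℂ) (by simp)
  rw [← Complex.ofReal_inj]
  have e1 : (∫ t in Ioi (0 : ℝ), (1 - Complex.exp (-((k : ℂ) * (t : ℂ)))) *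
      ((EE m e t / t : ℝ) : ℂ)) =
      ((∫ t in Ioi (0 : ℝ), (1 - Real.exp (-((k : ℝ) * t))) * (EE m e t / t) : ℝ) : ℂ) := by
    rw [← integral_complex_ofReal]
    refine integral_congr_ae (Filter.Eventually.of_forall fun t => ?_)
    push_cast
    rfl
  rw [e1] at h1
  have g1 : Complex.Gamma (1 + (m : ℂ) * (k : ℂ)) = ((Real.Gamma (1 + m * k) : ℝ) : ℂ) := by
    rw [← Complex.Gamma_ofReal]
    push_cast
    rfl
  have g2 : Complex.Gamma (1 + 2 * (k : ℂ)) = ((Real.Gamma (1 + 2 * k) : ℝ) : ℂ) := by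
    rw [← Complex.Gamma_ofReal]
    push_cast
    rfl
  have g3 : Complex.Gamma (1 + ((2 * e : ℝ) : ℂ) * (k : ℂ)) =
      ((Real.Gamma (1 + 2 * e * k) : ℝ) : ℂ) := by
    rw [← Complex.Gamma_ofReal]
    push_cast
    rfl
  have g4 : Complex.Gamma (1 + (k : ℂ)) = ((Real.Gamma (1 + k) : ℝ) : ℂ) := by
    rw [← Complex.Gamma_ofReal]
    push_cast
    rfl
  have g5 : Complex.Gamma (1 + (e : ℂ) * (k : ℂ)) = ((Real.Gamma (1 + e * k) : ℝ) : ℂ) := by
    rw [← Complex.Gamma_ofReal]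
    push_cast
    rfl
  have g6 : Complex.Gamma (1 + ((m + 1 + e : ℝ) : ℂ) * (k : ℂ)) =
      ((Real.Gamma (1 + (m + 1 + e) * k) : ℝ) : ℂ) := by
    rw [← Complex.Gamma_ofReal]
    push_cast
    rfl
  rw [g1, g2, g3, g4, g5, g6] at h1
  rw [Complex.ofReal_exp, h1]
  push_cast
  rfl

theorem R_rep {m e : ℝ} (hm : 1 ≤ m) (he : 0 < e) (hem : e ≤ m + 1) :
    ∃ ρ : Measure ℝ, IsFiniteMeasure ρ ∧ ρ (Iic 0) = 0 ∧ ρ.real univ < 1 / 2 ∧
      ∃ C h : ℝ, 0 < C ∧ 0 < h ∧ ∀ k : ℕ,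
        Real.Gamma (m * k + 1) * Real.Gamma (k + 1 / 2) * Real.Gamma (e * k + 1 / 2) /
          Real.Gamma ((m + 1 + e) * k + 1) =
        C * h ^ k * (1 - ∫ t, Real.exp (-((k : ℝ) * t)) ∂ρ) := by
  have hm0 : 0 < m := by linarith
  have hκ : ∀ t, 0 < t → 0 ≤ EE m e t / t := fun t ht =>
    div_nonneg (EE_nonneg hm he hem ht) ht.le
  have hi := EE_int hm0 he
  obtain ⟨A, hAf, hA⟩ := A_meas hm he hem
  obtain ⟨ρ, hρf, hρ0, hρ⟩ := wh hκ hi (A := A) (fun w hw => by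
    rw [hA w hw, mod_cos hm0 he hw])
  obtain ⟨h', hrep⟩ := rFi_rep hm0 he
  obtain ⟨L, hL⟩ : ∃ L, L = ∫ t in Ioi (0 : ℝ), EE m e t / t := ⟨_, rfl⟩
  have hmass := mass_eq hm0 he
  rw [← hL] at hmass
  have h0 := hρ 0 le_rfl
  have e0 : (∫ t in Ioi (0 : ℝ), EE m e t / t * Real.exp (-(0 * t))) = L := by
    rw [hL]
    refine integral_congr_ae (Filter.Eventually.of_forall fun t => ?_)
    simp
  have e1 : (∫ t, Real.exp (-(0 * t)) ∂ρ) = ρ.real univ := by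
    simp
  rw [e0, e1] at h0
  have hhalf : 1 / 2 < Real.exp (-L) := by
    have h1 : Real.exp (-L) * Real.exp (-L) = (m + 1 + e) / (4 * m) := by
      rw [← hmass, ← Real.exp_add]
      congr 1
      ring
    have h2 : 1 / 4 < (m + 1 + e) / (4 * m) := by
      rw [div_lt_div_iff₀ (by norm_num) (by positivity)]
      linarith
    nlinarith [Real.exp_pos (-L)]
  refine ⟨ρ, hρf, hρ0, by linarith, Real.pi * Real.exp L,
    Real.exp (-h') * (4 : ℝ) ^ (-1 - e), by positivity, by positivity, fun k => ?_⟩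
  have hk : (0 : ℝ) ≤ k := by positivity
  have h1 := hrep k
  have h2 := hρ k hk
  have hiexp : IntegrableOn (fun t : ℝ => EE m e t / t * Real.exp (-((k : ℝ) * t))) (Ioi 0) := by
    refine Integrable.mono' hi ?_ ?_
    · exact hi.aestronglyMeasurable.mul (by fun_prop)
    · refine (ae_restrict_iff' measurableSet_Ioi).mpr (Filter.Eventually.of_forall fun t ht => ?_)
      have ht' : (0 : ℝ) < t := ht
      have h3 := hκ t ht'
      rw [Real.norm_eq_abs, abs_mul, abs_of_nonneg h3, abs_of_pos (Real.exp_pos _)]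
      have h4 : Real.exp (-((k : ℝ) * t)) ≤ 1 := by
        rw [Real.exp_le_one_iff]
        have := mul_nonneg hk ht'.le
        linarith
      nlinarith
  have e2 : (∫ t in Ioi (0 : ℝ), (1 - Real.exp (-((k : ℝ) * t))) * (EE m e t / t)) =
      L + -∫ t in Ioi (0 : ℝ), EE m e t / t * Real.exp (-((k : ℝ) * t)) := by
    rw [hL, ← sub_eq_add_neg, ← integral_sub hi hiexp]
    refine integral_congr_ae (Filter.Eventually.of_forall fun t => ?_)
    simp only []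
    ring
  rw [e2, Real.exp_add, h2] at h1
  have d1 := rFi_dup hk
  have d2 := rFi_dup (s := e * k) (by positivity)
  have p1 : 0 < Real.Gamma (1 + (k : ℝ)) := Real.Gamma_pos_of_pos (by positivity)
  have p2 : 0 < Real.Gamma (1 + e * k) := Real.Gamma_pos_of_pos (by positivity)
  have p3 : 0 < Real.Gamma (1 + (m + 1 + e) * k) := Real.Gamma_pos_of_pos (by positivity)
  have hpi : √Real.pi * √Real.pi = Real.pi := Real.mul_self_sqrt Real.pi_pos.le
  have c1 : m * (k : ℝ) + 1 = 1 + m * k := by ring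
  have c2 : (m + 1 + e) * (k : ℝ) + 1 = 1 + (m + 1 + e) * k := by ring
  have c3 : 1 + 2 * (e * (k : ℝ)) = 1 + 2 * e * k := by ring
  rw [c1, c2]
  rw [c3] at d2
  have hpow : (Real.exp (-h') * (4 : ℝ) ^ (-1 - e)) ^ k * (Real.exp (h' * k) * 4 ^ (k : ℝ) *
      4 ^ (e * k)) = 1 := by
    rw [mul_pow, ← Real.exp_nat_mul, ← Real.rpow_mul_natCast (by norm_num)]
    calc Real.exp (↑k * -h') * 4 ^ ((-1 - e) * ↑k) * (Real.exp (h' * ↑k) * 4 ^ (k : ℝ) *
          4 ^ (e * k))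
        = (Real.exp (↑k * -h') * Real.exp (h' * ↑k)) *
          (4 ^ ((-1 - e) * ↑k) * 4 ^ (k : ℝ) * 4 ^ (e * k)) := by ring
      _ = 1 := by
          rw [← Real.exp_add, ← Real.rpow_add (by norm_num), ← Real.rpow_add (by norm_num)]
          have z1 : (k : ℝ) * -h' + h' * k = 0 := by ring
          have z2 : (-1 - e) * (k : ℝ) + k + e * k = 0 := by ring
          rw [z1, z2, Real.exp_zero, Real.rpow_zero, one_mul]
  have key : Real.exp L * (1 - ∫ t, Real.exp (-((k : ℝ) * t)) ∂ρ) * Real.pi =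
      (Real.exp (h' * k) * 4 ^ (k : ℝ) * 4 ^ (e * k)) * (Real.Gamma (1 + m * k) *
        Real.Gamma (k + 1 / 2) * Real.Gamma (e * k + 1 / 2) /
        Real.Gamma (1 + (m + 1 + e) * k)) := by
    rw [h1, ← hpi]
    have f1 : Real.exp (h' * k) * (Real.Gamma (1 + m * k) * Real.Gamma (1 + 2 * k) *
        Real.Gamma (1 + 2 * e * k)) / (Real.Gamma (1 + k) * Real.Gamma (1 + e * k) *
        Real.Gamma (1 + (m + 1 + e) * k)) * (√Real.pi * √Real.pi) =
        Real.exp (h' * k) * Real.Gamma (1 + m * k) * (Real.Gamma (1 + 2 * k) * √Real.pi) *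
        (Real.Gamma (1 + 2 * e * k) * √Real.pi) / (Real.Gamma (1 + k) * Real.Gamma (1 + e * k) *
        Real.Gamma (1 + (m + 1 + e) * k)) := by ring
    rw [f1, d1, d2]
    field_simp
  calc Real.Gamma (1 + m * k) * Real.Gamma (k + 1 / 2) * Real.Gamma (e * k + 1 / 2) /
        Real.Gamma (1 + (m + 1 + e) * k)
      = ((Real.exp (-h') * (4 : ℝ) ^ (-1 - e)) ^ k * (Real.exp (h' * k) * 4 ^ (k : ℝ) *
        4 ^ (e * k))) * (Real.Gamma (1 + m * k) *
        Real.Gamma (k + 1 / 2) * Real.Gamma (e * k + 1 / 2) /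
        Real.Gamma (1 + (m + 1 + e) * k)) := by rw [hpow, one_mul]
    _ = (Real.exp (-h') * (4 : ℝ) ^ (-1 - e)) ^ k * ((Real.exp (h' * k) * 4 ^ (k : ℝ) *
        4 ^ (e * k)) * (Real.Gamma (1 + m * k) *
        Real.Gamma (k + 1 / 2) * Real.Gamma (e * k + 1 / 2) /
        Real.Gamma (1 + (m + 1 + e) * k))) := by ring
    _ = _ := by
        rw [← key]
        ring

end Pool.Agent.Lib.MP_8382de_an.ET
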