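import Pool.Agent.Lib.MP_8382de_an.ET.Mal
import Pool.Agent.Lib.MP_8382de_an.ET.MEx

/-!
# ET.ZRe: the factor `Z`

Proof. Let `Y(v) = (1-e^(-dv))/(e^v-1)` and `κ(t) = (Y(t/c) - d e^(-4t/b))/t`.
* `κ ≥ 0`: `1-e^(-dv) ≥ d(1-e^(-v))` for `0 ≤ d ≤ 1`, `v ≥ 0` (concavity of `d ↦ 1-e^(-dv)`, or convexity
  of `exp`), so `Y(v) ≥ d (1-e^(-v))/(e^v-1) = d e^(-v)`; and `e^(-t/c) ≥ e^(-4t/b)` as `b/4 ≤ c`.
* (G) For `x > 0` (also `x ≥ 0`): `malmsten` at `x+d`, `x`, `d`: the `e^(-t)` terms cancel and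
  `-(1-e^(-(x+d)t)) + (1-e^(-xt)) + (1-e^(-dt)) = (1-e^(-xt))(1-e^(-dt))`, so
  `log( Γ(1+x+d)/(Γ(1+x)Γ(1+d)) ) = ∫_0^∞ (1-e^(-xt)) Y(t) dt/t`. With `x = ck` and `t → t/c`:
  `= ∫ (1-e^(-kt)) Y(t/c) dt/t`.
* (F) `frullani` with `4/b`, `k+4/b`: `d log(1+bk/4) = ∫ (1-e^(-kt)) d e^(-4t/b) dt/t`.
* `κ` is integrable: `κ = (Y(t/c) - d e^(-t/c))/t + d (e^(-t/c) - e^(-4t/b))/t`; the second by
  `frullani`, integral `d log(4c/b)`; the first is between `0` and `(d/c) e^(-t/c)`: with `v = t/c`,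
  `Y(v) ≤ dv/(e^v-1) ≤ d(1+v)e^(-v)` (`v e^v ≤ (1+v)(e^v-1)` iff `1+v ≤ e^v`), so
  `(Y(v)-d e^(-v))/v ≤ d e^(-v)`, integral `≤ d`. So `L = ∫ κ ≤ d (1 + log(4c/b))`.
* Hence `(1+bk/4)^d Γ(ck+1)/Γ(ck+d+1) = (1/Γ(1+d)) exp(-∫ (1-e^(-kt)) κ)
  = (e^(-L)/Γ(1+d)) exp(∫ κ e^(-kt)) = C (1 + ∫ e^(-kt) dζ)` with `ζ` from `mexp_pos`;
  `ζ(ℝ) = e^L - 1` (`y = 0`).
-/

set_option autoImplicit false

namespace Pool.Agent.Lib.MP_8382de_an.ET

open MeasureTheory Set

private noncomputable def yf (d v : ℝ) : ℝ := (1 - Real.exp (-(d * v))) / (Real.exp v - 1)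

private theorem exp_sub_one_pos {v : ℝ} (hv : 0 < v) : 0 < Real.exp v - 1 := by
  have := Real.one_lt_exp_iff.mpr hv
  linarith

private theorem yf_ge {d v : ℝ} (hd : 0 ≤ d) (hd1 : d ≤ 1) (hv : 0 < v) :
    d * Real.exp (-v) ≤ yf d v := by
  unfold yf
  rw [le_div_iff₀ (exp_sub_one_pos hv)]
  have h1 := convexOn_exp.2 (mem_univ (-v)) (mem_univ 0) hd (sub_nonneg.mpr hd1)
    (by ring : d + (1 - d) = 1)
  simp only [smul_eq_mul, mul_zero, add_zero, Real.exp_zero, mul_one] at h1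
  have h2 : d * -v = -(d * v) := by ring
  rw [h2] at h1
  have h3 : Real.exp (-v) * Real.exp v = 1 := by rw [← Real.exp_add]; simp
  have h4 : d * Real.exp (-v) * (Real.exp v - 1) = d * (Real.exp (-v) * Real.exp v) - d * Real.exp (-v) := by
    ring
  rw [h4, h3]
  linarith

private theorem yf_le {d v : ℝ} (hd : 0 ≤ d) (hv : 0 < v) :
    yf d v ≤ d * (1 + v) * Real.exp (-v) := by
  unfold yf
  rw [div_le_iff₀ (exp_sub_one_pos hv)]
  have h1 : 1 - d * v ≤ Real.exp (-(d * v)) := by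
    have := Real.add_one_le_exp (-(d * v)); linarith
  have h2 : (1 + v) * Real.exp (-v) ≤ 1 := by
    have h := Real.add_one_le_exp v
    have h' := Real.exp_pos (-v)
    have h3 : Real.exp v * Real.exp (-v) = 1 := by rw [← Real.exp_add]; simp
    nlinarith
  have h3 : Real.exp (-v) * Real.exp v = 1 := by rw [← Real.exp_add]; simp
  have h4 : d * (1 + v) * Real.exp (-v) * (Real.exp v - 1) =
      d * ((1 + v) * (Real.exp (-v) * Real.exp v) - (1 + v) * Real.exp (-v)) := by ring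
  rw [h4, h3]
  nlinarith

/-- (G) on the line `t` -/
private theorem gam {x d : ℝ} (hx : 0 ≤ x) (hd : 0 < d) :
    IntegrableOn (fun t : ℝ => (1 - Real.exp (-(x * t))) * yf d t / t) (Ioi 0) ∧
    ∫ t in Ioi (0 : ℝ), (1 - Real.exp (-(x * t))) * yf d t / t =
      Real.log (Real.Gamma (1 + (x + d))) - Real.log (Real.Gamma (1 + x)) -
        Real.log (Real.Gamma (1 + d)) := by
  obtain ⟨i1, e1⟩ := malmsten (x := x + d) (by linarith)
  obtain ⟨i2, e2⟩ := malmsten (x := x) (by linarith)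
  obtain ⟨i3, e3⟩ := malmsten (x := d) (by linarith)
  have key : ∀ t ∈ Ioi (0 : ℝ), (1 - Real.exp (-(x * t))) * yf d t / t =
      ((x + d) * Real.exp (-t) - (1 - Real.exp (-((x + d) * t))) / (Real.exp t - 1)) / t -
      (x * Real.exp (-t) - (1 - Real.exp (-(x * t))) / (Real.exp t - 1)) / t -
      (d * Real.exp (-t) - (1 - Real.exp (-(d * t))) / (Real.exp t - 1)) / t := by
    intro t ht
    have h1 : Real.exp (-((x + d) * t)) = Real.exp (-(x * t)) * Real.exp (-(d * t)) := by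
      rw [← Real.exp_add]; congr 1; ring
    unfold yf
    rw [h1]
    have h2 := (exp_sub_one_pos (mem_Ioi.mp ht)).ne'
    have h3 := (mem_Ioi.mp ht).ne'
    field_simp
    ring
  refine ⟨((i1.sub i2).sub i3).congr_fun (fun t ht => (key t ht).symm) measurableSet_Ioi, ?_⟩
  rw [setIntegral_congr_fun measurableSet_Ioi key, e1, e2, e3]
  refine (integral_sub (i1.sub i2) i3).trans ?_
  exact congrArg (fun y => y - _) (integral_sub i1 i2)

/-- (G) scaled -/
private theorem gam_scaled {c d : ℝ} (hc : 0 < c) (hd : 0 < d) (k : ℕ) :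
    IntegrableOn (fun t : ℝ => (1 - Real.exp (-((k : ℝ) * t))) * yf d (t / c) / t) (Ioi 0) ∧
    ∫ t in Ioi (0 : ℝ), (1 - Real.exp (-((k : ℝ) * t))) * yf d (t / c) / t =
      Real.log (Real.Gamma (1 + (c * k + d))) - Real.log (Real.Gamma (1 + c * k)) -
        Real.log (Real.Gamma (1 + d)) := by
  obtain ⟨i1, e1⟩ := gam (x := c * k) (by positivity) hd
  have hc' : 0 < c⁻¹ := inv_pos.mpr hc
  have key : ∀ t ∈ Ioi (0 : ℝ), (1 - Real.exp (-((k : ℝ) * t))) * yf d (t / c) / t =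
      c⁻¹ * ((1 - Real.exp (-(c * k * (c⁻¹ * t)))) * yf d (c⁻¹ * t) / (c⁻¹ * t)) := by
    intro t ht
    have h3 := (mem_Ioi.mp ht).ne'
    have h1 : c * k * (c⁻¹ * t) = k * t := by field_simp
    have h2 : c⁻¹ * t = t / c := by field_simp
    rw [h1, h2]
    field_simp
  have i2 : IntegrableOn (fun t : ℝ => (1 - Real.exp (-(c * k * (c⁻¹ * t)))) * yf d (c⁻¹ * t) /
      (c⁻¹ * t)) (Ioi 0) := by
    have := (integrableOn_Ioi_comp_mul_left_iff (fun t : ℝ => (1 - Real.exp (-(c * k * t))) *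
      yf d t / t) 0 hc').mpr (by rw [mul_zero]; exact i1)
    exact this
  refine ⟨IntegrableOn.congr_fun (i2.const_mul c⁻¹) (fun t ht => (key t ht).symm)
    measurableSet_Ioi, ?_⟩
  rw [setIntegral_congr_fun measurableSet_Ioi key, integral_const_mul,
    integral_comp_mul_left_Ioi (fun t : ℝ => (1 - Real.exp (-(c * k * t))) * yf d t / t) 0 hc',
    mul_zero, inv_inv, smul_eq_mul, ← mul_assoc, inv_mul_cancel₀ hc.ne', one_mul, e1]

private noncomputable def kp (b c d t : ℝ) : ℝ := (yf d (t / c) - d * Real.exp (-(4 / b * t))) / t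

private theorem kp_nonneg {b c d : ℝ} (hb : 0 < b) (hbc : b / 4 ≤ c) (hd : 0 < d) (hd1 : d ≤ 1)
    (t : ℝ) (ht : 0 < t) : 0 ≤ kp b c d t := by
  have hc : 0 < c := by linarith
  refine div_nonneg ?_ ht.le
  have h1 := yf_ge hd.le hd1 (div_pos ht hc)
  have h2 : Real.exp (-(4 / b * t)) ≤ Real.exp (-(t / c)) := by
    apply Real.exp_le_exp.mpr
    have h3 : t / c ≤ 4 / b * t := by
      rw [div_mul_eq_mul_div, div_le_div_iff₀ hc hb]
      nlinarith
    linarith
  have h3 := mul_le_mul_of_nonneg_left h2 hd.le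
  linarith

private theorem kp1 {c d : ℝ} (hc : 0 < c) (hd : 0 < d) (hd1 : d ≤ 1) :
    IntegrableOn (fun t : ℝ => (yf d (t / c) - d * Real.exp (-(t / c))) / t) (Ioi 0) ∧
    ∫ t in Ioi (0 : ℝ), (yf d (t / c) - d * Real.exp (-(t / c))) / t ≤ d := by
  have hneg : -c⁻¹ < 0 := by have := inv_pos.mpr hc; linarith
  have i1 := (integrableOn_exp_mul_Ioi hneg 0).const_mul (d / c)
  have hb : ∀ t ∈ Ioi (0 : ℝ), 0 ≤ (yf d (t / c) - d * Real.exp (-(t / c))) / t ∧
      (yf d (t / c) - d * Real.exp (-(t / c))) / t ≤ d / c * Real.exp (-c⁻¹ * t) := by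
    intro t ht
    have ht' := mem_Ioi.mp ht
    have h1 := yf_ge hd.le hd1 (div_pos ht' hc)
    have h2 := yf_le hd.le (div_pos ht' hc)
    constructor
    · exact div_nonneg (by linarith) ht'.le
    · rw [div_le_iff₀ ht']
      have h3 : -c⁻¹ * t = -(t / c) := by field_simp
      rw [h3]
      have h4 : d / c * Real.exp (-(t / c)) * t = d * (t / c) * Real.exp (-(t / c)) := by
        field_simp
      rw [h4]
      nlinarith
  have i2 : IntegrableOn (fun t : ℝ => (yf d (t / c) - d * Real.exp (-(t / c))) / t) (Ioi 0) := by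
    refine i1.mono' ?_ ?_
    · refine ContinuousOn.aestronglyMeasurable ?_ measurableSet_Ioi
      unfold yf
      refine ContinuousOn.div (ContinuousOn.sub (ContinuousOn.div ?_ ?_ ?_) ?_) continuousOn_id ?_
      · fun_prop
      · fun_prop
      · intro t ht
        exact (exp_sub_one_pos (div_pos (mem_Ioi.mp ht) hc)).ne'
      · fun_prop
      · intro t ht
        exact (mem_Ioi.mp ht).ne'
    · refine (ae_restrict_iff' measurableSet_Ioi).mpr (Filter.Eventually.of_forall fun t ht => ?_)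
      rw [Real.norm_eq_abs, abs_of_nonneg (hb t ht).1]
      exact (hb t ht).2
  refine ⟨i2, (setIntegral_mono_on i2 i1 measurableSet_Ioi fun t ht => (hb t ht).2).trans ?_⟩
  rw [integral_const_mul, integral_exp_mul_Ioi hneg 0]
  simp only [mul_zero, Real.exp_zero]
  have hc' := hc.ne'
  apply le_of_eq
  field_simp

private theorem kp_int {b c d : ℝ} (hb : 0 < b) (hbc : b / 4 ≤ c) (hd : 0 < d) (hd1 : d ≤ 1) :
    IntegrableOn (kp b c d) (Ioi 0) ∧
    ∫ t in Ioi (0 : ℝ), kp b c d t ≤ d * (1 + Real.log (4 * c / b)) := by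
  have hc : 0 < c := by linarith
  obtain ⟨i1, e1⟩ := kp1 hc hd hd1
  obtain ⟨i2, e2⟩ := frullani (inv_pos.mpr hc) (by positivity : 0 < 4 / b)
  have key : ∀ t ∈ Ioi (0 : ℝ), kp b c d t = (yf d (t / c) - d * Real.exp (-(t / c))) / t +
      d * ((Real.exp (-(c⁻¹ * t)) - Real.exp (-(4 / b * t))) / t) := by
    intro t ht
    have h1 : c⁻¹ * t = t / c := by field_simp
    unfold kp
    rw [h1]
    ring
  refine ⟨(i1.add (i2.const_mul d)).congr_fun (fun t ht => (key t ht).symm) measurableSet_Ioi, ?_⟩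
  rw [setIntegral_congr_fun measurableSet_Ioi key, integral_add i1 (i2.const_mul d),
    integral_const_mul, e2]
  have h1 : 4 / b / c⁻¹ = 4 * c / b := by field_simp
  rw [h1]
  linarith

private theorem kp_formula {b c d : ℝ} (hb : 0 < b) (hbc : b / 4 ≤ c) (hd : 0 < d) (hd1 : d ≤ 1)
    (k : ℕ) :
    ∫ t in Ioi (0 : ℝ), kp b c d t * Real.exp (-((k : ℝ) * t)) =
      (∫ t in Ioi (0 : ℝ), kp b c d t) -
      (Real.log (Real.Gamma (1 + (c * k + d))) - Real.log (Real.Gamma (1 + c * k)) -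
        Real.log (Real.Gamma (1 + d))) + d * Real.log (1 + b * k / 4) := by
  have hc : 0 < c := by linarith
  obtain ⟨i0, _⟩ := kp_int hb hbc hd hd1
  obtain ⟨i1, e1⟩ := gam_scaled hc hd k
  have hk0 : (0 : ℝ) ≤ k := Nat.cast_nonneg k
  obtain ⟨i2, e2⟩ := frullani (by positivity : 0 < 4 / b) (by positivity : 0 < (k : ℝ) + 4 / b)
  have key : ∀ t ∈ Ioi (0 : ℝ), kp b c d t * Real.exp (-((k : ℝ) * t)) = kp b c d t -
      (1 - Real.exp (-((k : ℝ) * t))) * yf d (t / c) / t +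
      d * ((Real.exp (-(4 / b * t)) - Real.exp (-(((k : ℝ) + 4 / b) * t))) / t) := by
    intro t ht
    have h1 : Real.exp (-(((k : ℝ) + 4 / b) * t)) = Real.exp (-((k : ℝ) * t)) * Real.exp (-(4 / b * t)) := by
      rw [← Real.exp_add]; congr 1; ring
    unfold kp
    rw [h1]
    ring
  have h1 : ((k : ℝ) + 4 / b) / (4 / b) = 1 + b * k / 4 := by field_simp; ring
  rw [← e1, ← h1, ← e2, ← integral_const_mul, setIntegral_congr_fun measurableSet_Ioi key]
  refine (integral_add (i0.sub i1) (i2.const_mul d)).trans ?_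
  exact congrArg (fun y => y + _) (integral_sub i0 i1)

theorem Z_rep {b c d : ℝ} (hb : 0 < b) (hbc : b / 4 ≤ c) (hd : 0 < d) (hd1 : d ≤ 1) :
    ∃ ζ : Measure ℝ, IsFiniteMeasure ζ ∧ ζ (Iic 0) = 0 ∧
      ζ.real univ ≤ Real.exp (d * (1 + Real.log (4 * c / b))) - 1 ∧
      ∃ C : ℝ, 0 < C ∧ ∀ k : ℕ,
        (1 + b * k / 4) ^ d * Real.Gamma (c * k + 1) / Real.Gamma (c * k + d + 1) =
        C * (1 + ∫ t, Real.exp (-((k : ℝ) * t)) ∂ζ) := by
  have hc : 0 < c := by linarith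
  obtain ⟨i0, hL⟩ := kp_int hb hbc hd hd1
  obtain ⟨ζ, hζ, hζ0, hζe⟩ := mexp_pos (κ := kp b c d) (fun t ht => kp_nonneg hb hbc hd hd1 t ht) i0
  refine ⟨ζ, hζ, hζ0, ?_, Real.exp (-∫ t in Ioi (0 : ℝ), kp b c d t) / Real.Gamma (1 + d),
    div_pos (Real.exp_pos _) (Real.Gamma_pos_of_pos (by linarith)), ?_⟩
  · have h0 := hζe 0 le_rfl
    simp only [zero_mul, neg_zero, Real.exp_zero, mul_one, integral_const, smul_eq_mul] at h0
    have h1 := Real.exp_le_exp.mpr hL
    linarith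
  · intro k
    have hk0 : (0 : ℝ) ≤ k := Nat.cast_nonneg k
    have hck : 0 ≤ c * k := by positivity
    rw [← hζe k hk0, kp_formula hb hbc hd hd1 k]
    have g1 : 0 < Real.Gamma (1 + (c * k + d)) := Real.Gamma_pos_of_pos (by linarith)
    have g2 : 0 < Real.Gamma (1 + c * k) := Real.Gamma_pos_of_pos (by linarith)
    have g3 : 0 < Real.Gamma (1 + d) := Real.Gamma_pos_of_pos (by linarith)
    have hb0 : 0 < 1 + b * k / 4 := by positivity
    set L := ∫ t in Ioi (0 : ℝ), kp b c d t with hLdef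
    have h1 : L - (Real.log (Real.Gamma (1 + (c * k + d))) - Real.log (Real.Gamma (1 + c * k)) -
        Real.log (Real.Gamma (1 + d))) + d * Real.log (1 + b * k / 4) =
        L + (Real.log (Real.Gamma (1 + c * k)) + Real.log (Real.Gamma (1 + d)) -
          Real.log (Real.Gamma (1 + (c * k + d)))) + Real.log (1 + b * k / 4) * d := by ring
    rw [h1, Real.exp_add, Real.exp_add, Real.exp_sub, Real.exp_add, Real.exp_log g1,
      Real.exp_log g2, Real.exp_log g3, ← Real.rpow_def_of_pos hb0]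
    have h2 : c * (k : ℝ) + 1 = 1 + c * k := by ring
    have h3 : c * (k : ℝ) + d + 1 = 1 + (c * k + d) := by ring
    have h4 : Real.exp (-L) * Real.exp L = 1 := by rw [← Real.exp_add]; simp
    rw [h2, h3]
    have g1' := g1.ne'
    have g3' := g3.ne'
    calc (1 + b * k / 4) ^ d * Real.Gamma (1 + c * k) / Real.Gamma (1 + (c * k + d))
        = (Real.exp (-L) * Real.exp L) * ((1 + b * k / 4) ^ d * Real.Gamma (1 + c * k) /
          Real.Gamma (1 + (c * k + d))) := by rw [h4, one_mul]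
      _ = _ := by field_simp

end Pool.Agent.Lib.MP_8382de_an.ET
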