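import Pool.Agent.Lib.MP_8382de_an.ET.Cor
import Pool.Agent.Lib.MP_8382de_an.ET.RFi
import Pool.Agent.Lib.MP_8382de_an.ET.ZRe
import Pool.Agent.Lib.MP_8382de_an.ET.NFi
import Pool.Agent.Lib.MP_8382de_an.ET.GCo

/-!
# ET.Mai: assembly

`T_strict`: `m = a+b ≥ 1`, `e = c-m-1 > 0`, `e ≤ m+1`. `d ≤ 203/20000` follows from
`d (1 + log(8(a+b+1)/b)) ≤ 1/32` because `8(a+b+1)/b ≥ 8` and `1 + log 8 ≥ 3.0794`
(`log 8 = 3 log 2`, `Real.log_two_gt_d9`), `1/32/3.0794 = 0.0101481`. `N_rep`, `R_rep` (`m`, `e`),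
`Z_rep` (`b/4 ≤ c`; `4c/b ≤ 8(a+b+1)/b`, so `ζ(ℝ) ≤ e^(1/32) - 1`), `GG_comb`:
total mass `(1+ρ)(1+ζ) - 1 < (3/2) e^(1/32) - 1 ≤ 0.5477 < 5/9`. `core`, then `T_gamma` with
`e`, `β = 1/2` and `T_scale`:
`N_rep · R_rep · Z_rep`: `[Γ(ak+1)Γ(bk+1)/Γ(mk+1) (1+bk/4)^(-d)] [Γ(mk+1)Γ(k+1/2)Γ(ek+1/2)/Γ(ck+1)]
[(1+bk/4)^d Γ(ck+1)/Γ(ck+d+1)] = Γ(ak+1)Γ(bk+1)Γ(k+1/2)Γ(ek+1/2)/Γ(ck+d+1)`
`= C h^k NN n k · GG σ₁ σ₂ k`, and `Γ(k+1/2) = (2k)! √π/(4^k k!)`
(`Real.Gamma_nat_add_half` or duplication).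
`T_at`: `c = a+b+1` is the limit of `c_j = c + 1/(j+1)` (`T_lim_ev`, continuity of `Γ`,
`ALG.addN_cont`-like: `Real.differentiableAt_Gamma`).
-/

set_option autoImplicit false

namespace Pool.Agent.Lib.MP_8382de_an.ET

open MeasureTheory Set ALG

private theorem mai_half (k : ℕ) :
    Real.Gamma ((k : ℝ) + 1 / 2) * (k.factorial : ℝ) * 4 ^ k =
      ((2 * k).factorial : ℝ) * Real.sqrt Real.pi := by
  have h := Real.Gamma_mul_Gamma_add_half ((k : ℝ) + 1 / 2)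
  have e1 : (k : ℝ) + 1 / 2 + 1 / 2 = (k : ℝ) + 1 := by ring
  have e2 : 2 * ((k : ℝ) + 1 / 2) = ((2 * k : ℕ) : ℝ) + 1 := by
    push_cast
    ring
  have e3 : (2 : ℝ) ^ (1 - (((2 * k : ℕ) : ℝ) + 1)) = (4 ^ k)⁻¹ := by
    have : (1 : ℝ) - (((2 * k : ℕ) : ℝ) + 1) = -((2 * k : ℕ) : ℝ) := by ring
    rw [this, Real.rpow_neg (by norm_num), Real.rpow_natCast, pow_mul]
    norm_num
  rw [e1, Real.Gamma_nat_eq_factorial, e2, Real.Gamma_nat_eq_factorial, e3] at h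
  rw [h]
  field_simp

theorem T_strict {a b c d : ℝ} (hb : 0 < b) (hba : b ≤ a) (hm : 1 ≤ a + b) (hd : 0 < d)
    (hdL : d * (1 + Real.log (8 * (a + b + 1) / b)) ≤ 1 / 32)
    (hc0 : a + b + 1 < c) (hcm : c ≤ 2 * (a + b + 1)) :
    T (fun k : ℕ => Real.Gamma (a * (k : ℝ) + 1) * Real.Gamma (b * (k : ℝ) + 1) /
      Real.Gamma (c * (k : ℝ) + d + 1) / (k.factorial : ℝ)) := by
  have ha : 0 < a := by linarith
  -- `d` is small
  have hlog : (69 / 25 : ℝ) ≤ Real.log (8 * (a + b + 1) / b) := by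
    have h1 : (16 : ℝ) ≤ 8 * (a + b + 1) / b := by
      rw [le_div_iff₀ hb]
      linarith
    have h2 : Real.log 16 ≤ Real.log (8 * (a + b + 1) / b) := Real.log_le_log (by norm_num) h1
    have h3 : Real.log 16 = 4 * Real.log 2 := by
      have : (16 : ℝ) = 2 ^ (4 : ℕ) := by norm_num
      rw [this, Real.log_pow]
      norm_num
    have h4 := Real.log_two_gt_d9
    linarith
  have hd2 : d ≤ 203 / 20000 := by
    have h1 : d * (1 + 69 / 25) ≤ 1 / 32 :=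
      (mul_le_mul_of_nonneg_left (by linarith) hd.le).trans hdL
    linarith
  obtain ⟨n, hn, h₁, hh₁, hN⟩ := N_rep hb hba hd hd2
  obtain ⟨ρ, hρf, hρ0, hρm, C₂, h₂, hC₂, hh₂, hR⟩ := R_rep (m := a + b) (e := c - (a + b) - 1) hm
    (by linarith) (by linarith)
  obtain ⟨ζ, hζf, hζ0, hζm, C₃, hC₃, hZ⟩ := Z_rep (b := b) (c := c) (d := d) hb (by linarith) hd
    (by linarith)
  obtain ⟨σ₁, σ₂, hσ₁f, hσ₂f, hσ₁0, hσ₂0, hmass, hGG⟩ := GG_comb hρ0 hζ0
  have hζ2 : ζ.real univ ≤ 1 / 31 := by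
    have h1 : Real.log (4 * c / b) ≤ Real.log (8 * (a + b + 1) / b) := by
      refine Real.log_le_log (div_pos (by linarith) hb) ?_
      exact div_le_div_of_nonneg_right (by linarith) hb.le
    have h2 : d * (1 + Real.log (4 * c / b)) ≤ 1 / 32 :=
      (mul_le_mul_of_nonneg_left (by linarith) hd.le).trans hdL
    have h3 : Real.exp (d * (1 + Real.log (4 * c / b))) ≤ Real.exp (1 / 32) :=
      Real.exp_le_exp.2 h2
    have h4 : Real.exp (1 / 32) ≤ 32 / 31 := by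
      have h5 := Real.add_one_le_exp (-(1 / 32 : ℝ))
      rw [Real.exp_neg] at h5
      have h6 : (31 / 32 : ℝ) ≤ (Real.exp (1 / 32))⁻¹ := by linarith
      have h7 := Real.exp_pos (1 / 32)
      rw [le_inv_comm₀ (by norm_num) h7] at h6
      norm_num at h6 ⊢
      exact h6
    linarith
  have hρn : 0 ≤ ρ.real univ := measureReal_nonneg
  have hζn : 0 ≤ ζ.real univ := measureReal_nonneg
  have hq : σ₁.real univ + σ₂.real univ < 5 / 9 := by
    rw [hmass]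
    nlinarith
  have hcore := core hn hσ₁0 hσ₂0 hq
  have he : 0 ≤ c - (a + b) - 1 := by linarith
  have h1 := T_scale (T_gamma hcore he (β := 1 / 2) (by norm_num))
    (c := C₂ * C₃ / Real.sqrt Real.pi) (r := 4 * (h₁ * h₂)) (by positivity) (by positivity)
  refine T_congr h1 fun k => ?_
  have hk : (0 : ℝ) ≤ k := Nat.cast_nonneg k
  have hNk := hN k
  have hRk := hR k
  have hZk := hZ k
  rw [hGG k hk]
  have ec : (a + b + 1 + (c - (a + b) - 1)) * (k : ℝ) + 1 = c * k + 1 := by ring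
  rw [ec] at hRk
  have g1 : Real.Gamma ((a + b) * (k : ℝ) + 1) ≠ 0 := (Real.Gamma_pos_of_pos (by positivity)).ne'
  have hc00 : 0 < c := by linarith
  have g2 : Real.Gamma (c * (k : ℝ) + 1) ≠ 0 := (Real.Gamma_pos_of_pos (by positivity)).ne'
  have g3 : Real.Gamma (c * (k : ℝ) + d + 1) ≠ 0 := (Real.Gamma_pos_of_pos (by positivity)).ne'
  have g4 : Real.Gamma ((c - (a + b) - 1) * (k : ℝ) + 1 / 2) ≠ 0 :=
    (Real.Gamma_pos_of_pos (by positivity)).ne'
  have g5 : Real.Gamma ((k : ℝ) + 1 / 2) ≠ 0 := (Real.Gamma_pos_of_pos (by positivity)).ne'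
  have g6 : (0 : ℝ) < 1 + b * k / 4 := by positivity
  have g7 : (1 + b * (k : ℝ) / 4) ^ (-d) * (1 + b * k / 4) ^ d = 1 := by
    rw [← Real.rpow_add g6, neg_add_cancel, Real.rpow_zero]
  have g8 := mai_half k
  have g9 : (0 : ℝ) < Real.sqrt Real.pi := Real.sqrt_pos.2 Real.pi_pos
  have g10 : ((2 * k).factorial : ℝ) ≠ 0 := by positivity
  have g11 : (k.factorial : ℝ) ≠ 0 := by positivity
  -- the product of the three representations
  have key : Real.Gamma (a * k + 1) * Real.Gamma (b * k + 1) * Real.Gamma ((k : ℝ) + 1 / 2) *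
      Real.Gamma ((c - (a + b) - 1) * (k : ℝ) + 1 / 2) / Real.Gamma (c * k + d + 1) =
      C₂ * C₃ * (h₁ * h₂) ^ k * (NN n k *
        ((1 - ∫ t, Real.exp (-((k : ℝ) * t)) ∂ρ) * (1 + ∫ t, Real.exp (-((k : ℝ) * t)) ∂ζ))) := by
    have e : Real.Gamma (a * k + 1) * Real.Gamma (b * k + 1) * Real.Gamma ((k : ℝ) + 1 / 2) *
        Real.Gamma ((c - (a + b) - 1) * (k : ℝ) + 1 / 2) / Real.Gamma (c * k + d + 1) =
        (Real.Gamma (a * k + 1) * Real.Gamma (b * k + 1) / Real.Gamma ((a + b) * k + 1) *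
          (1 + b * k / 4) ^ (-d)) *
        (Real.Gamma ((a + b) * k + 1) * Real.Gamma ((k : ℝ) + 1 / 2) *
          Real.Gamma ((c - (a + b) - 1) * k + 1 / 2) / Real.Gamma (c * k + 1)) *
        ((1 + b * k / 4) ^ d * Real.Gamma (c * k + 1) / Real.Gamma (c * k + d + 1)) := by
      have e2 : (Real.Gamma (a * k + 1) * Real.Gamma (b * k + 1) / Real.Gamma ((a + b) * k + 1) *
          (1 + b * k / 4) ^ (-d)) *
        (Real.Gamma ((a + b) * k + 1) * Real.Gamma ((k : ℝ) + 1 / 2) *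
          Real.Gamma ((c - (a + b) - 1) * k + 1 / 2) / Real.Gamma (c * k + 1)) *
        ((1 + b * k / 4) ^ d * Real.Gamma (c * k + 1) / Real.Gamma (c * k + d + 1)) =
        (Real.Gamma (a * k + 1) * Real.Gamma (b * k + 1) * Real.Gamma ((k : ℝ) + 1 / 2) *
        Real.Gamma ((c - (a + b) - 1) * (k : ℝ) + 1 / 2) / Real.Gamma (c * k + d + 1)) *
        ((1 + b * k / 4) ^ (-d) * (1 + b * k / 4) ^ d) := by
        field_simp
      rw [e2, g7, mul_one]
    rw [e, hNk, hRk, hZk, mul_pow]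
    ring
  rw [div_div _ (Real.Gamma (c * (k : ℝ) + d + 1)), div_div, div_mul_eq_mul_div, mul_pow 4]
  have key2 : Real.Gamma (a * k + 1) * Real.Gamma (b * k + 1) /
      (Real.Gamma (c * k + d + 1) * (k.factorial : ℝ)) =
      (C₂ * C₃ * (h₁ * h₂) ^ k * (NN n k *
        ((1 - ∫ t, Real.exp (-((k : ℝ) * t)) ∂ρ) * (1 + ∫ t, Real.exp (-((k : ℝ) * t)) ∂ζ)))) /
        (Real.Gamma ((k : ℝ) + 1 / 2) * Real.Gamma ((c - (a + b) - 1) * (k : ℝ) + 1 / 2) *
          (k.factorial : ℝ)) := by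
    rw [← key]
    field_simp
  rw [key2]
  have g12 : Real.Gamma ((k : ℝ) + 1 / 2) * Real.Gamma ((c - (a + b) - 1) * (k : ℝ) + 1 / 2) *
          (k.factorial : ℝ) = ((2 * k).factorial : ℝ) * Real.sqrt Real.pi / 4 ^ k *
          Real.Gamma ((c - (a + b) - 1) * (k : ℝ) + 1 / 2) := by
    rw [← g8]
    field_simp
  rw [g12]
  field_simp

theorem T_at {a b c d : ℝ} (hb : 0 < b) (hba : b ≤ a) (hm : 1 ≤ a + b) (hd : 0 < d)
    (hdL : d * (1 + Real.log (8 * (a + b + 1) / b)) ≤ 1 / 32)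
    (hc0 : a + b + 1 ≤ c) (hcm : c ≤ 2 * (a + b + 1)) :
    T (fun k : ℕ => Real.Gamma (a * (k : ℝ) + 1) * Real.Gamma (b * (k : ℝ) + 1) /
      Real.Gamma (c * (k : ℝ) + d + 1) / (k.factorial : ℝ)) := by
  rcases hc0.lt_or_eq with h | h
  · exact T_strict hb hba hm hd hdL h hcm
  · have hcn : Filter.Tendsto (fun n : ℕ => c + 1 / ((n : ℝ) + 1)) Filter.atTop (nhds c) := by
      have := tendsto_one_div_add_atTop_nhds_zero_nat (𝕜 := ℝ)
      have h2 := this.const_add c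
      rw [add_zero] at h2
      exact h2
    refine T_lim_ev (φ := fun n k => Real.Gamma (a * (k : ℝ) + 1) * Real.Gamma (b * (k : ℝ) + 1) /
      Real.Gamma ((c + 1 / ((n : ℝ) + 1)) * (k : ℝ) + d + 1) / (k.factorial : ℝ)) ?_ ?_
    · refine Filter.Eventually.of_forall fun n => ?_
      have hn0 : (0 : ℝ) < 1 / ((n : ℝ) + 1) := by positivity
      have hn1 : 1 / ((n : ℝ) + 1) ≤ 1 := by
        rw [div_le_one (by positivity)]
        have : (0 : ℝ) ≤ n := Nat.cast_nonneg n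
        linarith
      exact T_strict hb hba hm hd hdL (by linarith) (by linarith)
    · intro k
      have hk : (0 : ℝ) ≤ k := Nat.cast_nonneg k
      have hc00 : 0 < c := by linarith
      have hpos : 0 < c * (k : ℝ) + d + 1 := by positivity
      have h2 : Filter.Tendsto (fun n : ℕ => (c + 1 / ((n : ℝ) + 1)) * (k : ℝ) + d + 1) Filter.atTop
          (nhds (c * (k : ℝ) + d + 1)) := ((hcn.mul_const _).add_const _).add_const _
      have h3 : DifferentiableAt ℝ Real.Gamma (c * (k : ℝ) + d + 1) := by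
        apply Real.differentiableAt_Gamma
        intro m
        have : (0 : ℝ) ≤ m := Nat.cast_nonneg m
        linarith
      have h4 := h3.continuousAt.tendsto.comp h2
      exact ((tendsto_const_nhds (x := Real.Gamma (a * (k : ℝ) + 1) *
        Real.Gamma (b * (k : ℝ) + 1))).div h4 (Real.Gamma_pos_of_pos hpos).ne').div_const _

end Pool.Agent.Lib.MP_8382de_an.ET
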