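import Pool.Agent.Lib.MP_8382de_an.ET.Fru

/-!
# ET.Mal: Malmsten's formula

`log Γ(1+x) = ∫_0^∞ (x e^(-t) - (1-e^(-xt))/(e^t-1)) dt/t`, `x > -1`.

Proof by the Bohr-Mollerup theorem (`Real.eq_Gamma_of_log_convex`).
-/

set_option autoImplicit false

namespace Pool.Agent.Lib.MP_8382de_an.ET

open MeasureTheory Set

theorem Mal_exp1 {t : ℝ} (ht : 0 < t) : t ≤ Real.exp t - 1 := by
  have := Real.add_one_le_exp t
  linarith

theorem Mal_exp2 {t : ℝ} (ht : 1 ≤ t) : 1 / (Real.exp t - 1) ≤ 2 * Real.exp (-t) := by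
  have h1 : 2 ≤ Real.exp t := by
    have := Real.add_one_le_exp t
    linarith
  rw [Real.exp_neg, div_le_iff₀ (by linarith)]
  have h2 : (Real.exp t)⁻¹ * Real.exp t = 1 := inv_mul_cancel₀ (Real.exp_pos t).ne'
  nlinarith [inv_pos.mpr (Real.exp_pos t)]

theorem Mal_norm_exp (z : ℂ) (t : ℝ) :
    ‖Complex.exp (-(z * (t : ℂ)))‖ = Real.exp (-(z.re * t)) := by
  rw [Complex.norm_exp]
  congr 1
  simp

theorem Mal_norm_ofReal {r : ℝ} (hr : 0 ≤ r) : ‖(r : ℂ)‖ = r := by
  rw [Complex.norm_real, Real.norm_of_nonneg hr]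

/-- the dominating bound -/
theorem Mal_bound (R ε : ℝ) (hR : 0 ≤ R) (hε : 0 < ε) (hε1 : ε ≤ 1) :
    ∃ C : ℝ, 0 ≤ C ∧ ∀ z : ℂ, ‖z‖ ≤ R → -1 + ε ≤ z.re → ∀ t : ℝ, 0 < t →
      ‖(z * (Real.exp (-t) : ℂ) -
      (1 - Complex.exp (-(z * (t : ℂ)))) / ((Real.exp t - 1 : ℝ) : ℂ)) / (t : ℂ)‖
        ≤ C * Real.exp (-(ε * t)) := by
  refine ⟨(2 * R + R ^ 2 * Real.exp R) * Real.exp 1 + (R + 4), by positivity, ?_⟩
  intro z hz hre t ht
  have hE := Mal_exp1 ht
  have hE0 : 0 < Real.exp t - 1 := by linarith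
  have hnE : ‖((Real.exp t - 1 : ℝ) : ℂ)‖ = Real.exp t - 1 := Mal_norm_ofReal hE0.le
  have hnt : ‖(t : ℂ)‖ = t := Mal_norm_ofReal ht.le
  have hz0 : 0 ≤ ‖z‖ := norm_nonneg z
  rcases le_total t 1 with h1 | h1
  · -- small t
    have key : ‖z * (Real.exp (-t) : ℂ) -
        (1 - Complex.exp (-(z * (t : ℂ)))) / ((Real.exp t - 1 : ℝ) : ℂ)‖
          ≤ (2 * R + R ^ 2 * Real.exp R) * t := by
      have hne : ((Real.exp t - 1 : ℝ) : ℂ) ≠ 0 := by
        exact_mod_cast hE0.ne'
      have e1 : z * (Real.exp (-t) : ℂ) -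
          (1 - Complex.exp (-(z * (t : ℂ)))) / ((Real.exp t - 1 : ℝ) : ℂ)
          = z * ((Real.exp (-t) - 1 : ℝ) : ℂ) +
            (z * ((Real.exp t - 1 - t : ℝ) : ℂ) +
              (Complex.exp (-(z * (t : ℂ))) - 1 - (-(z * (t : ℂ))))) / ((Real.exp t - 1 : ℝ) : ℂ) := by
        rw [eq_comm]
        have e2 : z * ((Real.exp t - 1 - t : ℝ) : ℂ) +
              (Complex.exp (-(z * (t : ℂ))) - 1 - (-(z * (t : ℂ))))
            = z * ((Real.exp t - 1 : ℝ) : ℂ) - (1 - Complex.exp (-(z * (t : ℂ)))) := by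
          push_cast
          ring
        rw [e2, sub_div, mul_div_assoc, div_self hne]
        push_cast
        ring
      rw [e1]
      refine (norm_add_le _ _).trans ?_
      have b1 : ‖z * ((Real.exp (-t) - 1 : ℝ) : ℂ)‖ ≤ R * t := by
        rw [norm_mul, Complex.norm_real, Real.norm_eq_abs]
        have : |Real.exp (-t) - 1| ≤ t := by
          rw [abs_le]
          constructor
          · have := Real.add_one_le_exp (-t)
            linarith
          · have : Real.exp (-t) ≤ 1 := Real.exp_le_one_iff.mpr (by linarith)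
            linarith
        exact mul_le_mul hz this (abs_nonneg _) hR
      have b2 : ‖z * ((Real.exp t - 1 - t : ℝ) : ℂ)‖ ≤ R * t ^ 2 := by
        rw [norm_mul, Complex.norm_real, Real.norm_eq_abs]
        have : |Real.exp t - 1 - t| ≤ t ^ 2 := Real.abs_exp_sub_one_sub_id_le (by
          rw [abs_of_pos ht]; exact h1)
        exact mul_le_mul hz this (abs_nonneg _) hR
      have b3 : ‖Complex.exp (-(z * (t : ℂ))) - 1 - (-(z * (t : ℂ)))‖ ≤ R ^ 2 * Real.exp R * t ^ 2 := by
        have h := Complex.norm_exp_sub_sum_le_norm_mul_exp (-(z * (t : ℂ))) 2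
        have h2 : Complex.exp (-(z * (t : ℂ))) -
            ∑ m ∈ Finset.range 2, (-(z * (t : ℂ))) ^ m / (m.factorial : ℂ)
            = Complex.exp (-(z * (t : ℂ))) - 1 - (-(z * (t : ℂ))) := by
          simp [Finset.sum_range_succ]
          ring
        rw [h2] at h
        refine h.trans ?_
        have h3 : ‖-(z * (t : ℂ))‖ = ‖z‖ * t := by
          rw [norm_neg, norm_mul, hnt]
        rw [h3]
        have h4 : ‖z‖ * t ≤ R := by nlinarith
        have h5 : ‖z‖ * t ≤ R * t := by nlinarith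
        calc (‖z‖ * t) ^ 2 * Real.exp (‖z‖ * t) ≤ (R * t) ^ 2 * Real.exp R := by
              apply mul_le_mul
              · exact pow_le_pow_left₀ (by positivity) h5 2
              · exact Real.exp_le_exp.mpr h4
              · positivity
              · positivity
          _ = R ^ 2 * Real.exp R * t ^ 2 := by ring
      have b4 : ‖(z * ((Real.exp t - 1 - t : ℝ) : ℂ) +
              (Complex.exp (-(z * (t : ℂ))) - 1 - (-(z * (t : ℂ))))) / ((Real.exp t - 1 : ℝ) : ℂ)‖
            ≤ (R + R ^ 2 * Real.exp R) * t := by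
        rw [norm_div, hnE, div_le_iff₀ hE0]
        refine (norm_add_le _ _).trans ((add_le_add b2 b3).trans ?_)
        have : (R + R ^ 2 * Real.exp R) * t * t ≤ (R + R ^ 2 * Real.exp R) * t * (Real.exp t - 1) := by
          apply mul_le_mul_of_nonneg_left hE
          positivity
        nlinarith
      nlinarith [b1, b4]
    rw [norm_div, hnt, div_le_iff₀ ht]
    refine key.trans ?_
    have h6 : 1 ≤ Real.exp 1 * Real.exp (-(ε * t)) := by
      rw [← Real.exp_add]
      apply Real.one_le_exp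
      nlinarith
    have h7 : 0 ≤ Real.exp (-(ε * t)) := (Real.exp_pos _).le
    have h8 : 0 ≤ 2 * R + R ^ 2 * Real.exp R := by positivity
    have h9 : (2 * R + R ^ 2 * Real.exp R) ≤
        ((2 * R + R ^ 2 * Real.exp R) * Real.exp 1 + (R + 4)) * Real.exp (-(ε * t)) := by
      have : (2 * R + R ^ 2 * Real.exp R) * 1 ≤
          (2 * R + R ^ 2 * Real.exp R) * (Real.exp 1 * Real.exp (-(ε * t))) :=
        mul_le_mul_of_nonneg_left h6 h8
      have h10 : 0 ≤ (R + 4) * Real.exp (-(ε * t)) := by positivity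
      nlinarith
    exact mul_le_mul_of_nonneg_right h9 ht.le
  · -- large t
    have hne : Real.exp (-t) ≤ Real.exp (-(ε * t)) := by
      apply Real.exp_le_exp.mpr
      nlinarith
    have b1 : ‖z * (Real.exp (-t) : ℂ)‖ ≤ R * Real.exp (-(ε * t)) := by
      rw [norm_mul, Mal_norm_ofReal (Real.exp_pos _).le]
      exact mul_le_mul hz hne (Real.exp_pos _).le hR
    have b2 : ‖(1 - Complex.exp (-(z * (t : ℂ)))) / ((Real.exp t - 1 : ℝ) : ℂ)‖
        ≤ 4 * Real.exp (-(ε * t)) := by
      rw [norm_div, hnE]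
      have h2 := Mal_exp2 h1
      have h3 : ‖1 - Complex.exp (-(z * (t : ℂ)))‖ ≤ 1 + Real.exp (-(z.re * t)) := by
        refine (norm_sub_le _ _).trans ?_
        rw [Mal_norm_exp, norm_one]
      have h4 : Real.exp (-(z.re * t)) * Real.exp (-t) ≤ Real.exp (-(ε * t)) := by
        rw [← Real.exp_add]
        apply Real.exp_le_exp.mpr
        nlinarith
      calc ‖1 - Complex.exp (-(z * (t : ℂ)))‖ / (Real.exp t - 1)
          = ‖1 - Complex.exp (-(z * (t : ℂ)))‖ * (1 / (Real.exp t - 1)) := by ring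
        _ ≤ (1 + Real.exp (-(z.re * t))) * (2 * Real.exp (-t)) := by
            apply mul_le_mul h3 h2
            · positivity
            · positivity
        _ ≤ 4 * Real.exp (-(ε * t)) := by nlinarith
    rw [norm_div, hnt]
    have h5 : ‖z * (Real.exp (-t) : ℂ) -
      (1 - Complex.exp (-(z * (t : ℂ)))) / ((Real.exp t - 1 : ℝ) : ℂ)‖ ≤
        (R + 4) * Real.exp (-(ε * t)) := by
      refine (norm_sub_le _ _).trans ?_
      nlinarith
    have h6 : ‖z * (Real.exp (-t) : ℂ) -
      (1 - Complex.exp (-(z * (t : ℂ)))) / ((Real.exp t - 1 : ℝ) : ℂ)‖ / t ≤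
        ‖z * (Real.exp (-t) : ℂ) -
      (1 - Complex.exp (-(z * (t : ℂ)))) / ((Real.exp t - 1 : ℝ) : ℂ)‖ :=
      div_le_self (norm_nonneg _) h1
    refine h6.trans (h5.trans ?_)
    apply mul_le_mul_of_nonneg_right _ (Real.exp_pos _).le
    have : 0 ≤ (2 * R + R ^ 2 * Real.exp R) * Real.exp 1 := by positivity
    linarith

theorem Mal_cont (z : ℂ) : ContinuousOn (fun t : ℝ => (z * (Real.exp (-t) : ℂ) -
      (1 - Complex.exp (-(z * (t : ℂ)))) / ((Real.exp t - 1 : ℝ) : ℂ)) / (t : ℂ)) (Ioi 0) := by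
  have h1 : ∀ t ∈ Ioi (0 : ℝ), ((Real.exp t - 1 : ℝ) : ℂ) ≠ 0 := by
    intro t ht
    have := Mal_exp1 ht
    have h0 : (0 : ℝ) < t := ht
    have : 0 < Real.exp t - 1 := by linarith
    exact_mod_cast this.ne'
  have h2 : ∀ t ∈ Ioi (0 : ℝ), (t : ℂ) ≠ 0 := by
    intro t ht
    have h0 : (0 : ℝ) < t := ht
    exact_mod_cast h0.ne'
  apply ContinuousOn.div _ _ h2
  · apply ContinuousOn.sub
    · fun_prop
    · apply ContinuousOn.div _ _ h1
      · fun_prop
      · fun_prop
  · fun_prop

theorem Mal_intExp {ε : ℝ} (hε : 0 < ε) (C : ℝ) :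
    IntegrableOn (fun t : ℝ => C * Real.exp (-(ε * t))) (Ioi 0) := by
  have h : IntegrableOn (fun t : ℝ => C * Real.exp (-ε * t)) (Ioi 0) :=
    (integrableOn_exp_mul_Ioi (a := -ε) (by linarith) 0).const_mul C
  refine h.congr_fun (fun t _ => ?_) measurableSet_Ioi
  simp

theorem Mal_intC {z : ℂ} (hz : -1 < z.re) :
    IntegrableOn (fun t : ℝ => (z * (Real.exp (-t) : ℂ) -
      (1 - Complex.exp (-(z * (t : ℂ)))) / ((Real.exp t - 1 : ℝ) : ℂ)) / (t : ℂ)) (Ioi 0) := by
  obtain ⟨C, hC, hb⟩ := Mal_bound ‖z‖ (min 1 (z.re + 1)) (norm_nonneg _)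
    (lt_min one_pos (by linarith)) (min_le_left _ _)
  have hε : 0 < min 1 (z.re + 1) := lt_min one_pos (by linarith)
  refine Integrable.mono' (Mal_intExp hε C) ?_ ?_
  · exact (Mal_cont z).aestronglyMeasurable measurableSet_Ioi
  · refine (ae_restrict_iff' measurableSet_Ioi).mpr (Filter.Eventually.of_forall ?_)
    intro t ht
    refine hb z le_rfl ?_ t ht
    have := min_le_right (1 : ℝ) (z.re + 1)
    linarith

/-- the integrand, real -/
noncomputable def MalF (x t : ℝ) : ℝ :=
  (x * Real.exp (-t) - (1 - Real.exp (-(x * t))) / (Real.exp t - 1)) / t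

theorem MalF_ofReal (x t : ℝ) : ((MalF x t : ℝ) : ℂ) =
    ((x : ℂ) * (Real.exp (-t) : ℂ) -
      (1 - Complex.exp (-((x : ℂ) * (t : ℂ)))) / ((Real.exp t - 1 : ℝ) : ℂ)) / (t : ℂ) := by
  unfold MalF
  push_cast
  rfl

theorem Mal_intR {x : ℝ} (hx : -1 < x) : IntegrableOn (MalF x) (Ioi 0) := by
  have h := Mal_intC (z := (x : ℂ)) (by simpa using hx)
  have h2 := h.re
  refine h2.congr (Filter.Eventually.of_forall ?_)
  intro t
  show (((x : ℂ) * (Real.exp (-t) : ℂ) -
      (1 - Complex.exp (-((x : ℂ) * (t : ℂ)))) / ((Real.exp t - 1 : ℝ) : ℂ)) / (t : ℂ)).re = MalF x t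
  rw [← MalF_ofReal]
  simp

theorem MalF_convex {x y a b t : ℝ} (ha : 0 ≤ a) (hb : 0 ≤ b) (hab : a + b = 1) (ht : 0 < t) :
    MalF (a * x + b * y) t ≤ a * MalF x t + b * MalF y t := by
  have hE := Mal_exp1 ht
  have hE0 : 0 < Real.exp t - 1 := by linarith
  have hc : Real.exp (-((a * x + b * y) * t)) ≤
      a * Real.exp (-(x * t)) + b * Real.exp (-(y * t)) := by
    have := convexOn_exp.2 (mem_univ (-(x * t))) (mem_univ (-(y * t))) ha hb hab
    simp only [smul_eq_mul] at this
    have e : a * -(x * t) + b * -(y * t) = -((a * x + b * y) * t) := by ring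
    rw [e] at this
    exact this
  unfold MalF
  have e : a * ((x * Real.exp (-t) - (1 - Real.exp (-(x * t))) / (Real.exp t - 1)) / t) +
      b * ((y * Real.exp (-t) - (1 - Real.exp (-(y * t))) / (Real.exp t - 1)) / t)
      = ((a * x + b * y) * Real.exp (-t) - ((a + b) -
        (a * Real.exp (-(x * t)) + b * Real.exp (-(y * t)))) / (Real.exp t - 1)) / t := by
    field_simp
    ring
  rw [e, hab]
  apply div_le_div_of_nonneg_right _ ht.le
  have : (1 - (a * Real.exp (-(x * t)) + b * Real.exp (-(y * t)))) / (Real.exp t - 1) ≤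
      (1 - Real.exp (-((a * x + b * y) * t))) / (Real.exp t - 1) := by
    apply div_le_div_of_nonneg_right _ hE0.le
    linarith
  linarith

theorem MalF_succ {x t : ℝ} (ht : 0 < t) :
    MalF (x + 1) t = MalF x t + (Real.exp (-(1 * t)) - Real.exp (-((x + 1) * t))) / t := by
  have hE := Mal_exp1 ht
  have hE0 : 0 < Real.exp t - 1 := by linarith
  have h1 : Real.exp (-((x + 1) * t)) = Real.exp (-(x * t)) * Real.exp (-t) := by
    rw [← Real.exp_add]
    congr 1
    ring
  have h2 : Real.exp (-t) * Real.exp t = 1 := by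
    rw [← Real.exp_add]
    simp
  unfold MalF
  rw [h1, one_mul]
  have h3 : (1 - Real.exp (-(x * t)) * Real.exp (-t)) / (Real.exp t - 1)
      = (1 - Real.exp (-(x * t))) / (Real.exp t - 1) + Real.exp (-(x * t)) * Real.exp (-t) := by
    rw [div_add' _ _ _ hE0.ne']
    congr 1
    linear_combination (-Real.exp (-(x * t))) * h2
  rw [h3, ← add_div]
  congr 1
  ring

theorem malmsten {x : ℝ} (hx : -1 < x) :
    IntegrableOn (fun t : ℝ => (x * Real.exp (-t) - (1 - Real.exp (-(x * t))) / (Real.exp t - 1)) / t)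
      (Ioi 0) ∧
    Real.log (Real.Gamma (1 + x)) =
      ∫ t in Ioi (0 : ℝ), (x * Real.exp (-t) - (1 - Real.exp (-(x * t))) / (Real.exp t - 1)) / t := by
  refine ⟨Mal_intR hx, ?_⟩
  have key : EqOn (fun y : ℝ => Real.exp (∫ t in Ioi (0 : ℝ), MalF (y - 1) t)) Real.Gamma (Ioi 0) := by
    apply Real.eq_Gamma_of_log_convex
    · have e : (Real.log ∘ fun y : ℝ => Real.exp (∫ t in Ioi (0 : ℝ), MalF (y - 1) t))
          = fun y : ℝ => ∫ t in Ioi (0 : ℝ), MalF (y - 1) t := by
        funext y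
        simp [Real.log_exp]
      rw [e]
      refine ⟨convex_Ioi 0, ?_⟩
      intro u hu v hv a b ha hb hab
      have hu0 : (0 : ℝ) < u := hu
      have hv0 : (0 : ℝ) < v := hv
      simp only [smul_eq_mul]
      have hiu := Mal_intR (x := u - 1) (by linarith)
      have hiv := Mal_intR (x := v - 1) (by linarith)
      have huv : 0 < a * u + b * v := by
        rcases ha.lt_or_eq with h | h
        · have : 0 < a * u := mul_pos h hu0
          have : 0 ≤ b * v := by positivity
          linarith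
        · have hb1 : b = 1 := by linarith
          rw [← h, hb1]
          linarith
      have hiw := Mal_intR (x := a * u + b * v - 1) (by linarith)
      have e2 : a * (∫ t in Ioi (0 : ℝ), MalF (u - 1) t) + b * (∫ t in Ioi (0 : ℝ), MalF (v - 1) t)
          = ∫ t in Ioi (0 : ℝ), (a * MalF (u - 1) t + b * MalF (v - 1) t) := by
        rw [integral_add (hiu.const_mul a) (hiv.const_mul b), integral_const_mul, integral_const_mul]
      rw [e2]
      apply setIntegral_mono_on hiw ((hiu.const_mul a).add (hiv.const_mul b)) measurableSet_Ioi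
      intro t ht
      have h := MalF_convex (x := u - 1) (y := v - 1) ha hb hab ht
      have e3 : a * (u - 1) + b * (v - 1) = a * u + b * v - 1 := by
        linear_combination -hab
      rw [e3] at h
      exact h
    · intro y hy
      have hiy := Mal_intR (x := y - 1) (by linarith)
      obtain ⟨hf1, hf2⟩ := frullani (a := 1) (b := y) one_pos hy
      have e1 : ∫ t in Ioi (0 : ℝ), MalF (y + 1 - 1) t
          = (∫ t in Ioi (0 : ℝ), MalF (y - 1) t) + Real.log y := by
        have : ∫ t in Ioi (0 : ℝ), MalF (y + 1 - 1) t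
            = ∫ t in Ioi (0 : ℝ), (MalF (y - 1) t +
              (Real.exp (-(1 * t)) - Real.exp (-(y * t))) / t) := by
          apply setIntegral_congr_fun measurableSet_Ioi
          intro t ht
          have := MalF_succ (x := y - 1) ht
          have e5 : y - 1 + 1 = y := by ring
          have e6 : y + 1 - 1 = y := by ring
          rw [e5] at this
          simp only [e6]
          exact this
        rw [this, integral_add hiy hf1, hf2]
        simp
      rw [e1, Real.exp_add, Real.exp_log hy, mul_comm]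
    · intro y _
      exact Real.exp_pos _
    · have : ∀ t : ℝ, MalF 0 t = 0 := by
        intro t
        unfold MalF
        simp
      simp [this]
  have h := key (show (1 + x) ∈ Ioi (0 : ℝ) by
    show (0 : ℝ) < 1 + x
    linarith)
  simp only at h
  have e7 : 1 + x - 1 = x := by ring
  rw [e7] at h
  rw [← h, Real.log_exp]
  rfl

end Pool.Agent.Lib.MP_8382de_an.ET
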