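import Pool.Agent.Lib.MP_8382de_an.ET.ReC

/-!
# ET.Mo2: the modulus on the imaginary axis

Proof of `mod2`. Multiply `repC` at `z = iw` and at `z = -iw`. Left side:
`exp ∫ (2 - e^(-iwt) - e^(iwt)) EE/t = exp (2 ∫ (1-cos(wt)) EE/t)` (integrable by `EE_int`). Right side:
`e^(hiw) e^(-hiw) = 1` and for real `β > 0`
`Γ(1+iβw) Γ(1-iβw) = πβw / sinh(πβw)` (`Complex.Gamma_mul_Gamma_one_sub`, `Complex.Gamma_add_one`,
`sin(πiβw) = i sinh(πβw)`). The quotient is, with `S(β) = sinh(πβw)`, `c = m+1+e`,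
`[πmw/S(m)] [2πw/S(2)] [2πew/S(2e)] [S(1)/(πw)] [S(e)/(πew)] [S(c)/(πcw)]
 = (m/c) · 4 · S(1) S(e) S(c)/(S(m) S(2) S(2e))`, and `S(2) = 2 S(1) cosh(πw)`,
`S(2e) = 2 S(e) cosh(πew)`: `= (m/c) S(c)/(S(m) cosh(πw) cosh(πew))`.
-/

set_option autoImplicit false

namespace Pool.Agent.Lib.MP_8382de_an.ET

open MeasureTheory Set

theorem gamma_refl {β w : ℝ} (hβ : 0 < β) (hw : w ≠ 0) :
    Complex.Gamma (1 + (β : ℂ) * ((w : ℂ) * Complex.I)) *
      Complex.Gamma (1 + (β : ℂ) * (-((w : ℂ) * Complex.I))) =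
      ((Real.pi * β * w / Real.sinh (Real.pi * β * w) : ℝ) : ℂ) := by
  have hβ' : (β : ℂ) ≠ 0 := by exact_mod_cast hβ.ne'
  have hw' : (w : ℂ) ≠ 0 := by exact_mod_cast hw
  set s : ℂ := (β : ℂ) * ((w : ℂ) * Complex.I) with hs
  have hs0 : s ≠ 0 := mul_ne_zero hβ' (mul_ne_zero hw' Complex.I_ne_zero)
  have e1 : (β : ℂ) * (-((w : ℂ) * Complex.I)) = -s := by rw [hs]; ring
  rw [e1, add_comm, Complex.Gamma_add_one s hs0, ← sub_eq_add_neg, mul_assoc,
    Complex.Gamma_mul_Gamma_one_sub]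
  have e2 : (Real.pi : ℂ) * s = ((Real.pi * β * w : ℝ) : ℂ) * Complex.I := by
    rw [hs]; push_cast; ring
  rw [e2, Complex.sin_mul_I]
  have hx : Real.pi * β * w ≠ 0 := mul_ne_zero (mul_ne_zero Real.pi_ne_zero hβ.ne') hw
  have hS : Complex.sinh ((Real.pi * β * w : ℝ) : ℂ) ≠ 0 := by
    rw [← Complex.ofReal_sinh]
    exact_mod_cast (Real.sinh_ne_zero.2 hx)
  rw [hs]
  push_cast at hS ⊢
  field_simp

theorem mod2 {m e : ℝ} (hm : 0 < m) (he : 0 < e) {w : ℝ} (hw : w ≠ 0) :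
    Real.exp (2 * ∫ t in Ioi (0 : ℝ), (1 - Real.cos (w * t)) * (EE m e t / t)) =
      m / (m + 1 + e) * (Real.sinh (Real.pi * (m + 1 + e) * w) /
        (Real.sinh (Real.pi * m * w) * Real.cosh (Real.pi * w) * Real.cosh (Real.pi * e * w))) := by
  obtain ⟨h, hh⟩ := repC hm he
  have hE := EE_int hm he
  have hint : ∀ z : ℂ, 0 ≤ z.re → IntegrableOn (fun t : ℝ =>
      (1 - Complex.exp (-(z * (t : ℂ)))) * ((EE m e t / t : ℝ) : ℂ)) (Ioi 0) := by
    intro z hz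
    refine Integrable.bdd_mul (c := 2) hE.ofReal (by fun_prop) ?_
    refine (ae_restrict_iff' measurableSet_Ioi).2 (Filter.Eventually.of_forall fun t ht => ?_)
    have ht' : (0 : ℝ) < t := ht
    calc ‖(1 : ℂ) - Complex.exp (-(z * (t : ℂ)))‖ ≤ ‖(1 : ℂ)‖ + ‖Complex.exp (-(z * (t : ℂ)))‖ :=
          norm_sub_le _ _
      _ ≤ 1 + 1 := by
          gcongr
          · simp
          · rw [Complex.norm_exp, Real.exp_le_one_iff]
            simp
            positivity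
      _ = 2 := by norm_num
  set z1 : ℂ := (w : ℂ) * Complex.I with hz1
  have r1 : 0 ≤ z1.re := by simp [hz1]
  have r2 : 0 ≤ (-z1).re := by simp [hz1]
  have A1 := hh z1 r1
  have A2 := hh (-z1) r2
  have hsum : (∫ t in Ioi (0 : ℝ), (1 - Complex.exp (-(z1 * (t : ℂ)))) * ((EE m e t / t : ℝ) : ℂ)) +
      (∫ t in Ioi (0 : ℝ), (1 - Complex.exp (-(-z1 * (t : ℂ)))) * ((EE m e t / t : ℝ) : ℂ)) =
      ((2 * ∫ t in Ioi (0 : ℝ), (1 - Real.cos (w * t)) * (EE m e t / t) : ℝ) : ℂ) := by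
    rw [← integral_add (hint z1 r1) (hint (-z1) r2), ← integral_const_mul, ← integral_complex_ofReal]
    refine setIntegral_congr_fun measurableSet_Ioi fun t _ => ?_
    have hcos : Complex.exp (-(z1 * (t : ℂ))) + Complex.exp (-(-z1 * (t : ℂ))) =
        2 * ((Real.cos (w * t) : ℝ) : ℂ) := by
      rw [Complex.ofReal_cos, Complex.two_cos, add_comm]
      congr 1
      · congr 1; rw [hz1]; push_cast; ring
      · congr 1; rw [hz1]; push_cast; ring
    rw [← add_mul]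
    have : (1 - Complex.exp (-(z1 * (t : ℂ)))) + (1 - Complex.exp (-(-z1 * (t : ℂ)))) =
        2 * (1 - ((Real.cos (w * t) : ℝ) : ℂ)) := by
      linear_combination -hcos
    rw [this]
    push_cast
    ring
  have hexp := congrArg Complex.exp hsum
  rw [Complex.exp_add, A1, A2] at hexp
  have G : ∀ β : ℝ, 0 < β → Complex.Gamma (1 + (β : ℂ) * z1) * Complex.Gamma (1 + (β : ℂ) * (-z1)) =
      ((Real.pi * β * w / Real.sinh (Real.pi * β * w) : ℝ) : ℂ) := fun β hβ => gamma_refl hβ hw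
  have g1 := G 1 one_pos
  have g2 := G 2 two_pos
  have g3 := G m hm
  have g4 := G e he
  have g5 := G (2 * e) (by positivity)
  have g6 := G (m + 1 + e) (by positivity)
  have key : Complex.exp ((2 * ∫ t in Ioi (0 : ℝ), (1 - Real.cos (w * t)) * (EE m e t / t) : ℝ) : ℂ)
      = ((Real.pi * m * w / Real.sinh (Real.pi * m * w) : ℝ) : ℂ) *
        ((Real.pi * 2 * w / Real.sinh (Real.pi * 2 * w) : ℝ) : ℂ) *
        ((Real.pi * (2 * e) * w / Real.sinh (Real.pi * (2 * e) * w) : ℝ) : ℂ) /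
        (((Real.pi * 1 * w / Real.sinh (Real.pi * 1 * w) : ℝ) : ℂ) *
        ((Real.pi * e * w / Real.sinh (Real.pi * e * w) : ℝ) : ℂ) *
        ((Real.pi * (m + 1 + e) * w / Real.sinh (Real.pi * (m + 1 + e) * w) : ℝ) : ℂ)) := by
    rw [← g1, ← g2, ← g3, ← g4, ← g5, ← g6, ← hexp]
    have he0 : Complex.exp ((h : ℂ) * z1) * Complex.exp ((h : ℂ) * (-z1)) = 1 := by
      rw [← Complex.exp_add]; simp
    rw [div_mul_div_comm]
    congr 1
    · linear_combination (Complex.Gamma (1 + (m : ℂ) * z1) * Complex.Gamma (1 + 2 * z1) *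
        Complex.Gamma (1 + ((2 * e : ℝ) : ℂ) * z1)) * (Complex.Gamma (1 + (m : ℂ) * (-z1)) *
        Complex.Gamma (1 + 2 * (-z1)) * Complex.Gamma (1 + ((2 * e : ℝ) : ℂ) * (-z1))) * he0
    · simp only [Complex.ofReal_one, one_mul]
      ring
  simp only [← Complex.ofReal_mul, ← Complex.ofReal_div, ← Complex.ofReal_exp] at key
  have key' := Complex.ofReal_injective key
  rw [key']
  have hpi := Real.pi_pos
  have n1 : Real.sinh (Real.pi * w) ≠ 0 := Real.sinh_ne_zero.2 (mul_ne_zero hpi.ne' hw)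
  have n2 : Real.sinh (Real.pi * e * w) ≠ 0 :=
    Real.sinh_ne_zero.2 (mul_ne_zero (mul_ne_zero hpi.ne' he.ne') hw)
  have n3 : Real.sinh (Real.pi * m * w) ≠ 0 :=
    Real.sinh_ne_zero.2 (mul_ne_zero (mul_ne_zero hpi.ne' hm.ne') hw)
  have n4 : Real.sinh (Real.pi * (m + 1 + e) * w) ≠ 0 :=
    Real.sinh_ne_zero.2 (mul_ne_zero (mul_ne_zero hpi.ne' (by positivity)) hw)
  have n5 : Real.cosh (Real.pi * w) ≠ 0 := (Real.cosh_pos _).ne'
  have n6 : Real.cosh (Real.pi * e * w) ≠ 0 := (Real.cosh_pos _).ne'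
  have d1 : Real.sinh (Real.pi * 2 * w) = 2 * Real.sinh (Real.pi * w) * Real.cosh (Real.pi * w) := by
    rw [← Real.sinh_two_mul]; congr 1; ring
  have d2 : Real.sinh (Real.pi * (2 * e) * w) =
      2 * Real.sinh (Real.pi * e * w) * Real.cosh (Real.pi * e * w) := by
    rw [← Real.sinh_two_mul]; congr 1; ring
  rw [d1, d2, mul_one]
  have hmc : m + 1 + e ≠ 0 := by positivity
  field_simp

end Pool.Agent.Lib.MP_8382de_an.ET
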