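import Pool.Agent.Lib.MP_8382de_an.ET.Defs

/-!
# ET.NAf: exact formula for the block `Γ(ak+1)Γ(bk+1)/Γ((a+b)k+1)`

Let `m = a+b`, `α = a/m`, `β = 1-α = b/m`, `y = k ≥ 1` and
`S(u) = exp(-m y KL α u) = ((u/α)^a ((1-u)/β)^b)^y`, `0 < u < 1`.
* `∫_0^1 S(u)/(u(1-u)) du = (α^a β^b)^(-y) B(ay, by)`, `B(ay,by) = Γ(ay)Γ(by)/Γ(my)` (real beta integral:
  `real_beta` in `ALG.BetD`, or `Complex.Gamma_mul_Gamma_eq_betaIntegral`).
* Let `H(u) = (1-S(u))/(α-u)` for `u ≠ α`, `H(α) = 0`. `H` is continuous on `[0,1]` (with `S = 0` at the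
  ends: `H(0) = 1/α`, `H(1) = -1/β`; at `α`: `0 ≤ 1-S ≤ m y KL α u ≤ C (u-α)²`, e.g.
  `KL α u ≤ (u-α)²/(u(1-u))`, from `log x ≤ x-1`), and for `u ≠ α`
  `H'(u) = (1-S(u))/(u-α)² - m y S(u)/(u(1-u))` since `(log S)' = m y (α-u)/(u(1-u))`.
* Fundamental theorem of calculus with one exceptional point
  (`intervalIntegral.integral_eq_of_hasDerivAt_off_countable` or splitting at `α`; the integrand is
  integrable: `(1-S)/(u-α)²` is bounded near `α` by the estimate above and by `4/..` away from `α`;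
  `S/(u(1-u)) ≤ C u^(ay-1)(1-u)^(by-1)`):
  `∫_0^1 (1-S)/(u-α)² - m y ∫_0^1 S/(u(1-u)) = H(1) - H(0) = -1/β - 1/α = -1/(αβ)`.
* Hence `1 + αβ ∫ (1-S)/(u-α)² = αβ m y (α^aβ^b)^(-y) Γ(ay)Γ(by)/Γ(my)
  = (α^aβ^b)^(-y) Γ(ay+1)Γ(by+1)/Γ(my+1)` (`Γ(ay+1) = ay Γ(ay)` etc., `αβ m y · m y/(ay·by) = 1`).
Compare `ALG.BetA` - `ALG.BetD` (the same scheme with other weights; `sfn a b u` there is
`(u/α)^a ((1-u)/β)^b`).
-/

set_option autoImplicit false

namespace Pool.Agent.Lib.MP_8382de_an.ET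

open MeasureTheory Set

open ALG

private theorem kernel_int {x y : ℝ} (hx : 0 < x) (hy : 0 < y) :
    IntegrableOn (fun u : ℝ => u ^ (x - 1) * (1 - u) ^ (y - 1)) (Ioo 0 1) := by
  have h := Complex.betaIntegral_convergent (u := (x : ℂ)) (v := (y : ℂ))
    (by rw [Complex.ofReal_re]; exact hx) (by rw [Complex.ofReal_re]; exact hy)
  have h2 := h.norm
  rw [intervalIntegrable_iff_integrableOn_Ioo_of_le zero_le_one] at h2
  refine h2.congr_fun ?_ measurableSet_Ioo
  intro u hu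
  have h3 : (0 : ℝ) < 1 - u := by linarith [hu.2]
  have h4 : (1 - (u : ℂ)) = ((1 - u : ℝ) : ℂ) := by push_cast; rfl
  have h5 : ((x : ℂ) - 1).re = x - 1 := by simp
  have h6 : ((y : ℂ) - 1).re = y - 1 := by simp
  show ‖(u : ℂ) ^ ((x : ℂ) - 1) * (1 - (u : ℂ)) ^ ((y : ℂ) - 1)‖ = _
  rw [norm_mul, h4, Complex.norm_cpow_eq_rpow_re_of_pos hu.1, Complex.norm_cpow_eq_rpow_re_of_pos h3,
    h5, h6]

private theorem lin {a b u : ℝ} (ha : 0 < a) (hb : 0 < b) :
    a - (a + b) * u = (a + b) * (ust a b - u) := by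
  unfold ust
  field_simp

private theorem quot {a b p : ℝ} (ha : 0 < a) (hb : 0 < b) (hp : 0 < p) :
    ∃ M : ℝ, 0 ≤ M ∧ ∀ u ∈ Ioo (0 : ℝ) 1, (1 - sfn a b u ^ p) / (u - ust a b) ^ 2 ≤ M := by
  obtain ⟨h1, h2⟩ := ust_mem ha hb
  have hc : 0 < a + b := by linarith
  set x := ust a b with hx
  set η := min (x / 2) ((1 - x) / 2) with hη
  have hη0 : 0 < η := lt_min (by linarith) (by linarith)
  have hM1 : 0 ≤ p * (a + b) / (x / 2 * ((1 - x) / 2)) := by
    apply div_nonneg (by positivity)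
    apply mul_nonneg <;> linarith
  have hM2 : 0 ≤ 1 / η ^ 2 := by positivity
  refine ⟨p * (a + b) / (x / 2 * ((1 - x) / 2)) + 1 / η ^ 2, add_nonneg hM1 hM2, ?_⟩
  intro u hu
  have hn := one_sub_sfn_nonneg ha hb hu hp.le
  by_cases h0 : u - x = 0
  · rw [h0]
    simp only [ne_eq, OfNat.ofNat_ne_zero, not_false_eq_true, zero_pow, div_zero]
    exact add_nonneg hM1 hM2
  have hsq : 0 < (u - x) ^ 2 := by positivity
  have hu0 := hu.1
  have hu1 : 0 < 1 - u := by linarith [hu.2]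
  by_cases hcase : |u - x| ≤ η
  · have h3 := abs_le.1 hcase
    have h4 : η ≤ x / 2 := min_le_left _ _
    have h5 : η ≤ (1 - x) / 2 := min_le_right _ _
    have h6 : x / 2 ≤ u := by linarith
    have h7 : (1 - x) / 2 ≤ 1 - u := by linarith
    have h8 := one_sub_sfn_le ha hb hu hp.le
    have h9 : (1 - sfn a b u ^ p) / (u - x) ^ 2 ≤ p * (a + b) / (u * (1 - u)) := by
      rw [div_le_iff₀ hsq]
      refine h8.trans (le_of_eq ?_)
      rw [lin ha hb, ← hx]
      field_simp
      ring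
    have h10 : p * (a + b) / (u * (1 - u)) ≤ p * (a + b) / (x / 2 * ((1 - x) / 2)) := by
      apply div_le_div_of_nonneg_left (by positivity)
      · apply mul_pos <;> linarith
      · exact mul_le_mul h6 h7 (by linarith) (by linarith)
    linarith
  · rw [not_le] at hcase
    have h3 : η ^ 2 ≤ (u - x) ^ 2 := by
      rw [← sq_abs (u - x)]
      exact pow_le_pow_left₀ hη0.le hcase.le 2
    have h4 : 1 - sfn a b u ^ p ≤ 1 := by
      have := Real.rpow_nonneg (sfn_pos ha hb hu).le p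
      linarith
    have h5 : (1 - sfn a b u ^ p) / (u - x) ^ 2 ≤ 1 / η ^ 2 :=
      div_le_div₀ zero_le_one h4 (by positivity) h3
    linarith

private theorem sfn_meas (a b : ℝ) : Measurable (fun u : ℝ => sfn a b u) := by
  unfold sfn
  exact ((measurable_id.div_const _).pow_const a).mul
    (((measurable_const.sub measurable_id).div_const _).pow_const b)

private theorem int1 {a b p : ℝ} (ha : 0 < a) (hb : 0 < b) (hp : 0 < p) :
    IntegrableOn (fun u : ℝ => (1 - sfn a b u ^ p) / (u - ust a b) ^ 2) (Ioo 0 1) := by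
  obtain ⟨M, hM0, hM⟩ := quot (p := p) ha hb hp
  have hk : IntegrableOn (fun _ : ℝ => M) (Ioo (0 : ℝ) 1) :=
    integrableOn_const (by rw [Real.volume_Ioo]; exact ENNReal.ofReal_ne_top)
  refine MeasureTheory.Integrable.mono' hk ?_ ?_
  · exact ((measurable_const.sub ((sfn_meas a b).pow_const p)).div
      ((measurable_id.sub measurable_const).pow_const 2)).aestronglyMeasurable
  · rw [ae_restrict_iff' measurableSet_Ioo]
    refine Filter.Eventually.of_forall fun u hu => ?_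
    rw [Real.norm_of_nonneg (div_nonneg (one_sub_sfn_nonneg ha hb hu hp.le) (sq_nonneg _))]
    exact hM u hu

private theorem sfn_rpow {a b p u : ℝ} (ha : 0 < a) (hb : 0 < b) (hu : u ∈ Ioo (0 : ℝ) 1) :
    (a + b) * p * sfn a b u ^ p / (u * (1 - u)) = ((a + b) * p * smax a b ^ (-p)) *
        (u ^ (a * p - 1) * (1 - u) ^ (b * p - 1)) := by
  have hsm : 0 < smax a b := smax_pos ha hb
  have hu0 : 0 < u := hu.1
  have hu1 : 0 < 1 - u := by linarith [hu.2]
  rw [sfn_eq ha hb hu, Real.div_rpow (by positivity) hsm.le,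
    Real.mul_rpow (by positivity) (by positivity), ← Real.rpow_mul hu0.le,
    ← Real.rpow_mul hu1.le, Real.rpow_neg hsm.le p]
  have e1 : u ^ (a * p) = u ^ (a * p - 1) * u := by
    rw [← Real.rpow_add_one hu0.ne']
    congr 1
    ring
  have e2 : (1 - u) ^ (b * p) = (1 - u) ^ (b * p - 1) * (1 - u) := by
    rw [← Real.rpow_add_one hu1.ne']
    congr 1
    ring
  rw [e1, e2]
  have : smax a b ^ p ≠ 0 := (Real.rpow_pos_of_pos hsm p).ne'
  field_simp

private theorem int2 {a b p : ℝ} (ha : 0 < a) (hb : 0 < b) (hp : 0 < p) :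
    IntegrableOn (fun u : ℝ => (a + b) * p * sfn a b u ^ p / (u * (1 - u))) (Ioo 0 1) ∧
    ∫ u in Ioo (0 : ℝ) 1, (a + b) * p * sfn a b u ^ p / (u * (1 - u)) =
      (a + b) * p * smax a b ^ (-p) * (Real.Gamma (a * p) * Real.Gamma (b * p) /
        Real.Gamma ((a + b) * p)) := by
  have hap : 0 < a * p := mul_pos ha hp
  have hbp : 0 < b * p := mul_pos hb hp
  have hk := (kernel_int hap hbp).const_mul ((a + b) * p * smax a b ^ (-p))
  refine ⟨IntegrableOn.congr_fun hk (fun u hu => (sfn_rpow ha hb hu).symm) measurableSet_Ioo, ?_⟩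
  have hab : a * p + b * p = (a + b) * p := by ring
  rw [setIntegral_congr_fun measurableSet_Ioo fun u hu => sfn_rpow ha hb hu, integral_const_mul,
    real_beta hap hbp, hab]

private noncomputable def hf (a b p u : ℝ) : ℝ := (1 - sfn a b u ^ p) / (ust a b - u)

private theorem sexp {a b p v : ℝ} (ha : 0 < a) (hb : 0 < b) (hv : v ∈ Ioo (0 : ℝ) 1) :
    sfn a b v ^ p =
      Real.exp (p * (a * Real.log v + b * Real.log (1 - v) - Real.log (smax a b))) := by
  have h1 : 0 < v := hv.1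
  have h2 : 0 < 1 - v := by linarith [hv.2]
  have h3 := smax_pos ha hb
  have h4 : 0 < v ^ a := Real.rpow_pos_of_pos h1 a
  have h5 : 0 < (1 - v) ^ b := Real.rpow_pos_of_pos h2 b
  rw [Real.rpow_def_of_pos (sfn_pos ha hb hv), sfn_eq ha hb hv, Real.log_div (by positivity) h3.ne',
    Real.log_mul h4.ne' h5.ne', Real.log_rpow h1, Real.log_rpow h2]
  congr 1
  ring

private theorem hf_deriv {a b p u : ℝ} (ha : 0 < a) (hb : 0 < b) (hu : u ∈ Ioo (0 : ℝ) 1)
    (hne : u ≠ ust a b) :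
    HasDerivAt (hf a b p) ((1 - sfn a b u ^ p) / (u - ust a b) ^ 2 -
      (a + b) * p * sfn a b u ^ p / (u * (1 - u))) u := by
  have h1 : 0 < u := hu.1
  have h2 : 0 < 1 - u := by linarith [hu.2]
  have hne' : ust a b - u ≠ 0 := sub_ne_zero.mpr hne.symm
  have hev : hf a b p =ᶠ[nhds u] (fun v =>
        (1 - Real.exp (p * (a * Real.log v + b * Real.log (1 - v) - Real.log (smax a b)))) /
        (ust a b - v)) := by
    filter_upwards [Ioo_mem_nhds hu.1 hu.2] with v hv
    unfold hf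
    rw [sexp ha hb hv]
  have dlog : HasDerivAt (fun v : ℝ => Real.log v) (u⁻¹) u := Real.hasDerivAt_log h1.ne'
  have dlog2 : HasDerivAt (fun v : ℝ => Real.log (1 - v)) (-(1 - u)⁻¹) u := by
    have h := ((hasDerivAt_id u).const_sub 1).log (by simpa using h2.ne')
    have e : (fun v : ℝ => Real.log (1 - v)) = fun v => Real.log (1 - id v) := rfl
    rw [e]
    refine h.congr_deriv ?_
    simp only [id]
    rw [neg_div, one_div]
  have dS : HasDerivAt (fun v : ℝ =>
        Real.exp (p * (a * Real.log v + b * Real.log (1 - v) - Real.log (smax a b))))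
      (Real.exp (p * (a * Real.log u + b * Real.log (1 - u) - Real.log (smax a b))) *
        (p * (a * u⁻¹ + b * (-(1 - u)⁻¹)))) u :=
    ((((dlog.const_mul a).add (dlog2.const_mul b)).sub_const _).const_mul p).exp
  have dden : HasDerivAt (fun v : ℝ => ust a b - v) (-1) u := by
    have h := (hasDerivAt_id u).const_sub (ust a b)
    exact h
  have dall := (dS.const_sub 1).fun_div dden hne'
  refine (dall.congr_of_eventuallyEq hev).congr_deriv ?_
  rw [← sexp ha hb hu]
  have hl : a * u⁻¹ + b * (-(1 - u)⁻¹) = (a + b) * (ust a b - u) / (u * (1 - u)) := by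
    rw [← lin ha hb]
    have hu' := h1.ne'
    have hu2 := h2.ne'
    field_simp
    ring
  rw [hl]
  have hu' := h1.ne'
  have hu2 := h2.ne'
  have h3 : (u - ust a b) ^ 2 = (ust a b - u) ^ 2 := by ring
  rw [h3]
  field_simp
  ring

private theorem hf_lim0 {a b p : ℝ} (ha : 0 < a) (hb : 0 < b) (hp : 0 < p) :
    Filter.Tendsto (hf a b p) (nhdsWithin 0 (Ioi 0)) (nhds (1 / ust a b)) := by
  obtain ⟨g0, g1⟩ := ust_mem ha hb
  have h1 : ContinuousAt (hf a b p) 0 := by
    unfold hf sfn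
    refine ContinuousAt.div ?_ (by fun_prop) (by simpa using g0.ne')
    refine continuousAt_const.sub (ContinuousAt.rpow_const (ContinuousAt.mul ?_ ?_) (Or.inr hp.le))
    · exact ContinuousAt.rpow_const (by fun_prop) (Or.inr ha.le)
    · exact ContinuousAt.rpow_const (by fun_prop) (Or.inr hb.le)
  have h2 := h1.tendsto
  have h3 : hf a b p 0 = 1 / ust a b := by
    unfold hf sfn
    rw [zero_div, Real.zero_rpow ha.ne', zero_mul, Real.zero_rpow hp.ne', sub_zero, sub_zero]
  rw [h3] at h2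
  exact h2.mono_left nhdsWithin_le_nhds

private theorem hf_lim1 {a b p : ℝ} (ha : 0 < a) (hb : 0 < b) (hp : 0 < p) :
    Filter.Tendsto (hf a b p) (nhdsWithin 1 (Iio 1)) (nhds (1 / (ust a b - 1))) := by
  obtain ⟨g0, g1⟩ := ust_mem ha hb
  have h1 : ContinuousAt (hf a b p) 1 := by
    unfold hf sfn
    refine ContinuousAt.div ?_ (by fun_prop) (by
      have : ust a b - 1 ≠ 0 := by linarith
      exact this)
    refine continuousAt_const.sub (ContinuousAt.rpow_const (ContinuousAt.mul ?_ ?_) (Or.inr hp.le))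
    · exact ContinuousAt.rpow_const (by fun_prop) (Or.inr ha.le)
    · exact ContinuousAt.rpow_const (by fun_prop) (Or.inr hb.le)
  have h2 := h1.tendsto
  have h3 : hf a b p 1 = 1 / (ust a b - 1) := by
    unfold hf sfn
    rw [sub_self, zero_div, Real.zero_rpow hb.ne', mul_zero, Real.zero_rpow hp.ne', sub_zero]
  rw [h3] at h2
  exact h2.mono_left nhdsWithin_le_nhds

private theorem hf_mid {a b p : ℝ} (ha : 0 < a) (hb : 0 < b) (hp : 0 < p) :
    Filter.Tendsto (hf a b p) (nhdsWithin (ust a b) {ust a b}ᶜ) (nhds 0) := by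
  obtain ⟨g0, g1⟩ := ust_mem ha hb
  have hc : Filter.Tendsto (fun u : ℝ => p * (a + b) * |ust a b - u| / (u * (1 - u)))
      (nhdsWithin (ust a b) {ust a b}ᶜ) (nhds 0) := by
    have h1 : ContinuousAt (fun u : ℝ => p * (a + b) * |ust a b - u| / (u * (1 - u))) (ust a b) := by
      refine ContinuousAt.div (by fun_prop) (by fun_prop) ?_
      exact mul_ne_zero g0.ne' (by linarith)
    have h2 := h1.tendsto
    simp only [sub_self, abs_zero, mul_zero, zero_div] at h2
    exact h2.mono_left nhdsWithin_le_nhds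
  refine squeeze_zero_norm' ?_ hc
  filter_upwards [self_mem_nhdsWithin, nhdsWithin_le_nhds (Ioo_mem_nhds g0 g1)] with u hu1 hu
  have h1 : 0 < u := hu.1
  have h2 : 0 < 1 - u := by linarith [hu.2]
  have h3 := one_sub_sfn_nonneg ha hb hu hp.le
  have h3' := one_sub_sfn_le ha hb hu hp.le
  have hne : ust a b - u ≠ 0 := by
    intro h
    apply hu1
    rw [mem_singleton_iff]
    linarith
  have habs : 0 < |ust a b - u| := abs_pos.2 hne
  unfold hf
  rw [norm_div, Real.norm_of_nonneg h3, Real.norm_eq_abs, div_le_iff₀ habs]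
  refine h3'.trans (le_of_eq ?_)
  rw [lin ha hb]
  have h4 : ((a + b) * (ust a b - u)) ^ 2 = (a + b) ^ 2 * (|ust a b - u| * |ust a b - u|) := by
    rw [abs_mul_abs_self]; ring
  rw [h4]
  field_simp

private theorem ftc {a b p : ℝ} (ha : 0 < a) (hb : 0 < b) (hp : 0 < p) :
    (∫ u in Ioo (0 : ℝ) 1, (1 - sfn a b u ^ p) / (u - ust a b) ^ 2) -
      ∫ u in Ioo (0 : ℝ) 1, (a + b) * p * sfn a b u ^ p / (u * (1 - u)) =
      1 / (ust a b - 1) - 1 / ust a b := by
  obtain ⟨g0, g1⟩ := ust_mem ha hb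
  have i1 := int1 ha hb hp
  have i2 := (int2 ha hb hp).1
  have i3 : IntervalIntegrable (fun u => (1 - sfn a b u ^ p) / (u - ust a b) ^ 2 -
      (a + b) * p * sfn a b u ^ p / (u * (1 - u))) volume 0 1 := by
    rw [intervalIntegrable_iff_integrableOn_Ioo_of_le zero_le_one]
    exact i1.sub i2
  have s1 : IntervalIntegrable (fun u => (1 - sfn a b u ^ p) / (u - ust a b) ^ 2 -
      (a + b) * p * sfn a b u ^ p / (u * (1 - u))) volume 0 (ust a b) := i3.mono_set (by
      rw [uIcc_of_le g0.le, uIcc_of_le zero_le_one]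
      exact Icc_subset_Icc le_rfl g1.le)
  have s2 : IntervalIntegrable (fun u => (1 - sfn a b u ^ p) / (u - ust a b) ^ 2 -
      (a + b) * p * sfn a b u ^ p / (u * (1 - u))) volume (ust a b) 1 := i3.mono_set (by
      rw [uIcc_of_le g1.le, uIcc_of_le zero_le_one]
      exact Icc_subset_Icc g0.le le_rfl)
  have j1 := intervalIntegral.integral_eq_sub_of_hasDerivAt_of_tendsto g0 (f := hf a b p)
    (fun x hx => hf_deriv ha hb ⟨hx.1, hx.2.trans g1⟩ hx.2.ne) s1 (hf_lim0 ha hb hp)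
    ((hf_mid ha hb hp).mono_left (nhdsWithin_mono _ (fun x hx => ne_of_lt hx)))
  have j2 := intervalIntegral.integral_eq_sub_of_hasDerivAt_of_tendsto g1 (f := hf a b p)
    (fun x hx => hf_deriv ha hb ⟨g0.trans hx.1, hx.2⟩ hx.1.ne') s2
    ((hf_mid ha hb hp).mono_left (nhdsWithin_mono _ (fun x hx => ne_of_gt hx)))
    (hf_lim1 ha hb hp)
  have j3 := intervalIntegral.integral_add_adjacent_intervals s1 s2
  rw [j1, j2, intervalIntegral.integral_of_le zero_le_one,
    MeasureTheory.integral_Ioc_eq_integral_Ioo, integral_sub i1 i2] at j3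
  linarith

private theorem kl_exp {a b : ℝ} (ha : 0 < a) (hb : 0 < b) (k : ℕ) {u : ℝ}
    (hu : u ∈ Ioo (0 : ℝ) 1) :
    Real.exp (-((a + b) * k * KL (a / (a + b)) u)) = sfn a b u ^ (k : ℝ) := by
  obtain ⟨g0, g1⟩ := ust_mem ha hb
  have h1 : 0 < u := hu.1
  have h2 : 0 < 1 - u := by linarith [hu.2]
  have h3 : 0 < 1 - ust a b := by linarith
  rw [sexp ha hb hu]
  congr 1
  have e1 : a / (a + b) = ust a b := rfl
  rw [e1]
  unfold KL smax
  rw [Real.log_div g0.ne' h1.ne', Real.log_div h3.ne' h2.ne',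
    Real.log_mul (Real.rpow_pos_of_pos g0 _).ne' (Real.rpow_pos_of_pos h3 _).ne',
    Real.log_rpow g0, Real.log_rpow h3]
  have e2 : (a + b) * ust a b = a := by unfold ust; field_simp
  have e3 : (a + b) * (1 - ust a b) = b := by rw [mul_sub, e2]; ring
  linear_combination (-(k : ℝ) * (Real.log (ust a b) - Real.log u)) * e2 +
    (-(k : ℝ) * (Real.log (1 - ust a b) - Real.log (1 - u))) * e3

theorem N_formula {a b : ℝ} (ha : 0 < a) (hb : 0 < b) {k : ℕ} (hk : 1 ≤ k) :
    IntegrableOn (fun u : ℝ => (1 - Real.exp (-((a + b) * k * KL (a / (a + b)) u))) /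
      (u - a / (a + b)) ^ 2) (Ioo 0 1) ∧
    Real.Gamma (a * k + 1) * Real.Gamma (b * k + 1) / Real.Gamma ((a + b) * k + 1) =
      ((a / (a + b)) ^ a * (b / (a + b)) ^ b) ^ k *
      (1 + a / (a + b) * (b / (a + b)) * ∫ u in Ioo (0 : ℝ) 1,
        (1 - Real.exp (-((a + b) * k * KL (a / (a + b)) u))) / (u - a / (a + b)) ^ 2) := by
  have hp : (0 : ℝ) < k := by exact_mod_cast hk
  obtain ⟨g0, g1⟩ := ust_mem ha hb
  have hc : 0 < a + b := by linarith
  have e1 : a / (a + b) = ust a b := rfl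
  have e2 : b / (a + b) = 1 - ust a b := by unfold ust; field_simp; ring
  have hcongr : ∀ u ∈ Ioo (0 : ℝ) 1, (1 - Real.exp (-((a + b) * k * KL (a / (a + b)) u))) /
      (u - a / (a + b)) ^ 2 = (1 - sfn a b u ^ (k : ℝ)) / (u - ust a b) ^ 2 := by
    intro u hu
    rw [kl_exp ha hb k hu, e1]
  refine ⟨IntegrableOn.congr_fun (int1 ha hb hp) (fun u hu => (hcongr u hu).symm)
    measurableSet_Ioo, ?_⟩
  rw [setIntegral_congr_fun measurableSet_Ioo hcongr]
  have h1 := ftc ha hb hp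
  rw [(int2 ha hb hp).2] at h1
  have hI : ∫ u in Ioo (0 : ℝ) 1, (1 - sfn a b u ^ (k : ℝ)) / (u - ust a b) ^ 2 =
      (a + b) * k * smax a b ^ (-(k : ℝ)) * (Real.Gamma (a * k) * Real.Gamma (b * k) /
        Real.Gamma ((a + b) * k)) + (1 / (ust a b - 1) - 1 / ust a b) := by linarith
  rw [hI]
  have hsm : 0 < smax a b := smax_pos ha hb
  have e3 : (a / (a + b)) ^ a * (b / (a + b)) ^ b = smax a b := by
    unfold smax
    rw [← e2, e1]
  rw [e3, Real.rpow_neg hsm.le, Real.rpow_natCast]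
  have hak : 0 < a * k := by positivity
  have hbk : 0 < b * k := by positivity
  have hck : 0 < (a + b) * k := by positivity
  rw [Real.Gamma_add_one hak.ne', Real.Gamma_add_one hbk.ne', Real.Gamma_add_one hck.ne']
  have hG : Real.Gamma ((a + b) * k) ≠ 0 := (Real.Gamma_pos_of_pos hck).ne'
  have hS : smax a b ^ k ≠ 0 := (pow_pos hsm k).ne'
  have e4 : 1 / (ust a b - 1) - 1 / ust a b = -((a + b) ^ 2 / (a * b)) := by
    unfold ust
    have h5 : a / (a + b) - 1 = -(b / (a + b)) := by field_simp; ring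
    rw [h5]
    field_simp
    ring
  rw [e4]
  have hab : a + b ≠ 0 := hc.ne'
  have hk0 : (k : ℝ) ≠ 0 := hp.ne'
  field_simp
  ring

end Pool.Agent.Lib.MP_8382de_an.ET
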