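import Pool.Agent.Lib.MP_8382de_an.ET.Defs

/-!
# ET.NUr: the level points of the Kullback-Leibler function

`0 < α < 1`, `β = 1-α`, `K(u) = KL α u = α log(α/u) + β log(β/(1-u))` on `(0,1)`:
`K'(u) = (u-α)/(u(1-u))`, `K(α) = 0`, `K` is strictly decreasing on `(0,α)`, strictly increasing on
`(α,1)`, `K → +∞` at `0` and `1`, continuous. So for `r > 0` there are unique `u_L(r) ∈ (0,α)`,
`u_R(r) ∈ (α,1)` with `K = r` (intermediate value), and `r < K(v) ↔ v < u_L` on `(0,α)`,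
`r < K(v) ↔ u_R < v` on `(α,1)`.

* `KL_lowL`: `K(u) = ∫_u^α (α-x)/(x(1-x)) dx ≥ ∫_u^α (α-x)/(α(1-u)) dx = (α-u)²/(2α(1-u))`.
  Without integrals: `φ(u) = K(u) - (α-u)²/(2α(1-u))` has `φ(α) = 0` and
  `φ' = (α-u) [ -1/(u(1-u)) + 1/(α(1-u)) - (α-u)/(2α(1-u)²) ] ≤ 0` on `(0,α)` (`u < α`).
* `KL_lowR`: the mirror image (`KL (1-α) (1-u) = KL α u`).
* `HL_mono`: `u ↦ K(u) (u/(α-u))²` is nondecreasing on `(0,α)`: derivative of the logarithm
  `-(α-u)/(u(1-u)K) + 2α/(u(α-u)) ≥ 0` iff `K ≥ (α-u)²/(2α(1-u))`.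
* `HR_mono`: `u ↦ K(u) ((1-u)/(u-α))²` is nonincreasing on `(α,1)` (mirror image).
-/

set_option autoImplicit false

namespace Pool.Agent.Lib.MP_8382de_an.ET

open Set

theorem KL_symm (α u : ℝ) : KL (1 - α) (1 - u) = KL α u := by
  unfold KL
  rw [sub_sub_cancel, sub_sub_cancel]
  ring

private theorem KL_hasDeriv {α u : ℝ} (h0 : 0 < α) (h1 : α < 1) (hu0 : 0 < u) (hu1 : u < 1) :
    HasDerivAt (KL α) ((u - α) / (u * (1 - u))) u := by
  have h2 : 0 < 1 - u := by linarith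
  have h3 : 0 < 1 - α := by linarith
  have e1 : HasDerivAt (fun x : ℝ => α * (Real.log α - Real.log x) +
      (1 - α) * (Real.log (1 - α) - Real.log (1 - x)))
      (α * (0 - u⁻¹) + (1 - α) * (0 - (-1) / (1 - u))) u := by
    refine HasDerivAt.add ?_ ?_
    · exact ((hasDerivAt_const u (Real.log α)).sub (Real.hasDerivAt_log hu0.ne')).const_mul α
    · refine ((hasDerivAt_const u (Real.log (1 - α))).sub ?_).const_mul (1 - α)
      have := ((hasDerivAt_const u (1 : ℝ)).sub (hasDerivAt_id u)).log h2.ne'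
      simpa using this
  have e2 : (u - α) / (u * (1 - u)) = α * (0 - u⁻¹) + (1 - α) * (0 - (-1) / (1 - u)) := by
    field_simp
    ring
  rw [e2]
  refine e1.congr_of_eventuallyEq ?_
  filter_upwards [Ioo_mem_nhds hu0 hu1] with x hx
  unfold KL
  have hx1 : 1 - x ≠ 0 := by
    have := hx.2
    linarith
  rw [Real.log_div h0.ne' hx.1.ne', Real.log_div h3.ne' hx1]

private theorem KL_self {α : ℝ} (h0 : 0 < α) (h1 : α < 1) : KL α α = 0 := by
  unfold KL
  have : 1 - α ≠ 0 := by linarith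
  rw [div_self h0.ne', div_self this, Real.log_one]
  ring

private theorem KL_cont {α : ℝ} (h0 : 0 < α) (h1 : α < 1) {s : Set ℝ} (hs : s ⊆ Ioo 0 1) :
    ContinuousOn (KL α) s := fun x hx =>
  (KL_hasDeriv h0 h1 (hs hx).1 (hs hx).2).continuousAt.continuousWithinAt

private theorem KL_anti {α : ℝ} (h0 : 0 < α) (h1 : α < 1) : StrictAntiOn (KL α) (Ioc 0 α) := by
  refine strictAntiOn_of_deriv_neg (convex_Ioc 0 α)
    (KL_cont h0 h1 fun x hx => ⟨hx.1, lt_of_le_of_lt hx.2 h1⟩) ?_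
  intro x hx
  rw [interior_Ioc] at hx
  have hx1 : x < 1 := hx.2.trans h1
  rw [(KL_hasDeriv h0 h1 hx.1 hx1).deriv]
  have a1 : 0 < x * (1 - x) := mul_pos hx.1 (by linarith)
  exact div_neg_of_neg_of_pos (by linarith [hx.2]) a1

theorem KL_nonneg {α u : ℝ} (h0 : 0 < α) (h1 : α < 1) (hu : u ∈ Ioo (0 : ℝ) 1) : 0 ≤ KL α u := by
  unfold KL
  have h2 : 0 < 1 - u := by linarith [hu.2]
  have h3 : 0 < 1 - α := by linarith
  have e1 : Real.log (α / u) = - Real.log (u / α) := by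
    rw [← Real.log_inv, inv_div]
  have e2 : Real.log ((1 - α) / (1 - u)) = - Real.log ((1 - u) / (1 - α)) := by
    rw [← Real.log_inv, inv_div]
  have a1 := Real.log_le_sub_one_of_pos (div_pos hu.1 h0)
  have a2 := Real.log_le_sub_one_of_pos (div_pos h2 h3)
  have b1 : α * Real.log (u / α) ≤ u - α := by
    calc α * Real.log (u / α) ≤ α * (u / α - 1) := mul_le_mul_of_nonneg_left a1 h0.le
      _ = u - α := by field_simp
  have b2 : (1 - α) * Real.log ((1 - u) / (1 - α)) ≤ (1 - u) - (1 - α) := by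
    calc (1 - α) * Real.log ((1 - u) / (1 - α)) ≤ (1 - α) * ((1 - u) / (1 - α) - 1) :=
          mul_le_mul_of_nonneg_left a2 h3.le
      _ = (1 - u) - (1 - α) := by field_simp
  rw [e1, e2]
  nlinarith

theorem uL_ex {α r : ℝ} (h0 : 0 < α) (h1 : α < 1) (hr : 0 < r) :
    ∃ u ∈ Ioo 0 α, KL α u = r ∧ ∀ v ∈ Ioo 0 α, (r < KL α v ↔ v < u) := by
  have h3 : 0 < 1 - α := by linarith
  have hlog : Real.log (1 - α) < 0 := Real.log_neg h3 (by linarith)
  set E : ℝ := (r + 1 - (1 - α) * Real.log (1 - α)) / α with hE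
  have hE0 : 0 < E := div_pos (by nlinarith) h0
  set u0 : ℝ := α * Real.exp (-E) with hu0
  have hu0pos : 0 < u0 := mul_pos h0 (Real.exp_pos _)
  have hu0lt : u0 < α := by
    have : Real.exp (-E) < 1 := by
      rw [Real.exp_lt_one_iff]
      linarith
    calc u0 < α * 1 := mul_lt_mul_of_pos_left this h0
      _ = α := mul_one α
  have hbig : r ≤ KL α u0 := by
    unfold KL
    have e1 : α / u0 = Real.exp E := by
      rw [hu0, Real.exp_neg]
      field_simp
    have e2 : Real.log (1 - α) ≤ Real.log ((1 - α) / (1 - u0)) := by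
      refine Real.log_le_log h3 ?_
      rw [le_div_iff₀ (by linarith)]
      nlinarith
    rw [e1, Real.log_exp]
    have e3 : α * E = r + 1 - (1 - α) * Real.log (1 - α) := by
      rw [hE]
      field_simp
    nlinarith [mul_le_mul_of_nonneg_left e2 h3.le]
  have hcont : ContinuousOn (KL α) (Icc u0 α) :=
    KL_cont h0 h1 fun x hx => ⟨lt_of_lt_of_le hu0pos hx.1, lt_of_le_of_lt hx.2 h1⟩
  obtain ⟨u, hu, hur⟩ := intermediate_value_Icc' hu0lt.le hcont
    (show r ∈ Icc (KL α α) (KL α u0) from ⟨by rw [KL_self h0 h1]; exact hr.le, hbig⟩)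
  have huα : u < α := by
    refine lt_of_le_of_ne hu.2 ?_
    rintro rfl
    rw [KL_self h0 h1] at hur
    exact hr.ne hur
  have hupos : 0 < u := lt_of_lt_of_le hu0pos hu.1
  refine ⟨u, ⟨hupos, huα⟩, hur, fun v hv => ?_⟩
  rw [← hur]
  exact (KL_anti h0 h1).lt_iff_gt ⟨hupos, huα.le⟩ ⟨hv.1, hv.2.le⟩

theorem uR_ex {α r : ℝ} (h0 : 0 < α) (h1 : α < 1) (hr : 0 < r) :
    ∃ u ∈ Ioo α 1, KL α u = r ∧ ∀ v ∈ Ioo α 1, (r < KL α v ↔ u < v) := by
  obtain ⟨u, hu, hur, huv⟩ := uL_ex (α := 1 - α) (by linarith) (by linarith) hr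
  refine ⟨1 - u, ⟨by linarith [hu.2], by linarith [hu.1]⟩, ?_, fun v hv => ?_⟩
  · have := KL_symm (1 - α) u
    rw [sub_sub_cancel] at this
    rw [this, hur]
  · have h2 := huv (1 - v) ⟨by linarith [hv.2], by linarith [hv.1]⟩
    rw [KL_symm] at h2
    rw [h2]
    constructor
    · intro h
      linarith
    · intro h
      linarith

theorem KL_lowL {α u : ℝ} (h0 : 0 < α) (h1 : α < 1) (hu : u ∈ Ioo 0 α) :
    (α - u) ^ 2 / (2 * α * (1 - u)) ≤ KL α u := by
  have hd : ∀ x ∈ Ioo (0 : ℝ) 1, HasDerivAt (fun x : ℝ => KL α x - (α - x) ^ 2 / (2 * α * (1 - x)))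
      ((x - α) / (x * (1 - x)) -
        (2 * (α - x) * (-1) * (2 * α * (1 - x)) - (α - x) ^ 2 * (2 * α * (-1))) /
          (2 * α * (1 - x)) ^ 2) x := by
    intro x hx
    have hx1 : 0 < 1 - x := by linarith [hx.2]
    refine (KL_hasDeriv h0 h1 hx.1 hx.2).sub ?_
    have g1 : HasDerivAt (fun x : ℝ => (α - x) ^ 2) (2 * (α - x) * (-1)) x := by
      have := ((hasDerivAt_id' x).const_sub α).fun_pow 2
      simpa using this
    have g2 : HasDerivAt (fun x : ℝ => 2 * α * (1 - x)) (2 * α * (-1)) x := by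
      have := (((hasDerivAt_const x (1 : ℝ)).sub (hasDerivAt_id x)).const_mul (2 * α))
      simpa using this
    exact g1.div g2 (by positivity)
  have hanti : AntitoneOn (fun x : ℝ => KL α x - (α - x) ^ 2 / (2 * α * (1 - x))) (Ioc 0 α) := by
    refine antitoneOn_of_deriv_nonpos (convex_Ioc 0 α) ?_ ?_ ?_
    · intro x hx
      exact (hd x ⟨hx.1, lt_of_le_of_lt hx.2 h1⟩).continuousAt.continuousWithinAt
    · intro x hx
      rw [interior_Ioc] at hx
      exact (hd x ⟨hx.1, hx.2.trans h1⟩).differentiableAt.differentiableWithinAt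
    · intro x hx
      rw [interior_Ioc] at hx
      rw [(hd x ⟨hx.1, hx.2.trans h1⟩).deriv]
      have hx0 := hx.1
      have hx1 : 0 < 1 - x := by linarith [hx.2]
      have hxα : 0 < α - x := by linarith [hx.2]
      have e1 : (x - α) / (x * (1 - x)) -
        (2 * (α - x) * (-1) * (2 * α * (1 - x)) - (α - x) ^ 2 * (2 * α * (-1))) /
          (2 * α * (1 - x)) ^ 2 =
          -((α - x) * (2 * (α - x) * (1 - x) + x * (α - x)) / (2 * α * x * (1 - x) ^ 2)) := by
        field_simp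
        ring
      rw [e1, neg_nonpos]
      positivity
  have h2 := hanti ⟨hu.1, hu.2.le⟩ ⟨h0, le_refl α⟩ hu.2.le
  simp only [KL_self h0 h1, sub_self] at h2
  have h3 : (0 : ℝ) ^ 2 / (2 * α * (1 - α)) = 0 := by
    rw [zero_pow (by norm_num), zero_div]
  rw [h3, sub_zero] at h2
  linarith

theorem HL_mono {α u v : ℝ} (h0 : 0 < α) (h1 : α < 1) (hu : 0 < u) (huv : u ≤ v) (hv : v < α) :
    KL α u * (u / (α - u)) ^ 2 ≤ KL α v * (v / (α - v)) ^ 2 := by
  have hd : ∀ x ∈ Ioo (0 : ℝ) α, HasDerivAt (fun x : ℝ => KL α x * (x / (α - x)) ^ 2)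
      ((x - α) / (x * (1 - x)) * (x / (α - x)) ^ 2 +
        KL α x * (2 * (x / (α - x)) * ((1 * (α - x) - x * (-1)) / (α - x) ^ 2))) x := by
    intro x hx
    have hx1 : x < 1 := hx.2.trans h1
    have hxα : 0 < α - x := by linarith [hx.2]
    refine (KL_hasDeriv h0 h1 hx.1 hx1).mul ?_
    have g1 : HasDerivAt (fun x : ℝ => x / (α - x)) ((1 * (α - x) - x * (-1)) / (α - x) ^ 2) x := by
      refine (hasDerivAt_id' x).div ?_ hxα.ne'
      exact (hasDerivAt_id' x).const_sub α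
    have := g1.fun_pow 2
    simpa using this
  have hmono : MonotoneOn (fun x : ℝ => KL α x * (x / (α - x)) ^ 2) (Ioo 0 α) := by
    refine monotoneOn_of_deriv_nonneg (convex_Ioo 0 α) ?_ ?_ ?_
    · intro x hx
      exact (hd x hx).continuousAt.continuousWithinAt
    · intro x hx
      rw [interior_Ioo] at hx
      exact (hd x hx).differentiableAt.differentiableWithinAt
    · intro x hx
      rw [interior_Ioo] at hx
      rw [(hd x hx).deriv]
      have hx0 := hx.1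
      have hx1 : 0 < 1 - x := by linarith [hx.2]
      have hxα : 0 < α - x := by linarith [hx.2]
      have hK := KL_lowL h0 h1 hx
      have e1 : (x - α) / (x * (1 - x)) * (x / (α - x)) ^ 2 +
        KL α x * (2 * (x / (α - x)) * ((1 * (α - x) - x * (-1)) / (α - x) ^ 2)) =
          2 * α * x / (α - x) ^ 3 * (KL α x - (α - x) ^ 2 / (2 * α * (1 - x))) := by
        field_simp
        ring
      rw [e1]
      exact mul_nonneg (by positivity) (by linarith)
  exact hmono ⟨hu, lt_of_le_of_lt huv hv⟩ ⟨lt_of_lt_of_le hu huv, hv⟩ huv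

theorem HR_mono {α u v : ℝ} (h0 : 0 < α) (h1 : α < 1) (hu : α < u) (huv : u ≤ v) (hv : v < 1) :
    KL α v * ((1 - v) / (v - α)) ^ 2 ≤ KL α u * ((1 - u) / (u - α)) ^ 2 := by
  have h := HL_mono (α := 1 - α) (u := 1 - v) (v := 1 - u) (by linarith) (by linarith)
    (by linarith) (by linarith) (by linarith)
  rw [KL_symm, KL_symm] at h
  have e1 : 1 - α - (1 - v) = v - α := by ring
  have e2 : 1 - α - (1 - u) = u - α := by ring
  rw [e1, e2] at h
  exact h

/-- left level point -/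
noncomputable def uL (α r : ℝ) : ℝ :=
  if h : 0 < α ∧ α < 1 ∧ 0 < r then (uL_ex h.1 h.2.1 h.2.2).choose else 0

/-- right level point -/
noncomputable def uR (α r : ℝ) : ℝ :=
  if h : 0 < α ∧ α < 1 ∧ 0 < r then (uR_ex h.1 h.2.1 h.2.2).choose else 1

theorem uL_spec {α r : ℝ} (h0 : 0 < α) (h1 : α < 1) (hr : 0 < r) :
    uL α r ∈ Ioo 0 α ∧ KL α (uL α r) = r ∧ ∀ v ∈ Ioo 0 α, (r < KL α v ↔ v < uL α r) := by
  unfold uL
  rw [dif_pos ⟨h0, h1, hr⟩]
  exact (uL_ex h0 h1 hr).choose_spec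

theorem uR_spec {α r : ℝ} (h0 : 0 < α) (h1 : α < 1) (hr : 0 < r) :
    uR α r ∈ Ioo α 1 ∧ KL α (uR α r) = r ∧ ∀ v ∈ Ioo α 1, (r < KL α v ↔ uR α r < v) := by
  unfold uR
  rw [dif_pos ⟨h0, h1, hr⟩]
  exact (uR_ex h0 h1 hr).choose_spec

/-- the tail `αβ ∫_{KL > r} du/(u-α)²` -/
noncomputable def nu (α r : ℝ) : ℝ :=
  (1 - α) * (uL α r / (α - uL α r)) + α * ((1 - uR α r) / (uR α r - α))

end Pool.Agent.Lib.MP_8382de_an.ET
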