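import Pool.Agent.Lib.MP_8382de_an.ET.Lay

/-!
# ET.Per: the perturbed function on the imaginary axis

Proof. Let `A = Re(e^(-iπ/4) e^(-iτ) V0 n (iτ))` and `q` the total mass. `lay` with `x = e^(-t/2)`
(`t > 0` for `σ_i`-almost every `t`, by `h₁ h₂`) gives `|V0 n (e^(-t/2) iτ)| ≤ (9/5) A`, and with
`x = 0` (`V0 n 0 = 1`) it gives `5/9 ≤ A`. Hence, by `norm_integral_le_of_norm_le_const`,
`Re(e^(-iπ/4) e^(-iτ) VV(iτ)) ≥ A - (9/5) A q = (9/5) A (5/9 - q) ≥ 5/9 - q`.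
(No integrability is needed: the norm bound of the Bochner integral holds anyway.)
-/

set_option autoImplicit false

namespace Pool.Agent.Lib.MP_8382de_an.ET

open MeasureTheory Set

private theorem Per_aepos {σ : Measure ℝ} (h : σ (Iic 0) = 0) : ∀ᵐ t ∂σ, 0 < t := by
  have h1 : ∀ᵐ t ∂σ, t ∉ Iic (0 : ℝ) := measure_eq_zero_iff_ae_notMem.1 h
  filter_upwards [h1] with t ht
  simpa using ht

private theorem Per_V0_zero (n : ℝ → ℝ) : V0 n 0 = 1 := by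
  unfold V0
  simp

theorem pert {n : ℝ → ℝ} (hn : Cls n) {σ₁ σ₂ : Measure ℝ} [IsFiniteMeasure σ₁]
    [IsFiniteMeasure σ₂] (h₁ : σ₁ (Iic 0) = 0) (h₂ : σ₂ (Iic 0) = 0)
    (hq : σ₁.real univ + σ₂.real univ < 5 / 9) {τ : ℝ} (hτ : 0 < τ) :
    5 / 9 - (σ₁.real univ + σ₂.real univ) ≤
      (Complex.exp (-((Real.pi / 4 : ℝ) : ℂ) * Complex.I) *
        (Complex.exp (-((τ : ℂ) * Complex.I)) * VV n σ₁ σ₂ ((τ : ℂ) * Complex.I))).re := by
  set c : ℂ := Complex.exp (-((Real.pi / 4 : ℝ) : ℂ) * Complex.I) with hc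
  set u : ℂ := Complex.exp (-((τ : ℂ) * Complex.I)) with hu
  set A : ℝ := (c * (u * V0 n ((τ : ℂ) * Complex.I))).re with hA
  have hcn : ‖c‖ = 1 := by
    rw [hc, Complex.norm_exp]
    simp
  have hun : ‖u‖ = 1 := by
    rw [hu, Complex.norm_exp]
    simp
  have hA0 : 5 / 9 ≤ A := by
    have h := lay hn (x := 0) hτ le_rfl zero_le_one
    have e : (((0 : ℝ) * τ : ℝ) : ℂ) * Complex.I = 0 := by simp
    rw [e, Per_V0_zero, norm_one, mul_one] at h
    exact h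
  have hb : ∀ t : ℝ, 0 < t →
      ‖V0 n (((Real.exp (-t / 2) : ℝ) : ℂ) * ((τ : ℂ) * Complex.I))‖ ≤ 9 / 5 * A := by
    intro t ht
    have hx1 : Real.exp (-t / 2) ≤ 1 := by
      rw [Real.exp_le_one_iff]; linarith
    have h := lay hn hτ (Real.exp_pos (-t / 2)).le hx1
    have e : (((Real.exp (-t / 2)) * τ : ℝ) : ℂ) * Complex.I =
        ((Real.exp (-t / 2) : ℝ) : ℂ) * ((τ : ℂ) * Complex.I) := by
      push_cast; ring
    rw [e] at h
    rw [← hc, ← hu, ← hA] at h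
    linarith
  have hI : ∀ σ : Measure ℝ, IsFiniteMeasure σ → σ (Iic 0) = 0 →
      ‖∫ t, V0 n (((Real.exp (-t / 2) : ℝ) : ℂ) * ((τ : ℂ) * Complex.I)) ∂σ‖ ≤
        9 / 5 * A * σ.real univ := by
    intro σ hσ h
    apply norm_integral_le_of_norm_le_const
    filter_upwards [Per_aepos h] with t ht using hb t ht
  have hI1 := hI σ₁ inferInstance h₁
  have hI2 := hI σ₂ inferInstance h₂
  have hre : ∀ z : ℂ, |(c * (u * z)).re| ≤ ‖z‖ := by
    intro z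
    refine (Complex.abs_re_le_norm _).trans ?_
    rw [norm_mul, norm_mul, hcn, hun]
    simp
  have hsplit : (c * (u * VV n σ₁ σ₂ ((τ : ℂ) * Complex.I))).re = A +
      (c * (u * ∫ t, V0 n (((Real.exp (-t / 2) : ℝ) : ℂ) * ((τ : ℂ) * Complex.I)) ∂σ₁)).re -
      (c * (u * ∫ t, V0 n (((Real.exp (-t / 2) : ℝ) : ℂ) * ((τ : ℂ) * Complex.I)) ∂σ₂)).re := by
    rw [hA, ← Complex.add_re, ← Complex.sub_re]
    congr 1
    unfold VV
    ring
  rw [hsplit]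
  have h3 := (abs_le.1 ((hre _).trans hI1)).1
  have h4 := (abs_le.1 ((hre _).trans hI2)).2
  have hq0 : 0 ≤ σ₁.real univ + σ₂.real univ := add_nonneg measureReal_nonneg measureReal_nonneg
  set q : ℝ := σ₁.real univ + σ₂.real univ with hqdef
  have h5 : A - 9 / 5 * A * q ≤ A +
      (c * (u * ∫ t, V0 n (((Real.exp (-t / 2) : ℝ) : ℂ) * ((τ : ℂ) * Complex.I)) ∂σ₁)).re -
      (c * (u * ∫ t, V0 n (((Real.exp (-t / 2) : ℝ) : ℂ) * ((τ : ℂ) * Complex.I)) ∂σ₂)).re := by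
    have : 9 / 5 * A * q = 9 / 5 * A * σ₁.real univ + 9 / 5 * A * σ₂.real univ := by
      rw [hqdef]; ring
    linarith
  refine le_trans ?_ h5
  have h6 : 0 ≤ (A - 5 / 9) * (5 / 9 - q) := mul_nonneg (by linarith) (by linarith)
  nlinarith

end Pool.Agent.Lib.MP_8382de_an.ET
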