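import Pool.Agent.Lib.MP_8382de_an.ET.MaS
import Pool.Agent.Lib.MP_8382de_an.ET.EIn

/-!
# ET.ReC: the Gamma quotient as an exponential

There is a real `h` with, for all `z`, `Re z ≥ 0`,
`exp ∫_0^∞ (1-e^(-zt)) EE(t)/t dt
  = e^(hz) Γ(1+mz) Γ(1+2z) Γ(1+2ez) / (Γ(1+z) Γ(1+ez) Γ(1+(m+1+e)z))`.

Proof. `malmstenS` for `β = m, 2, 2e` (factor `+`) and `β = 1, e, m+1+e` (factor `-`): the quotient of
the Gammas is `exp` of the combination of the integrals, which is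
`∫ [ z D(t) + (1-e^(-zt)) EE(t) ] / t dt`, where
`D(t) = m e^(-t/m) + 2 e^(-t/2) + 2e e^(-t/(2e)) - e^(-t) - e e^(-t/e) - (m+1+e) e^(-t/(m+1+e))`
(the sign of `(1-e^(-zt)) XX β` in `malmstenS` is `-`, so the combination is
`-(XX m + XX 2 + XX (2e)) + XX 1 + XX e + XX (m+1+e) = EE`). `(1-e^(-zt)) EE(t)/t` is integrable
(`EE_int`, `|1-e^(-zt)| ≤ 2`), so `z D(t)/t` is integrable too; with `h = -∫ D(t)/t dt` (real; take
`z = 1`) the claim follows. `Γ ≠ 0`: `Complex.Gamma_ne_zero_of_re_pos`.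
-/

set_option autoImplicit false

namespace Pool.Agent.Lib.MP_8382de_an.ET

open MeasureTheory Set

private noncomputable def reC_Psi (β : ℝ) (z : ℂ) (t : ℝ) : ℂ :=
  ((β : ℂ) * z * ((Real.exp (-(t / β)) : ℝ) : ℂ) -
      (1 - Complex.exp (-(z * (t : ℂ)))) * ((XX β t : ℝ) : ℂ)) / (t : ℂ)

private theorem reC_int {β : ℝ} (hβ : 0 < β) {z : ℂ} (hz : 0 ≤ z.re) :
    IntegrableOn (reC_Psi β z) (Ioi 0) := (malmstenS hβ hz).1

private theorem reC_gamma {β : ℝ} (hβ : 0 < β) {z : ℂ} (hz : 0 ≤ z.re) :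
    Complex.Gamma (1 + (β : ℂ) * z) = Complex.exp (∫ t in Ioi (0 : ℝ), reC_Psi β z t) :=
  (malmstenS hβ hz).2

private noncomputable def reC_D (m e t : ℝ) : ℝ :=
  m * Real.exp (-(t / m)) + 2 * Real.exp (-(t / 2)) + 2 * e * Real.exp (-(t / (2 * e))) -
    1 * Real.exp (-(t / 1)) - e * Real.exp (-(t / e)) -
    (m + 1 + e) * Real.exp (-(t / (m + 1 + e)))

private noncomputable def reC_W (m e : ℝ) (z : ℂ) (t : ℝ) : ℂ :=
  (1 - Complex.exp (-(z * (t : ℂ)))) * ((EE m e t / t : ℝ) : ℂ)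

private theorem reC_pt (m e : ℝ) (z : ℂ) (t : ℝ) :
    reC_Psi m z t + reC_Psi 2 z t + reC_Psi (2 * e) z t - reC_Psi 1 z t - reC_Psi e z t -
      reC_Psi (m + 1 + e) z t = z * ((reC_D m e t / t : ℝ) : ℂ) + reC_W m e z t := by
  unfold reC_Psi reC_D reC_W EE
  push_cast
  ring

private theorem reC_W_int {m e : ℝ} (hm : 0 < m) (he : 0 < e) {z : ℂ} (hz : 0 ≤ z.re) :
    IntegrableOn (reC_W m e z) (Ioi 0) := by
  have h1 : Integrable (fun t : ℝ => ((EE m e t / t : ℝ) : ℂ)) (volume.restrict (Ioi 0)) :=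
    (EE_int hm he).ofReal
  refine Integrable.bdd_mul (c := 2) h1 ?_ ?_
  · exact Continuous.aestronglyMeasurable (by fun_prop)
  · refine (ae_restrict_iff' measurableSet_Ioi).mpr (Filter.Eventually.of_forall fun t ht => ?_)
    have ht' : (0 : ℝ) < t := ht
    have h2 : ‖Complex.exp (-(z * (t : ℂ)))‖ ≤ 1 := by
      rw [Complex.norm_exp]
      refine Real.exp_le_one_iff.mpr ?_
      have : (-(z * (t : ℂ))).re = -(z.re * t) := by simp
      rw [this]
      have := mul_nonneg hz ht'.le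
      linarith
    calc ‖1 - Complex.exp (-(z * (t : ℂ)))‖ ≤ ‖(1 : ℂ)‖ + ‖Complex.exp (-(z * (t : ℂ)))‖ :=
          norm_sub_le _ _
      _ ≤ 1 + 1 := by rw [norm_one]; linarith
      _ = 2 := by norm_num

theorem repC {m e : ℝ} (hm : 0 < m) (he : 0 < e) : ∃ h : ℝ, ∀ z : ℂ, 0 ≤ z.re →
    Complex.exp (∫ t in Ioi (0 : ℝ), (1 - Complex.exp (-(z * (t : ℂ)))) * ((EE m e t / t : ℝ) : ℂ)) =
      Complex.exp ((h : ℂ) * z) * (Complex.Gamma (1 + (m : ℂ) * z) * Complex.Gamma (1 + 2 * z) *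
        Complex.Gamma (1 + ((2 * e : ℝ) : ℂ) * z)) /
        (Complex.Gamma (1 + z) * Complex.Gamma (1 + (e : ℂ) * z) *
          Complex.Gamma (1 + ((m + 1 + e : ℝ) : ℂ) * z)) := by
  refine ⟨-∫ t in Ioi (0 : ℝ), reC_D m e t / t, fun z hz => ?_⟩
  have h2e : 0 < 2 * e := by linarith
  have hme : 0 < m + 1 + e := by linarith
  have i1 := reC_int hm hz
  have i2 := reC_int (two_pos (α := ℝ)) hz
  have i3 := reC_int h2e hz
  have i4 := reC_int (one_pos (α := ℝ)) hz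
  have i5 := reC_int he hz
  have i6 := reC_int hme hz
  have iW := reC_W_int hm he hz
  have iS : IntegrableOn (fun t => reC_Psi m z t + reC_Psi 2 z t + reC_Psi (2 * e) z t -
      reC_Psi 1 z t - reC_Psi e z t - reC_Psi (m + 1 + e) z t) (Ioi 0) :=
    ((((i1.add i2).add i3).sub i4).sub i5).sub i6
  have iR : IntegrableOn (fun t => z * ((reC_D m e t / t : ℝ) : ℂ)) (Ioi 0) := by
    have : (fun t => z * ((reC_D m e t / t : ℝ) : ℂ)) = fun t =>
        (reC_Psi m z t + reC_Psi 2 z t + reC_Psi (2 * e) z t -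
          reC_Psi 1 z t - reC_Psi e z t - reC_Psi (m + 1 + e) z t) - reC_W m e z t := by
      funext t
      rw [reC_pt]; ring
    rw [this]
    exact iS.sub iW
  have hsum : (∫ t in Ioi (0 : ℝ), reC_Psi m z t) + (∫ t in Ioi (0 : ℝ), reC_Psi 2 z t) +
      (∫ t in Ioi (0 : ℝ), reC_Psi (2 * e) z t) - (∫ t in Ioi (0 : ℝ), reC_Psi 1 z t) -
      (∫ t in Ioi (0 : ℝ), reC_Psi e z t) - (∫ t in Ioi (0 : ℝ), reC_Psi (m + 1 + e) z t) =
      z * ((∫ t in Ioi (0 : ℝ), reC_D m e t / t : ℝ) : ℂ) +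
        ∫ t in Ioi (0 : ℝ), reC_W m e z t := by
    have e1 : (∫ t in Ioi (0 : ℝ), z * ((reC_D m e t / t : ℝ) : ℂ)) =
        z * ((∫ t in Ioi (0 : ℝ), reC_D m e t / t : ℝ) : ℂ) := by
      rw [integral_const_mul, integral_complex_ofReal]
    rw [← e1, ← integral_add iR iW]
    have e2 : (∫ t in Ioi (0 : ℝ), (z * ((reC_D m e t / t : ℝ) : ℂ) + reC_W m e z t)) =
        ∫ t in Ioi (0 : ℝ), (reC_Psi m z t + reC_Psi 2 z t + reC_Psi (2 * e) z t -
          reC_Psi 1 z t - reC_Psi e z t - reC_Psi (m + 1 + e) z t) := by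
      congr 1
      funext t
      rw [reC_pt]
    rw [e2]
    have s1 := integral_sub ((((i1.add i2).add i3).sub i4).sub i5) i6
    have s2 := integral_sub (((i1.add i2).add i3).sub i4) i5
    have s3 := integral_sub ((i1.add i2).add i3) i4
    have s4 := integral_add (i1.add i2) i3
    have s5 := integral_add i1 i2
    simp only [Pi.add_apply, Pi.sub_apply] at s1 s2 s3 s4 s5
    rw [s1, s2, s3, s4, s5]
  have g1 := reC_gamma hm hz
  have g2 := reC_gamma (two_pos (α := ℝ)) hz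
  have g3 := reC_gamma h2e hz
  have g4 := reC_gamma (one_pos (α := ℝ)) hz
  have g5 := reC_gamma he hz
  have g6 := reC_gamma hme hz
  have c2 : ((2 : ℝ) : ℂ) * z = 2 * z := by push_cast; ring
  have c1 : ((1 : ℝ) : ℂ) * z = z := by push_cast; ring
  rw [c2] at g2
  rw [c1] at g4
  rw [g1, g2, g3, g4, g5, g6]
  change Complex.exp (∫ t in Ioi (0 : ℝ), reC_W m e z t) = _
  rw [← Complex.exp_add, ← Complex.exp_add, ← Complex.exp_add, ← Complex.exp_add, ← Complex.exp_add,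
    ← Complex.exp_sub]
  congr 1
  push_cast
  linear_combination -hsum

end Pool.Agent.Lib.MP_8382de_an.ET
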