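import Pool.Agent.Lib.MP_8382de_an.ET.Defs

/-!
# ET.SMe: `sinh(πpw)/sinh(πqw)` is a characteristic function (`0 ≤ p ≤ q`)

There is a finite measure `A` on `ℝ` with `charFun A w = sinh(πpw)/sinh(πqw)` for all `w ≠ 0`.

Proof. `p = 0`: `A = 0`. `p = q`: Dirac at `0`. Let `0 < p < q`.
* `lap λ` (`λ > 0`): a probability measure with `charFun = λ²/(λ²+w²)`: e.g. the convolution of the
  exponential law (density `λ e^(-λt)` on `(0,∞)`, charFun `λ/(λ-iw)`) with its reflection, or the
  density `(λ/2) e^(-λ|t|)`.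
* For `j ≥ 1` the probability measure `(p²/q²) δ_0 + (1-p²/q²) lap(j/q)` has charFun
  `p²/q² + (1-p²/q²)/(1+q²w²/j²) = (1+p²w²/j²)/(1+q²w²/j²)`.
* `μ_n` = convolution of these for `j = 1..n` (`charFun_conv`):
  `charFun μ_n w = ∏_{j=1}^n (1+p²w²/j²)/(1+q²w²/j²)`.
* Euler (`Complex.tendsto_euler_sin_prod` at `z = ipw` and `iqw`, `sin(πipw) = i sinh(πpw)`):
  `charFun μ_n w → (q/p) sinh(πpw)/sinh(πqw)` for `w ≠ 0`, and `→ 1` for `w = 0`. The limit function
  (value `1` at `0`) is continuous at `0`.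
* Levy: `isTightMeasureSet_of_tendsto_charFun` (Mathlib.MeasureTheory.Measure.LevyConvergence), then
  Prokhorov (Mathlib.MeasureTheory.Measure.Prokhorov, compactness of the closure of a tight set in
  `ProbabilityMeasure ℝ`) gives a weakly convergent subsequence with limit `μ`; its charFun is the
  limit of the charFuns (`ProbabilityMeasure.tendsto_iff_tendsto_charFun`). `A = (p/q) • μ`.
-/

set_option autoImplicit false

namespace Pool.Agent.Lib.MP_8382de_an.ET

open MeasureTheory Set Filter Topology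

private theorem sme_exp {L : ℝ} (hL : 0 < L) (w : ℝ) :
    charFun (ProbabilityTheory.expMeasure L) w = (L : ℂ) / ((L : ℂ) - (w : ℂ) * Complex.I) := by
  have hmeas : Measurable (ProbabilityTheory.gammaPDF 1 L) := by
    unfold ProbabilityTheory.gammaPDF
    exact (ProbabilityTheory.measurable_gammaPDFReal 1 L).ennreal_ofReal
  rw [charFun_apply_real, ProbabilityTheory.expMeasure, ProbabilityTheory.gammaMeasure,
    integral_withDensity_eq_integral_toReal_smul hmeas
      (ae_of_all _ fun x => by simp [ProbabilityTheory.gammaPDF])]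
  have h1 : (fun x : ℝ => (ProbabilityTheory.gammaPDF 1 L x).toReal •
      Complex.exp ((w : ℂ) * x * Complex.I)) =
      (Ici (0 : ℝ)).indicator (fun x : ℝ => (L : ℂ) * Complex.exp ((-(L : ℂ) + w * Complex.I) * x)) := by
    funext x
    by_cases hx : 0 ≤ x
    · rw [indicator_of_mem (show x ∈ Ici (0 : ℝ) from hx)]
      rw [ProbabilityTheory.gammaPDF_of_nonneg hx, ENNReal.toReal_ofReal (by
        rw [Real.Gamma_one]; positivity)]
      simp only [Real.rpow_one, Real.Gamma_one, div_one, sub_self, Real.rpow_zero, mul_one]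
      rw [Complex.real_smul]
      push_cast
      rw [mul_assoc, ← Complex.exp_add]
      congr 2
      ring
    · rw [indicator_of_notMem (show x ∉ Ici (0 : ℝ) from hx)]
      rw [ProbabilityTheory.gammaPDF_of_neg (lt_of_not_ge hx)]
      simp
  rw [h1, integral_indicator measurableSet_Ici, integral_Ici_eq_integral_Ioi, integral_const_mul,
    integral_exp_mul_complex_Ioi (by simpa using hL)]
  have h2 : (L : ℂ) - w * Complex.I ≠ 0 := by
    intro h
    have := congrArg Complex.re h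
    simp at this
    exact hL.ne' this
  have h3 : -(L : ℂ) + w * Complex.I ≠ 0 := by
    intro h
    apply h2
    linear_combination -h
  simp only [Complex.ofReal_zero, mul_zero, Complex.exp_zero]
  field_simp
  ring

/-- a probability measure with characteristic function `L²/(L²+w²)` -/
private theorem sme_lap {L : ℝ} (hL : 0 < L) : ∃ μ : Measure ℝ, IsProbabilityMeasure μ ∧
    ∀ w : ℝ, charFun μ w = ((L ^ 2 / (L ^ 2 + w ^ 2) : ℝ) : ℂ) := by
  have hp := ProbabilityTheory.isProbabilityMeasure_expMeasure hL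
  have hm : Measurable (fun x : ℝ => (-1 : ℝ) * x) := measurable_const_mul _
  have hq : IsProbabilityMeasure ((ProbabilityTheory.expMeasure L).map (fun x : ℝ => (-1 : ℝ) * x)) :=
    Measure.isProbabilityMeasure_map hm.aemeasurable
  refine ⟨(ProbabilityTheory.expMeasure L) ∗
    ((ProbabilityTheory.expMeasure L).map (fun x : ℝ => (-1 : ℝ) * x)), inferInstance, fun w => ?_⟩
  rw [charFun_conv, charFun_map_mul, sme_exp hL, sme_exp hL]
  have h2 : (L : ℂ) - w * Complex.I ≠ 0 := by
    intro h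
    have := congrArg Complex.re h
    simp at this
    exact hL.ne' this
  have h3 : (L : ℂ) - ((-1 * w : ℝ) : ℂ) * Complex.I ≠ 0 := by
    intro h
    have := congrArg Complex.re h
    simp at this
    exact hL.ne' this
  have h4 : ((L : ℂ) ^ 2 + (w : ℂ) ^ 2) ≠ 0 := by
    have : (0 : ℝ) < L ^ 2 + w ^ 2 := by positivity
    have h5 : ((L ^ 2 + w ^ 2 : ℝ) : ℂ) ≠ 0 := by exact_mod_cast this.ne'
    push_cast at h5
    exact h5
  push_cast
  push_cast at h3
  rw [div_mul_div_comm, div_eq_div_iff (mul_ne_zero h2 h3) h4]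
  linear_combination ((L : ℂ) ^ 2 * (w : ℂ) ^ 2) * Complex.I_sq

/-- mixtures -/
private theorem sme_mix {a L : ℝ} (ha : 0 ≤ a) (ha1 : a ≤ 1) (hL : 0 < L) : ∃ μ : Measure ℝ,
    IsProbabilityMeasure μ ∧
    ∀ w : ℝ, charFun μ w = ((a + (1 - a) * (L ^ 2 / (L ^ 2 + w ^ 2)) : ℝ) : ℂ) := by
  obtain ⟨ν, hν, hc⟩ := sme_lap hL
  have h1 : IsProbabilityMeasure (ENNReal.ofReal a • Measure.dirac (0 : ℝ) + ENNReal.ofReal (1 - a) • ν) := by
    constructor
    simp only [Measure.coe_add, Measure.coe_smul, Pi.add_apply, Pi.smul_apply, measure_univ, smul_eq_mul,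
      mul_one]
    rw [← ENNReal.ofReal_add ha (by linarith)]
    simp
  refine ⟨_, h1, fun w => ?_⟩
  have hb : ∀ μ : Measure ℝ, IsFiniteMeasure μ →
      Integrable (fun x : ℝ => Complex.exp ((w : ℂ) * x * Complex.I)) μ := by
    intro μ hμ
    refine (integrable_const (1 : ℝ)).mono (by fun_prop) (ae_of_all _ fun x => ?_)
    have : (w : ℂ) * x * Complex.I = ((w * x : ℝ) : ℂ) * Complex.I := by push_cast; ring
    rw [this, Complex.norm_exp_ofReal_mul_I]
    simp
  have hd := charFun_dirac (x := (0 : ℝ)) w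
  rw [charFun_apply_real] at hd
  have hcw := hc w
  rw [charFun_apply_real] at hcw
  rw [charFun_apply_real, integral_add_measure, integral_smul_measure, integral_smul_measure, hd, hcw]
  · rw [ENNReal.toReal_ofReal ha, ENNReal.toReal_ofReal (by linarith)]
    simp only [Complex.real_smul]
    push_cast
    simp
  · exact (hb _ inferInstance).smul_measure ENNReal.ofReal_ne_top
  · exact (hb _ inferInstance).smul_measure ENNReal.ofReal_ne_top

/-- finite products -/
private theorem sme_prod {p q : ℝ} (hp : 0 < p) (hpq : p ≤ q) (n : ℕ) : ∃ μ : ProbabilityMeasure ℝ,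
    ∀ w : ℝ, charFun (μ : Measure ℝ) w =
      ((∏ j ∈ Finset.range n, ((1 + p ^ 2 * w ^ 2 / ((j : ℝ) + 1) ^ 2) /
        (1 + q ^ 2 * w ^ 2 / ((j : ℝ) + 1) ^ 2)) : ℝ) : ℂ) := by
  have hq : 0 < q := hp.trans_le hpq
  induction n with
  | zero =>
    refine ⟨⟨Measure.dirac 0, inferInstance⟩, fun w => ?_⟩
    simp
  | succ n ih =>
    obtain ⟨μ, hμ⟩ := ih
    have ha1 : p ^ 2 / q ^ 2 ≤ 1 := by
      rw [div_le_one (by positivity)]
      exact pow_le_pow_left₀ hp.le hpq 2
    obtain ⟨ν, hν, hc⟩ := sme_mix (a := p ^ 2 / q ^ 2) (L := ((n : ℝ) + 1) / q) (by positivity) ha1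
      (by positivity)
    refine ⟨⟨(μ : Measure ℝ) ∗ ν, inferInstance⟩, fun w => ?_⟩
    simp only [ProbabilityMeasure.coe_mk]
    rw [charFun_conv, hμ, hc, Finset.prod_range_succ]
    rw [← Complex.ofReal_mul]
    congr 2
    have h1 : (1 + q ^ 2 * w ^ 2 / ((n : ℝ) + 1) ^ 2) ≠ 0 := by positivity
    have h2 : (((n : ℝ) + 1) / q) ^ 2 + w ^ 2 ≠ 0 := by positivity
    field_simp
    ring

/-- Euler product for `sinh` -/
private theorem sme_euler (x : ℝ) (hx : x ≠ 0) : Tendsto (fun n : ℕ => ∏ j ∈ Finset.range n,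
    (1 + x ^ 2 / ((j : ℝ) + 1) ^ 2)) atTop (𝓝 (Real.sinh (Real.pi * x) / (Real.pi * x))) := by
  have h := Complex.tendsto_euler_sin_prod ((x : ℂ) * Complex.I)
  have hz : (Real.pi : ℂ) * ((x : ℂ) * Complex.I) ≠ 0 := by
    refine mul_ne_zero (by exact_mod_cast Real.pi_ne_zero) (mul_ne_zero (by exact_mod_cast hx)
      Complex.I_ne_zero)
  have h1 := h.div_const ((Real.pi : ℂ) * ((x : ℂ) * Complex.I))
  have h2 : ∀ n : ℕ, (Real.pi : ℂ) * ((x : ℂ) * Complex.I) *
      (∏ j ∈ Finset.range n, ((1 : ℂ) - ((x : ℂ) * Complex.I) ^ 2 / ((j : ℂ) + 1) ^ 2)) /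
      ((Real.pi : ℂ) * ((x : ℂ) * Complex.I)) = ((∏ j ∈ Finset.range n,
        (1 + x ^ 2 / ((j : ℝ) + 1) ^ 2) : ℝ) : ℂ) := by
    intro n
    rw [mul_div_cancel_left₀ _ hz]
    push_cast
    refine Finset.prod_congr rfl fun j _ => ?_
    rw [mul_pow, Complex.I_sq]
    ring
  have h3 : Complex.sin ((Real.pi : ℂ) * ((x : ℂ) * Complex.I)) / ((Real.pi : ℂ) * ((x : ℂ) * Complex.I)) =
      ((Real.sinh (Real.pi * x) / (Real.pi * x) : ℝ) : ℂ) := by
    rw [← mul_assoc, Complex.sin_mul_I]
    push_cast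
    have h4 : (Real.pi : ℂ) * x ≠ 0 := mul_ne_zero (by exact_mod_cast Real.pi_ne_zero) (by exact_mod_cast hx)
    rw [mul_div_mul_right _ _ Complex.I_ne_zero]
  rw [h3] at h1
  have h5 : Tendsto (fun n : ℕ => ((∏ j ∈ Finset.range n,
        (1 + x ^ 2 / ((j : ℝ) + 1) ^ 2) : ℝ) : ℂ)) atTop
        (𝓝 ((Real.sinh (Real.pi * x) / (Real.pi * x) : ℝ) : ℂ)) := by
    refine h1.congr fun n => ?_
    exact h2 n
  exact_mod_cast (Complex.continuous_re.tendsto _).comp h5

theorem S_meas {p q : ℝ} (hp : 0 ≤ p) (hpq : p ≤ q) (hq : 0 < q) :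
    ∃ A : Measure ℝ, IsFiniteMeasure A ∧ ∀ w : ℝ, w ≠ 0 →
      charFun A w = ((Real.sinh (Real.pi * p * w) / Real.sinh (Real.pi * q * w) : ℝ) : ℂ) := by
  rcases hp.eq_or_lt with rfl | hp
  · exact ⟨0, inferInstance, fun w _ => by simp⟩
  choose μ hμ using fun n => sme_prod hp hpq n
  let F : ℝ → ℝ := fun w => dslope Real.sinh 0 (Real.pi * p * w) / dslope Real.sinh 0 (Real.pi * q * w)
  have hF0 : F 0 = 1 := by
    simp [F, dslope_same]
  have hF : ∀ w : ℝ, w ≠ 0 → F w = (Real.sinh (Real.pi * (p * w)) / (Real.pi * (p * w))) /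
      (Real.sinh (Real.pi * (q * w)) / (Real.pi * (q * w))) := by
    intro w hw
    have h1 : Real.pi * p * w ≠ 0 := mul_ne_zero (mul_ne_zero Real.pi_ne_zero hp.ne') hw
    have h2 : Real.pi * q * w ≠ 0 := mul_ne_zero (mul_ne_zero Real.pi_ne_zero hq.ne') hw
    simp only [F]
    rw [dslope_of_ne _ h1, dslope_of_ne _ h2, slope_def_field, slope_def_field]
    simp only [Real.sinh_zero, sub_zero, ← mul_assoc]
  have hcont : ContinuousAt F 0 := by
    have hd : ContinuousAt (dslope Real.sinh 0) 0 :=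
      continuousAt_dslope_same.mpr Real.differentiable_sinh.differentiableAt
    have h1 : ContinuousAt (fun w : ℝ => dslope Real.sinh 0 (Real.pi * p * w)) 0 := by
      refine ContinuousAt.comp (g := dslope Real.sinh 0) (f := fun w : ℝ => Real.pi * p * w) ?_ (by fun_prop)
      simp only [mul_zero]
      exact hd
    have h2 : ContinuousAt (fun w : ℝ => dslope Real.sinh 0 (Real.pi * q * w)) 0 := by
      refine ContinuousAt.comp (g := dslope Real.sinh 0) (f := fun w : ℝ => Real.pi * q * w) ?_ (by fun_prop)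
      simp only [mul_zero]
      exact hd
    refine h1.div h2 ?_
    simp [dslope_same]
  have hlim : ∀ w : ℝ, Tendsto (fun n => charFun ((μ n : ProbabilityMeasure ℝ) : Measure ℝ) w) atTop
      (𝓝 ((F w : ℝ) : ℂ)) := by
    intro w
    have h0 : (fun n => charFun ((μ n : ProbabilityMeasure ℝ) : Measure ℝ) w) = fun n =>
        (((∏ j ∈ Finset.range n, (1 + (p * w) ^ 2 / ((j : ℝ) + 1) ^ 2)) /
          (∏ j ∈ Finset.range n, (1 + (q * w) ^ 2 / ((j : ℝ) + 1) ^ 2)) : ℝ) : ℂ) := by
      funext n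
      rw [hμ, ← Finset.prod_div_distrib]
      simp only [mul_pow]
    rw [h0]
    by_cases hw : w = 0
    · subst hw
      simp [hF0]
    · rw [hF w hw]
      have hpw : p * w ≠ 0 := mul_ne_zero hp.ne' hw
      have hqw : q * w ≠ 0 := mul_ne_zero hq.ne' hw
      have h1 := sme_euler (p * w) hpw
      have h2 := sme_euler (q * w) hqw
      have h3 : Real.sinh (Real.pi * (q * w)) / (Real.pi * (q * w)) ≠ 0 :=
        div_ne_zero (fun h => (mul_ne_zero Real.pi_ne_zero hqw) (Real.sinh_eq_zero.mp h))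
          (mul_ne_zero Real.pi_ne_zero hqw)
      exact (Complex.continuous_ofReal.tendsto _).comp (h1.div h2 h3)
  have hcontC : ContinuousAt (fun w : ℝ => ((F w : ℝ) : ℂ)) 0 :=
    Complex.continuous_ofReal.continuousAt.comp hcont
  have htight : IsTightMeasureSet (Set.range fun n => ((μ n : ProbabilityMeasure ℝ) : Measure ℝ)) :=
    isTightMeasureSet_of_tendsto_charFun hcontC hlim
  have hcomp : IsCompact (closure {μ n | n}) := by
    refine isCompact_closure_of_isTightMeasureSet ?_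
    convert! htight using 1
    ext x
    simp
  have hU : (↑(hyperfilter ℕ) : Filter ℕ) ≤ atTop := by
    rw [← Nat.cofinite_eq_atTop]
    exact hyperfilter_le_cofinite
  obtain ⟨ν, -, hν : Tendsto _ _ _⟩ := hcomp.ultrafilter_le_nhds ((hyperfilter ℕ).map μ)
    (.trans (by simp) (monotone_principal subset_closure))
  have hchar : ∀ w : ℝ, charFun (ν : Measure ℝ) w = ((F w : ℝ) : ℂ) := by
    intro w
    have h1 : Tendsto (fun n => charFun ((μ n : ProbabilityMeasure ℝ) : Measure ℝ) w)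
        (hyperfilter ℕ : Filter ℕ) (𝓝 (charFun (ν : Measure ℝ) w)) := by
      have h2 : Tendsto μ (hyperfilter ℕ : Filter ℕ) (𝓝 ν) := hν
      rw [ProbabilityMeasure.tendsto_iff_forall_integral_rclike_tendsto ℂ] at h2
      simp_rw [charFun_eq_integral_innerProbChar]
      exact h2 (BoundedContinuousFunction.innerProbChar w)
    exact tendsto_nhds_unique h1 ((hlim w).mono_left hU)
  refine ⟨ENNReal.ofReal (p / q) • (ν : Measure ℝ),
    Measure.smul_finite _ ENNReal.ofReal_ne_top, fun w hw => ?_⟩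
  have h1 := hchar w
  rw [charFun_apply_real] at h1 ⊢
  rw [integral_smul_measure, h1, hF w hw, ENNReal.toReal_ofReal (by positivity), Complex.real_smul,
    ← Complex.ofReal_mul]
  congr 1
  have h3 : Real.sinh (Real.pi * (q * w)) ≠ 0 := fun h =>
    (mul_ne_zero Real.pi_ne_zero (mul_ne_zero hq.ne' hw)) (Real.sinh_eq_zero.mp h)
  have h4 := Real.pi_ne_zero
  rw [mul_assoc Real.pi p w, mul_assoc Real.pi q w]
  field_simp

end Pool.Agent.Lib.MP_8382de_an.ET
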