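import Pool.Agent.Lib.MP_8382de_an.ET.Defs

/-!
# ET.XCv: convexity in `β` and positivity of `EE`

For fixed `t > 0` the function `β ↦ XX β t = 1/(e^(t/β)-1)` is convex on `(0,∞)`: its derivative is
`(t/β²) e^(t/β)/(e^(t/β)-1)² = (1/t) ψ(t/β)`, `ψ(v) = v² e^v/(e^v-1)² = ((v/2)/sinh(v/2))²`, and
`v ↦ sinh(v/2)/(v/2)` is increasing, so `ψ` is decreasing in `v` and the derivative is increasing in
`β` (`MonotoneOn.convexOn_of_deriv`). (Monotonicity of `sinh x / x`: `sinh` is convex on `[0,∞)` with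
`sinh 0 = 0`, slope monotone; or `x cosh x ≥ sinh x`.)
Hence for `0 < β ≤ γ`, `0 ≤ h`: `XX (β+h) - XX β ≤ XX (γ+h) - XX γ`.
`EE = [XX (m+1+e) - XX (m+1) - (XX (2e) - XX e)] + [XX (m+1) - XX m - (XX 2 - XX 1)]`, first bracket
`≥ 0` as `e ≤ m+1` (step `e`), second as `1 ≤ m` (step `1`).
-/

set_option autoImplicit false

namespace Pool.Agent.Lib.MP_8382de_an.ET

open Set

/-- `sinh x ≤ x cosh x` -/
private theorem XCv_sinh_le {x : ℝ} (hx : 0 ≤ x) : Real.sinh x ≤ x * Real.cosh x := by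
  have hmono : MonotoneOn (fun x : ℝ => x * Real.cosh x - Real.sinh x) (Ici 0) := by
    refine monotoneOn_of_deriv_nonneg (convex_Ici 0) (by fun_prop) (by fun_prop) ?_
    intro y hy
    rw [interior_Ici] at hy
    have hd : HasDerivAt (fun x : ℝ => x * Real.cosh x - Real.sinh x)
        ((1 * Real.cosh y + y * Real.sinh y) - Real.cosh y) y :=
      ((hasDerivAt_id y).mul (Real.hasDerivAt_cosh y)).sub (Real.hasDerivAt_sinh y)
    rw [hd.deriv]
    have h1 : 0 ≤ Real.sinh y := Real.sinh_nonneg_iff.2 (le_of_lt hy)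
    have h2 : 0 ≤ y * Real.sinh y := mul_nonneg (le_of_lt hy) h1
    linarith
  have h := hmono (mem_Ici.2 le_rfl) (mem_Ici.2 hx) hx
  simp only [Real.sinh_zero, zero_mul, sub_zero] at h
  linarith

/-- the derivative of `XX` in the first variable -/
private noncomputable def XCv_D (t β : ℝ) : ℝ :=
  (t / β ^ 2) * Real.exp (t / β) / (Real.exp (t / β) - 1) ^ 2

private theorem XCv_hasDeriv {t : ℝ} (ht : 0 < t) {β : ℝ} (hβ : 0 < β) :
    HasDerivAt (fun b : ℝ => XX b t) (XCv_D t β) β := by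
  have h0 : 0 < t / β := div_pos ht hβ
  have h1 : 0 < Real.exp (t / β) - 1 := by
    have := Real.add_one_lt_exp h0.ne'
    linarith
  have h2 : HasDerivAt (fun b : ℝ => t / b) (-t / β ^ 2) β := by
    have h := (hasDerivAt_inv hβ.ne').const_mul t
    have e : t * (-(β ^ 2)⁻¹) = -t / β ^ 2 := by field_simp
    rw [e] at h
    exact h
  have h3 := ((h2.exp).sub_const 1).inv h1.ne'
  have e : -(Real.exp (t / β) * (-t / β ^ 2)) / (Real.exp (t / β) - 1) ^ 2 = XCv_D t β := by
    unfold XCv_D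
    ring
  rw [e] at h3
  refine h3.congr_of_eventuallyEq ?_
  filter_upwards with b
  unfold XX
  rw [one_div]
  rfl

/-- `D = (1/t) ((v/2)/sinh(v/2))²`, `v = t/β` -/
private theorem XCv_D_eq {t : ℝ} (ht : 0 < t) {β : ℝ} (hβ : 0 < β) :
    XCv_D t β = (1 / t) * ((t / β / 2) / Real.sinh (t / β / 2)) ^ 2 := by
  have h0 : 0 < t / β := div_pos ht hβ
  have h1 : 0 < Real.exp (t / β) - 1 := by
    have := Real.add_one_lt_exp h0.ne'
    linarith
  have h2 : 0 < Real.sinh (t / β / 2) := Real.sinh_pos_iff.2 (by positivity)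
  have h3 : (2 * Real.sinh (t / β / 2)) ^ 2 * Real.exp (t / β) = (Real.exp (t / β) - 1) ^ 2 := by
    have e1 : Real.exp (t / β) = Real.exp (t / β / 2) ^ 2 := by
      rw [← Real.exp_nat_mul]; congr 1; push_cast; ring
    have e2 : Real.exp (-(t / β / 2)) * Real.exp (t / β / 2) = 1 := by
      rw [← Real.exp_add]; simp
    rw [Real.sinh_eq, e1]
    have : (2 * ((Real.exp (t / β / 2) - Real.exp (-(t / β / 2))) / 2)) ^ 2 *
        Real.exp (t / β / 2) ^ 2 = (Real.exp (t / β / 2) ^ 2 -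
          Real.exp (-(t / β / 2)) * Real.exp (t / β / 2)) ^ 2 := by ring
    rw [this, e2]
  unfold XCv_D
  rw [← h3]
  have h4 := Real.exp_pos (t / β)
  field_simp

private theorem XCv_D_mono {t : ℝ} (ht : 0 < t) {β γ : ℝ} (hβ : 0 < β) (h : β ≤ γ) :
    XCv_D t β ≤ XCv_D t γ := by
  have hγ : 0 < γ := hβ.trans_le h
  rw [XCv_D_eq ht hβ, XCv_D_eq ht hγ]
  have hmono : MonotoneOn (fun x : ℝ => Real.sinh x / x) (Ioi 0) := by
    refine monotoneOn_of_deriv_nonneg (convex_Ioi 0) ?_ ?_ ?_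
    · exact Real.continuous_sinh.continuousOn.div continuousOn_id (fun x hx => ne_of_gt hx)
    · rw [interior_Ioi]
      exact Real.differentiable_sinh.differentiableOn.div differentiableOn_id
        (fun x hx => ne_of_gt hx)
    · intro x hx
      rw [interior_Ioi] at hx
      have hx' : 0 < x := hx
      have hd : HasDerivAt (fun x : ℝ => Real.sinh x / x)
          ((Real.cosh x * x - Real.sinh x * 1) / x ^ 2) x :=
        (Real.hasDerivAt_sinh x).div (hasDerivAt_id x) hx'.ne'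
      rw [hd.deriv]
      have := XCv_sinh_le hx'.le
      apply div_nonneg _ (by positivity)
      nlinarith
  have hx1 : 0 < t / γ / 2 := by positivity
  have hx2 : 0 < t / β / 2 := by positivity
  have hle : t / γ / 2 ≤ t / β / 2 := by gcongr
  have h1 := hmono (mem_Ioi.2 hx1) (mem_Ioi.2 hx2) hle
  simp only at h1
  have hs1 : 0 < Real.sinh (t / γ / 2) := Real.sinh_pos_iff.2 hx1
  have hs2 : 0 < Real.sinh (t / β / 2) := Real.sinh_pos_iff.2 hx2
  have h2 : (t / β / 2) / Real.sinh (t / β / 2) ≤ (t / γ / 2) / Real.sinh (t / γ / 2) := by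
    rw [div_le_div_iff₀ hs2 hs1]
    rw [div_le_div_iff₀ hx1 hx2] at h1
    linarith
  have h3 : 0 ≤ (t / β / 2) / Real.sinh (t / β / 2) := by positivity
  gcongr

theorem XX_step {t : ℝ} (ht : 0 < t) {β γ h : ℝ} (hβ : 0 < β) (hβγ : β ≤ γ) (hh : 0 ≤ h) :
    XX (β + h) t - XX β t ≤ XX (γ + h) t - XX γ t := by
  -- `x ↦ XX (x + h) t - XX x t` is monotone
  have hmono : MonotoneOn (fun x : ℝ => XX (x + h) t - XX x t) (Ioi 0) := by
    have hd : ∀ x : ℝ, 0 < x → HasDerivAt (fun x : ℝ => XX (x + h) t - XX x t)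
        (XCv_D t (x + h) - XCv_D t x) x := by
      intro x hx
      have h1 : HasDerivAt (fun x : ℝ => XX (x + h) t) (XCv_D t (x + h)) x :=
        (XCv_hasDeriv ht (by linarith : 0 < x + h)).comp_add_const x h
      exact h1.sub (XCv_hasDeriv ht hx)
    refine monotoneOn_of_deriv_nonneg (convex_Ioi 0) ?_ ?_ ?_
    · intro x hx
      exact (hd x hx).continuousAt.continuousWithinAt
    · rw [interior_Ioi]
      intro x hx
      exact (hd x hx).differentiableAt.differentiableWithinAt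
    · intro x hx
      rw [interior_Ioi] at hx
      rw [(hd x hx).deriv]
      have := XCv_D_mono ht (hx : 0 < x) (by linarith : x ≤ x + h)
      linarith
  exact hmono (mem_Ioi.2 hβ) (mem_Ioi.2 (hβ.trans_le hβγ)) hβγ

theorem EE_nonneg {m e t : ℝ} (hm : 1 ≤ m) (he : 0 < e) (hem : e ≤ m + 1) (ht : 0 < t) :
    0 ≤ EE m e t := by
  have h1 := XX_step ht he hem he.le
  have h2 := XX_step ht (by norm_num : (0:ℝ) < 1) hm (by norm_num : (0:ℝ) ≤ 1)
  have e1 : e + e = 2 * e := by ring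
  have e2 : (1 : ℝ) + 1 = 2 := by norm_num
  rw [e1] at h1
  rw [e2] at h2
  unfold EE
  linarith

end Pool.Agent.Lib.MP_8382de_an.ET
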